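import Pool.Agent.S7Pair.J1a

/-! # Module ALG: algebraic identities between the basic functions on `M7` -/

open scoped ContDiff Topology
open VectorField Set Filter

noncomputable section

namespace S7Pair

lemma M7_b {p : E7} (hp : p ∈ M7) : p.1.1 ^ 2 + p.1.2.1 ^ 2 + p.1.2.2 ^ 2 = 1 := by
  have := hp.1; unfold dot3 at this; linarith

lemma M7_w {p : E7} (hp : p ∈ M7) :
    p.2.1 ^ 2 + p.2.2.1 ^ 2 + p.2.2.2.1 ^ 2 + p.2.2.2.2 ^ 2 = 1 := by
  have := hp.2; unfold dot4 at this; linarith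

lemma sqrt2_eq : √2 = 2 * sa := by unfold sa; ring

lemma s2n_pos {p : E7} (hp : p ∈ M7) : 0 < √(2 * nn p) := by
  have := nn_pos hp; positivity

lemma s2n_sq {p : E7} (hp : p ∈ M7) : √(2 * nn p) ^ 2 = 2 * nn p :=
  Real.sq_sqrt (by have := nn_pos hp; positivity)

/-- `|w|² + m² + q² = 2` -/
lemma alg_hyp {p : E7} (hp : p ∈ M7) : w1 p ^ 2 + w2 p ^ 2 + mm p ^ 2 + qq p ^ 2 = 2 := by
  have h1 := s2n_pos hp
  have h2 := s2n_sq hp
  have h3 := M7_b hp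
  have h4 := sa_sq
  simp only [w1, w2, mm, qq, div_pow, sqrt2_eq]
  rw [h2]
  have h5 := nn_pos hp
  have h6 : nn p = 1 + p.2.1 ^ 2 + sa * (1 - p.2.1 ^ 2) * p.1.1 := rfl
  field_simp
  rw [h6]
  linear_combination (4 * sa ^ 2 * (1 + p.2.1) ^ 2) * h3 + (4 * (1 + p.2.1) ^ 2) * h4

lemma alg_t1 {p : E7} (hp : p ∈ M7) : t1 p = qq p * w1 p := by
  have h1 := s2n_pos hp
  have h2 := s2n_sq hp
  have h5 := nn_pos hp
  have h6 : nn p = 1 + p.2.1 ^ 2 + sa * (1 - p.2.1 ^ 2) * p.1.1 := rfl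
  have h7 : qq p * w1 p = (1 - p.2.1) * ((1 - p.2.1) + 2 * sa * (1 + p.2.1) * p.1.1) / (2 * nn p) := by
    simp only [qq, w1, sqrt2_eq]
    rw [div_mul_div_comm, ← pow_two, h2]
  rw [h7, t1]
  field_simp
  rw [h6]; ring

lemma alg_t2 {p : E7} (hp : p ∈ M7) : t2 p = qq p * w2 p := by
  have h1 := s2n_pos hp
  have h2 := s2n_sq hp
  have h5 := nn_pos hp
  have h7 : qq p * w2 p = (1 - p.2.1) * (2 * sa * (1 + p.2.1) * p.1.2.1) / (2 * nn p) := by
    simp only [qq, w2, sqrt2_eq]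
    rw [div_mul_div_comm, ← pow_two, h2]
  rw [h7, t2]
  field_simp
  ring

lemma alg_t3 {p : E7} (hp : p ∈ M7) : t3 p = 1 - qq p ^ 2 := by
  have h2 := s2n_sq hp
  rw [t3, qq, div_pow, h2]

lemma alg_t4 {p : E7} (hp : p ∈ M7) : t4 p = qq p * mm p := by
  have h1 := s2n_pos hp
  have h2 := s2n_sq hp
  have h5 := nn_pos hp
  have h7 : qq p * mm p = (1 - p.2.1) * (2 * sa * (1 + p.2.1) * p.1.2.2) / (2 * nn p) := by
    simp only [qq, mm, sqrt2_eq]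
    rw [div_mul_div_comm, ← pow_two, h2]
  rw [h7, t4]
  field_simp
  ring

/-- `1 - t1 = (1+τ)²/(2n)` -/
lemma alg_one {p : E7} (hp : p ∈ M7) : (1 + p.2.1) ^ 2 / (2 * nn p) = 1 - qq p * w1 p := by
  have := alg_t1 hp
  rw [t1] at this
  linarith

lemma alg_sphere {p : E7} (hp : p ∈ M7) : t1 p ^ 2 + t2 p ^ 2 + t3 p ^ 2 + t4 p ^ 2 = 1 := by
  rw [alg_t1 hp, alg_t2 hp, alg_t3 hp, alg_t4 hp]
  linear_combination (qq p ^ 2) * alg_hyp hp

lemma qq_nonneg {p : E7} (hp : p ∈ M7) : 0 ≤ qq p := by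
  have h1 := (tau_le hp).2
  have h2 := s2n_pos hp
  unfold qq
  apply div_nonneg <;> linarith

/-- in the chart region the point `p₁` is avoided. -/
lemma tau_gt {p : E7} (hp : p ∈ M7) (hw : ww p < 1 / 8) : -1 < p.2.1 := by
  have h1 := (tau_le hp).1
  rcases h1.lt_or_eq with h | h
  · exact h
  · exfalso
    have h2 : nn p = 2 := by
      unfold nn; rw [← h]; norm_num
    have h3 : w1 p = 1 := by
      unfold w1
      rw [h2, ← h, show (2 : ℝ) * 2 = 2 ^ 2 by norm_num, Real.sqrt_sq (by norm_num)]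
      norm_num
    unfold ww at hw
    rw [h3] at hw
    nlinarith [sq_nonneg (w2 p)]

lemma t12_le {p : E7} (hp : p ∈ M7) (hw : ww p < 1 / 8) : t1 p ^ 2 + t2 p ^ 2 ≤ 1 / 4 := by
  rw [alg_t1 hp, alg_t2 hp]
  have h := alg_hyp hp
  unfold ww at hw
  have h1 : qq p ^ 2 ≤ 2 := by nlinarith [sq_nonneg (w1 p), sq_nonneg (w2 p), sq_nonneg (mm p)]
  nlinarith [sq_nonneg (qq p), mul_nonneg (sq_nonneg (qq p)) (sub_nonneg.2 hw.le)]

/-- the cut-offs in the chart region. -/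
lemma cut_chart {p : E7} (hp : p ∈ M7) (hw : ww p < 1 / 8) :
    sm (4 * t1 p - 2) = 0 ∧ mu (t3 p ^ 2 + t4 p ^ 2) = 1 ∧ mu (t1 p ^ 2 + t2 p ^ 2) = 0 := by
  have h := t12_le hp hw
  have h1 := alg_sphere hp
  refine ⟨?_, ?_, ?_⟩
  · apply Real.smoothTransition.zero_of_nonpos
    nlinarith [sq_nonneg (t2 p), sq_nonneg (t1 p - 1 / 2)]
  · apply Real.smoothTransition.one_of_one_le
    linarith
  · apply Real.smoothTransition.zero_of_nonpos
    linarith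

theorem ww_disj : ∀ p ∈ M7, ¬(ww p < 1 / 8 ∧ ww (sg p) < 1 / 8) := by
  rintro p hp ⟨h1, h2⟩
  have h3 := t12_le hp h1
  have h4 := t12_le (sg_mem hp) h2
  rw [t1_sg, t2_sg] at h4
  have := alg_sphere hp
  linarith

end S7Pair
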