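import Pool.Agent.S7Pair.Gen

/-! # Module HOM: homogeneous extension of fields on S^2 x S^3 -/

open scoped ContDiff Topology
open VectorField Set Filter

noncomputable section

namespace S7Pair

lemma Hom_n3_sq (b : R3) : n3 b ^ 2 = b.1 ^ 2 + b.2.1 ^ 2 + b.2.2 ^ 2 :=
  Real.sq_sqrt (by positivity)

lemma Hom_n4_sq (w : R4) : n4 w ^ 2 = w.1 ^ 2 + w.2.1 ^ 2 + w.2.2.1 ^ 2 + w.2.2.2 ^ 2 :=
  Real.sq_sqrt (by positivity)

lemma Hom_n3_pos {b : R3} (hb : b ≠ 0) : 0 < n3 b := by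
  apply Real.sqrt_pos.2
  by_contra hc
  apply hb
  have h1 : b.1 = 0 := by nlinarith [sq_nonneg b.1, sq_nonneg b.2.1, sq_nonneg b.2.2]
  have h2 : b.2.1 = 0 := by nlinarith [sq_nonneg b.1, sq_nonneg b.2.1, sq_nonneg b.2.2]
  have h3 : b.2.2 = 0 := by nlinarith [sq_nonneg b.1, sq_nonneg b.2.1, sq_nonneg b.2.2]
  exact Prod.ext h1 (Prod.ext h2 h3)

lemma Hom_n4_pos {w : R4} (hw : w ≠ 0) : 0 < n4 w := by
  apply Real.sqrt_pos.2
  by_contra hc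
  apply hw
  have h1 : w.1 = 0 := by
    nlinarith [sq_nonneg w.1, sq_nonneg w.2.1, sq_nonneg w.2.2.1, sq_nonneg w.2.2.2]
  have h2 : w.2.1 = 0 := by
    nlinarith [sq_nonneg w.1, sq_nonneg w.2.1, sq_nonneg w.2.2.1, sq_nonneg w.2.2.2]
  have h3 : w.2.2.1 = 0 := by
    nlinarith [sq_nonneg w.1, sq_nonneg w.2.1, sq_nonneg w.2.2.1, sq_nonneg w.2.2.2]
  have h4 : w.2.2.2 = 0 := by
    nlinarith [sq_nonneg w.1, sq_nonneg w.2.1, sq_nonneg w.2.2.1, sq_nonneg w.2.2.2]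
  exact Prod.ext h1 (Prod.ext h2 (Prod.ext h3 h4))

lemma Hom_n3_smul (c : ℝ) (b : R3) : n3 (c • b) = |c| * n3 b := by
  unfold n3
  rw [← Real.sqrt_sq_eq_abs, ← Real.sqrt_mul (sq_nonneg c)]
  congr 1
  simp
  ring

lemma Hom_n4_smul (c : ℝ) (b : R4) : n4 (c • b) = |c| * n4 b := by
  unfold n4
  rw [← Real.sqrt_sq_eq_abs, ← Real.sqrt_mul (sq_nonneg c)]
  congr 1
  simp
  ring

lemma Hom_n3_one {p : E7} (hp : p ∈ M7) : n3 p.1 = 1 := by
  have h : p.1.1 ^ 2 + p.1.2.1 ^ 2 + p.1.2.2 ^ 2 = 1 := by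
    have := hp.1; unfold dot3 at this; linarith
  unfold n3; rw [h, Real.sqrt_one]

lemma Hom_n4_one {p : E7} (hp : p ∈ M7) : n4 p.2 = 1 := by
  have h : p.2.1 ^ 2 + p.2.2.1 ^ 2 + p.2.2.2.1 ^ 2 + p.2.2.2.2 ^ 2 = 1 := by
    have := hp.2; unfold dot4 at this; linarith
  unfold n4; rw [h, Real.sqrt_one]

lemma pr_mem {P : E7} (hP : P ∈ O7) : pr P ∈ M7 := by
  have h3 := Hom_n3_pos hP.1
  have h4 := Hom_n4_pos hP.2
  constructor
  · have h := Hom_n3_sq P.1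
    have e : dot3 (pr P).1 (pr P).1 = (n3 P.1)⁻¹ ^ 2 * n3 P.1 ^ 2 := by
      rw [h]; simp only [pr, dot3, Prod.smul_fst, Prod.smul_snd, smul_eq_mul]; ring
    rw [e]; field_simp
  · have h := Hom_n4_sq P.2
    have e : dot4 (pr P).2 (pr P).2 = (n4 P.2)⁻¹ ^ 2 * n4 P.2 ^ 2 := by
      rw [h]; simp only [pr, dot4, Prod.smul_fst, Prod.smul_snd, smul_eq_mul]; ring
    rw [e]; field_simp

lemma O7_open : IsOpen O7 := by
  have h1 : IsOpen {P : E7 | P.1 ≠ 0} := isOpen_ne.preimage continuous_fst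
  have h2 : IsOpen {P : E7 | P.2 ≠ 0} := isOpen_ne.preimage continuous_snd
  exact h1.inter h2

lemma M7_sub : M7 ⊆ O7 := by
  intro p hp
  constructor
  · intro h
    have := hp.1
    rw [h] at this
    simp [dot3] at this
  · intro h
    have := hp.2
    rw [h] at this
    simp [dot4] at this

lemma pr_of_mem {p : E7} (hp : p ∈ M7) : pr p = p := by
  unfold pr
  rw [Hom_n3_one hp, Hom_n4_one hp]
  simp

lemma Hom_n3_smooth {b : R3} (hb : b ≠ 0) : ContDiffAt ℝ ∞ n3 b := by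
  have h0 : b.1 ^ 2 + b.2.1 ^ 2 + b.2.2 ^ 2 ≠ 0 := by
    have := Hom_n3_pos hb
    rw [← Hom_n3_sq]; positivity
  have h1 : ContDiffAt ℝ ∞ (fun b : R3 => b.1 ^ 2 + b.2.1 ^ 2 + b.2.2 ^ 2) b := by fun_prop
  exact h1.sqrt h0

lemma Hom_n4_smooth {b : R4} (hb : b ≠ 0) : ContDiffAt ℝ ∞ n4 b := by
  have h0 : b.1 ^ 2 + b.2.1 ^ 2 + b.2.2.1 ^ 2 + b.2.2.2 ^ 2 ≠ 0 := by
    have := Hom_n4_pos hb
    rw [← Hom_n4_sq]; positivity
  have h1 : ContDiffAt ℝ ∞ (fun b : R4 => b.1 ^ 2 + b.2.1 ^ 2 + b.2.2.1 ^ 2 + b.2.2.2 ^ 2) b := by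
    fun_prop
  exact h1.sqrt h0

lemma Hom_n3_smooth' {P : E7} (hP : P ∈ O7) : ContDiffAt ℝ ∞ (fun P : E7 => n3 P.1) P :=
  (Hom_n3_smooth hP.1).comp P contDiffAt_fst

lemma Hom_n4_smooth' {P : E7} (hP : P ∈ O7) : ContDiffAt ℝ ∞ (fun P : E7 => n4 P.2) P :=
  (Hom_n4_smooth hP.2).comp P contDiffAt_snd

lemma pr_smooth : ContDiffOn ℝ ∞ pr O7 := by
  intro P hP
  apply ContDiffAt.contDiffWithinAt
  have h1 : ContDiffAt ℝ ∞ (fun P : E7 => (n3 P.1)⁻¹ • P.1) P :=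
    ((Hom_n3_smooth' hP).inv (Hom_n3_pos hP.1).ne').smul contDiffAt_fst
  have h2 : ContDiffAt ℝ ∞ (fun P : E7 => (n4 P.2)⁻¹ • P.2) P :=
    ((Hom_n4_smooth' hP).inv (Hom_n4_pos hP.2).ne').smul contDiffAt_snd
  exact h1.prodMk h2

lemma Hom_n3_deriv {b : R3} (hb : b ≠ 0) :
    ∃ L : R3 →L[ℝ] ℝ, HasFDerivAt n3 L b ∧ ∀ v, n3 b * L v = dot3 b v := by
  have hn := Hom_n3_pos hb
  have hd : HasFDerivAt n3 (fderiv ℝ n3 b) b :=
    ((Hom_n3_smooth hb).differentiableAt (by simp)).hasFDerivAt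
  refine ⟨fderiv ℝ n3 b, hd, fun v => ?_⟩
  have h1 : HasFDerivAt (fun b : R3 => n3 b ^ 2) ((2 * n3 b) • fderiv ℝ n3 b) b := by
    have h := hd.mul hd
    have e : (fun b : R3 => n3 b ^ 2) = fun b => n3 b * n3 b := by ext b; ring
    rw [e]
    refine h.congr_fderiv ?_
    ext <;> simp <;> ring
  have e1 : HasFDerivAt (fun b : R3 => b.1) (ContinuousLinearMap.fst ℝ ℝ (ℝ × ℝ)) b :=
    hasFDerivAt_fst
  have e2 : HasFDerivAt (fun b : R3 => b.2.1)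
      ((ContinuousLinearMap.fst ℝ ℝ ℝ).comp (ContinuousLinearMap.snd ℝ ℝ (ℝ × ℝ))) b :=
    hasFDerivAt_fst.comp b hasFDerivAt_snd
  have e3 : HasFDerivAt (fun b : R3 => b.2.2)
      ((ContinuousLinearMap.snd ℝ ℝ ℝ).comp (ContinuousLinearMap.snd ℝ ℝ (ℝ × ℝ))) b :=
    hasFDerivAt_snd.comp b hasFDerivAt_snd
  have h2 := ((e1.mul e1).add (e2.mul e2)).add (e3.mul e3)
  have e : (fun b : R3 => n3 b ^ 2) = (((fun b : R3 => b.1) * fun b => b.1) +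
      (fun b : R3 => b.2.1) * fun b => b.2.1) + (fun b : R3 => b.2.2) * fun b => b.2.2 := by
    ext b
    rw [Hom_n3_sq]
    simp
    ring
  rw [e] at h1
  have h3 := h1.unique h2
  have h4 := congrArg (fun L : R3 →L[ℝ] ℝ => L v) h3
  simp at h4
  unfold dot3
  linarith

lemma Hom_n4_deriv {b : R4} (hb : b ≠ 0) :
    ∃ L : R4 →L[ℝ] ℝ, HasFDerivAt n4 L b ∧ ∀ v, n4 b * L v = dot4 b v := by
  have hn := Hom_n4_pos hb
  have hd : HasFDerivAt n4 (fderiv ℝ n4 b) b :=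
    ((Hom_n4_smooth hb).differentiableAt (by simp)).hasFDerivAt
  refine ⟨fderiv ℝ n4 b, hd, fun v => ?_⟩
  have h1 : HasFDerivAt (fun b : R4 => n4 b ^ 2) ((2 * n4 b) • fderiv ℝ n4 b) b := by
    have h := hd.mul hd
    have e : (fun b : R4 => n4 b ^ 2) = fun b => n4 b * n4 b := by ext b; ring
    rw [e]
    refine h.congr_fderiv ?_
    ext <;> simp <;> ring
  have e1 : HasFDerivAt (fun b : R4 => b.1) (ContinuousLinearMap.fst ℝ ℝ (ℝ × ℝ × ℝ)) b :=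
    hasFDerivAt_fst
  have e2 : HasFDerivAt (fun b : R4 => b.2.1)
      ((ContinuousLinearMap.fst ℝ ℝ (ℝ × ℝ)).comp (ContinuousLinearMap.snd ℝ ℝ (ℝ × ℝ × ℝ))) b :=
    hasFDerivAt_fst.comp b hasFDerivAt_snd
  have e3 : HasFDerivAt (fun b : R4 => b.2.2.1)
      ((ContinuousLinearMap.fst ℝ ℝ ℝ).comp ((ContinuousLinearMap.snd ℝ ℝ (ℝ × ℝ)).comp
        (ContinuousLinearMap.snd ℝ ℝ (ℝ × ℝ × ℝ)))) b :=
    hasFDerivAt_fst.comp b (hasFDerivAt_snd.comp b hasFDerivAt_snd)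
  have e4 : HasFDerivAt (fun b : R4 => b.2.2.2)
      ((ContinuousLinearMap.snd ℝ ℝ ℝ).comp ((ContinuousLinearMap.snd ℝ ℝ (ℝ × ℝ)).comp
        (ContinuousLinearMap.snd ℝ ℝ (ℝ × ℝ × ℝ)))) b :=
    hasFDerivAt_snd.comp b (hasFDerivAt_snd.comp b hasFDerivAt_snd)
  have h2 := (((e1.mul e1).add (e2.mul e2)).add (e3.mul e3)).add (e4.mul e4)
  have e : (fun b : R4 => n4 b ^ 2) = ((((fun b : R4 => b.1) * fun b => b.1) +
      (fun b : R4 => b.2.1) * fun b => b.2.1) + (fun b : R4 => b.2.2.1) * fun b => b.2.2.1) +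
      (fun b : R4 => b.2.2.2) * fun b => b.2.2.2 := by
    ext b
    rw [Hom_n4_sq]
    simp
    ring
  rw [e] at h1
  have h3 := h1.unique h2
  have h4 := congrArg (fun L : R4 →L[ℝ] ℝ => L v) h3
  simp at h4
  unfold dot4
  linarith

/-- along a vector tangent to the spheres the radii are constant. -/
lemma Hom_n3_fd {P V : E7} (hP : P ∈ O7) (hV : dot3 (pr P).1 V.1 = 0) :
    ∃ L : E7 →L[ℝ] ℝ, HasFDerivAt (fun P : E7 => n3 P.1) L P ∧ L (sc P V) = 0 := by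
  obtain ⟨L, hL, hv⟩ := Hom_n3_deriv hP.1
  have hn := Hom_n3_pos hP.1
  refine ⟨L.comp (ContinuousLinearMap.fst ℝ R3 R4), hL.comp P hasFDerivAt_fst, ?_⟩
  have h1 : dot3 P.1 V.1 = 0 := by
    have e : dot3 (pr P).1 V.1 = (n3 P.1)⁻¹ * dot3 P.1 V.1 := by
      simp only [pr, dot3, Prod.smul_fst, Prod.smul_snd, smul_eq_mul]; ring
    rw [e] at hV
    exact (mul_eq_zero.1 hV).resolve_left (inv_ne_zero hn.ne')
  have h2 := hv V.1
  rw [h1] at h2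
  have h3 : L V.1 = 0 := (mul_eq_zero.1 h2).resolve_left hn.ne'
  simp [sc, h3]

lemma Hom_n4_fd {P V : E7} (hP : P ∈ O7) (hV : dot4 (pr P).2 V.2 = 0) :
    ∃ L : E7 →L[ℝ] ℝ, HasFDerivAt (fun P : E7 => n4 P.2) L P ∧ L (sc P V) = 0 := by
  obtain ⟨L, hL, hv⟩ := Hom_n4_deriv hP.2
  have hn := Hom_n4_pos hP.2
  refine ⟨L.comp (ContinuousLinearMap.snd ℝ R3 R4), hL.comp P hasFDerivAt_snd, ?_⟩
  have h1 : dot4 P.2 V.2 = 0 := by
    have e : dot4 (pr P).2 V.2 = (n4 P.2)⁻¹ * dot4 P.2 V.2 := by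
      simp only [pr, dot4, Prod.smul_fst, Prod.smul_snd, smul_eq_mul]; ring
    rw [e] at hV
    exact (mul_eq_zero.1 hV).resolve_left (inv_ne_zero hn.ne')
  have h2 := hv V.2
  rw [h1] at h2
  have h3 : L V.2 = 0 := (mul_eq_zero.1 h2).resolve_left hn.ne'
  simp [sc, h3]

/-- along a vector tangent to the spheres the radii are constant, so `pr` just rescales. -/
lemma fderiv_pr {P V : E7} (hP : P ∈ O7) (hV : Tan (pr P) V) : fderiv ℝ pr P (sc P V) = V := by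
  obtain ⟨L, hL, hLv⟩ := Hom_n3_fd hP hV.1
  obtain ⟨L', hL', hLv'⟩ := Hom_n4_fd hP hV.2
  have hn := Hom_n3_pos hP.1
  have hn' := Hom_n4_pos hP.2
  have h1 : HasFDerivAt (fun P : E7 => (n3 P.1)⁻¹) (-(n3 P.1 ^ 2)⁻¹ • L) P := by
    have := (hasDerivAt_inv hn.ne').comp_hasFDerivAt P hL
    exact this
  have h2 : HasFDerivAt (fun P : E7 => (n4 P.2)⁻¹) (-(n4 P.2 ^ 2)⁻¹ • L') P := by
    have := (hasDerivAt_inv hn'.ne').comp_hasFDerivAt P hL'
    exact this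
  have h3 := h1.smul (hasFDerivAt_fst (𝕜 := ℝ) (p := P))
  have h4 := h2.smul (hasFDerivAt_snd (𝕜 := ℝ) (p := P))
  have h5 := h3.prodMk h4
  have h6 : fderiv ℝ pr P = _ := h5.fderiv
  rw [h6]
  simp only [ContinuousLinearMap.prod_apply, add_apply,
    smul_apply, ContinuousLinearMap.smulRight_apply, hLv, hLv', smul_zero,
    zero_smul, add_zero]
  ext <;> simp [sc] <;> field_simp

lemma hom_tan {f : E7 → E7} {P : E7} (hP : P ∈ O7) (h : Tan (pr P) (f (pr P))) :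
    Tan P (hom f P) := by
  have hn := Hom_n3_pos hP.1
  have hn' := Hom_n4_pos hP.2
  constructor
  · have e : dot3 P.1 (hom f P).1 = n3 P.1 ^ 2 * dot3 (pr P).1 (f (pr P)).1 := by
      simp only [hom, sc, pr, dot3, Prod.smul_fst, Prod.smul_snd, smul_eq_mul]
      field_simp
    rw [e, h.1, mul_zero]
  · have e : dot4 P.2 (hom f P).2 = n4 P.2 ^ 2 * dot4 (pr P).2 (f (pr P)).2 := by
      simp only [hom, sc, pr, dot4, Prod.smul_fst, Prod.smul_snd, smul_eq_mul]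
      field_simp
    rw [e, h.2, mul_zero]

lemma hom_ind {f g : E7 → E7} {P : E7} (hP : P ∈ O7) (h : Ind (f (pr P)) (g (pr P))) :
    Ind (hom f P) (hom g P) := by
  have hn := Hom_n3_pos hP.1
  have hn' := Hom_n4_pos hP.2
  intro a b hab
  apply h a b
  have h1 : n3 P.1 • (a • (f (pr P)).1 + b • (g (pr P)).1) = 0 := by
    have := congrArg Prod.fst hab
    simp only [hom, sc, Prod.smul_mk, Prod.mk_add_mk, Prod.fst_zero] at this
    rw [smul_add, smul_comm (n3 P.1) a, smul_comm (n3 P.1) b]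
    exact this
  have h2 : n4 P.2 • (a • (f (pr P)).2 + b • (g (pr P)).2) = 0 := by
    have := congrArg Prod.snd hab
    simp only [hom, sc, Prod.smul_mk, Prod.mk_add_mk, Prod.snd_zero] at this
    rw [smul_add, smul_comm (n4 P.2) a, smul_comm (n4 P.2) b]
    exact this
  exact Prod.ext ((smul_eq_zero.1 h1).resolve_left hn.ne') ((smul_eq_zero.1 h2).resolve_left hn'.ne')

lemma hom_scale (f : E7 → E7) {P : E7} (hP : P ∈ O7) {c : ℝ} (hc : 0 < c) :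
    hom f (c • P.1, P.2) = (c • (hom f P).1, (hom f P).2) := by
  have hn := Hom_n3_pos hP.1
  have e1 : n3 (c • P.1) = c * n3 P.1 := by rw [Hom_n3_smul, abs_of_pos hc]
  have e2 : pr (c • P.1, P.2) = pr P := by
    unfold pr
    simp only [e1, smul_smul]
    congr 2
    field_simp
  unfold hom sc
  rw [e2]
  simp only [e1, smul_smul]

lemma Hom_fderiv {g : E7 → E7} {P V : E7} (hP : P ∈ O7) (hg : DifferentiableAt ℝ g (pr P))
    (hV : Tan (pr P) V) : fderiv ℝ (hom g) P (sc P V) = sc P (fderiv ℝ g (pr P) V) := by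
  obtain ⟨L, hL, hLv⟩ := Hom_n3_fd hP hV.1
  obtain ⟨L', hL', hLv'⟩ := Hom_n4_fd hP hV.2
  have hpr : HasFDerivAt pr (fderiv ℝ pr P) P :=
    ((pr_smooth.contDiffAt (O7_open.mem_nhds hP)).differentiableAt (by simp)).hasFDerivAt
  have hF := hg.hasFDerivAt.comp P hpr
  have h3 := hL.smul hF.fst
  have h4 := hL'.smul hF.snd
  have h5 := h3.prodMk h4
  have h6 : fderiv ℝ (hom g) P = _ := h5.fderiv
  rw [h6]
  simp only [ContinuousLinearMap.prod_apply, add_apply,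
    smul_apply, ContinuousLinearMap.smulRight_apply, hLv, hLv',
    zero_smul, add_zero, ContinuousLinearMap.comp_apply, fderiv_pr hP hV]
  rfl

/-- the main lemma on homogeneous extensions. -/
theorem hom_CP (f g : E7 → E7) (hf : ∀ p ∈ M7, ContDiffAt ℝ ∞ f p)
    (hg : ∀ p ∈ M7, ContDiffAt ℝ ∞ g p) (tf : ∀ p ∈ M7, Tan p (f p))
    (tg : ∀ p ∈ M7, Tan p (g p)) (h : ∀ p ∈ M7, lieBracket ℝ f g p = 0) :
    CP O7 (hom f) (hom g) := by
  have key : ∀ F : E7 → E7, (∀ p ∈ M7, ContDiffAt ℝ ∞ F p) → ContDiffOn ℝ ∞ (hom F) O7 := by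
    intro F hF P hP
    apply ContDiffAt.contDiffWithinAt
    have h1 : ContDiffAt ℝ ∞ (fun P : E7 => F (pr P)) P :=
      (hF _ (pr_mem hP)).comp P (pr_smooth.contDiffAt (O7_open.mem_nhds hP))
    exact ((Hom_n3_smooth' hP).smul h1.fst).prodMk ((Hom_n4_smooth' hP).smul h1.snd)
  refine ⟨O7_open, key f hf, key g hg, fun P hP => ?_⟩
  have hM := pr_mem hP
  have h1 := Hom_fderiv hP ((hg _ hM).differentiableAt (by simp)) (tf _ hM)
  have h2 := Hom_fderiv hP ((hf _ hM).differentiableAt (by simp)) (tg _ hM)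
  have h3 := h _ hM
  unfold lieBracket at h3 ⊢
  have e1 : hom f P = sc P (f (pr P)) := rfl
  have e2 : hom g P = sc P (g (pr P)) := rfl
  rw [e1, e2, h1, h2]
  rw [sub_eq_zero] at h3
  rw [h3, sub_self]

end S7Pair
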