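import Pool.Agent.S7Pair.Gen

/-! # Module ZHOM: the same on the chart side (only the s-coordinate is normalised) -/

open scoped ContDiff Topology
open VectorField Set Filter

noncomputable section

namespace S7Pair

lemma OZ_open : IsOpen OZ := by
  have h1 : IsOpen {Z : E7 | Z.1.1 ^ 2 + Z.1.2.1 ^ 2 < 1 / 8} :=
    isOpen_lt (by fun_prop) (by fun_prop)
  have h2 : IsOpen {Z : E7 | 0 < Z.1.2.2} := isOpen_lt (by fun_prop) (by fun_prop)
  have h3 : IsOpen {Z : E7 | Z.2 ≠ 0} := isOpen_ne_fun (by fun_prop) (by fun_prop)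
  exact h1.inter (h2.inter h3)

namespace ZHOM

lemma sq_pos {w : R4} (h : w ≠ 0) :
    0 < w.1 ^ 2 + w.2.1 ^ 2 + w.2.2.1 ^ 2 + w.2.2.2 ^ 2 := by
  by_contra hn
  apply h
  have h1 : w.1 ^ 2 = 0 := by nlinarith [sq_nonneg w.1, sq_nonneg w.2.1, sq_nonneg w.2.2.1, sq_nonneg w.2.2.2]
  have h2 : w.2.1 ^ 2 = 0 := by nlinarith [sq_nonneg w.1, sq_nonneg w.2.1, sq_nonneg w.2.2.1, sq_nonneg w.2.2.2]
  have h3 : w.2.2.1 ^ 2 = 0 := by nlinarith [sq_nonneg w.1, sq_nonneg w.2.1, sq_nonneg w.2.2.1, sq_nonneg w.2.2.2]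
  have h4 : w.2.2.2 ^ 2 = 0 := by nlinarith [sq_nonneg w.1, sq_nonneg w.2.1, sq_nonneg w.2.2.1, sq_nonneg w.2.2.2]
  rw [sq_eq_zero_iff] at h1 h2 h3 h4
  ext
  · exact h1
  · exact h2
  · exact h3
  · exact h4

lemma n4_pos {w : R4} (h : w ≠ 0) : 0 < n4 w := Real.sqrt_pos.2 (sq_pos h)

lemma n4_sq (w : R4) : n4 w ^ 2 = w.1 ^ 2 + w.2.1 ^ 2 + w.2.2.1 ^ 2 + w.2.2.2 ^ 2 :=
  Real.sq_sqrt (by positivity)

lemma n4_smooth {w : R4} (h : w ≠ 0) : ContDiffAt ℝ ∞ n4 w := by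
  unfold n4
  exact ContDiffAt.sqrt (by fun_prop) (sq_pos h).ne'

/-- derivative of `n4` along `v` -/
lemma n4_deriv {w : R4} (h : w ≠ 0) (v : R4) :
    fderiv ℝ n4 w v = dot4 w v / n4 w := by
  have h1 : HasDerivAt (fun t : ℝ => w + t • v) v 0 := by
    have := ((hasDerivAt_id (0 : ℝ)).smul_const v).const_add w
    simpa using this
  have hd : DifferentiableAt ℝ n4 w := (n4_smooth h).differentiableAt (by simp)
  have h2 : HasDerivAt (fun t : ℝ => n4 (w + t • v)) (fderiv ℝ n4 w v) 0 := by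
    have h3 : HasFDerivAt n4 (fderiv ℝ n4 w) (w + (0 : ℝ) • v) := by
      simpa using hd.hasFDerivAt
    exact h3.comp_hasDerivAt (0 : ℝ) h1
  have h4 : HasDerivAt (fun t : ℝ => n4 (w + t • v)) (dot4 w v / n4 w) 0 := by
    have h5 : HasDerivAt (fun t : ℝ => (w.1 + t * v.1) ^ 2 + (w.2.1 + t * v.2.1) ^ 2 +
        (w.2.2.1 + t * v.2.2.1) ^ 2 + (w.2.2.2 + t * v.2.2.2) ^ 2) (2 * dot4 w v) 0 := by
      have key : ∀ a b : ℝ, HasDerivAt (fun t : ℝ => (a + t * b) ^ 2) (2 * (a * b)) 0 := by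
        intro a b
        have := (((hasDerivAt_id (0 : ℝ)).mul_const b).const_add a).pow 2
        refine this.congr_deriv ?_
        simp
        ring
      refine ((((key w.1 v.1).add (key w.2.1 v.2.1)).add (key w.2.2.1 v.2.2.1)).add
        (key w.2.2.2 v.2.2.2)).congr_deriv ?_
      unfold dot4
      ring
    have h6 := h5.sqrt (by simpa using (sq_pos h).ne')
    refine h6.congr_deriv ?_
    have h7 : √((w.1 + 0 * v.1) ^ 2 + (w.2.1 + 0 * v.2.1) ^ 2 + (w.2.2.1 + 0 * v.2.2.1) ^ 2 +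
        (w.2.2.2 + 0 * v.2.2.2) ^ 2) = n4 w := by
      unfold n4
      congr 1
      ring
    rw [h7]
    have := (n4_pos h).ne'
    field_simp
  exact h2.unique h4

/-- `zu` as a continuous linear map -/
def zuL : E7 →L[ℝ] E7 :=
  LinearMap.toContinuousLinearMap
    { toFun := zu
      map_add' := by intro x y; simp only [zu]; ext <;> simp <;> ring
      map_smul' := by intro c x; simp only [zu]; ext <;> simp }

lemma zuL_apply (Z : E7) : zuL Z = zu Z := rfl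

lemma zu_fderiv (Z : E7) : fderiv ℝ zu Z = zuL := by
  have : zu = fun Z => zuL Z := rfl
  rw [this]
  exact zuL.fderiv

lemma zu_smooth : ContDiff ℝ ∞ zu := by
  have : zu = fun Z => zuL Z := rfl
  rw [this]
  exact zuL.contDiff

lemma zpr_smooth {Z : E7} (h : Z.2 ≠ 0) : ContDiffAt ℝ ∞ zpr Z := by
  unfold zpr
  have h1 : ContDiffAt ℝ ∞ (fun Z : E7 => n4 Z.2) Z := (n4_smooth h).comp Z contDiffAt_snd
  exact ContDiffAt.prodMk contDiffAt_fst ((h1.inv (n4_pos h).ne').smul contDiffAt_snd)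

lemma n4snd_deriv {Z : E7} (h : Z.2 ≠ 0) (v : E7) :
    fderiv ℝ (fun Z : E7 => n4 Z.2) Z v = dot4 Z.2 v.2 / n4 Z.2 := by
  have hd : DifferentiableAt ℝ n4 Z.2 := (n4_smooth h).differentiableAt (by simp)
  have h1 : HasFDerivAt (fun Z : E7 => n4 Z.2)
      ((fderiv ℝ n4 Z.2).comp (ContinuousLinearMap.snd ℝ R3 R4)) Z :=
    hd.hasFDerivAt.comp Z hasFDerivAt_snd
  rw [h1.fderiv, ContinuousLinearMap.comp_apply, ContinuousLinearMap.coe_snd', n4_deriv h]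

lemma zpr_deriv {Z : E7} (h : Z.2 ≠ 0) (v : E7) (hv : dot4 Z.2 v.2 = 0) :
    fderiv ℝ zpr Z v = (v.1, (n4 Z.2)⁻¹ • v.2) := by
  have hn := n4snd_deriv h v
  rw [hv, zero_div] at hn
  have h1 : ContDiffAt ℝ ∞ (fun Z : E7 => n4 Z.2) Z := (n4_smooth h).comp Z contDiffAt_snd
  have hd1 : HasFDerivAt (fun Z : E7 => n4 Z.2) (fderiv ℝ (fun Z : E7 => n4 Z.2) Z) Z :=
    (h1.differentiableAt (by simp)).hasFDerivAt
  have hd2 := (hasFDerivAt_inv' (n4_pos h).ne').comp Z hd1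
  have hd3 : HasFDerivAt (fun Z : E7 => Z.2) (ContinuousLinearMap.snd ℝ R3 R4) Z :=
    hasFDerivAt_snd
  have hd4 := hd2.smul hd3
  have hd5 : HasFDerivAt (fun Z : E7 => Z.1) (ContinuousLinearMap.fst ℝ R3 R4) Z :=
    hasFDerivAt_fst
  have hd6 := hd5.prodMk hd4
  have e := hd6.fderiv
  have e' : fderiv ℝ zpr Z = _ := e
  rw [e']
  simp [hn]

lemma zu_dot (Z : E7) : dot4 Z.2 (zu Z).2 = 0 := by
  simp only [dot4, zu]
  ring

lemma zu_zpr (Z : E7) : zu (zpr Z) = ((zu Z).1, (n4 Z.2)⁻¹ • (zu Z).2) := by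
  simp only [zu, zpr]
  ext <;> simp

lemma zuL_block (a : R3) (b : R4) (c : ℝ) :
    zuL (a, c • b) = ((zuL (a, b)).1, c • (zuL (a, b)).2) := by
  simp only [zuL_apply, zu]
  ext <;> simp

end ZHOM

lemma zpr_mem {Z : E7} (hZ : Z ∈ OZ) : zpr Z ∈ OZ ∧ dot4 (zpr Z).2 (zpr Z).2 = 1 := by
  obtain ⟨h1, h2, h3⟩ := hZ
  have hn := ZHOM.n4_pos h3
  refine ⟨⟨h1, h2, ?_⟩, ?_⟩
  · simp only [zpr]
    exact smul_ne_zero (inv_ne_zero hn.ne') h3
  · have hs := ZHOM.n4_sq Z.2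
    simp only [dot4, zpr, Prod.smul_fst, Prod.smul_snd, smul_eq_mul]
    field_simp
    linarith

/-- `zu` commutes with the homogeneous extension of `V` if it commutes with `V` at the
normalised points. -/
theorem zhom_CP (V : E7 → E7)
    (h : ∀ Z ∈ OZ, dot4 Z.2 Z.2 = 1 →
      ContDiffAt ℝ ∞ V Z ∧ dot4 Z.2 (V Z).2 = 0 ∧ lieBracket ℝ zu V Z = 0) :
    CP OZ zu (zhom V) := by
  refine CP.of_cat OZ_open ?_
  intro Z hZ
  obtain ⟨hm, h1⟩ := zpr_mem hZ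
  obtain ⟨hV, -, hbr⟩ := h (zpr Z) hm h1
  have hZ2 : Z.2 ≠ 0 := hZ.2.2
  have hn := ZHOM.n4_pos hZ2
  have hp : ContDiffAt ℝ ∞ zpr Z := ZHOM.zpr_smooth hZ2
  have hc : ContDiffAt ℝ ∞ (fun Z => V (zpr Z)) Z := hV.comp Z hp
  have hn4 : ContDiffAt ℝ ∞ (fun Z : E7 => n4 Z.2) Z :=
    (ZHOM.n4_smooth hZ2).comp Z contDiffAt_snd
  have hs : ContDiffAt ℝ ∞ (zhom V) Z := by
    unfold zhom
    exact ContDiffAt.prodMk (contDiffAt_fst.comp Z hc) (hn4.smul (contDiffAt_snd.comp Z hc))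
  refine ⟨ZHOM.zu_smooth.contDiffAt, hs, ?_⟩
  have hdn := ZHOM.n4snd_deriv hZ2 (zu Z)
  rw [ZHOM.zu_dot, zero_div] at hdn
  have hdp := ZHOM.zpr_deriv hZ2 (zu Z) (ZHOM.zu_dot Z)
  rw [← ZHOM.zu_zpr] at hdp
  have hdc : HasFDerivAt (fun Z => V (zpr Z)) ((fderiv ℝ V (zpr Z)).comp (fderiv ℝ zpr Z)) Z :=
    (hV.differentiableAt (by simp)).hasFDerivAt.comp Z
      (hp.differentiableAt (by simp)).hasFDerivAt
  have hdn' : HasFDerivAt (fun Z : E7 => n4 Z.2) (fderiv ℝ (fun Z : E7 => n4 Z.2) Z) Z :=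
    (hn4.differentiableAt (by simp)).hasFDerivAt
  have hd6 := hdc.fst.prodMk (hdn'.smul hdc.snd)
  have e : zhom V = fun Z : E7 => ((V (zpr Z)).1, n4 Z.2 • (V (zpr Z)).2) := rfl
  have hL : fderiv ℝ (zhom V) Z (zu Z) =
      ((fderiv ℝ V (zpr Z) (zu (zpr Z))).1, n4 Z.2 • (fderiv ℝ V (zpr Z) (zu (zpr Z))).2) := by
    have e0 := hd6.fderiv
    have e' : fderiv ℝ (zhom V) Z = _ := e0
    rw [e']
    simp [hdn, hdp]
  have hR : fderiv ℝ zu Z (zhom V Z) =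
      ((ZHOM.zuL (V (zpr Z))).1, n4 Z.2 • (ZHOM.zuL (V (zpr Z))).2) := by
    rw [ZHOM.zu_fderiv, e]
    exact ZHOM.zuL_block _ _ _
  rw [lieBracket, ZHOM.zu_fderiv] at hbr
  rw [lieBracket, hL, hR]
  have h5 := sub_eq_zero.1 hbr
  rw [h5, sub_self]

lemma zhom_ind {V : E7 → E7} {Z : E7} (hZ : Z ∈ OZ) (h : Ind (zu (zpr Z)) (V (zpr Z))) :
    Ind (zu Z) (zhom V Z) := by
  intro a b hab
  have hn := ZHOM.n4_pos hZ.2.2
  apply h a b
  rw [ZHOM.zu_zpr]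
  have h1 := congrArg Prod.fst hab
  have h2 := congrArg Prod.snd hab
  simp only [zhom, Prod.fst_add, Prod.snd_add, Prod.smul_fst, Prod.smul_snd, Prod.fst_zero,
    Prod.snd_zero] at h1 h2
  refine Prod.ext ?_ ?_
  · simp only [Prod.fst_add, Prod.smul_fst, Prod.fst_zero]
    exact h1
  · simp only [Prod.snd_add, Prod.smul_snd, Prod.snd_zero]
    have h3 : a • ((n4 Z.2)⁻¹ • (zu Z).2) + b • (V (zpr Z)).2 =
        (n4 Z.2)⁻¹ • (a • (zu Z).2 + b • n4 Z.2 • (V (zpr Z)).2) := by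
      rw [smul_add, smul_comm a, smul_comm b (n4 Z.2), smul_smul (n4 Z.2)⁻¹ (n4 Z.2),
        inv_mul_cancel₀ hn.ne', one_smul]
    rw [h3, h2, smul_zero]

lemma zhom_tan {V : E7 → E7} {Z : E7} (hZ : Z ∈ OZ) (h : dot4 (zpr Z).2 (V (zpr Z)).2 = 0)
    (h' : (V (zpr Z)).1.2.2 = 0) : dot4 Z.2 (zhom V Z).2 = 0 ∧ (zhom V Z).1.2.2 = 0 := by
  have hn := ZHOM.n4_pos hZ.2.2
  refine ⟨?_, h'⟩
  have h1 : dot4 Z.2 (zhom V Z).2 = n4 Z.2 ^ 2 * dot4 (zpr Z).2 (V (zpr Z)).2 := by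
    simp only [dot4, zhom, Prod.smul_fst, Prod.smul_snd, smul_eq_mul]
    simp only [zpr, Prod.smul_fst, Prod.smul_snd, smul_eq_mul]
    field_simp
  rw [h1, h, mul_zero]

end S7Pair
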