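import Pool.Agent.S7Pair.Alg
import Pool.Agent.S7Pair.Hom
import Pool.Agent.S7Pair.ZHom

/-! # Module CH1: the chart: domain, range, levels, left inverse -/

open scoped ContDiff Topology
open VectorField Set Filter

noncomputable section

namespace S7Pair

lemma Ch1_s2n_smooth {p : E7} (hp : p ∈ M7) :
    ContDiffAt ℝ ∞ (fun P : E7 => √(2 * nn P)) p := by
  have h := nn_pos hp
  exact (contDiffAt_const.mul (nn_smooth _ p)).sqrt (by positivity)

lemma Ch1_w1_smooth {p : E7} (hp : p ∈ M7) : ContDiffAt ℝ ∞ w1 p := by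
  have h1 : ContDiffAt ℝ ∞ (fun P : E7 => (1 - P.2.1) + √2 * (1 + P.2.1) * P.1.1) p := by fun_prop
  exact h1.div (Ch1_s2n_smooth hp) (s2n_pos hp).ne'

lemma Ch1_w2_smooth {p : E7} (hp : p ∈ M7) : ContDiffAt ℝ ∞ w2 p := by
  have h1 : ContDiffAt ℝ ∞ (fun P : E7 => √2 * (1 + P.2.1) * P.1.2.1) p := by fun_prop
  exact h1.div (Ch1_s2n_smooth hp) (s2n_pos hp).ne'

lemma Ch1_mm_smooth {p : E7} (hp : p ∈ M7) : ContDiffAt ℝ ∞ mm p := by
  have h1 : ContDiffAt ℝ ∞ (fun P : E7 => √2 * (1 + P.2.1) * P.1.2.2) p := by fun_prop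
  exact h1.div (Ch1_s2n_smooth hp) (s2n_pos hp).ne'

lemma Ch1_qq_smooth {p : E7} (hp : p ∈ M7) : ContDiffAt ℝ ∞ qq p := by
  have h1 : ContDiffAt ℝ ∞ (fun P : E7 => 1 - P.2.1) p := by fun_prop
  exact h1.div (Ch1_s2n_smooth hp) (s2n_pos hp).ne'

lemma Ch1_ww_smooth {p : E7} (hp : p ∈ M7) : ContDiffAt ℝ ∞ ww p :=
  ((Ch1_w1_smooth hp).pow 2).add ((Ch1_w2_smooth hp).pow 2)

lemma Ch1_pr_smooth {P : E7} (hP : P ∈ O7) : ContDiffAt ℝ ∞ pr P :=
  pr_smooth.contDiffAt (O7_open.mem_nhds hP)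

lemma Ch1_wwpr_smooth {P : E7} (hP : P ∈ O7) : ContDiffAt ℝ ∞ (fun P => ww (pr P)) P :=
  (Ch1_ww_smooth (pr_mem hP)).comp P (Ch1_pr_smooth hP)

lemma O1_open : IsOpen O1 := by
  have h : ContinuousOn (fun P => ww (pr P)) O7 := fun P hP =>
    (Ch1_wwpr_smooth hP).continuousAt.continuousWithinAt
  exact h.isOpen_inter_preimage O7_open isOpen_Iio

/-- the point `ch P` at normalised points. -/
lemma ch_unit {p : E7} (hp : p ∈ M7) :
    ch p = ((w1 p, w2 p, 1), (s1 p, gg p * p.2.2.1, gg p * p.2.2.2.1, gg p * p.2.2.2.2)) := by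
  unfold ch
  rw [pr_of_mem hp, Hom_n3_one hp, Hom_n4_one hp]
  simp only [one_mul]

lemma Ch1_ww_nonneg (p : E7) : 0 ≤ ww p := by unfold ww; positivity

lemma Ch1_cc_pos {p : E7} (hw : ww p < 1 / 8) : 0 < cc p := by
  unfold cc; linarith

lemma Ch1_sc_pos {p : E7} (hw : ww p < 1 / 8) : 0 < √(cc p) := Real.sqrt_pos.2 (Ch1_cc_pos hw)

lemma Ch1_sc_sq {p : E7} (hw : ww p < 1 / 8) : √(cc p) ^ 2 = cc p :=
  Real.sq_sqrt (Ch1_cc_pos hw).le

lemma Ch1_mm_sq {p : E7} (hp : p ∈ M7) (hw : ww p < 1 / 8) :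
    mm p ^ 2 = √(cc p) ^ 2 - qq p ^ 2 := by
  rw [Ch1_sc_sq hw]
  have := alg_hyp hp
  unfold cc ww
  linarith

lemma Ch1_qS {p : E7} (hp : p ∈ M7) : qq p * √(2 * nn p) = 1 - p.2.1 := by
  have := s2n_pos hp
  unfold qq
  field_simp

lemma Ch1_den_pos {p : E7} (hp : p ∈ M7) (hw : ww p < 1 / 8) :
    0 < cc p + √(cc p) * qq p := by
  have h1 := Ch1_cc_pos hw
  have h2 := Ch1_sc_pos hw
  have h3 := qq_nonneg hp
  positivity

/-- `s₁² √c = √c - q` -/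
lemma Ch1_s1_sq {p : E7} (hp : p ∈ M7) (hw : ww p < 1 / 8) :
    s1 p ^ 2 * √(cc p) = √(cc p) - qq p := by
  have h1 := Ch1_sc_sq hw
  have h2 := Ch1_sc_pos hw
  have h3 := qq_nonneg hp
  have h4 := Ch1_mm_sq hp hw
  have h5 := Ch1_den_pos hp hw
  have h6 : s1 p ^ 2 = mm p ^ 2 / (cc p + √(cc p) * qq p) := by
    unfold s1
    rw [div_pow, Real.sq_sqrt h5.le]
  rw [h6, h4, div_mul_eq_mul_div, div_eq_iff h5.ne']
  linear_combination (√(cc p) - qq p) * h1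

lemma Ch1_gden_pos {p : E7} (hp : p ∈ M7) (hw : ww p < 1 / 8) :
    0 < √(2 * nn p) * (1 + p.2.1) * √(cc p) := by
  have h2 := Ch1_sc_pos hw
  have h3 := s2n_pos hp
  have h4 := tau_gt hp hw
  have h5 : 0 < 1 + p.2.1 := by linarith
  positivity

lemma Ch1_gg_pos {p : E7} (hp : p ∈ M7) (hw : ww p < 1 / 8) : 0 < gg p := by
  have := Ch1_gden_pos hp hw
  unfold gg
  positivity

lemma Ch1_gg_sq {p : E7} (hp : p ∈ M7) (hw : ww p < 1 / 8) :
    gg p ^ 2 * (√(2 * nn p) * (1 + p.2.1) * √(cc p)) = 1 := by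
  have h := Ch1_gden_pos hp hw
  unfold gg
  rw [div_pow, Real.sq_sqrt h.le, one_pow, one_div_mul_cancel h.ne']

/-- `|s| = 1`. -/
lemma ch_unit_norm {p : E7} (hp : p ∈ M7) (hw : ww p < 1 / 8) :
    s1 p ^ 2 + (gg p * p.2.2.1) ^ 2 + (gg p * p.2.2.2.1) ^ 2 + (gg p * p.2.2.2.2) ^ 2 = 1 := by
  have h1 := Ch1_s1_sq hp hw
  have h2 := Ch1_gg_sq hp hw
  have h3 := M7_w hp
  have h4 := Ch1_qS hp
  have h5 := s2n_pos hp
  have h6 := Ch1_sc_pos hw
  have h7 : 0 < 1 + p.2.1 := by have := tau_gt hp hw; linarith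
  have h8 : 0 < √(2 * nn p) * (1 + p.2.1) * √(cc p) := Ch1_gden_pos hp hw
  have key : (√(2 * nn p) * (1 + p.2.1) * √(cc p)) *
      (s1 p ^ 2 + (gg p * p.2.2.1) ^ 2 + (gg p * p.2.2.2.1) ^ 2 + (gg p * p.2.2.2.2) ^ 2 - 1) = 0 := by
    linear_combination (√(2 * nn p) * (1 + p.2.1)) * h1 +
      (p.2.2.1 ^ 2 + p.2.2.2.1 ^ 2 + p.2.2.2.2 ^ 2) * h2 + h3 - (1 + p.2.1) * h4
  have := (mul_eq_zero.1 key).resolve_left h8.ne'
  linarith

lemma Ch1_norm {P : E7} (hP : P ∈ O1) : n4 (ch P).2 = n4 P.2 := by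
  have hn := Hom_n4_pos hP.1.2
  have h := ch_unit_norm (pr_mem hP.1) hP.2
  have e : (ch P).2 = n4 P.2 • ((s1 (pr P), gg (pr P) * (pr P).2.2.1, gg (pr P) * (pr P).2.2.2.1,
      gg (pr P) * (pr P).2.2.2.2) : R4) := by
    simp only [ch, Prod.smul_mk, smul_eq_mul]
  rw [e, Hom_n4_smul, abs_of_pos hn]
  have e2 : n4 ((s1 (pr P), gg (pr P) * (pr P).2.2.1, gg (pr P) * (pr P).2.2.2.1,
      gg (pr P) * (pr P).2.2.2.2) : R4) = 1 := by
    unfold n4
    simp only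
    rw [h, Real.sqrt_one]
  rw [e2, mul_one]

lemma ch_levels {P : E7} (hP : P ∈ O1) :
    (ch P).1.2.2 = n3 P.1 ∧ n4 (ch P).2 = n4 P.2 ∧ zw (ch P) = ww (pr P) :=
  ⟨rfl, Ch1_norm hP, rfl⟩

theorem ch_maps : MapsTo ch O1 OZ := by
  intro P hP
  refine ⟨hP.2, Hom_n3_pos hP.1.1, ?_⟩
  intro h
  have h1 := Ch1_norm hP
  rw [h] at h1
  have h2 : n4 (0 : R4) = 0 := by simp [n4]
  rw [h2] at h1
  exact absurd h1 (Hom_n4_pos hP.1.2).ne

lemma Ch1_zs {P : E7} (hP : P ∈ O1) : zs (ch P) = s1 (pr P) := by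
  have hn := Hom_n4_pos hP.1.2
  unfold zs
  rw [Ch1_norm hP]
  simp only [ch]
  field_simp

lemma Ch1_zc (P : E7) : zc (ch P) = cc (pr P) := rfl

lemma Ch1_zq {P : E7} (hP : P ∈ O1) : zq (ch P) = qq (pr P) := by
  unfold zq
  rw [Ch1_zs hP, Ch1_zc]
  have := Ch1_s1_sq (pr_mem hP.1) hP.2
  linarith

lemma Ch1_zm {P : E7} (hP : P ∈ O1) : zm (ch P) = mm (pr P) := by
  unfold zm
  rw [Ch1_zs hP, Ch1_zc]
  have hp := pr_mem hP.1
  have hw := hP.2
  set p := pr P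
  have h1 := Ch1_sc_sq hw
  have h2 := Ch1_sc_pos hw
  have h3 := qq_nonneg hp
  have h5 := Ch1_den_pos hp hw
  have h6 := Ch1_s1_sq hp hw
  have h7 : 2 - s1 p ^ 2 = (cc p + √(cc p) * qq p) / √(cc p) ^ 2 := by
    rw [eq_div_iff (by positivity)]
    have : √(cc p) * (s1 p ^ 2 * √(cc p)) = √(cc p) * (√(cc p) - qq p) := by rw [h6]
    linear_combination -this + h1
  rw [h7, Real.sqrt_div h5.le, Real.sqrt_sq h2.le]
  have h8 : 0 < √(cc p + √(cc p) * qq p) := Real.sqrt_pos.2 h5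
  unfold s1
  field_simp

lemma Ch1_zp {P : E7} (hP : P ∈ O1) :
    zp (ch P) = (1 + (pr P).2.1) / √(2 * nn (pr P)) := by
  unfold zp
  rw [Ch1_zq hP]
  have hp := pr_mem hP.1
  have hw := hP.2
  have h1 : (1 + (pr P).2.1) ^ 2 / (2 * nn (pr P)) = 1 - qq (pr P) * w1 (pr P) := alg_one hp
  have h2 : (ch P).1.1 = w1 (pr P) := rfl
  rw [h2, ← h1, Real.sqrt_div (sq_nonneg _), Real.sqrt_sq]
  have := tau_gt hp hw
  linarith

lemma Ch1_aux {S T C : ℝ} (hS : 0 < S) (hT : 0 < T) (hC : 0 < C) :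
    1 / √(S * T * C) * (2 * √(T / S) / (2 / S) * √C) = 1 := by
  have e2 : √(T / S) * S = √(S * T) := by
    have h : S * T = (T / S) * S ^ 2 := by field_simp
    rw [h, Real.sqrt_mul (by positivity), Real.sqrt_sq hS.le]
  have e3 : √(S * T * C) = √(S * T) * √C := Real.sqrt_mul (by positivity) _
  have h5 : 0 < √(S * T) := by positivity
  have h6 : 0 < √C := by positivity
  have e4 : 2 * √(T / S) / (2 / S) * √C = √(S * T) * √C := by
    rw [← e2]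
    field_simp
  rw [e3, e4]
  field_simp

lemma Ch1_zg {P : E7} (hP : P ∈ O1) : gg (pr P) * zg (ch P) = 1 := by
  unfold zg
  rw [Ch1_zq hP, Ch1_zp hP, Ch1_zc]
  have hp := pr_mem hP.1
  have hw := hP.2
  have h2 := Ch1_sc_pos hw
  have h3 := s2n_pos hp
  have h4 : 0 < 1 + (pr P).2.1 := by have := tau_gt hp hw; linarith
  have e1 : (1 + (pr P).2.1) / √(2 * nn (pr P)) + qq (pr P) = 2 / √(2 * nn (pr P)) := by
    unfold qq
    rw [← add_div]
    congr 1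
    ring
  rw [e1]
  exact Ch1_aux h3 h4 h2

theorem ch_left : ∀ P ∈ O1, chInv (ch P) = P := by
  intro P hP
  have hp := pr_mem hP.1
  have hw := hP.2
  have hn3 := Hom_n3_pos hP.1.1
  have hn4 := Hom_n4_pos hP.1.2
  have h3 := s2n_pos hp
  have h4 : 0 < 1 + (pr P).2.1 := by have := tau_gt hp hw; linarith
  have hzg := Ch1_zg hP
  have e1 : n3 P.1 • (pr P).1 = P.1 := by
    simp only [pr, smul_smul]
    rw [mul_inv_cancel₀ hn3.ne', one_smul]
  have e2 : n4 P.2 • (pr P).2 = P.2 := by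
    simp only [pr, smul_smul]
    rw [mul_inv_cancel₀ hn4.ne', one_smul]
  have r2 : 0 < √2 := by positivity
  have f1 : (chInv (ch P)).1 = P.1 := by
    refine Eq.trans ?_ e1
    unfold chInv
    rw [Ch1_zq hP, Ch1_zp hP, Ch1_zm hP]
    have g1 : (ch P).1.2.2 = n3 P.1 := rfl
    have g2 : (ch P).1.1 = w1 (pr P) := rfl
    have g3 : (ch P).1.2.1 = w2 (pr P) := rfl
    rw [g1, g2, g3]
    refine Prod.ext ?_ (Prod.ext ?_ ?_)
    · simp only [Prod.smul_fst, smul_eq_mul, w1, qq]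
      field_simp
      ring
    · simp only [Prod.smul_fst, Prod.smul_snd, smul_eq_mul, w2]
      field_simp
    · simp only [Prod.smul_snd, smul_eq_mul, mm]
      field_simp
  have f2 : (chInv (ch P)).2 = P.2 := by
    refine Eq.trans ?_ e2
    unfold chInv
    rw [Ch1_norm hP, Ch1_zq hP, Ch1_zp hP]
    refine Prod.ext ?_ (Prod.ext ?_ (Prod.ext ?_ ?_))
    · simp only [Prod.smul_fst, smul_eq_mul, qq]
      rw [← sub_div, ← add_div, mul_div_assoc, div_div_div_cancel_right₀ h3.ne']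
      have : (1 + (pr P).2.1 - (1 - (pr P).2.1)) / (1 + (pr P).2.1 + (1 - (pr P).2.1)) =
          (pr P).2.1 := by
        field_simp
        ring
      rw [this]
    · have g : (ch P).2.2.1 = n4 P.2 * (gg (pr P) * (pr P).2.2.1) := rfl
      simp only [Prod.smul_fst, Prod.smul_snd, smul_eq_mul, g]
      linear_combination (n4 P.2 * (pr P).2.2.1) * hzg
    · have g : (ch P).2.2.2.1 = n4 P.2 * (gg (pr P) * (pr P).2.2.2.1) := rfl
      simp only [Prod.smul_fst, Prod.smul_snd, smul_eq_mul, g]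
      linear_combination (n4 P.2 * (pr P).2.2.2.1) * hzg
    · have g : (ch P).2.2.2.2 = n4 P.2 * (gg (pr P) * (pr P).2.2.2.2) := rfl
      simp only [Prod.smul_snd, smul_eq_mul, g]
      linear_combination (n4 P.2 * (pr P).2.2.2.2) * hzg
  exact Prod.ext f1 f2

end S7Pair
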