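import Pool.Agent.S7Pair.Ch1

/-! # Module CH2: smoothness of the chart and of its inverse -/

open scoped ContDiff Topology
open VectorField Set Filter

noncomputable section

namespace S7Pair

private lemma ch2_pos {s : R4} (hs : s ≠ 0) :
    0 < s.1 ^ 2 + s.2.1 ^ 2 + s.2.2.1 ^ 2 + s.2.2.2 ^ 2 := by
  refine lt_of_le_of_ne (by positivity) fun h => hs ?_
  have a : s.1 = 0 := by nlinarith [sq_nonneg s.1, sq_nonneg s.2.1, sq_nonneg s.2.2.1, sq_nonneg s.2.2.2]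
  have b : s.2.1 = 0 := by nlinarith [sq_nonneg s.1, sq_nonneg s.2.1, sq_nonneg s.2.2.1, sq_nonneg s.2.2.2]
  have c : s.2.2.1 = 0 := by nlinarith [sq_nonneg s.1, sq_nonneg s.2.1, sq_nonneg s.2.2.1, sq_nonneg s.2.2.2]
  have d : s.2.2.2 = 0 := by nlinarith [sq_nonneg s.1, sq_nonneg s.2.1, sq_nonneg s.2.2.1, sq_nonneg s.2.2.2]
  exact Prod.ext a (Prod.ext b (Prod.ext c d))

private lemma ch2_pos3 {b : R3} (hb : b ≠ 0) : 0 < b.1 ^ 2 + b.2.1 ^ 2 + b.2.2 ^ 2 := by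
  refine lt_of_le_of_ne (by positivity) fun h => hb ?_
  have a : b.1 = 0 := by nlinarith [sq_nonneg b.1, sq_nonneg b.2.1, sq_nonneg b.2.2]
  have c : b.2.1 = 0 := by nlinarith [sq_nonneg b.1, sq_nonneg b.2.1, sq_nonneg b.2.2]
  have d : b.2.2 = 0 := by nlinarith [sq_nonneg b.1, sq_nonneg b.2.1, sq_nonneg b.2.2]
  exact Prod.ext a (Prod.ext c d)

private lemma ch2_n4 {P : E7} (hP : P.2 ≠ 0) : ContDiffAt ℝ ∞ (fun P : E7 => n4 P.2) P := by
  unfold n4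
  exact ContDiffAt.sqrt (by fun_prop) (ch2_pos hP).ne'

private lemma ch2_n3 {P : E7} (hP : P.1 ≠ 0) : ContDiffAt ℝ ∞ (fun P : E7 => n3 P.1) P := by
  unfold n3
  exact ContDiffAt.sqrt (by fun_prop) (ch2_pos3 hP).ne'

private lemma ch2_base {p : E7} (hp : p ∈ M7) (hw : ww p < 1 / 8) :
    ContDiffAt ℝ ∞ w1 p ∧ ContDiffAt ℝ ∞ w2 p ∧ ContDiffAt ℝ ∞ s1 p ∧ ContDiffAt ℝ ∞ gg p := by
  have hn := nn_pos hp
  have hq := qq_nonneg hp
  have ht := tau_gt hp hw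
  have h1 : ContDiffAt ℝ ∞ nn p := by unfold nn; fun_prop
  have hS : ContDiffAt ℝ ∞ (fun P : E7 => √(2 * nn P)) p :=
    ContDiffAt.sqrt (contDiffAt_const.mul h1) (by positivity)
  have hS0 : √(2 * nn p) ≠ 0 := (Real.sqrt_pos.2 (by positivity)).ne'
  have c1 : ContDiffAt ℝ ∞ w1 p := by
    unfold w1
    exact ContDiffAt.div (by fun_prop) hS hS0
  have c2 : ContDiffAt ℝ ∞ w2 p := by
    unfold w2
    exact ContDiffAt.div (by fun_prop) hS hS0
  have c3 : ContDiffAt ℝ ∞ mm p := by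
    unfold mm
    exact ContDiffAt.div (by fun_prop) hS hS0
  have c4 : ContDiffAt ℝ ∞ qq p := by
    unfold qq
    exact ContDiffAt.div (by fun_prop) hS hS0
  have c5 : ContDiffAt ℝ ∞ cc p := by
    unfold cc ww
    exact contDiffAt_const.sub ((c1.pow 2).add (c2.pow 2))
  have hc : 0 < cc p := by unfold cc; linarith
  have c6 : ContDiffAt ℝ ∞ (fun P : E7 => √(cc P)) p := ContDiffAt.sqrt c5 hc.ne'
  have hcs : 0 < √(cc p) := Real.sqrt_pos.2 hc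
  have hd : 0 < cc p + √(cc p) * qq p := by positivity
  have c7 : ContDiffAt ℝ ∞ s1 p := by
    unfold s1
    exact ContDiffAt.div c3 (ContDiffAt.sqrt (c5.add (c6.mul c4)) hd.ne')
      (Real.sqrt_pos.2 hd).ne'
  have hpos : 0 < √(2 * nn p) * (1 + p.2.1) * √(cc p) := by
    have : 0 < 1 + p.2.1 := by linarith
    have : 0 < √(2 * nn p) := Real.sqrt_pos.2 (by positivity)
    positivity
  have c8 : ContDiffAt ℝ ∞ gg p := by
    unfold gg
    refine ContDiffAt.div contDiffAt_const (ContDiffAt.sqrt ((hS.mul ?_).mul c6) hpos.ne')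
      (Real.sqrt_pos.2 hpos).ne'
    fun_prop
  exact ⟨c1, c2, c7, c8⟩

theorem ch_smooth : ContDiffOn ℝ ∞ ch O1 := by
  intro P hP
  have hP7 : P ∈ O7 := hP.1
  have hpr : ContDiffAt ℝ ∞ pr P := pr_smooth.contDiffAt (O7_open.mem_nhds hP7)
  obtain ⟨c1, c2, c3, c4⟩ := ch2_base (pr_mem hP7) hP.2
  have d1 : ContDiffAt ℝ ∞ (fun P => w1 (pr P)) P := c1.comp P hpr
  have d2 : ContDiffAt ℝ ∞ (fun P => w2 (pr P)) P := c2.comp P hpr
  have d3 : ContDiffAt ℝ ∞ (fun P => s1 (pr P)) P := c3.comp P hpr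
  have d4 : ContDiffAt ℝ ∞ (fun P => gg (pr P)) P := c4.comp P hpr
  have hn := ch2_n4 hP7.2
  have hn3 := ch2_n3 hP7.1
  have e2 : ContDiffAt ℝ ∞ (fun P => (pr P).2.2.1) P := hpr.snd.snd.fst
  have e3 : ContDiffAt ℝ ∞ (fun P => (pr P).2.2.2.1) P := hpr.snd.snd.snd.fst
  have e4 : ContDiffAt ℝ ∞ (fun P => (pr P).2.2.2.2) P := hpr.snd.snd.snd.snd
  have : ContDiffAt ℝ ∞ ch P := by
    unfold ch
    exact (d1.prodMk (d2.prodMk hn3)).prodMk ((hn.mul d3).prodMk ((hn.mul (d4.mul e2)).prodMk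
      ((hn.mul (d4.mul e3)).prodMk (hn.mul (d4.mul e4)))))
  exact this.contDiffWithinAt

theorem chInv_smooth : ContDiffOn ℝ ∞ chInv OZ := by
  intro Z hZ
  have hw : Z.1.1 ^ 2 + Z.1.2.1 ^ 2 < 1 / 8 := hZ.1
  have hs : Z.2 ≠ 0 := hZ.2.2
  have hn := ch2_n4 hs
  have hn0 : 0 < n4 Z.2 := Real.sqrt_pos.2 (ch2_pos hs)
  have k1 : ContDiffAt ℝ ∞ zc Z := by unfold zc zw; fun_prop
  have hzc : 0 < zc Z := by unfold zc zw; linarith
  have hzc2 : zc Z ≤ 2 := by unfold zc zw; nlinarith [sq_nonneg Z.1.1, sq_nonneg Z.1.2.1]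
  have k2 : ContDiffAt ℝ ∞ zs Z := by
    unfold zs
    exact ContDiffAt.div (by fun_prop) hn hn0.ne'
  have hzs : zs Z ^ 2 ≤ 1 := by
    unfold zs
    rw [div_pow, div_le_one (by positivity)]
    unfold n4
    rw [Real.sq_sqrt (by positivity)]
    nlinarith [sq_nonneg Z.2.2.1, sq_nonneg Z.2.2.2.1, sq_nonneg Z.2.2.2.2]
  have k3 : ContDiffAt ℝ ∞ (fun Z => √(zc Z)) Z := ContDiffAt.sqrt k1 hzc.ne'
  have hsq : 0 < √(zc Z) := Real.sqrt_pos.2 hzc
  have k4 : ContDiffAt ℝ ∞ zq Z := by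
    unfold zq
    exact k3.mul (contDiffAt_const.sub (k2.pow 2))
  have hzq : 0 ≤ zq Z := by unfold zq; exact mul_nonneg hsq.le (by linarith)
  have k5 : ContDiffAt ℝ ∞ zm Z := by
    unfold zm
    refine (k3.mul k2).mul (ContDiffAt.sqrt (contDiffAt_const.sub (k2.pow 2)) ?_)
    have : 0 < 2 - zs Z ^ 2 := by linarith
    exact this.ne'
  have hpp : 0 < 1 - zq Z * Z.1.1 := by
    have h1 : (zq Z * Z.1.1) ^ 2 ≤ 1 / 4 := by
      have h2 : zq Z ^ 2 ≤ 2 := by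
        unfold zq
        rw [mul_pow, Real.sq_sqrt hzc.le]
        have h3 : (1 - zs Z ^ 2) ^ 2 ≤ 1 := by nlinarith [sq_nonneg (zs Z)]
        nlinarith [sq_nonneg (1 - zs Z ^ 2)]
      have h3 : Z.1.1 ^ 2 ≤ 1 / 8 := by nlinarith [sq_nonneg Z.1.2.1]
      rw [mul_pow]
      nlinarith [sq_nonneg (zq Z), sq_nonneg Z.1.1]
    nlinarith
  have k6 : ContDiffAt ℝ ∞ zp Z := by
    unfold zp
    refine ContDiffAt.sqrt (contDiffAt_const.sub (k4.mul ?_)) hpp.ne'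
    fun_prop
  have hzp : 0 < zp Z := Real.sqrt_pos.2 hpp
  have hsum : 0 < zp Z + zq Z := by linarith
  have k7 : ContDiffAt ℝ ∞ zg Z := by
    unfold zg
    exact (ContDiffAt.div (contDiffAt_const.mul (ContDiffAt.sqrt k6 hzp.ne')) (k6.add k4)
      hsum.ne').mul (ContDiffAt.sqrt k3 hsq.ne')
  have h2p : √2 * zp Z ≠ 0 := by positivity
  have k8 : ContDiffAt ℝ ∞ (fun Z => √2 * zp Z) Z := contDiffAt_const.mul k6
  have a1 : ContDiffAt ℝ ∞ (fun Z : E7 => Z.1.1) Z := by fun_prop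
  have a2 : ContDiffAt ℝ ∞ (fun Z : E7 => Z.1.2.1) Z := by fun_prop
  have a3 : ContDiffAt ℝ ∞ (fun Z : E7 => Z.1.2.2) Z := by fun_prop
  have a5 : ContDiffAt ℝ ∞ (fun Z : E7 => Z.2.2.1) Z := by fun_prop
  have a6 : ContDiffAt ℝ ∞ (fun Z : E7 => Z.2.2.2.1) Z := by fun_prop
  have a7 : ContDiffAt ℝ ∞ (fun Z : E7 => Z.2.2.2.2) Z := by fun_prop
  have : ContDiffAt ℝ ∞ chInv Z := by
    unfold chInv
    exact ((ContDiffAt.div (a3.mul (a1.sub k4)) k8 h2p).prodMk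
      ((ContDiffAt.div (a3.mul a2) k8 h2p).prodMk (ContDiffAt.div (a3.mul k5) k8 h2p))).prodMk
      ((ContDiffAt.div (hn.mul (k6.sub k4)) (k6.add k4) hsum.ne').prodMk
        ((a5.mul k7).prodMk ((a6.mul k7).prodMk (a7.mul k7))))
  exact this.contDiffWithinAt

theorem ch_inv : ∀ P ∈ O1, (fderiv ℝ ch P).IsInvertible := by
  intro P hP
  have h1 : DifferentiableAt ℝ ch P :=
    (ch_smooth.contDiffAt (O1_open.mem_nhds hP)).differentiableAt (by simp)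
  have h2 : DifferentiableAt ℝ chInv (ch P) :=
    (chInv_smooth.contDiffAt (OZ_open.mem_nhds (ch_maps hP))).differentiableAt (by simp)
  exact isInvertible_of_leftInverse rfl h1 h2
    (eventually_of_mem (O1_open.mem_nhds hP) fun y hy => ch_left y hy)

end S7Pair
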