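import Pool.Agent.S7Pair.TabU
import Pool.Agent.S7Pair.Ch2

/-! # Module CH3: `u` in the chart -/

open scoped ContDiff Topology
open VectorField Set Filter

noncomputable section

namespace S7Pair

/-- `F` is differentiable at `p` with derivative `d` along `v`. -/
structure CH3_D (F : E7 → ℝ) (p v : E7) (d : ℝ) : Prop where
  diff : DifferentiableAt ℝ F p
  eq : fderiv ℝ F p v = d

namespace CH3_D

variable {F G : E7 → ℝ} {p v : E7} {a b : ℝ}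

lemma mul (h : CH3_D F p v a) (h' : CH3_D G p v b) :
    CH3_D (fun y => F y * G y) p v (F p * b + G p * a) :=
  ⟨h.diff.mul h'.diff, by
    rw [fderiv_fun_mul h.diff h'.diff]
    simp [h.eq, h'.eq]⟩

lemma add (h : CH3_D F p v a) (h' : CH3_D G p v b) :
    CH3_D (fun y => F y + G y) p v (a + b) :=
  ⟨h.diff.add h'.diff, by
    rw [fderiv_fun_add h.diff h'.diff]
    simp [h.eq, h'.eq]⟩

lemma cmul (c : ℝ) (h : CH3_D F p v a) : CH3_D (fun y => c * F y) p v (c * a) :=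
  ⟨h.diff.const_mul c, by
    rw [fderiv_const_mul h.diff]
    simp [h.eq]⟩

lemma cst (c : ℝ) : CH3_D (fun _ => c) p v 0 :=
  ⟨differentiableAt_const c, by simp⟩

lemma inv (h : CH3_D F p v a) (h0 : F p ≠ 0) :
    CH3_D (fun y => (F y)⁻¹) p v (-(a / F p ^ 2)) := by
  have h1 := (hasDerivAt_inv h0).comp_hasFDerivAt p h.diff.hasFDerivAt
  refine ⟨h1.differentiableAt, ?_⟩
  have h2 : fderiv ℝ (fun y => (F y)⁻¹) p = (-(F p ^ 2)⁻¹) • fderiv ℝ F p := h1.fderiv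
  rw [h2]
  simp only [smul_apply, smul_eq_mul, h.eq]
  ring

lemma sqrt (h : CH3_D F p v a) (h0 : F p ≠ 0) :
    CH3_D (fun y => √(F y)) p v (a / (2 * √(F p))) :=
  ⟨h.diff.sqrt h0, by
    rw [fderiv_sqrt h.diff h0]
    simp only [smul_apply, smul_eq_mul, h.eq]
    ring⟩

lemma of_eq (h : CH3_D F p v a) (hab : a = b) : CH3_D F p v b := hab ▸ h

end CH3_D

/-! ### differentiability at points of the chart region -/

lemma CH3_div {F G : E7 → ℝ} {p : E7} (hF : DifferentiableAt ℝ F p) (hG : DifferentiableAt ℝ G p)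
    (h0 : G p ≠ 0) : DifferentiableAt ℝ (fun P => F P / G P) p := by
  simp only [div_eq_mul_inv]
  exact hF.mul (hG.inv h0)

lemma CH3_dnn (p : E7) : DifferentiableAt ℝ nn p := by
  unfold nn; fun_prop

lemma CH3_S_pos {p : E7} (hp : p ∈ M7) : 0 < √(2 * nn p) :=
  Real.sqrt_pos.2 (by have := nn_pos hp; linarith)

lemma CH3_dS {p : E7} (hp : p ∈ M7) : DifferentiableAt ℝ (fun P => √(2 * nn P)) p :=
  ((CH3_dnn p).const_mul 2).sqrt (by have := nn_pos hp; positivity)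

lemma CH3_dw1 {p : E7} (hp : p ∈ M7) : DifferentiableAt ℝ w1 p := by
  have h : DifferentiableAt ℝ
      (fun P : E7 => ((1 - P.2.1) + √2 * (1 + P.2.1) * P.1.1) / √(2 * nn P)) p :=
    CH3_div (by fun_prop) (CH3_dS hp) (CH3_S_pos hp).ne'
  exact h

lemma CH3_dw2 {p : E7} (hp : p ∈ M7) : DifferentiableAt ℝ w2 p := by
  have h : DifferentiableAt ℝ (fun P : E7 => √2 * (1 + P.2.1) * P.1.2.1 / √(2 * nn P)) p :=
    CH3_div (by fun_prop) (CH3_dS hp) (CH3_S_pos hp).ne'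
  exact h

lemma CH3_dmm {p : E7} (hp : p ∈ M7) : DifferentiableAt ℝ mm p := by
  have h : DifferentiableAt ℝ (fun P : E7 => √2 * (1 + P.2.1) * P.1.2.2 / √(2 * nn P)) p :=
    CH3_div (by fun_prop) (CH3_dS hp) (CH3_S_pos hp).ne'
  exact h

lemma CH3_dqq {p : E7} (hp : p ∈ M7) : DifferentiableAt ℝ qq p := by
  have h : DifferentiableAt ℝ (fun P : E7 => (1 - P.2.1) / √(2 * nn P)) p :=
    CH3_div (by fun_prop) (CH3_dS hp) (CH3_S_pos hp).ne'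
  exact h

lemma CH3_dcc {p : E7} (hp : p ∈ M7) : DifferentiableAt ℝ cc p := by
  have h : DifferentiableAt ℝ (fun P => 2 - (w1 P ^ 2 + w2 P ^ 2)) p :=
    ((((CH3_dw1 hp).pow 2).add ((CH3_dw2 hp).pow 2)).const_sub 2)
  exact h

lemma CH3_cc_pos {p : E7} (hw : ww p < 1 / 8) : 0 < cc p := by
  unfold cc; linarith

lemma CH3_den_pos {p : E7} (hp : p ∈ M7) (hw : ww p < 1 / 8) : 0 < cc p + √(cc p) * qq p := by
  have h1 := CH3_cc_pos hw
  have h2 := qq_nonneg hp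
  have h3 := Real.sqrt_nonneg (cc p)
  have := mul_nonneg h3 h2
  linarith

lemma CH3_G_pos {p : E7} (hp : p ∈ M7) (hw : ww p < 1 / 8) :
    0 < √(2 * nn p) * (1 + p.2.1) * √(cc p) := by
  have h1 := CH3_S_pos hp
  have h2 := tau_gt hp hw
  have h3 := Real.sqrt_pos.2 (CH3_cc_pos hw)
  have h4 : 0 < 1 + p.2.1 := by linarith
  positivity

lemma CH3_ds1 {p : E7} (hp : p ∈ M7) (hw : ww p < 1 / 8) : DifferentiableAt ℝ s1 p := by
  have hs : DifferentiableAt ℝ (fun P => √(cc P)) p :=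
    (CH3_dcc hp).sqrt (CH3_cc_pos hw).ne'
  have h : DifferentiableAt ℝ (fun P => mm P / √(cc P + √(cc P) * qq P)) p :=
    by
      have hd : DifferentiableAt ℝ (fun P => cc P + √(cc P) * qq P) p :=
        (CH3_dcc hp).add (hs.mul (CH3_dqq hp))
      exact CH3_div (CH3_dmm hp) (hd.sqrt (CH3_den_pos hp hw).ne')
        (Real.sqrt_pos.2 (CH3_den_pos hp hw)).ne'
  exact h

lemma CH3_dG {p : E7} (hp : p ∈ M7) (hw : ww p < 1 / 8) :
    DifferentiableAt ℝ (fun P : E7 => √(2 * nn P) * (1 + P.2.1) * √(cc P)) p := by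
  have hs : DifferentiableAt ℝ (fun P => √(cc P)) p :=
    (CH3_dcc hp).sqrt (CH3_cc_pos hw).ne'
  exact ((CH3_dS hp).mul (by fun_prop)).mul hs

lemma CH3_dgg {p : E7} (hp : p ∈ M7) (hw : ww p < 1 / 8) : DifferentiableAt ℝ gg p := by
  have h : DifferentiableAt ℝ
      (fun P : E7 => 1 / √(√(2 * nn P) * (1 + P.2.1) * √(cc P))) p :=
    CH3_div (differentiableAt_const _) ((CH3_dG hp hw).sqrt (CH3_G_pos hp hw).ne')
      (Real.sqrt_pos.2 (CH3_G_pos hp hw)).ne'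
  exact h

/-! ### radii -/

lemma CH3_n3_pos {P : E7} (hP : P ∈ O7) : 0 < P.1.1 ^ 2 + P.1.2.1 ^ 2 + P.1.2.2 ^ 2 := by
  have h := hP.1
  by_contra h0
  apply h
  have h1 : P.1.1 ^ 2 = 0 := by nlinarith [sq_nonneg P.1.1, sq_nonneg P.1.2.1, sq_nonneg P.1.2.2]
  have h2 : P.1.2.1 ^ 2 = 0 := by nlinarith [sq_nonneg P.1.1, sq_nonneg P.1.2.1, sq_nonneg P.1.2.2]
  have h3 : P.1.2.2 ^ 2 = 0 := by nlinarith [sq_nonneg P.1.1, sq_nonneg P.1.2.1, sq_nonneg P.1.2.2]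
  rw [pow_eq_zero_iff (two_ne_zero)] at h1 h2 h3
  exact Prod.ext h1 (Prod.ext h2 h3)

lemma CH3_n4_pos {P : E7} (hP : P ∈ O7) :
    0 < P.2.1 ^ 2 + P.2.2.1 ^ 2 + P.2.2.2.1 ^ 2 + P.2.2.2.2 ^ 2 := by
  have h := hP.2
  by_contra h0
  apply h
  have h1 : P.2.1 ^ 2 = 0 := by
    nlinarith [sq_nonneg P.2.1, sq_nonneg P.2.2.1, sq_nonneg P.2.2.2.1, sq_nonneg P.2.2.2.2]
  have h2 : P.2.2.1 ^ 2 = 0 := by
    nlinarith [sq_nonneg P.2.1, sq_nonneg P.2.2.1, sq_nonneg P.2.2.2.1, sq_nonneg P.2.2.2.2]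
  have h3 : P.2.2.2.1 ^ 2 = 0 := by
    nlinarith [sq_nonneg P.2.1, sq_nonneg P.2.2.1, sq_nonneg P.2.2.2.1, sq_nonneg P.2.2.2.2]
  have h4 : P.2.2.2.2 ^ 2 = 0 := by
    nlinarith [sq_nonneg P.2.1, sq_nonneg P.2.2.1, sq_nonneg P.2.2.2.1, sq_nonneg P.2.2.2.2]
  rw [pow_eq_zero_iff (two_ne_zero)] at h1 h2 h3 h4
  exact Prod.ext h1 (Prod.ext h2 (Prod.ext h3 h4))

lemma CH3_proj (p v : E7) :
    CH3_D (fun P : E7 => P.1.1) p v v.1.1 ∧ CH3_D (fun P : E7 => P.1.2.1) p v v.1.2.1 ∧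
    CH3_D (fun P : E7 => P.1.2.2) p v v.1.2.2 ∧ CH3_D (fun P : E7 => P.2.1) p v v.2.1 ∧
    CH3_D (fun P : E7 => P.2.2.1) p v v.2.2.1 ∧ CH3_D (fun P : E7 => P.2.2.2.1) p v v.2.2.2.1 ∧
    CH3_D (fun P : E7 => P.2.2.2.2) p v v.2.2.2.2 := by
  have f1 : HasFDerivAt (fun P : E7 => P.1.1)
      ((ContinuousLinearMap.fst ℝ ℝ (ℝ × ℝ)).comp (ContinuousLinearMap.fst ℝ R3 R4)) p :=
    ((ContinuousLinearMap.fst ℝ ℝ (ℝ × ℝ)).comp (ContinuousLinearMap.fst ℝ R3 R4)).hasFDerivAt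
  have f2 : HasFDerivAt (fun P : E7 => P.1.2.1)
      ((ContinuousLinearMap.fst ℝ ℝ ℝ).comp ((ContinuousLinearMap.snd ℝ ℝ (ℝ × ℝ)).comp
        (ContinuousLinearMap.fst ℝ R3 R4))) p :=
    ((ContinuousLinearMap.fst ℝ ℝ ℝ).comp ((ContinuousLinearMap.snd ℝ ℝ (ℝ × ℝ)).comp
        (ContinuousLinearMap.fst ℝ R3 R4))).hasFDerivAt
  have f3 : HasFDerivAt (fun P : E7 => P.1.2.2)
      ((ContinuousLinearMap.snd ℝ ℝ ℝ).comp ((ContinuousLinearMap.snd ℝ ℝ (ℝ × ℝ)).comp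
        (ContinuousLinearMap.fst ℝ R3 R4))) p :=
    ((ContinuousLinearMap.snd ℝ ℝ ℝ).comp ((ContinuousLinearMap.snd ℝ ℝ (ℝ × ℝ)).comp
        (ContinuousLinearMap.fst ℝ R3 R4))).hasFDerivAt
  have f4 : HasFDerivAt (fun P : E7 => P.2.1)
      ((ContinuousLinearMap.fst ℝ ℝ (ℝ × ℝ × ℝ)).comp (ContinuousLinearMap.snd ℝ R3 R4)) p :=
    ((ContinuousLinearMap.fst ℝ ℝ (ℝ × ℝ × ℝ)).comp (ContinuousLinearMap.snd ℝ R3 R4)).hasFDerivAt
  have f5 : HasFDerivAt (fun P : E7 => P.2.2.1)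
      ((ContinuousLinearMap.fst ℝ ℝ (ℝ × ℝ)).comp
        ((ContinuousLinearMap.snd ℝ ℝ (ℝ × ℝ × ℝ)).comp (ContinuousLinearMap.snd ℝ R3 R4))) p :=
    ((ContinuousLinearMap.fst ℝ ℝ (ℝ × ℝ)).comp
        ((ContinuousLinearMap.snd ℝ ℝ (ℝ × ℝ × ℝ)).comp (ContinuousLinearMap.snd ℝ R3 R4))).hasFDerivAt
  have f6 : HasFDerivAt (fun P : E7 => P.2.2.2.1)
      ((ContinuousLinearMap.fst ℝ ℝ ℝ).comp ((ContinuousLinearMap.snd ℝ ℝ (ℝ × ℝ)).comp
        ((ContinuousLinearMap.snd ℝ ℝ (ℝ × ℝ × ℝ)).comp (ContinuousLinearMap.snd ℝ R3 R4)))) p :=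
    ((ContinuousLinearMap.fst ℝ ℝ ℝ).comp ((ContinuousLinearMap.snd ℝ ℝ (ℝ × ℝ)).comp
        ((ContinuousLinearMap.snd ℝ ℝ (ℝ × ℝ × ℝ)).comp (ContinuousLinearMap.snd ℝ R3 R4)))).hasFDerivAt
  have f7 : HasFDerivAt (fun P : E7 => P.2.2.2.2)
      ((ContinuousLinearMap.snd ℝ ℝ ℝ).comp ((ContinuousLinearMap.snd ℝ ℝ (ℝ × ℝ)).comp
        ((ContinuousLinearMap.snd ℝ ℝ (ℝ × ℝ × ℝ)).comp (ContinuousLinearMap.snd ℝ R3 R4)))) p :=
    ((ContinuousLinearMap.snd ℝ ℝ ℝ).comp ((ContinuousLinearMap.snd ℝ ℝ (ℝ × ℝ)).comp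
        ((ContinuousLinearMap.snd ℝ ℝ (ℝ × ℝ × ℝ)).comp (ContinuousLinearMap.snd ℝ R3 R4)))).hasFDerivAt
  exact ⟨⟨f1.differentiableAt, by rw [f1.fderiv]; rfl⟩,
    ⟨f2.differentiableAt, by rw [f2.fderiv]; rfl⟩, ⟨f3.differentiableAt, by rw [f3.fderiv]; rfl⟩,
    ⟨f4.differentiableAt, by rw [f4.fderiv]; rfl⟩, ⟨f5.differentiableAt, by rw [f5.fderiv]; rfl⟩,
    ⟨f6.differentiableAt, by rw [f6.fderiv]; rfl⟩, ⟨f7.differentiableAt, by rw [f7.fderiv]; rfl⟩⟩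

lemma CH3_n3 {P V : E7} (hP : P ∈ O7) (hV : Tan (pr P) V) :
    CH3_D (fun P : E7 => n3 P.1) P (sc P V) 0 := by
  obtain ⟨f1, f2, f3, -⟩ := CH3_proj P (sc P V)
  have h := (((f1.mul f1).add (f2.mul f2)).add (f3.mul f3)).sqrt
    (by have := CH3_n3_pos hP; nlinarith)
  have he : (fun y : E7 => √(y.1.1 * y.1.1 + y.1.2.1 * y.1.2.1 + y.1.2.2 * y.1.2.2)) =
      fun P : E7 => n3 P.1 := by
    funext y; unfold n3; congr 1; ring
  rw [he] at h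
  refine h.of_eq ?_
  have hn : n3 P.1 ≠ 0 := (Real.sqrt_pos.2 (CH3_n3_pos hP)).ne'
  have h1 := hV.1
  simp only [dot3, pr, Prod.smul_fst, Prod.smul_snd, smul_eq_mul] at h1
  have h2 : P.1.1 * V.1.1 + P.1.2.1 * V.1.2.1 + P.1.2.2 * V.1.2.2 = 0 := by
    have : (n3 P.1)⁻¹ * (P.1.1 * V.1.1 + P.1.2.1 * V.1.2.1 + P.1.2.2 * V.1.2.2) = 0 := by
      rw [← h1]; ring
    exact (mul_eq_zero.1 this).resolve_left (inv_ne_zero hn)
  rw [div_eq_zero_iff]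
  left
  simp only [sc, Prod.smul_fst, Prod.smul_snd, smul_eq_mul]
  linear_combination 2 * n3 P.1 * h2

lemma CH3_n4 {P V : E7} (hP : P ∈ O7) (hV : Tan (pr P) V) :
    CH3_D (fun P : E7 => n4 P.2) P (sc P V) 0 := by
  obtain ⟨-, -, -, f1, f2, f3, f4⟩ := CH3_proj P (sc P V)
  have h := ((((f1.mul f1).add (f2.mul f2)).add (f3.mul f3)).add (f4.mul f4)).sqrt
    (by have := CH3_n4_pos hP; nlinarith)
  have he : (fun y : E7 => √(y.2.1 * y.2.1 + y.2.2.1 * y.2.2.1 + y.2.2.2.1 * y.2.2.2.1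
      + y.2.2.2.2 * y.2.2.2.2)) = fun P : E7 => n4 P.2 := by
    funext y; unfold n4; congr 1; ring
  rw [he] at h
  refine h.of_eq ?_
  have hn : n4 P.2 ≠ 0 := (Real.sqrt_pos.2 (CH3_n4_pos hP)).ne'
  have h1 := hV.2
  simp only [dot4, pr, Prod.smul_fst, Prod.smul_snd, smul_eq_mul] at h1
  have h2 : P.2.1 * V.2.1 + P.2.2.1 * V.2.2.1 + P.2.2.2.1 * V.2.2.2.1
      + P.2.2.2.2 * V.2.2.2.2 = 0 := by
    have : (n4 P.2)⁻¹ * (P.2.1 * V.2.1 + P.2.2.1 * V.2.2.1 + P.2.2.2.1 * V.2.2.2.1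
      + P.2.2.2.2 * V.2.2.2.2) = 0 := by
      rw [← h1]; ring
    exact (mul_eq_zero.1 this).resolve_left (inv_ne_zero hn)
  rw [div_eq_zero_iff]
  left
  simp only [sc, Prod.smul_fst, Prod.smul_snd, smul_eq_mul]
  linear_combination 2 * n4 P.2 * h2

lemma CH3_comp {F : E7 → ℝ} {P V : E7} (hP : P ∈ O7) (hV : Tan (pr P) V)
    (hF : DifferentiableAt ℝ F (pr P)) :
    CH3_D (fun Q => F (pr Q)) P (sc P V) (fderiv ℝ F (pr P) V) := by
  have hpr : DifferentiableAt ℝ pr P :=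
    (pr_smooth.contDiffAt (O7_open.mem_nhds hP)).differentiableAt (by simp)
  have h := hF.hasFDerivAt.comp P hpr.hasFDerivAt
  refine ⟨h.differentiableAt, ?_⟩
  have h2 : fderiv ℝ (fun Q => F (pr Q)) P = (fderiv ℝ F (pr P)).comp (fderiv ℝ pr P) := h.fderiv
  rw [h2, ContinuousLinearMap.comp_apply, fderiv_pr hP hV]

/-- chain rule through `pr`: for a field tangent to the spheres, the derivative of `ch` along the
homogeneous extension is computed at the normalised point. -/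
lemma fderiv_ch {P V : E7} (hP : P ∈ O1) (hV : Tan (pr P) V) :
    fderiv ℝ ch P (sc P V) =
      ((fderiv ℝ w1 (pr P) V, fderiv ℝ w2 (pr P) V, 0),
       (n4 P.2 * fderiv ℝ s1 (pr P) V,
        n4 P.2 * fderiv ℝ (fun p => gg p * p.2.2.1) (pr P) V,
        n4 P.2 * fderiv ℝ (fun p => gg p * p.2.2.2.1) (pr P) V,
        n4 P.2 * fderiv ℝ (fun p => gg p * p.2.2.2.2) (pr P) V)) := by
  have hP7 : P ∈ O7 := hP.1
  have hp : pr P ∈ M7 := pr_mem hP7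
  have hw : ww (pr P) < 1 / 8 := hP.2
  obtain ⟨-, -, -, -, p5, p6, p7⟩ := CH3_proj (pr P) V
  have g1 := CH3_comp hP7 hV (CH3_dw1 hp)
  have g2 := CH3_comp hP7 hV (CH3_dw2 hp)
  have g3 := CH3_n3 hP7 hV
  have g4 := (CH3_n4 hP7 hV).mul (CH3_comp hP7 hV (CH3_ds1 hp hw))
  have g5 := (CH3_n4 hP7 hV).mul (CH3_comp (F := fun p => gg p * p.2.2.1) hP7 hV
    ((CH3_dgg hp hw).mul p5.diff))
  have g6 := (CH3_n4 hP7 hV).mul (CH3_comp (F := fun p => gg p * p.2.2.2.1) hP7 hV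
    ((CH3_dgg hp hw).mul p6.diff))
  have g7 := (CH3_n4 hP7 hV).mul (CH3_comp (F := fun p => gg p * p.2.2.2.2) hP7 hV
    ((CH3_dgg hp hw).mul p7.diff))
  have h : HasFDerivAt ch _ P :=
    (g1.diff.hasFDerivAt.prodMk (g2.diff.hasFDerivAt.prodMk g3.diff.hasFDerivAt)).prodMk
      (g4.diff.hasFDerivAt.prodMk (g5.diff.hasFDerivAt.prodMk
        (g6.diff.hasFDerivAt.prodMk g7.diff.hasFDerivAt)))
  rw [h.fderiv]
  simp only [ContinuousLinearMap.prod_apply]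
  rw [g1.eq, g2.eq, g3.eq, g4.eq, g5.eq, g6.eq, g7.eq]
  simp only [mul_zero, add_zero]

/-! ### the rotation `Th` -/

lemma CH3_Th_nn (p : E7) : CH3_D nn p (Th p) 0 := by
  obtain ⟨f1, f2, f3, f4, f5, f6, f7⟩ := CH3_proj p (Th p)
  have h := ((CH3_D.cst (p := p) (v := Th p) 1).add (f4.mul f4)).add
    ((((CH3_D.cst (p := p) (v := Th p) 1).add ((f4.mul f4).cmul (-1))).mul f1).cmul sa)
  have he : (fun y : E7 => 1 + y.2.1 * y.2.1 + sa * ((1 + -1 * (y.2.1 * y.2.1)) * y.1.1)) = nn := by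
    funext y; unfold nn; ring
  rw [he] at h
  refine h.of_eq ?_
  simp [Th]

lemma CH3_Th_S {p : E7} (hp : p ∈ M7) : CH3_D (fun P => √(2 * nn P)) p (Th p) 0 := by
  refine (((CH3_Th_nn p).cmul 2).sqrt (by have := nn_pos hp; positivity)).of_eq ?_
  simp

lemma CH3_Th_div {F : E7 → ℝ} {p : E7} (hp : p ∈ M7) (hF : CH3_D F p (Th p) 0) :
    CH3_D (fun P => F P / √(2 * nn P)) p (Th p) 0 := by
  have h := hF.mul ((CH3_Th_S hp).inv (CH3_S_pos hp).ne')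
  have he : (fun P => F P / √(2 * nn P)) = fun y => F y * (√(2 * nn y))⁻¹ := by
    funext y; rw [div_eq_mul_inv]
  rw [he]
  exact h.of_eq (by simp)

lemma CH3_Th_all {p : E7} (hp : p ∈ M7) : CH3_D w1 p (Th p) 0 ∧ CH3_D w2 p (Th p) 0 ∧
    CH3_D mm p (Th p) 0 ∧ CH3_D qq p (Th p) 0 := by
  obtain ⟨f1, f2, f3, f4, f5, f6, f7⟩ := CH3_proj p (Th p)
  have c1 := CH3_D.cst (p := p) (v := Th p) 1
  have e1 : CH3_D (fun P : E7 => (1 - P.2.1) + √2 * (1 + P.2.1) * P.1.1) p (Th p) 0 := by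
    have h := (c1.add (f4.cmul (-1))).add ((((c1.add f4).mul f1)).cmul √2)
    have he : (fun y : E7 => (1 + -1 * y.2.1) + √2 * ((1 + y.2.1) * y.1.1)) =
        fun P : E7 => (1 - P.2.1) + √2 * (1 + P.2.1) * P.1.1 := by funext y; ring
    rw [he] at h
    exact h.of_eq (by simp [Th])
  have e2 : CH3_D (fun P : E7 => √2 * (1 + P.2.1) * P.1.2.1) p (Th p) 0 := by
    have h := (((c1.add f4).mul f2)).cmul √2
    have he : (fun y : E7 => √2 * ((1 + y.2.1) * y.1.2.1)) =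
        fun P : E7 => √2 * (1 + P.2.1) * P.1.2.1 := by funext y; ring
    rw [he] at h
    exact h.of_eq (by simp [Th])
  have e3 : CH3_D (fun P : E7 => √2 * (1 + P.2.1) * P.1.2.2) p (Th p) 0 := by
    have h := (((c1.add f4).mul f3)).cmul √2
    have he : (fun y : E7 => √2 * ((1 + y.2.1) * y.1.2.2)) =
        fun P : E7 => √2 * (1 + P.2.1) * P.1.2.2 := by funext y; ring
    rw [he] at h
    exact h.of_eq (by simp [Th])
  have e4 : CH3_D (fun P : E7 => 1 - P.2.1) p (Th p) 0 := by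
    have h := c1.add (f4.cmul (-1))
    have he : (fun y : E7 => 1 + -1 * y.2.1) = fun P : E7 => 1 - P.2.1 := by funext y; ring
    rw [he] at h
    exact h.of_eq (by simp [Th])
  exact ⟨CH3_Th_div hp e1, CH3_Th_div hp e2, CH3_Th_div hp e3, CH3_Th_div hp e4⟩

lemma CH3_cc_of {p v : E7} {a b : ℝ} (h1 : CH3_D w1 p v a) (h2 : CH3_D w2 p v b)
    (h : w1 p * a + w2 p * b = 0) : CH3_D cc p v 0 := by
  have g := (CH3_D.cst (p := p) (v := v) 2).add (((h1.mul h1).add (h2.mul h2)).cmul (-1))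
  have he : (fun y => 2 + -1 * (w1 y * w1 y + w2 y * w2 y)) = cc := by
    funext y; unfold cc ww; ring
  rw [he] at g
  exact g.of_eq (by linear_combination (-2) * h)

lemma CH3_s1_of {p v : E7} (hp : p ∈ M7) (hw : ww p < 1 / 8) (hc : CH3_D cc p v 0)
    (hm : CH3_D mm p v 0) (hq : CH3_D qq p v 0) : CH3_D s1 p v 0 := by
  have hs := hc.sqrt (CH3_cc_pos hw).ne'
  have h := hm.mul (((hc.add (hs.mul hq)).sqrt (CH3_den_pos hp hw).ne').inv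
    (Real.sqrt_pos.2 (CH3_den_pos hp hw)).ne')
  have he : (fun y => mm y * (√(cc y + √(cc y) * qq y))⁻¹) = s1 := by
    funext y; unfold s1; rw [div_eq_mul_inv]
  rw [he] at h
  exact h.of_eq (by simp)

/-- derivative of `gg` from those of `√(2n)`, `τ` and `cc`. -/
lemma CH3_gg_of {p v : E7} (hp : p ∈ M7) (hw : ww p < 1 / 8) {a t : ℝ}
    (hS : CH3_D (fun P => √(2 * nn P)) p v (a * √(2 * nn p))) (ht : CH3_D (fun P : E7 => P.2.1) p v t)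
    (hc : CH3_D cc p v 0) :
    CH3_D gg p v (-(1 / 2) * (a + t / (1 + p.2.1)) * gg p) := by
  have hs := hc.sqrt (CH3_cc_pos hw).ne'
  have h1 := (hS.mul ((CH3_D.cst (p := p) (v := v) 1).add ht)).mul hs
  have h := (h1.sqrt (CH3_G_pos hp hw).ne').inv (Real.sqrt_pos.2 (CH3_G_pos hp hw)).ne'
  have he : (fun y : E7 => (√(√(2 * nn y) * (1 + y.2.1) * √(cc y)))⁻¹) = gg := by
    funext y; unfold gg; rw [one_div]
  rw [he] at h
  refine h.of_eq ?_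
  have hG := CH3_G_pos hp hw
  have h2 : gg p = (√(√(2 * nn p) * (1 + p.2.1) * √(cc p)))⁻¹ := by unfold gg; rw [one_div]
  rw [h2]
  set G := √(2 * nn p) * (1 + p.2.1) * √(cc p) with hGdef
  have hR := Real.sqrt_pos.2 hG
  have hR2 : √G ^ 2 = G := Real.sq_sqrt hG.le
  have h4 : 0 < 1 + p.2.1 := by have := tau_gt hp hw; linarith
  have hnum : √(2 * nn p) * (1 + p.2.1) * (0 / (2 * √(cc p))) +
      √(cc p) * (√(2 * nn p) * (0 + t) + (1 + p.2.1) * (a * √(2 * nn p))) =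
      (a + t / (1 + p.2.1)) * G := by
    rw [zero_div, mul_zero, zero_add, zero_add, hGdef]
    field_simp
    ring
  rw [hnum, hR2]
  field_simp

lemma CH3_Th_gg {p : E7} (hp : p ∈ M7) (hw : ww p < 1 / 8) : CH3_D gg p (Th p) 0 := by
  obtain ⟨h1, h2, h3, h4⟩ := CH3_Th_all hp
  obtain ⟨-, -, -, f4, -⟩ := CH3_proj p (Th p)
  have hc := CH3_cc_of h1 h2 (by simp)
  refine (CH3_gg_of (a := 0) hp hw ((CH3_Th_S hp).of_eq (by simp)) f4 hc).of_eq ?_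
  simp [Th]

lemma CH3_Th_tan (p : E7) : Tan p (Th p) := by
  constructor
  · simp [dot3, Th]
  · simp only [dot4, Th]; ring

lemma CH3_sc_Th {P : E7} (hP : P ∈ O7) : sc P (Th (pr P)) = Th P := by
  have hn : n4 P.2 ≠ 0 := (Real.sqrt_pos.2 (CH3_n4_pos hP)).ne'
  simp only [sc, Th, pr, Prod.smul_mk, Prod.smul_fst, Prod.smul_snd, smul_eq_mul, mul_zero]
  rw [mul_neg, mul_inv_cancel_left₀ hn, mul_inv_cancel_left₀ hn]

theorem ch_Th : ∀ P ∈ O1, fderiv ℝ ch P (Th P) = Th (ch P) := by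
  intro P hP
  have hP7 : P ∈ O7 := hP.1
  have hp : pr P ∈ M7 := pr_mem hP7
  have hw : ww (pr P) < 1 / 8 := hP.2
  obtain ⟨h1, h2, h3, h4⟩ := CH3_Th_all hp
  obtain ⟨-, -, -, -, f5, f6, f7⟩ := CH3_proj (pr P) (Th (pr P))
  have hg := CH3_Th_gg hp hw
  have hc := CH3_cc_of h1 h2 (by simp)
  rw [← CH3_sc_Th hP7, fderiv_ch hP (CH3_Th_tan _), h1.eq, h2.eq, (CH3_s1_of hp hw hc h3 h4).eq,
    (hg.mul f5).eq, (hg.mul f6).eq, (hg.mul f7).eq]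
  simp only [Th, ch, mul_zero, add_zero, mul_neg]

/-! ### the field `u` -/

lemma CH3_U_S {p : E7} (hp : p ∈ M7) :
    CH3_D (fun P => √(2 * nn P)) p (fU p) (-(cU p * (1 + p.2.1)) * √(2 * nn p)) := by
  have hn := nn_pos hp
  have h0 : CH3_D nn p (fU p) (-2 * cU p * (1 + p.2.1) * nn p) := ⟨CH3_dnn p, dU_nn hp⟩
  refine ((h0.cmul 2).sqrt (by positivity)).of_eq ?_
  have hS := CH3_S_pos hp
  have hS2 : √(2 * nn p) ^ 2 = 2 * nn p := Real.sq_sqrt (by positivity)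
  rw [div_eq_iff (by positivity)]
  linear_combination 2 * cU p * (1 + p.2.1) * hS2

lemma CH3_U_all {p : E7} (hp : p ∈ M7) : CH3_D w1 p (fU p) (-((1 + p.2.1) * w2 p)) ∧
    CH3_D w2 p (fU p) ((1 + p.2.1) * w1 p) ∧ CH3_D mm p (fU p) 0 ∧ CH3_D qq p (fU p) 0 :=
  ⟨⟨CH3_dw1 hp, dU_w1 hp⟩, ⟨CH3_dw2 hp, dU_w2 hp⟩, ⟨CH3_dmm hp, dU_mm hp⟩,
    ⟨CH3_dqq hp, dU_qq hp⟩⟩

lemma CH3_U_gg {p : E7} (hp : p ∈ M7) (hw : ww p < 1 / 8) :
    CH3_D gg p (fU p) (cU p * p.2.1 * gg p) := by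
  obtain ⟨h1, h2, h3, h4⟩ := CH3_U_all hp
  obtain ⟨-, -, -, f4, -⟩ := CH3_proj p (fU p)
  have hc := CH3_cc_of h1 h2 (by ring)
  refine (CH3_gg_of hp hw (CH3_U_S hp) f4 hc).of_eq ?_
  have h4 : 0 < 1 + p.2.1 := by have := tau_gt hp hw; linarith
  have h5 : (fU p).2.1 / (1 + p.2.1) = cU p * (1 - p.2.1) := by
    rw [div_eq_iff h4.ne']
    simp only [fU]
    ring
  rw [h5]
  ring

theorem ch_u : ∀ P ∈ O1, fderiv ℝ ch P (hom u1 P) = zu (ch P) := by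
  intro P hP
  have hP7 : P ∈ O7 := hP.1
  have hp : pr P ∈ M7 := pr_mem hP7
  have hw : ww (pr P) < 1 / 8 := hP.2
  have ht : 0 < 1 + (pr P).2.1 := by have := tau_gt hp hw; linarith
  obtain ⟨k1, k2, -⟩ := cut_chart hp hw
  have hu : u1 (pr P) = (1 + (pr P).2.1)⁻¹ • fU (pr P) - Th (pr P) := by
    unfold u1 psi1
    rw [k1, k2]
    simp
  obtain ⟨h1, h2, h3, h4⟩ := CH3_Th_all hp
  obtain ⟨-, -, -, -, f5, f6, f7⟩ := CH3_proj (pr P) (Th (pr P))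
  have hg := CH3_Th_gg hp hw
  have hc := CH3_cc_of h1 h2 (by simp)
  obtain ⟨H1, H2, H3, H4⟩ := CH3_U_all hp
  obtain ⟨-, -, -, -, F5, F6, F7⟩ := CH3_proj (pr P) (fU (pr P))
  have Hg := CH3_U_gg hp hw
  have Hc := CH3_cc_of H1 H2 (by ring)
  have hom_eq : hom u1 P = sc P (u1 (pr P)) := rfl
  rw [hom_eq, fderiv_ch hP (u1_tan _ hp), hu]
  simp only [map_sub, map_smul]
  rw [h1.eq, h2.eq, (CH3_s1_of hp hw hc h3 h4).eq,
    (hg.mul f5).eq, (hg.mul f6).eq, (hg.mul f7).eq, H1.eq, H2.eq,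
    (CH3_s1_of hp hw Hc H3 H4).eq, (Hg.mul F5).eq, (Hg.mul F6).eq, (Hg.mul F7).eq]
  simp only [smul_eq_mul]
  have e1 : (1 + (pr P).2.1)⁻¹ * (1 + (pr P).2.1) = 1 := inv_mul_cancel₀ ht.ne'
  simp only [zu, ch, Th, fU]
  refine Prod.ext (Prod.ext ?_ (Prod.ext ?_ ?_)) (Prod.ext ?_ (Prod.ext ?_ (Prod.ext ?_ ?_)))
  · simp only; linear_combination (-(w2 (pr P))) * e1
  · simp only; linear_combination (w1 (pr P)) * e1
  · simp
  · simp
  · simp only; ring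
  · simp only; ring
  · simp only; ring

end S7Pair
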