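import Pool.Agent.S7Pair.TabW
import Pool.Agent.S7Pair.Ch3

/-! # Module CH4: `v` in the chart -/

open scoped ContDiff Topology
open VectorField Set Filter

noncomputable section

namespace S7Pair

lemma CH4_dir {f : E7 → ℝ} {p v : E7} (hf : DifferentiableAt ℝ f p) :
    HasDerivAt (fun t : ℝ => f (p + t • v)) (fderiv ℝ f p v) 0 := by
  have h1 : HasDerivAt (fun t : ℝ => p + t • v) v 0 := by
    have := ((hasDerivAt_id (0 : ℝ)).smul_const v).const_add p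
    simpa using this
  have h2 : HasFDerivAt f (fderiv ℝ f p) (p + (0 : ℝ) • v) := by simpa using hf.hasFDerivAt
  exact h2.comp_hasDerivAt (0 : ℝ) h1

lemma CH4_dir' {f : E7 → ℝ} {p v : E7} (hf : DifferentiableAt ℝ f p) {d : ℝ}
    (h : HasDerivAt (fun t : ℝ => f (p + t • v)) d 0) : fderiv ℝ f p v = d :=
  (CH4_dir hf).unique h

lemma CH4_div {f g : E7 → ℝ} {p : E7} (hf : DifferentiableAt ℝ f p) (hg : DifferentiableAt ℝ g p)
    (h0 : g p ≠ 0) : DifferentiableAt ℝ (fun P => f P / g P) p := by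
  simp only [div_eq_mul_inv]
  exact hf.fun_mul (hg.fun_inv h0)

lemma CH4_nnd (p : E7) : DifferentiableAt ℝ nn p := by
  unfold nn; fun_prop

lemma CH4_Sd {p : E7} (hp : p ∈ M7) : DifferentiableAt ℝ (fun P => √(2 * nn P)) p := by
  have h := nn_pos hp
  exact ((CH4_nnd p).const_mul 2).sqrt (by positivity)

lemma CH4_S0 {p : E7} (hp : p ∈ M7) : √(2 * nn p) ≠ 0 := by
  have h := nn_pos hp
  positivity

lemma CH4_w1d {p : E7} (hp : p ∈ M7) : DifferentiableAt ℝ w1 p := by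
  have h1 := CH4_Sd hp
  have h2 := CH4_S0 hp
  unfold w1
  refine CH4_div ?_ h1 h2
  fun_prop

lemma CH4_w2d {p : E7} (hp : p ∈ M7) : DifferentiableAt ℝ w2 p := by
  have h1 := CH4_Sd hp
  have h2 := CH4_S0 hp
  unfold w2
  refine CH4_div ?_ h1 h2
  fun_prop

lemma CH4_mmd {p : E7} (hp : p ∈ M7) : DifferentiableAt ℝ mm p := by
  have h1 := CH4_Sd hp
  have h2 := CH4_S0 hp
  unfold mm
  refine CH4_div ?_ h1 h2
  fun_prop

lemma CH4_qqd {p : E7} (hp : p ∈ M7) : DifferentiableAt ℝ qq p := by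
  have h1 := CH4_Sd hp
  have h2 := CH4_S0 hp
  unfold qq
  refine CH4_div ?_ h1 h2
  fun_prop

lemma CH4_ccd {p : E7} (hp : p ∈ M7) : DifferentiableAt ℝ cc p := by
  unfold cc ww
  exact (((CH4_w1d hp).pow 2).add ((CH4_w2d hp).pow 2)).const_sub 2

/-- basic positivity facts. -/
lemma CH4_pos {p : E7} (hp : p ∈ M7) (hw : ww p < 1 / 8) :
    0 < cc p ∧ 0 < √(cc p) ∧ √(cc p) ^ 2 = cc p ∧ 0 ≤ qq p ∧ 0 < cc p + √(cc p) * qq p ∧
      mm p ^ 2 = cc p - qq p ^ 2 := by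
  have h1 : 0 < cc p := by unfold cc; linarith
  have h2 : 0 < √(cc p) := Real.sqrt_pos.2 h1
  have h3 := qq_nonneg hp
  have h4 := alg_hyp hp
  refine ⟨h1, h2, Real.sq_sqrt h1.le, h3, by positivity, ?_⟩
  unfold cc ww; linarith

lemma CH4_dcc {p : E7} (hp : p ∈ M7) :
    fderiv ℝ cc p (fW p) = √(2 * nn p) * mm p * ww p := by
  apply CH4_dir' (CH4_ccd hp)
  have a1 := CH4_dir (v := fW p) (CH4_w1d hp)
  have a2 := CH4_dir (v := fW p) (CH4_w2d hp)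
  have h := ((a1.pow 2).add (a2.pow 2)).const_sub 2
  have e : (fun t : ℝ => cc (p + t • fW p)) =
      fun t : ℝ => 2 - ((fun t : ℝ => w1 (p + t • fW p)) ^ 2 +
        (fun t : ℝ => w2 (p + t • fW p)) ^ 2) t := by
    funext t; simp [cc, ww]
  rw [e]
  refine h.congr_deriv ?_
  rw [dW_w1 hp, dW_w2 hp]
  simp only [zero_smul, add_zero, ww]
  push_cast
  ring

lemma CH4_one {M Q C : ℝ → ℝ} {M' Q' C' : ℝ} (hM : HasDerivAt M M' 0) (hQ : HasDerivAt Q Q' 0)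
    (hC : HasDerivAt C C' 0) (hC0 : C 0 ≠ 0) (hE0 : C 0 + √(C 0) * Q 0 ≠ 0)
    (hE1 : √(C 0 + √(C 0) * Q 0) ≠ 0) :
    HasDerivAt (fun t => M t / √(C t + √(C t) * Q t))
      ((M' * √(C 0 + √(C 0) * Q 0) - M 0 * ((C' + (C' / (2 * √(C 0)) * Q 0 + √(C 0) * Q')) /
        (2 * √(C 0 + √(C 0) * Q 0)))) / √(C 0 + √(C 0) * Q 0) ^ 2) 0 := by
  have a4 := hC.sqrt hC0
  have a5 : HasDerivAt (fun t => C t + √(C t) * Q t) (C' + (C' / (2 * √(C 0)) * Q 0 + √(C 0) * Q')) 0 :=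
    hC.fun_add (a4.fun_mul hQ)
  exact hM.fun_div (a5.sqrt hE0) hE1

/-- derivative of `s1`. -/
lemma CH4_s1 {p : E7} (hp : p ∈ M7) (hw : ww p < 1 / 8) :
    DifferentiableAt ℝ s1 p ∧
    fderiv ℝ s1 p (fW p) = -(1 / 2 * √(2 * nn p) * (1 - ww p) * qq p * (√(cc p) + qq p) /
      (cc p * √(cc p + √(cc p) * qq p))) := by
  obtain ⟨hc, hr, hr2, hq, hE, hm⟩ := CH4_pos hp hw
  have hE0 : √(cc p + √(cc p) * qq p) ≠ 0 := by positivity
  have hd : DifferentiableAt ℝ s1 p := by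
    unfold s1
    refine CH4_div (CH4_mmd hp) ?_ hE0
    exact ((CH4_ccd hp).add (((CH4_ccd hp).sqrt hc.ne').mul (CH4_qqd hp))).sqrt hE.ne'
  refine ⟨hd, ?_⟩
  apply CH4_dir' hd
  have a1 := CH4_dir (v := fW p) (CH4_mmd hp)
  have a2 := CH4_dir (v := fW p) (CH4_qqd hp)
  have a3 := CH4_dir (v := fW p) (CH4_ccd hp)
  have hp0 : p + (0 : ℝ) • fW p = p := by simp
  have h := CH4_one a1 a2 a3 (by simp only [hp0]; exact hc.ne') (by simp only [hp0]; exact hE.ne')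
    (by simp only [hp0]; exact hE0)
  refine h.congr_deriv ?_
  rw [dW_mm hp, dW_qq hp, CH4_dcc hp]
  simp only [hp0]
  set r := √(cc p) with hrdef
  set E := √(cc p + r * qq p) with hEdef
  have hE2 : E ^ 2 = cc p + r * qq p := Real.sq_sqrt hE.le
  have hww : ww p = 2 - cc p := by unfold cc; ring
  have hE1 : 0 < E := Real.sqrt_pos.2 hE
  rw [hww]
  set S := √(2 * nn p) with hS
  set q := qq p with hq'
  set m := mm p with hm'
  rw [← hr2] at hm hE2 ⊢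
  have hrq : 0 < r + q := by positivity
  have key : (S * (1 - q ^ 2 - 1 / 2 * m ^ 2) * E - m * ((S * m * (2 - r ^ 2) +
      (S * m * (2 - r ^ 2) / (2 * r) * q + r * (1 / 2 * S * m * q))) / (2 * E))) * (r ^ 2 * E) =
      -(1 / 2 * S * (1 - (2 - r ^ 2)) * q * (r + q)) * E ^ 2 := by
    have hr0 : r ≠ 0 := hr.ne'
    have hE1' : E ≠ 0 := hE1.ne'
    field_simp
    rw [hE2, hm]
    ring
  have hE1' : E ≠ 0 := hE1.ne'
  have hr0 : r ≠ 0 := hr.ne'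
  rw [div_eq_iff (by positivity), eq_comm, ← neg_div, div_mul_eq_mul_div,
    div_eq_iff (by positivity)]
  linear_combination -key

lemma CH4_gone {S T C : ℝ → ℝ} {S' T' C' : ℝ} (hS : HasDerivAt S S' 0) (hT : HasDerivAt T T' 0)
    (hC : HasDerivAt C C' 0) (hS0 : 0 < S 0) (hT0 : 0 < T 0) (hC0 : 0 < C 0) :
    HasDerivAt (fun t => 1 / √(S t * T t * √(C t)))
      (-(1 / 2 * (S' / S 0 + T' / T 0 + 1 / 2 * (C' / C 0))) / √(S 0 * T 0 * √(C 0))) 0 := by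
  have hr := Real.sqrt_pos.2 hC0
  have hr2 : √(C 0) ^ 2 = C 0 := Real.sq_sqrt hC0.le
  have a1 := hC.sqrt hC0.ne'
  have a2 : HasDerivAt (fun t => S t * T t * √(C t)) ((S' * T 0 + S 0 * T') * √(C 0) +
      S 0 * T 0 * (C' / (2 * √(C 0)))) 0 := (hS.fun_mul hT).fun_mul a1
  have hE : 0 < S 0 * T 0 * √(C 0) := by positivity
  have hE1 := Real.sqrt_pos.2 hE
  have hE2 : √(S 0 * T 0 * √(C 0)) ^ 2 = S 0 * T 0 * √(C 0) := Real.sq_sqrt hE.le
  have a3 := (a2.sqrt hE.ne').fun_inv hE1.ne'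
  simp only [one_div]
  refine a3.congr_deriv ?_
  set r := √(C 0) with hrdef
  set E := √(S 0 * T 0 * r) with hEdef
  rw [← hr2]
  have h1 := hS0.ne'
  have h2 := hT0.ne'
  have h3 := hr.ne'
  have h4 := hE1.ne'
  field_simp
  rw [hE2]
  ring

lemma CH4_dS {p : E7} (hp : p ∈ M7) :
    fderiv ℝ (fun P => √(2 * nn P)) p (fW p) = cW p * (1 - p.2.1) * √(2 * nn p) := by
  have hn := nn_pos hp
  apply CH4_dir' (CH4_Sd hp)
  have hp0 : p + (0 : ℝ) • fW p = p := by simp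
  have a1 := ((CH4_dir (v := fW p) (CH4_nnd p)).const_mul 2).sqrt
    (by simp only [hp0]; positivity)
  refine a1.congr_deriv ?_
  simp only [hp0]
  rw [dW_nn hp]
  have hS : √(2 * nn p) ^ 2 = 2 * nn p := Real.sq_sqrt (by positivity)
  have hS0 : √(2 * nn p) ≠ 0 := CH4_S0 hp
  rw [div_eq_iff (by positivity)]
  linear_combination (-2 * cW p * (1 - p.2.1)) * hS

lemma CH4_gg {p : E7} (hp : p ∈ M7) (hw : ww p < 1 / 8) :
    DifferentiableAt ℝ gg p ∧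
    fderiv ℝ gg p (fW p) = -(cW p * (1 - p.2.1) + 1 / 4 * √(2 * nn p) * mm p * ww p / cc p) * gg p := by
  obtain ⟨hc, hr, hr2, hq, hE, hm⟩ := CH4_pos hp hw
  have hn := nn_pos hp
  have hS : 0 < √(2 * nn p) := by positivity
  have hτ : 0 < 1 + p.2.1 := by have := tau_gt hp hw; linarith
  have hτd : DifferentiableAt ℝ (fun P : E7 => 1 + P.2.1) p := by fun_prop
  have hd : DifferentiableAt ℝ gg p := by
    unfold gg
    refine CH4_div (by fun_prop) ?_ (by positivity)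
    exact (((CH4_Sd hp).fun_mul hτd).fun_mul ((CH4_ccd hp).sqrt hc.ne')).sqrt (by positivity)
  refine ⟨hd, ?_⟩
  apply CH4_dir' hd
  have hp0 : p + (0 : ℝ) • fW p = p := by simp
  have a1 := CH4_dir (v := fW p) (CH4_Sd hp)
  have a2 := CH4_dir (v := fW p) hτd
  have a3 := CH4_dir (v := fW p) (CH4_ccd hp)
  have h := CH4_gone a1 a2 a3 (by simp only [hp0]; exact hS) (by simp only [hp0]; exact hτ)
    (by simp only [hp0]; exact hc)
  refine h.congr_deriv ?_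
  simp only [hp0]
  have e1 : fderiv ℝ (fun P : E7 => 1 + P.2.1) p (fW p) = cW p * (1 - p.2.1 ^ 2) := by
    rw [← dW_tau p, fderiv_const_add]
  rw [e1, CH4_dS hp, CH4_dcc hp]
  unfold gg
  have h1 := hS.ne'
  have h2 := hτ.ne'
  have h3 := hc.ne'
  have h5 : √(√(2 * nn p) * (1 + p.2.1) * √(cc p)) ≠ 0 := by positivity
  field_simp
  ring

lemma CH4_psi {p : E7} (hp : p ∈ M7) : psi3 p * √(2 * nn p) = zl (qq p) := by
  have hS := CH4_S0 hp
  have h1 : 1 - p.2.1 = qq p * √(2 * nn p) := by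
    unfold qq; field_simp
  unfold psi3 zl
  rw [alg_t3 hp, h1, add_mul, div_mul_eq_mul_div, mul_div_mul_right _ _ hS, div_mul_cancel₀ _ hS]

/-- algebra of `s1`. -/
lemma CH4_alg {p : E7} (hp : p ∈ M7) (hw : ww p < 1 / 8) :
    √(2 - s1 p ^ 2) = (√(cc p) + qq p) / √(cc p + √(cc p) * qq p) ∧
    √(cc p) * (1 - s1 p ^ 2) = qq p ∧
    s1 p ^ 2 = (√(cc p) - qq p) / √(cc p) := by
  obtain ⟨hc, hr, hr2, hq, hE, hm⟩ := CH4_pos hp hw
  have hE1 := Real.sqrt_pos.2 hE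
  have hE2 : √(cc p + √(cc p) * qq p) ^ 2 = cc p + √(cc p) * qq p := Real.sq_sqrt hE.le
  have hs : s1 p ^ 2 = (√(cc p) - qq p) / √(cc p) := by
    unfold s1
    rw [div_pow, hE2, hm, div_eq_div_iff hE.ne' hr.ne']
    linear_combination -(qq p) * hr2
  have hrq : 0 < √(cc p) + qq p := by positivity
  refine ⟨?_, ?_, hs⟩
  · have h2 : 2 - s1 p ^ 2 = ((√(cc p) + qq p) / √(cc p + √(cc p) * qq p)) ^ 2 := by
      rw [hs, div_pow, hE2]
      have h3 : cc p + √(cc p) * qq p = √(cc p) * (√(cc p) + qq p) := by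
        rw [mul_add, ← pow_two, hr2]
      rw [h3]
      have h4 := hr.ne'
      have h5 := hrq.ne'
      field_simp
      ring
    rw [h2]
    exact Real.sqrt_sq (by positivity)
  · rw [hs]
    have h4 := hr.ne'
    field_simp
    ring

lemma CH4_zpr {P : E7} (hP : P ∈ O1) :
    zpr (ch P) = ((w1 (pr P), w2 (pr P), n3 P.1), (s1 (pr P), gg (pr P) * (pr P).2.2.1,
      gg (pr P) * (pr P).2.2.2.1, gg (pr P) * (pr P).2.2.2.2)) := by
  have hn := (ch_levels hP).2.1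
  have hn0 : n4 P.2 ≠ 0 := by
    have := hP.1.2
    unfold n4
    intro h0
    rw [Real.sqrt_eq_zero (by positivity)] at h0
    apply this
    have e1 : P.2.1 = 0 := by nlinarith [sq_nonneg P.2.1, sq_nonneg P.2.2.1, sq_nonneg P.2.2.2.1, sq_nonneg P.2.2.2.2]
    have e2 : P.2.2.1 = 0 := by nlinarith [sq_nonneg P.2.1, sq_nonneg P.2.2.1, sq_nonneg P.2.2.2.1, sq_nonneg P.2.2.2.2]
    have e3 : P.2.2.2.1 = 0 := by nlinarith [sq_nonneg P.2.1, sq_nonneg P.2.2.1, sq_nonneg P.2.2.2.1, sq_nonneg P.2.2.2.2]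
    have e4 : P.2.2.2.2 = 0 := by nlinarith [sq_nonneg P.2.1, sq_nonneg P.2.2.1, sq_nonneg P.2.2.2.1, sq_nonneg P.2.2.2.2]
    ext <;> simp [e1, e2, e3, e4]
  unfold zpr
  rw [hn]
  simp only [ch, Prod.smul_mk, smul_eq_mul]
  refine Prod.ext rfl (Prod.ext ?_ (Prod.ext ?_ (Prod.ext ?_ ?_))) <;>
    simp only [] <;> rw [inv_mul_cancel_left₀ hn0]

lemma CH4_mul {f g : E7 → ℝ} {p v : E7} (hf : DifferentiableAt ℝ f p)
    (hg : DifferentiableAt ℝ g p) :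
    fderiv ℝ (fun P => f P * g P) p v = fderiv ℝ f p v * g p + f p * fderiv ℝ g p v := by
  apply CH4_dir' (hf.fun_mul hg)
  have h := (CH4_dir (v := v) hf).fun_mul (CH4_dir (v := v) hg)
  refine h.congr_deriv ?_
  simp

theorem ch_v : ∀ P ∈ O1, fderiv ℝ ch P (hom v1 P) = zhom zv0 (ch P) := by
  intro P hP
  have hP7 : P ∈ O7 := hP.1
  have hp := pr_mem hP7
  have hw : ww (pr P) < 1 / 8 := hP.2
  have hn := (ch_levels hP).2.1
  have hV : Tan (pr P) (v1 (pr P)) := v1_tan _ hp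
  have hzp := CH4_zpr hP
  have hv : v1 (pr P) = psi3 (pr P) • fW (pr P) := by
    unfold v1
    rw [(cut_chart hp hw).2.2, zero_smul, sub_zero]
  have hhom : hom v1 P = sc P (v1 (pr P)) := rfl
  rw [hhom, fderiv_ch hP hV]
  unfold zhom
  rw [hzp, hn, hv]
  set p := pr P with hpdef
  obtain ⟨hc, hr, hr2, hq, hE, hm⟩ := CH4_pos hp hw
  obtain ⟨hroot, hz, hs⟩ := CH4_alg hp hw
  have hE1 := Real.sqrt_pos.2 hE
  have hE2 : √(cc p + √(cc p) * qq p) ^ 2 = cc p + √(cc p) * qq p := Real.sq_sqrt hE.le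
  have hpsi := CH4_psi hp
  have hS := CH4_S0 hp
  have hc1 : zc ((w1 p, w2 p, n3 P.1), (s1 p, gg p * p.2.2.1, gg p * p.2.2.2.1,
      gg p * p.2.2.2.2)) = cc p := rfl
  have hw1' : zw ((w1 p, w2 p, n3 P.1), (s1 p, gg p * p.2.2.1, gg p * p.2.2.2.1,
      gg p * p.2.2.2.2)) = ww p := rfl
  have hww : ww p = 2 - √(cc p) ^ 2 := by rw [hr2]; unfold cc; ring
  have hsdef : s1 p = mm p / √(cc p + √(cc p) * qq p) := rfl
  have hcW : cW p = -(1 / 4 * √(2 * nn p) * mm p) := by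
    unfold cW mm sa
    field_simp
    ring
  have Z1 : zc1 ((w1 p, w2 p, n3 P.1), (s1 p, gg p * p.2.2.1, gg p * p.2.2.2.1,
      gg p * p.2.2.2.2)) = zl (qq p) * (1 / 2 * √(cc p) *
        ((√(cc p) + qq p) / √(cc p + √(cc p) * qq p))) := by
    unfold zc1
    rw [hc1]
    simp only
    rw [hz, hroot]
  have Z2 : zc2 ((w1 p, w2 p, n3 P.1), (s1 p, gg p * p.2.2.1, gg p * p.2.2.2.1,
      gg p * p.2.2.2.2)) = zl (qq p) * (1 / 2 * ((1 - ww p) / √(cc p)) *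
        ((√(cc p) + qq p) / √(cc p + √(cc p) * qq p))) := by
    unfold zc2
    rw [hc1, hw1']
    simp only
    rw [hz, hroot]
  have hrq : 0 < √(cc p) + qq p := by positivity
  -- `c₁ s₁ = zl m / 2`
  have P1 : zl (qq p) * (1 / 2 * √(cc p) * ((√(cc p) + qq p) / √(cc p + √(cc p) * qq p))) * s1 p =
      1 / 2 * zl (qq p) * mm p := by
    rw [hsdef]
    have h4 := hE1.ne'
    field_simp
    rw [hE2]
    linear_combination (zl (qq p) * mm p) * hr2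
  have P2 : zl (qq p) * (1 / 2 * ((1 - ww p) / √(cc p)) *
      ((√(cc p) + qq p) / √(cc p + √(cc p) * qq p))) * s1 p =
      1 / 2 * zl (qq p) * mm p * (1 - ww p) / cc p := by
    rw [hsdef]
    have h4 := hE1.ne'
    have h5 := hr.ne'
    have h6 := hc.ne'
    field_simp
    rw [hE2]
    linear_combination (zl (qq p) * mm p * qq p * (ww p - 1)) * hr2
  -- the derivatives
  have D1 : fderiv ℝ w1 p (psi3 p • fW p) = -(1 / 2 * zl (qq p) * mm p * w1 p) := by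
    rw [map_smul, smul_eq_mul, dW_w1 hp, ← hpsi]; ring
  have D2 : fderiv ℝ w2 p (psi3 p • fW p) = -(1 / 2 * zl (qq p) * mm p * w2 p) := by
    rw [map_smul, smul_eq_mul, dW_w2 hp, ← hpsi]; ring
  have D3 : fderiv ℝ s1 p (psi3 p • fW p) = -(1 / 2 * zl (qq p) * (1 - ww p) * qq p *
      (√(cc p) + qq p) / (cc p * √(cc p + √(cc p) * qq p))) := by
    rw [map_smul, smul_eq_mul, (CH4_s1 hp hw).2, ← hpsi]; ring
  have D4 : ∀ g : E7 → ℝ, DifferentiableAt ℝ g p → fderiv ℝ g p (fW p) = -(cW p * p.2.1 * g p) →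
      fderiv ℝ (fun P => gg P * g P) p (psi3 p • fW p) =
        1 / 2 * zl (qq p) * mm p * (1 - ww p) / cc p * (gg p * g p) := by
    intro g hg hgd
    rw [map_smul, smul_eq_mul, CH4_mul (CH4_gg hp hw).1 hg, (CH4_gg hp hw).2, hgd, hcW, ← hpsi]
    have h6 := hc.ne'
    have hcw : ww p = 2 - cc p := by unfold cc; ring
    rw [hcw]
    field_simp
    ring
  have y1 : fderiv ℝ (fun P : E7 => P.2.2.1) p (fW p) = -(cW p * p.2.1 * p.2.2.1) := by
    have h2 : HasFDerivAt (fun P : E7 => P.2.2.1) ((ContinuousLinearMap.fst ℝ ℝ (ℝ × ℝ)).comp ((ContinuousLinearMap.snd ℝ ℝ (ℝ × ℝ × ℝ)).comp (ContinuousLinearMap.snd ℝ R3 R4)) : E7 →L[ℝ] ℝ) p :=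
      ((ContinuousLinearMap.fst ℝ ℝ (ℝ × ℝ)).comp ((ContinuousLinearMap.snd ℝ ℝ (ℝ × ℝ × ℝ)).comp (ContinuousLinearMap.snd ℝ R3 R4)) : E7 →L[ℝ] ℝ).hasFDerivAt
    rw [h2.fderiv]; rfl
  have y2 : fderiv ℝ (fun P : E7 => P.2.2.2.1) p (fW p) = -(cW p * p.2.1 * p.2.2.2.1) := by
    have h2 : HasFDerivAt (fun P : E7 => P.2.2.2.1) ((ContinuousLinearMap.fst ℝ ℝ ℝ).comp ((ContinuousLinearMap.snd ℝ ℝ (ℝ × ℝ)).comp ((ContinuousLinearMap.snd ℝ ℝ (ℝ × ℝ × ℝ)).comp (ContinuousLinearMap.snd ℝ R3 R4))) : E7 →L[ℝ] ℝ) p :=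
      ((ContinuousLinearMap.fst ℝ ℝ ℝ).comp ((ContinuousLinearMap.snd ℝ ℝ (ℝ × ℝ)).comp ((ContinuousLinearMap.snd ℝ ℝ (ℝ × ℝ × ℝ)).comp (ContinuousLinearMap.snd ℝ R3 R4))) : E7 →L[ℝ] ℝ).hasFDerivAt
    rw [h2.fderiv]; rfl
  have y3 : fderiv ℝ (fun P : E7 => P.2.2.2.2) p (fW p) = -(cW p * p.2.1 * p.2.2.2.2) := by
    have h2 : HasFDerivAt (fun P : E7 => P.2.2.2.2) ((ContinuousLinearMap.snd ℝ ℝ ℝ).comp ((ContinuousLinearMap.snd ℝ ℝ (ℝ × ℝ)).comp ((ContinuousLinearMap.snd ℝ ℝ (ℝ × ℝ × ℝ)).comp (ContinuousLinearMap.snd ℝ R3 R4))) : E7 →L[ℝ] ℝ) p :=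
      ((ContinuousLinearMap.snd ℝ ℝ ℝ).comp ((ContinuousLinearMap.snd ℝ ℝ (ℝ × ℝ)).comp ((ContinuousLinearMap.snd ℝ ℝ (ℝ × ℝ × ℝ)).comp (ContinuousLinearMap.snd ℝ R3 R4))) : E7 →L[ℝ] ℝ).hasFDerivAt
    rw [h2.fderiv]; rfl
  rw [D1, D2, D3, D4 _ (by fun_prop) y1, D4 _ (by fun_prop) y2, D4 _ (by fun_prop) y3]
  unfold zv0
  rw [Z1, Z2]
  simp only [Prod.smul_mk, smul_eq_mul]
  refine Prod.ext (Prod.ext ?_ (Prod.ext ?_ rfl)) (Prod.ext ?_ (Prod.ext ?_ (Prod.ext ?_ ?_)))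
  · simp only
    rw [P1]
  · simp only
    rw [P1]
  · simp only
    rw [neg_add_eq_sub]
    have e : s1 p ^ 2 - 1 = -(qq p / √(cc p)) := by
      rw [hs]
      have h5 := hr.ne'
      field_simp
      ring
    rw [e]
    have h4 := hE1.ne'
    have h5 := hr.ne'
    have h6 := hc.ne'
    field_simp
    linear_combination (n4 P.2 * zl (qq p) * qq p * (ww p - 1)) * hr2
  · simp only
    rw [P2]
  · simp only
    rw [P2]
  · simp only
    rw [P2]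

end S7Pair
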