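import Mathlib

/-! # Commuting vector fields on the seven-sphere: definitions

Points of `E7 = R3 × R4` are written `P = ((b1,b2,b3),(τ,y1,y2,y3))`; the manifold `S² × S³` is `M7`.
All formulas are those of the file MP_59a324_gt_proof_helper76.md (numerically verified). -/

open scoped ContDiff Topology
open VectorField Set

noncomputable section

namespace S7Pair

section general

variable {E : Type*} [NormedAddCommGroup E] [NormedSpace ℝ E]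

/-- `f` and `g` are smooth vector fields on the open set `O` whose Lie bracket vanishes on `O`. -/
structure CP (O : Set E) (f g : E → E) : Prop where
  op : IsOpen O
  sf : ContDiffOn ℝ ∞ f O
  sg : ContDiffOn ℝ ∞ g O
  comm : ∀ x ∈ O, lieBracket ℝ f g x = 0

/-- elementary linear independence of two vectors. -/
def Ind (x y : E) : Prop := ∀ a b : ℝ, a • x + b • y = 0 → a = 0 ∧ b = 0

/-- `f` and `g` are smooth near `x` and commute at `x`. -/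
structure CAt (f g : E → E) (x : E) : Prop where
  sf : ContDiffAt ℝ ∞ f x
  sg : ContDiffAt ℝ ∞ g x
  comm : lieBracket ℝ f g x = 0

end general

abbrev R3 := ℝ × ℝ × ℝ
abbrev R4 := ℝ × ℝ × ℝ × ℝ
abbrev E7 := R3 × R4
abbrev E8 := E7 × ℝ

/-- Euclidean norm of a triple and of a quadruple. -/
def n3 (b : R3) : ℝ := √(b.1 ^ 2 + b.2.1 ^ 2 + b.2.2 ^ 2)
def n4 (w : R4) : ℝ := √(w.1 ^ 2 + w.2.1 ^ 2 + w.2.2.1 ^ 2 + w.2.2.2 ^ 2)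
def dot3 (a b : R3) : ℝ := a.1 * b.1 + a.2.1 * b.2.1 + a.2.2 * b.2.2
def dot4 (a b : R4) : ℝ :=
  a.1 * b.1 + a.2.1 * b.2.1 + a.2.2.1 * b.2.2.1 + a.2.2.2 * b.2.2.2

/-- the thick version of `S² × S³`. -/
def O7 : Set E7 := {P | P.1 ≠ 0 ∧ P.2 ≠ 0}
/-- `S² × S³`. -/
def M7 : Set E7 := {P | dot3 P.1 P.1 = 1 ∧ dot4 P.2 P.2 = 1}
/-- tangency to the products of spheres. -/
def Tan (P V : E7) : Prop := dot3 P.1 V.1 = 0 ∧ dot4 P.2 V.2 = 0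

/-- radial projection to `M7`. -/
def pr (P : E7) : E7 := ((n3 P.1)⁻¹ • P.1, (n4 P.2)⁻¹ • P.2)
def sc (P V : E7) : E7 := (n3 P.1 • V.1, n4 P.2 • V.2)
/-- homogeneous extension of a field given on `M7`. -/
def hom (f : E7 → E7) (P : E7) : E7 := sc P (f (pr P))

/-- Mathlib's smooth transition, `0` for `x ≤ 0`, `1` for `x ≥ 1`. -/
abbrev sm (x : ℝ) : ℝ := Real.smoothTransition x

/-- the constant `1/√2`. -/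
def sa : ℝ := √2 / 2

/-! ### The exotic pair on `S² × S³` -/

def nn (P : E7) : ℝ := 1 + P.2.1 ^ 2 + sa * (1 - P.2.1 ^ 2) * P.1.1
def cU (P : E7) : ℝ := sa / 2 * (1 - P.2.1) * P.1.2.1
def cW (P : E7) : ℝ := -(sa / 2 * (1 + P.2.1) * P.1.2.2)

def fU (P : E7) : E7 :=
  ((-((1 + P.2.1) * P.1.2.1) - sa * (1 - P.2.1) * P.1.1 * P.1.2.1,
    (1 + P.2.1) * P.1.1 + sa * (1 - P.2.1) * (1 - P.1.2.1 ^ 2),
    -(sa * (1 - P.2.1) * P.1.2.1 * P.1.2.2)),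
   (cU P * (1 - P.2.1 ^ 2), -(cU P * P.2.1 * P.2.2.1), -(cU P * P.2.1 * P.2.2.2.1),
    -(cU P * P.2.1 * P.2.2.2.2)))

def fW (P : E7) : E7 :=
  ((-((1 - P.2.1) * P.1.2.2) - sa * (1 + P.2.1) * P.1.1 * P.1.2.2,
    -(sa * (1 + P.2.1) * P.1.2.1 * P.1.2.2),
    (1 - P.2.1) * P.1.1 + sa * (1 + P.2.1) * (1 - P.1.2.2 ^ 2)),
   (cW P * (1 - P.2.1 ^ 2), -(cW P * P.2.1 * P.2.2.1), -(cW P * P.2.1 * P.2.2.2.1),
    -(cW P * P.2.1 * P.2.2.2.2)))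

/-- the rotation of the `(y2,y3)`-plane. -/
def Th (P : E7) : E7 := ((0, 0, 0), (0, 0, -P.2.2.2.2, P.2.2.2.1))

def t1 (P : E7) : ℝ := 1 - (1 + P.2.1) ^ 2 / (2 * nn P)
def t2 (P : E7) : ℝ := sa * P.1.2.1 * (1 - P.2.1 ^ 2) / nn P
def t3 (P : E7) : ℝ := 1 - (1 - P.2.1) ^ 2 / (2 * nn P)
def t4 (P : E7) : ℝ := sa * P.1.2.2 * (1 - P.2.1 ^ 2) / nn P

def psi1 (P : E7) : ℝ :=
  (1 - sm (4 * t1 P - 2)) / (1 + P.2.1) + sm (4 * t1 P - 2) / √(2 * nn P)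
def psi3 (P : E7) : ℝ :=
  (1 - sm (4 * t3 P - 2)) / (1 - P.2.1) + sm (4 * t3 P - 2) / √(2 * nn P)
def mu (x : ℝ) : ℝ := sm (2 * x - 1 / 2)

def u1 (P : E7) : E7 := psi1 P • fU P - mu (t3 P ^ 2 + t4 P ^ 2) • Th P
def v1 (P : E7) : E7 := psi3 P • fW P - mu (t1 P ^ 2 + t2 P ^ 2) • Th P

/-! ### The chart near `ζ₁ = 0` -/

def w1 (P : E7) : ℝ := ((1 - P.2.1) + √2 * (1 + P.2.1) * P.1.1) / √(2 * nn P)
def w2 (P : E7) : ℝ := √2 * (1 + P.2.1) * P.1.2.1 / √(2 * nn P)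
def mm (P : E7) : ℝ := √2 * (1 + P.2.1) * P.1.2.2 / √(2 * nn P)
def qq (P : E7) : ℝ := (1 - P.2.1) / √(2 * nn P)
/-- `|w|²` -/
def ww (P : E7) : ℝ := w1 P ^ 2 + w2 P ^ 2
def cc (P : E7) : ℝ := 2 - ww P
def s1 (P : E7) : ℝ := mm P / √(cc P + √(cc P) * qq P)
def gg (P : E7) : ℝ := 1 / √(√(2 * nn P) * (1 + P.2.1) * √(cc P))

/-- the chart `(b,ω) ↦ ((w1,w2,|b|), |ω| • s)`. -/
def ch (P : E7) : E7 :=
  ((w1 (pr P), w2 (pr P), n3 P.1),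
   (n4 P.2 * s1 (pr P), n4 P.2 * (gg (pr P) * (pr P).2.2.1), n4 P.2 * (gg (pr P) * (pr P).2.2.2.1),
    n4 P.2 * (gg (pr P) * (pr P).2.2.2.2)))

def O1 : Set E7 := {P | P ∈ O7 ∧ ww (pr P) < 1 / 8}

/-- the range of the chart: `|w|² < 1/8`, `r > 0`, `s ≠ 0`. -/
def OZ : Set E7 := {Z | Z.1.1 ^ 2 + Z.1.2.1 ^ 2 < 1 / 8 ∧ 0 < Z.1.2.2 ∧ Z.2 ≠ 0}

/-- `|w|²` on the chart side. -/
def zw (Z : E7) : ℝ := Z.1.1 ^ 2 + Z.1.2.1 ^ 2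
def zc (Z : E7) : ℝ := 2 - zw Z
/-- normalised first coordinate of `s`. -/
def zs (Z : E7) : ℝ := Z.2.1 / n4 Z.2
def zq (Z : E7) : ℝ := √(zc Z) * (1 - zs Z ^ 2)
def zm (Z : E7) : ℝ := √(zc Z) * zs Z * √(2 - zs Z ^ 2)
def zp (Z : E7) : ℝ := √(1 - zq Z * Z.1.1)
def zg (Z : E7) : ℝ := 2 * √(zp Z) / (zp Z + zq Z) * √(√(zc Z))

def chInv (Z : E7) : E7 :=
  ((Z.1.2.2 * (Z.1.1 - zq Z) / (√2 * zp Z), Z.1.2.2 * Z.1.2.1 / (√2 * zp Z),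
    Z.1.2.2 * zm Z / (√2 * zp Z)),
   (n4 Z.2 * (zp Z - zq Z) / (zp Z + zq Z), Z.2.2.1 * zg Z, Z.2.2.2.1 * zg Z, Z.2.2.2.2 * zg Z))

/-! ### Fields on the chart side -/

/-- `u` in the chart. -/
def zu (Z : E7) : E7 := ((-Z.1.2.1, Z.1.1, 0), (0, 0, Z.2.2.2.2, -Z.2.2.2.1))

/-- the positive factor `φ(t3)/√(1-t3)` in terms of `q`. -/
def zl (q : ℝ) : ℝ := (1 - sm (4 * (1 - q ^ 2) - 2)) / q + sm (4 * (1 - q ^ 2) - 2)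

/-- `c₁`, `c₂` (as functions of a point with `|s| = 1`). -/
def zc1 (Z : E7) : ℝ :=
  zl (√(zc Z) * (1 - Z.2.1 ^ 2)) * (1 / 2 * √(zc Z) * √(2 - Z.2.1 ^ 2))
def zc2 (Z : E7) : ℝ :=
  zl (√(zc Z) * (1 - Z.2.1 ^ 2)) * (1 / 2 * ((1 - zw Z) / √(zc Z)) * √(2 - Z.2.1 ^ 2))

/-- `v` in the chart, for `|s| = 1`. -/
def zv0 (Z : E7) : E7 :=
  ((-(zc1 Z * Z.2.1 * Z.1.1), -(zc1 Z * Z.2.1 * Z.1.2.1), 0),
   (zc2 Z * (-1 + Z.2.1 ^ 2), zc2 Z * Z.2.1 * Z.2.2.1, zc2 Z * Z.2.1 * Z.2.2.2.1,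
    zc2 Z * Z.2.1 * Z.2.2.2.2))

/-- `Re (w ϑ)`. -/
def zr (Z : E7) : ℝ := Z.1.1 * Z.2.2.2.1 - Z.1.2.1 * Z.2.2.2.2

def zJ (Z : E7) : E7 :=
  ((Z.2.2.2.1, -Z.2.2.2.2, 0),
   (-(zr Z * Z.2.1), -(zr Z * Z.2.2.1), Z.1.1 - zr Z * Z.2.2.2.1, -Z.1.2.1 - zr Z * Z.2.2.2.2))

def zK (Z : E7) : E7 := ((0, 0, 0), (-Z.2.2.1, Z.2.1, 0, 0))

/-- `16 (|w|² + |ϑ|²)`. -/
def zR (Z : E7) : ℝ := 16 * (Z.1.1 ^ 2 + Z.1.2.1 ^ 2 + Z.2.2.2.1 ^ 2 + Z.2.2.2.2 ^ 2)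

/-- the second field of Lemma U, for `|s| = 1`. -/
def zVu (Z : E7) : E7 :=
  sm (5 * zR Z - 3) • zv0 Z + (sm (5 - 5 * zR Z) * sm (5 * zR Z - 1)) • zJ Z
    + sm (3 - 5 * zR Z) • zK Z

/-- normalisation of the `s`-coordinate, and homogeneous extension on the chart side. -/
def zpr (Z : E7) : E7 := (Z.1, (n4 Z.2)⁻¹ • Z.2)
def zhom (f : E7 → E7) (Z : E7) : E7 := ((f (zpr Z)).1, n4 Z.2 • (f (zpr Z)).2)

def zV : E7 → E7 := zhom zVu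

/-! ### The map `Xi` that moves the bad circle -/

def c0 : ℝ := √(1 - sa)
def g0 : ℝ := √sa

def hc (c : ℝ) (s : R4) : R4 :=
  (n4 s * (s.1 - c * n4 s) / (n4 s - c * s.1), n4 s * (√(1 - c ^ 2) * s.2.1) / (n4 s - c * s.1),
   n4 s * (√(1 - c ^ 2) * s.2.2.1) / (n4 s - c * s.1),
   n4 s * (√(1 - c ^ 2) * s.2.2.2) / (n4 s - c * s.1))

def rotQ (A : ℝ) (s : R4) : R4 :=
  (Real.cos A * s.1 + Real.sin A * s.2.2.1, Real.cos A * s.2.1 + Real.sin A * s.2.2.2,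
   -(Real.sin A * s.1) + Real.cos A * s.2.2.1, -(Real.sin A * s.2.1) + Real.cos A * s.2.2.2)

def chi (Z : E7) : ℝ := sm (2 - 32 * (Z.1.1 ^ 2 + Z.1.2.1 ^ 2))

def Xi (Z : E7) : E7 := (Z.1, rotQ (chi Z * (Real.pi / 2)) (hc (chi Z * c0) Z.2))

/-- `ρ'` and its companion on the chart side. -/
def zRho (Z : E7) : E7 :=
  ((-Z.1.2.1, Z.1.1, 0),
   (g0⁻¹ * (Z.2.2.1 - c0 * Z.2.2.1 * Z.2.1 / n4 Z.2),
    g0⁻¹ * (-Z.2.1 + c0 * (n4 Z.2 - Z.2.2.1 ^ 2 / n4 Z.2)),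
    g0⁻¹ * -(c0 * Z.2.2.1 * Z.2.2.2.1 / n4 Z.2), g0⁻¹ * -(c0 * Z.2.2.1 * Z.2.2.2.2 / n4 Z.2)))

/-- coordinates `x = (w, κ^h)` of a chart point, and `|x|²`. -/
def zk (Z : E7) : ℝ × ℝ :=
  ((hc c0 Z.2).1 / n4 Z.2, (hc c0 Z.2).2.1 / n4 Z.2)
def zx (Z : E7) : ℝ := Z.1.1 ^ 2 + Z.1.2.1 ^ 2 + (zk Z).1 ^ 2 + (zk Z).2 ^ 2

/-! ### Linear fields on `E7` near the new bad circles -/

def rho (P : E7) : E7 :=
  ((-(sa * P.1.2.1), sa * (P.1.1 + P.1.2.2), -(sa * P.1.2.1)), (P.2.2.1, -P.2.1, 0, 0))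
/-- rotation of the `ω₁`-plane. -/
def om1 (P : E7) : E7 := ((0, 0, 0), (-P.2.2.1, P.2.1, 0, 0))
/-- the Hopf field. -/
def ee (P : E7) : E7 := ((0, 0, 0), (-P.2.2.1, P.2.1, -P.2.2.2.2, P.2.2.2.1))

/-- squared distance to `H_a` (for normalised points). -/
def QQ (P : E7) : ℝ :=
  ((pr P).1.1 + sa) ^ 2 + (pr P).1.2.1 ^ 2 + ((pr P).1.2.2 - sa) ^ 2 + (pr P).2.1 ^ 2
    + (pr P).2.2.1 ^ 2

/-- the symmetry exchanging the two sides. -/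
def sg (P : E7) : E7 := ((P.1.1, P.1.2.2, P.1.2.1), (-P.2.1, -P.2.2.1, P.2.2.2.1, P.2.2.2.2))

/-- `ρ_b = σ' ∘ ρ ∘ σ'`. -/
def rhob (P : E7) : E7 :=
  ((-(sa * P.1.2.2), -(sa * P.1.2.2), sa * (P.1.1 + P.1.2.1)), (P.2.2.1, -P.2.1, 0, 0))

/-! ### Normal forms after the gauge transformation -/

/-- `|ω₁|²/|ω|²` and `|ω₂|²/|ω|²`. -/
def o1 (P : E7) : ℝ := (P.2.1 ^ 2 + P.2.2.1 ^ 2) / n4 P.2 ^ 2
def o2 (P : E7) : ℝ := (P.2.2.2.1 ^ 2 + P.2.2.2.2 ^ 2) / n4 P.2 ^ 2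
/-- `|b/|b| - S|²`, `S = (0,0,-1)`. -/
def qs (P : E7) : ℝ := (P.1.1 ^ 2 + P.1.2.1 ^ 2 + (P.1.2.2 + n3 P.1) ^ 2) / n3 P.1 ^ 2
def qa (P : E7) : ℝ := qs P + o1 P
def qb (P : E7) : ℝ := qs P + o2 P

def pp (x : ℝ) : ℝ := sm (2 * x - 1 / 2)
def That (P : E7) : E7 :=
  ((-P.1.2.1, P.1.1, 0),
   (-((1 - pp (o1 P)) * P.2.2.1), (1 - pp (o1 P)) * P.2.1, pp (o1 P) * P.2.2.2.2,
    -(pp (o1 P) * P.2.2.2.1)))

end S7Pair
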