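import Pool.Agent.S7Pair.Gen

/-! # Further definitions: intermediate fields and the statements connecting the parts -/

open scoped ContDiff Topology
open VectorField Set Filter

noncomputable section

namespace S7Pair

/-- the pair on `O1` after moving the bad circle. -/
def Pu : E7 → E7 := VectorField.pullback ℝ (fun P => Xi (ch P)) zu
def Pv : E7 → E7 := VectorField.pullback ℝ (fun P => Xi (ch P)) zV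
/-- the rotation field around the new bad circle. -/
def rhoP : E7 → E7 := VectorField.pullback ℝ ch zRho

/-- the bilinear form in which `rho` and `rhoP` make an acute angle near `H_a`. -/
def gf (P V V' : E7) : ℝ :=
  dot3 V.1 V'.1 / n3 P.1 ^ 2
    + 4 * √2 * c0 * (V.2.1 * V'.2.1 + V.2.2.1 * V'.2.2.1) / n4 P.2 ^ 2


/-! ### The linearisation at `H_a`: `x = (w1,w2,k1,k2)` -/

def Gs1 (x : R4) : ℝ := (x.2.2.1 + c0) / (1 + c0 * x.2.2.1)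
def Gs2 (x : R4) : ℝ := g0 * x.2.2.2 / (1 + c0 * x.2.2.1)
def Gc (x : R4) : ℝ := 2 - x.1 ^ 2 - x.2.1 ^ 2
def Gq (x : R4) : ℝ := √(Gc x) * (1 - Gs1 x ^ 2)
def Gm (x : R4) : ℝ := √(Gc x) * Gs1 x * √(2 - Gs1 x ^ 2)
def Gp (x : R4) : ℝ := √(1 - Gq x * x.1)

/-- `(b - b_a, ω₁)` as a function of `x`. -/
def Ga (x : R4) : R3 × (ℝ × ℝ) :=
  (((x.1 - Gq x) / (√2 * Gp x) + sa, x.2.1 / (√2 * Gp x), Gm x / (√2 * Gp x) - sa),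
   ((Gp x - Gq x) / (Gp x + Gq x), Gs2 x * (2 * √(Gp x) / (Gp x + Gq x) * √(√(Gc x)))))

/-- its derivative at `0`. -/
def GaLfun (x : R4) : R3 × (ℝ × ℝ) :=
  ((sa / 2 * x.1 + √2 * c0 * x.2.2.1, sa * x.2.1, sa / 2 * x.1 + √2 * c0 * x.2.2.1),
   (-(1 / 4) * x.1 + c0 * x.2.2.1, x.2.2.2))

/-- `(iw, -iκ)`. -/
def J0 (x : R4) : R4 := (-x.2.1, x.1, x.2.2.2, -x.2.2.1)

/-- `rho` in the coordinates `(b - b_a, ω₁)`. -/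
def rhoL (A : R3 × (ℝ × ℝ)) : R3 × (ℝ × ℝ) :=
  ((-(sa * A.1.2.1), sa * (A.1.1 + A.1.2.2), -(sa * A.1.2.1)), (A.2.2, -A.2.1))

def gB (A B : R3 × (ℝ × ℝ)) : ℝ := dot3 A.1 B.1 + 4 * √2 * c0 * (A.2.1 * B.2.1 + A.2.2 * B.2.2)

/-- the coordinate `x` of a chart point. -/
def zX (Z : E7) : R4 := (Z.1.1, Z.1.2.1, (zk Z).1, (zk Z).2)

/-- Local statement near `ζ₁ = 0`. -/
def StLoc : Prop :=
  ∃ f g : E7 → E7, CP O1 f g ∧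
    (∃ K : Set E7, K ⊆ O1 ∧ IsOpen (O7 \ K) ∧ ∀ P ∈ O1, P ∉ K → f P = hom u1 P ∧ g P = hom v1 P) ∧
    (∀ P ∈ O1, Tan P (f P) ∧ Tan P (g P)) ∧
    (∀ P ∈ O1, QQ P ≠ 0 → Ind (f P) (g P)) ∧
    (∃ δ : ℝ, 0 < δ ∧ ∀ P ∈ O7, QQ P < δ → P ∈ O1 ∧ f P = rho P ∧ g P = ee P)

/-- The exotic pair on the thick `S² × S³` with bad circles `H_a`, `H_b`. -/
def StJ3 : Prop :=
  ∃ f g : E7 → E7, CP O7 f g ∧
    (∀ P ∈ O7, Tan P (f P) ∧ Tan P (g P)) ∧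
    (∀ P ∈ O7, QQ P ≠ 0 → QQ (sg P) ≠ 0 → Ind (f P) (g P)) ∧
    (∃ δ : ℝ, 0 < δ ∧ (∀ P ∈ O7, QQ P < δ → f P = ee P ∧ g P = -rho P) ∧
      ∀ P ∈ O7, QQ (sg P) < δ → f P = ee P ∧ g P = rhob P)


/-! ### The gauge transformation (its inverse `Gi` and the map `Gf` itself) -/

/-- `R(λ)⁻¹`, `A = λ π/2`: rotation of the `b`-space. -/
def Rb (A : ℝ) (b : R3) : R3 :=
  (sa * (b.2.1 + b.2.2), Real.cos A * b.1 + Real.sin A * (sa * (b.2.1 - b.2.2)),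
    -(Real.sin A * b.1) + Real.cos A * (sa * (b.2.1 - b.2.2)))
/-- `R(λ)`. -/
def Rf (A : ℝ) (b : R3) : R3 :=
  (Real.cos A * b.2.1 - Real.sin A * b.2.2,
    sa * (b.1 + (Real.sin A * b.2.1 + Real.cos A * b.2.2)),
    sa * (b.1 - (Real.sin A * b.2.1 + Real.cos A * b.2.2)))
/-- the real rotation `(ω₁,ω₂) ↦ (cos ω₁ + sin ω₂, -sin ω₁ + cos ω₂)`. -/
def Rw (A : ℝ) (w : R4) : R4 := rotQ A w

def angB (P : E7) : ℝ := pp (o1 P) * (Real.pi / 2)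
def angW (b : R3) : ℝ := sm ((b.2.1 - b.2.2) / n3 b + 1 / 2) * (Real.pi / 2)

/-- inverse of the gauge transformation. -/
def Gi (P : E7) : E7 := (Rb (angB P) P.1, Rw (-(angW (Rb (angB P) P.1))) P.2)

/-- the gauge transformation. -/
def Gf (Q : E7) : E7 :=
  (Rf (angB (Q.1, Rw (angW Q.1) Q.2)) Q.1, Rw (angW Q.1) Q.2)

/-- Theorem J. -/
def StJ : Prop :=
  ∃ (f g : E7 → E7) (δ : ℝ), 0 < δ ∧ δ ≤ 1 / 64 ∧ CP O7 f g ∧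
    (∀ P ∈ O7, Tan P (f P) ∧ Tan P (g P)) ∧
    (∀ P ∈ O7, ∀ c : ℝ, 0 < c → f (c • P.1, P.2) = (c • (f P).1, (f P).2) ∧
      g (c • P.1, P.2) = (c • (g P).1, (g P).2)) ∧
    (∀ P ∈ O7, (qa P < δ ∨ qb P < δ) → f P = ee P ∧ g P = That P) ∧
    (∀ P ∈ O7, qa P ≠ 0 → qb P ≠ 0 → Ind (f P) (g P))

/-! ### The plug: `E8 = E7 × ℝ`, `W = ((b,ω),s)`, `x = (b,s) ∈ ℝ⁴` -/

def rad (W : E8) : ℝ := W.1.1.1 ^ 2 + W.1.1.2.1 ^ 2 + W.1.1.2.2 ^ 2 + W.2 ^ 2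
def ca (W : E8) : ℝ := sm ((16 - rad W) / 7)
def sig (W : E8) : ℝ := (n3 W.1.1 - 1) ^ 2 + W.2 ^ 2
def gam (W : E8) : E8 := ((-(W.2 / n3 W.1.1) • W.1.1, 0), n3 W.1.1 - 1)
def N0 (W : E8) : E8 := (((0, 0, -W.2), 0), W.1.1.2.2 - ca W)
def ThE (W : E8) : E8 :=
  (((-W.1.1.2.1, W.1.1.1, 0),
    (-((1 - pp (o1 W.1)) * ca W * W.1.2.2.1), (1 - pp (o1 W.1)) * ca W * W.1.2.1,
      pp (o1 W.1) * ca W * W.1.2.2.2.2, -(pp (o1 W.1) * ca W * W.1.2.2.2.1))), 0)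
def hh (δ : ℝ) (W : E8) : ℝ := sm (2 - 3 * (qa W.1 / δ)) + sm (2 - 3 * (qb W.1 / δ))
def ht (δ : ℝ) (W : E8) : ℝ := sm (4 - 4 * (qa W.1 / δ)) + sm (4 - 4 * (qb W.1 / δ))
def A1 (W : E8) : ℝ := sm (2 - 100 * sig W)
def ta (W : E8) : ℝ := sm (50 * sig W - 3 / 2)
def A2 (W : E8) : ℝ := sm ((100 * sig W - 6) / 3)
def be (W : E8) : ℝ := sm ((23 - 100 * sig W) / 7)
def dsg (W : E8) : E8 :=
  ((((n3 W.1.1 - 1) / n3 W.1.1 / √(sig W)) • W.1.1, 0), W.2 / √(sig W))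

def PF (f : E7 → E7) (δ : ℝ) (W : E8) : E8 :=
  (1 - ta W) • (f W.1, (0 : ℝ)) + ta W • (ee W.1, (0 : ℝ))
    + (4 * ta W * (1 - ta W) * (1 - ht δ W)) • dsg W

def PG (g : E7 → E7) (δ : ℝ) (W : E8) : E8 :=
  ((1 - hh δ W) * A1 W + hh δ W * (1 - ta W)) • (g W.1, (0 : ℝ))
    + ((1 - hh δ W) * A2 W + hh δ W * ta W) • ThE W
    + ((1 - hh δ W) * be W) • gam W + (1 - (1 - hh δ W) * be W) • N0 W

def O8 : Set E8 := {W | W.1.2 ≠ 0}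

/-- the plug theorem. -/
def StPlug : Prop :=
  ∃ F G : E8 → E8, CP O8 F G ∧
    (∀ W ∈ O8, dot4 W.1.2 (F W).1.2 = 0 ∧ dot4 W.1.2 (G W).1.2 = 0) ∧
    (∀ W ∈ O8, Ind (F W) (G W)) ∧
    (∀ W ∈ O8, 16 ≤ rad W → F W = (ee W.1, 0) ∧
      G W = (((-W.1.1.2.1, W.1.1.1, -W.2), 0), W.1.1.2.2))

/-! ### The seven-sphere, thick: `Y8 = R4 × R4 ∖ 0` -/

abbrev Y8 := R4 × R4

def iR4 (z : R4) : R4 := (-z.2.1, z.1, -z.2.2.2, z.2.2.1)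

def nrm8 (Z : Y8) : ℝ := √(dot4 Z.1 Z.1 + dot4 Z.2 Z.2)

/-- the chart `(z,w) ↦ (x = 8 z/|w|, ω = r w/|w|)`. -/
def Lam (Z : Y8) : E8 :=
  ((((8 * Z.1.1 / n4 Z.2, 8 * Z.1.2.1 / n4 Z.2, 8 * Z.1.2.2.1 / n4 Z.2) : R3),
    ((nrm8 Z / n4 Z.2) • Z.2 : R4)), 8 * Z.1.2.2.2 / n4 Z.2)

def StS7 : Prop :=
  ∃ u v : Y8 → Y8, CP {Z | Z ≠ 0} u v ∧
    (∀ Z : Y8, Z ≠ 0 → dot4 Z.1 (u Z).1 + dot4 Z.2 (u Z).2 = 0 ∧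
      dot4 Z.1 (v Z).1 + dot4 Z.2 (v Z).2 = 0) ∧
    (∀ Z : Y8, Z ≠ 0 → Ind (u Z) (v Z))

end S7Pair
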