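import Pool.Agent.S7Pair.ZHom

/-! # Module XI1: the map Xi -/

open scoped ContDiff Topology
open VectorField Set Filter

noncomputable section

namespace S7Pair

lemma Xi1_sa : 0 < sa ∧ sa < 1 := by
  have h1 : √2 ^ 2 = 2 := Real.sq_sqrt (by norm_num)
  have h2 : 0 < √2 := by positivity
  unfold sa
  constructor
  · positivity
  · nlinarith

lemma c0_facts : 0 < c0 ∧ c0 < 1 ∧ c0 ^ 2 = 1 - sa ∧ 0 < g0 ∧ g0 ^ 2 = sa ∧ √(1 - c0 ^ 2) = g0 := by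
  obtain ⟨h1, h2⟩ := Xi1_sa
  have h3 : c0 ^ 2 = 1 - sa := Real.sq_sqrt (by linarith)
  have h4 : 0 < c0 := Real.sqrt_pos.2 (by linarith)
  refine ⟨h4, by nlinarith, h3, Real.sqrt_pos.2 h1, Real.sq_sqrt h1.le, ?_⟩
  rw [h3]
  unfold g0
  congr 1
  ring

lemma Xi1_n4_sq (w : R4) : n4 w ^ 2 = w.1 ^ 2 + w.2.1 ^ 2 + w.2.2.1 ^ 2 + w.2.2.2 ^ 2 :=
  Real.sq_sqrt (by positivity)

lemma Xi1_den {c : ℝ} (hc' : |c| < 1) {s : R4} (hs : s ≠ 0) : 0 < n4 s - c * s.1 := by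
  have h1 := ZHOM.n4_pos hs
  have h2 := Xi1_n4_sq s
  have h3 : |s.1| ≤ n4 s := by
    apply Real.abs_le_sqrt
    nlinarith [sq_nonneg s.2.1, sq_nonneg s.2.2.1, sq_nonneg s.2.2.2]
  have h4 : c * s.1 ≤ |c| * |s.1| := by
    rw [← abs_mul]; exact le_abs_self _
  have h5 : |c| * |s.1| ≤ |c| * n4 s := mul_le_mul_of_nonneg_left h3 (abs_nonneg c)
  have h6 : |c| * n4 s < 1 * n4 s := mul_lt_mul_of_pos_right hc' h1
  linarith

lemma Xi1_c {c : ℝ} (hc' : |c| < 1) : 0 < 1 - c ^ 2 := by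
  have := abs_lt.1 hc'
  nlinarith [this.1, this.2]

lemma n4_hc {c : ℝ} (hc' : |c| < 1) {s : R4} (hs : s ≠ 0) : n4 (hc c s) = n4 s := by
  have h1 := ZHOM.n4_pos hs
  have h2 := Xi1_n4_sq s
  have h3 := Xi1_den hc' hs
  have h4 : √(1 - c ^ 2) ^ 2 = 1 - c ^ 2 := Real.sq_sqrt (Xi1_c hc').le
  have h5 : (hc c s).1 ^ 2 + (hc c s).2.1 ^ 2 + (hc c s).2.2.1 ^ 2 + (hc c s).2.2.2 ^ 2 =
      n4 s ^ 2 := by
    have e : (hc c s).1 ^ 2 + (hc c s).2.1 ^ 2 + (hc c s).2.2.1 ^ 2 + (hc c s).2.2.2 ^ 2 =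
        n4 s ^ 2 * ((s.1 - c * n4 s) ^ 2 + √(1 - c ^ 2) ^ 2 *
          (s.2.1 ^ 2 + s.2.2.1 ^ 2 + s.2.2.2 ^ 2)) / (n4 s - c * s.1) ^ 2 := by
      simp only [hc, div_pow]
      rw [← add_div, ← add_div, ← add_div]
      congr 1
      ring
    rw [e, h4, div_eq_iff (by positivity)]
    linear_combination (-(n4 s ^ 2 * (1 - c ^ 2))) * h2
  have h6 : n4 (hc c s) = √((hc c s).1 ^ 2 + (hc c s).2.1 ^ 2 + (hc c s).2.2.1 ^ 2 +
    (hc c s).2.2.2 ^ 2) := rfl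
  rw [h6, h5, Real.sqrt_sq h1.le]

lemma hc_hc {c : ℝ} (hc' : |c| < 1) {s : R4} (hs : s ≠ 0) : hc (-c) (hc c s) = s := by
  have h1 := ZHOM.n4_pos hs
  have h3 := Xi1_den hc' hs
  have h0 := Xi1_c hc'
  have h4 : √(1 - c ^ 2) ^ 2 = 1 - c ^ 2 := Real.sq_sqrt h0.le
  have hn := n4_hc hc' hs
  have e1 : (hc c s).1 = n4 s * (s.1 - c * n4 s) / (n4 s - c * s.1) := rfl
  have e5 : n4 s - -c * (hc c s).1 = n4 s ^ 2 * (1 - c ^ 2) / (n4 s - c * s.1) := by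
    rw [e1]
    field_simp
    ring
  have e6 : ∀ x : ℝ, n4 s * (√(1 - (-c) ^ 2) * (n4 s * (√(1 - c ^ 2) * x) / (n4 s - c * s.1))) /
      (n4 s - -c * (hc c s).1) = x := by
    intro x
    rw [e5, neg_sq]
    have h7 : n4 s * (√(1 - c ^ 2) * (n4 s * (√(1 - c ^ 2) * x) / (n4 s - c * s.1))) =
        n4 s ^ 2 * √(1 - c ^ 2) ^ 2 * x / (n4 s - c * s.1) := by ring
    rw [h7, h4]
    field_simp
  have f1 : (hc (-c) (hc c s)).1 = s.1 := by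
    have : (hc (-c) (hc c s)).1 =
      n4 (hc c s) * ((hc c s).1 - -c * n4 (hc c s)) / (n4 (hc c s) - -c * (hc c s).1) := rfl
    have key : n4 s * (s.1 - c * n4 s) / (n4 s - c * s.1) - -c * n4 s =
        n4 s * s.1 * (1 - c ^ 2) / (n4 s - c * s.1) := by
      rw [eq_div_iff h3.ne', sub_mul, div_mul_cancel₀ _ h3.ne']
      ring
    have h8 : n4 s ^ 2 * (1 - c ^ 2) / (n4 s - c * s.1) ≠ 0 := by positivity
    rw [this, hn, e5, e1, key, div_eq_iff h8, ← mul_div_assoc, ← mul_div_assoc]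
    congr 1
    ring
  have f2 : (hc (-c) (hc c s)).2.1 = s.2.1 := by
    have : (hc (-c) (hc c s)).2.1 = n4 (hc c s) * (√(1 - (-c) ^ 2) * (hc c s).2.1) /
      (n4 (hc c s) - -c * (hc c s).1) := rfl
    rw [this, hn]
    exact e6 _
  have f3 : (hc (-c) (hc c s)).2.2.1 = s.2.2.1 := by
    have : (hc (-c) (hc c s)).2.2.1 = n4 (hc c s) * (√(1 - (-c) ^ 2) * (hc c s).2.2.1) /
      (n4 (hc c s) - -c * (hc c s).1) := rfl
    rw [this, hn]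
    exact e6 _
  have f4 : (hc (-c) (hc c s)).2.2.2 = s.2.2.2 := by
    have : (hc (-c) (hc c s)).2.2.2 = n4 (hc c s) * (√(1 - (-c) ^ 2) * (hc c s).2.2.2) /
      (n4 (hc c s) - -c * (hc c s).1) := rfl
    rw [this, hn]
    exact e6 _
  exact Prod.ext f1 (Prod.ext f2 (Prod.ext f3 f4))

lemma n4_rotQ (A : ℝ) (s : R4) : n4 (rotQ A s) = n4 s := by
  have h := Real.sin_sq_add_cos_sq A
  unfold n4
  congr 1
  simp only [rotQ]
  linear_combination (s.1 ^ 2 + s.2.1 ^ 2 + s.2.2.1 ^ 2 + s.2.2.2 ^ 2) * h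

lemma rotQ_rotQ (A : ℝ) (s : R4) : rotQ (-A) (rotQ A s) = s := by
  have h := Real.sin_sq_add_cos_sq A
  simp only [rotQ, Real.cos_neg, Real.sin_neg]
  refine Prod.ext ?_ (Prod.ext ?_ (Prod.ext ?_ ?_))
  · simp only; linear_combination s.1 * h
  · simp only; linear_combination s.2.1 * h
  · simp only; linear_combination s.2.2.1 * h
  · simp only; linear_combination s.2.2.2 * h

lemma Xi1_hc_smooth {c : E7 → ℝ} {s : E7 → R4} {Z : E7} (h1 : ContDiffAt ℝ ∞ c Z)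
    (h2 : ContDiffAt ℝ ∞ s Z) (hc' : |c Z| < 1) (hs : s Z ≠ 0) :
    ContDiffAt ℝ ∞ (fun Z => hc (c Z) (s Z)) Z := by
  have hn : ContDiffAt ℝ ∞ (fun Z => n4 (s Z)) Z := (ZHOM.n4_smooth hs).comp Z h2
  have hd : ContDiffAt ℝ ∞ (fun Z => n4 (s Z) - c Z * (s Z).1) Z := hn.sub (h1.mul h2.fst)
  have hd0 : n4 (s Z) - c Z * (s Z).1 ≠ 0 := (Xi1_den hc' hs).ne'
  have hr : ContDiffAt ℝ ∞ (fun Z => √(1 - c Z ^ 2)) Z :=
    (contDiffAt_const.sub (h1.pow 2)).sqrt (Xi1_c hc').ne'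
  unfold hc
  refine ContDiffAt.prodMk ?_ (ContDiffAt.prodMk ?_ (ContDiffAt.prodMk ?_ ?_))
  · exact (hn.mul (h2.fst.sub (h1.mul hn))).div hd hd0
  · exact (hn.mul (hr.mul h2.snd.fst)).div hd hd0
  · exact (hn.mul (hr.mul h2.snd.snd.fst)).div hd hd0
  · exact (hn.mul (hr.mul h2.snd.snd.snd)).div hd hd0

lemma Xi1_rotQ_smooth {A : E7 → ℝ} {s : E7 → R4} {Z : E7} (h1 : ContDiffAt ℝ ∞ A Z)
    (h2 : ContDiffAt ℝ ∞ s Z) : ContDiffAt ℝ ∞ (fun Z => rotQ (A Z) (s Z)) Z := by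
  have hc : ContDiffAt ℝ ∞ (fun Z => Real.cos (A Z)) Z := h1.cos
  have hs : ContDiffAt ℝ ∞ (fun Z => Real.sin (A Z)) Z := h1.sin
  unfold rotQ
  refine ContDiffAt.prodMk ?_ (ContDiffAt.prodMk ?_ (ContDiffAt.prodMk ?_ ?_))
  · exact (hc.mul h2.fst).add (hs.mul h2.snd.snd.fst)
  · exact (hc.mul h2.snd.fst).add (hs.mul h2.snd.snd.snd)
  · exact (hs.mul h2.fst).neg.add (hc.mul h2.snd.snd.fst)
  · exact (hs.mul h2.snd.fst).neg.add (hc.mul h2.snd.snd.snd)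

lemma Xi1_chi_smooth (Z : E7) : ContDiffAt ℝ ∞ chi Z := by
  have h1 : ContDiffAt ℝ ∞ (fun Z : E7 => 2 - 32 * (Z.1.1 ^ 2 + Z.1.2.1 ^ 2)) Z := by fun_prop
  have h2 : ContDiffAt ℝ ∞ Real.smoothTransition (2 - 32 * (Z.1.1 ^ 2 + Z.1.2.1 ^ 2)) :=
    Real.smoothTransition.contDiffAt
  exact h2.comp Z h1

lemma Xi1_chi_mem (Z : E7) : 0 ≤ chi Z ∧ chi Z ≤ 1 :=
  ⟨Real.smoothTransition.nonneg _, Real.smoothTransition.le_one _⟩

lemma Xi1_chi_c (Z : E7) : |chi Z * c0| < 1 := by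
  obtain ⟨h1, h2⟩ := Xi1_chi_mem Z
  obtain ⟨h3, h4, -⟩ := c0_facts
  rw [abs_of_nonneg (by positivity)]
  nlinarith

lemma Xi1_smooth {Z : E7} (hZ : Z ∈ OZ) : ContDiffAt ℝ ∞ Xi Z := by
  have h1 := Xi1_chi_smooth Z
  have h2 : ContDiffAt ℝ ∞ (fun Z : E7 => Z.2) Z := contDiffAt_snd
  have h3 := Xi1_hc_smooth (h1.mul contDiffAt_const) h2 (Xi1_chi_c Z) hZ.2.2
  exact contDiffAt_fst.prodMk (Xi1_rotQ_smooth (h1.mul contDiffAt_const) h3)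

theorem Xi_smooth : ContDiffOn ℝ ∞ Xi OZ := fun _ hZ => (Xi1_smooth hZ).contDiffWithinAt

theorem Xi_levels : ∀ Z ∈ OZ, (Xi Z).1 = Z.1 ∧ n4 (Xi Z).2 = n4 Z.2 := by
  intro Z hZ
  refine ⟨rfl, ?_⟩
  have : n4 (Xi Z).2 = n4 (rotQ (chi Z * (Real.pi / 2)) (hc (chi Z * c0) Z.2)) := rfl
  rw [this, n4_rotQ, n4_hc (Xi1_chi_c Z) hZ.2.2]

theorem Xi_maps : MapsTo Xi OZ OZ := by
  intro Z hZ
  obtain ⟨h1, h2⟩ := Xi_levels Z hZ
  refine ⟨?_, ?_, ?_⟩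
  · rw [h1]; exact hZ.1
  · rw [h1]; exact hZ.2.1
  · intro h
    rw [h] at h2
    have h3 : n4 (0 : R4) = 0 := by simp [n4]
    rw [h3] at h2
    exact absurd h2 (ZHOM.n4_pos hZ.2.2).ne

/-- the inverse of `Xi`. -/
def Xi1_Ps (Z : E7) : E7 :=
  (Z.1, hc (-(chi Z * c0)) (rotQ (-(chi Z * (Real.pi / 2))) Z.2))

lemma Xi1_left {Z : E7} (hZ : Z.2 ≠ 0) : Xi1_Ps (Xi Z) = Z := by
  have h1 : chi (Xi Z) = chi Z := rfl
  have h2 : (Xi Z).2 = rotQ (chi Z * (Real.pi / 2)) (hc (chi Z * c0) Z.2) := rfl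
  unfold Xi1_Ps
  rw [h1, h2, rotQ_rotQ, hc_hc (Xi1_chi_c Z) hZ]
  rfl

lemma Xi1_Ps_smooth {Z : E7} (hZ : Z ∈ OZ) : ContDiffAt ℝ ∞ Xi1_Ps Z := by
  have h1 := Xi1_chi_smooth Z
  have h2 : ContDiffAt ℝ ∞ (fun Z : E7 => Z.2) Z := contDiffAt_snd
  have h3 : ContDiffAt ℝ ∞ (fun Z => rotQ (-(chi Z * (Real.pi / 2))) Z.2) Z :=
    Xi1_rotQ_smooth (h1.mul contDiffAt_const).neg h2
  refine contDiffAt_fst.prodMk (Xi1_hc_smooth (h1.mul contDiffAt_const).neg h3 ?_ ?_)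
  · rw [abs_neg]; exact Xi1_chi_c Z
  · intro h
    have h4 := n4_rotQ (-(chi Z * (Real.pi / 2))) Z.2
    rw [h] at h4
    have h5 : n4 (0 : R4) = 0 := by simp [n4]
    rw [h5] at h4
    exact absurd h4 (ZHOM.n4_pos hZ.2.2).ne

theorem Xi_inv : ∀ Z ∈ OZ, (fderiv ℝ Xi Z).IsInvertible := by
  intro Z hZ
  refine isInvertible_of_leftInverse rfl (Ψ := Xi1_Ps)
    ((Xi1_smooth hZ).differentiableAt (by simp))
    ((Xi1_Ps_smooth (Xi_maps hZ)).differentiableAt (by simp)) ?_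
  filter_upwards [OZ_open.mem_nhds hZ] with W hW
  exact Xi1_left hW.2.2

theorem Xi_far : ∀ Z ∈ OZ, 1 / 16 < zw Z → Xi Z = Z := by
  intro Z hZ h
  have h1 : chi Z = 0 := by
    apply Real.smoothTransition.zero_of_nonpos
    unfold zw at h
    linarith
  have hn := ZHOM.n4_pos hZ.2.2
  have h2 : hc 0 Z.2 = Z.2 := by
    unfold hc
    refine Prod.ext ?_ (Prod.ext ?_ (Prod.ext ?_ ?_)) <;>
    · simp
      field_simp
  have h3 : ∀ s : R4, rotQ 0 s = s := by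
    intro s
    unfold rotQ
    simp
  unfold Xi
  rw [h1, zero_mul, zero_mul, h2, h3]

end S7Pair
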