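import Pool.Agent.S7Pair.Defs2
import Pool.Agent.S7Pair.Ch1
import Pool.Agent.S7Pair.Xi1

/-! # Module ES2: `(b - b_a, ω₁)` as a function of `x` -/

open scoped ContDiff Topology
open VectorField Set Filter

noncomputable section

namespace S7Pair

lemma ES2_n4_pos {P : E7} (hP : P ∈ O7) : 0 < n4 P.2 := by
  unfold n4
  apply Real.sqrt_pos.mpr
  have h := hP.2
  by_contra hcon
  have h0 : P.2.1 ^ 2 + P.2.2.1 ^ 2 + P.2.2.2.1 ^ 2 + P.2.2.2.2 ^ 2 = 0 := by
    apply le_antisymm (not_lt.mp hcon)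
    positivity
  apply h
  have a1 : P.2.1 = 0 := by nlinarith [sq_nonneg P.2.1, sq_nonneg P.2.2.1, sq_nonneg P.2.2.2.1, sq_nonneg P.2.2.2.2]
  have a2 : P.2.2.1 = 0 := by nlinarith [sq_nonneg P.2.1, sq_nonneg P.2.2.1, sq_nonneg P.2.2.2.1, sq_nonneg P.2.2.2.2]
  have a3 : P.2.2.2.1 = 0 := by nlinarith [sq_nonneg P.2.1, sq_nonneg P.2.2.1, sq_nonneg P.2.2.2.1, sq_nonneg P.2.2.2.2]
  have a4 : P.2.2.2.2 = 0 := by nlinarith [sq_nonneg P.2.1, sq_nonneg P.2.2.1, sq_nonneg P.2.2.2.1, sq_nonneg P.2.2.2.2]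
  ext <;> simp [a1, a2, a3, a4]

lemma ES2_s1_le {p : E7} (hp : p ∈ M7) (hw : ww p < 1 / 8) : |s1 p| ≤ 1 := by
  have h := ch_unit_norm hp hw
  rw [abs_le_one_iff_mul_self_le_one]
  nlinarith [sq_nonneg (gg p * p.2.2.1), sq_nonneg (gg p * p.2.2.2.1), sq_nonneg (gg p * p.2.2.2.2)]

lemma ES2_den {s : ℝ} (hs : |s| ≤ 1) : 0 < 1 - c0 * s := by
  obtain ⟨h0, h1, -⟩ := c0_facts
  have h2 := (abs_le.mp hs).2
  nlinarith

/-- the coordinates `zk` of a chart point. -/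
lemma ES2_zk {P : E7} (hP : P ∈ O1) : zk (ch P) =
    ((s1 (pr P) - c0) / (1 - c0 * s1 (pr P)),
      g0 * (gg (pr P) * (pr P).2.2.1) / (1 - c0 * s1 (pr P))) := by
  have hR : 0 < n4 P.2 := ES2_n4_pos hP.1
  have hM : pr P ∈ M7 := pr_mem hP.1
  have hs := ES2_den (ES2_s1_le hM hP.2)
  have hg : √(1 - c0 ^ 2) = g0 := c0_facts.2.2.2.2.2
  have hl := (ch_levels hP).2.1
  unfold zk hc
  rw [hl, hg]
  have e1 : (ch P).2.1 = n4 P.2 * s1 (pr P) := rfl
  have e2 : (ch P).2.2.1 = n4 P.2 * (gg (pr P) * (pr P).2.2.1) := rfl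
  rw [e1, e2]
  have e3 : n4 P.2 - c0 * (n4 P.2 * s1 (pr P)) = n4 P.2 * (1 - c0 * s1 (pr P)) := by ring
  rw [e3]
  generalize n4 P.2 = R at *
  generalize s1 (pr P) = s at *
  generalize gg (pr P) * (pr P).2.2.1 = y at *
  have h1 : 1 - c0 * s ≠ 0 := hs.ne'
  have h2 : R ≠ 0 := hR.ne'
  ext
  · field_simp
  · field_simp

theorem Ga_eq : ∀ P ∈ O1, Ga (zX (ch P)) =
    (((pr P).1.1 + sa, (pr P).1.2.1, (pr P).1.2.2 - sa), ((pr P).2.1, (pr P).2.2.1)) := by
  intro P hP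
  have hM : pr P ∈ M7 := pr_mem hP.1
  have hw : ww (pr P) < 1 / 8 := hP.2
  have hzk := ES2_zk hP
  have hs1 := ES2_s1_le hM hw
  have hden := ES2_den hs1
  obtain ⟨hc, hc1, hc2, hg, hg2, -⟩ := c0_facts
  have hx : zX (ch P) = (w1 (pr P), w2 (pr P), (s1 (pr P) - c0) / (1 - c0 * s1 (pr P)),
      g0 * (gg (pr P) * (pr P).2.2.1) / (1 - c0 * s1 (pr P))) := by
    unfold zX
    rw [hzk]
    rfl
  rw [hx]
  have hn := nn_pos hM
  have ht := tau_gt hM hw
  have hyp := alg_hyp hM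
  have hone := alg_one hM
  have hqn := qq_nonneg hM
  set p := pr P with hp
  set S := √(2 * nn p) with hS
  have hSpos : 0 < S := Real.sqrt_pos.mpr (by linarith)
  have hS2 : S ^ 2 = 2 * nn p := Real.sq_sqrt (by linarith)
  have hccpos : 0 < cc p := by
    unfold cc
    linarith
  set C := √(cc p) with hC
  have hCpos : 0 < C := Real.sqrt_pos.mpr hccpos
  have hC2 : C ^ 2 = cc p := Real.sq_sqrt hccpos.le
  have hmq : mm p ^ 2 + qq p ^ 2 = C ^ 2 := by
    rw [hC2]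
    unfold cc ww
    linarith
  have htp : 0 < 1 + p.2.1 := by linarith
  -- s1
  set D := √(cc p + C * qq p) with hD
  have hDarg : 0 < cc p + C * qq p := by positivity
  have hDpos : 0 < D := Real.sqrt_pos.mpr hDarg
  have hD2 : D ^ 2 = C * (C + qq p) := by
    rw [hD, Real.sq_sqrt hDarg.le, ← hC2]
    ring
  have hs1D : s1 p = mm p / D := rfl
  have hs2 : s1 p ^ 2 * (C * (C + qq p)) = mm p ^ 2 := by
    rw [hs1D, ← hD2]
    field_simp
  have hCq : 0 < C + qq p := by linarith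
  have key1 : C * (1 - s1 p ^ 2) = qq p := by
    have h1 : (C + qq p) * (C * (1 - s1 p ^ 2)) = (C + qq p) * qq p := by
      linear_combination (-1 : ℝ) * hs2 - hmq
    exact mul_left_cancel₀ hCq.ne' h1
  have key2 : C * s1 p * √(2 - s1 p ^ 2) = mm p := by
    have h1 : 2 - s1 p ^ 2 = (D / C) ^ 2 := by
      rw [div_pow, hD2]
      field_simp
      linear_combination key1
    rw [h1, Real.sqrt_sq (by positivity), hs1D]
    field_simp
  have key3 : √(1 - qq p * w1 p) = (1 + p.2.1) / S := by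
    have h1 : 1 - qq p * w1 p = ((1 + p.2.1) / S) ^ 2 := by
      rw [← hone, div_pow, hS2]
    rw [h1, Real.sqrt_sq (by positivity)]
  -- the functions at x
  set x : R4 := (w1 p, w2 p, (s1 p - c0) / (1 - c0 * s1 p), g0 * (gg p * p.2.2.1) / (1 - c0 * s1 p))
    with hxdef
  have hden2 : 1 + c0 * ((s1 p - c0) / (1 - c0 * s1 p)) = sa / (1 - c0 * s1 p) := by
    have h0 : 1 - c0 * s1 p ≠ 0 := hden.ne'
    field_simp
    linear_combination -hc2
  have hsa : 0 < sa := by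
    unfold sa
    positivity
  have G1 : Gs1 x = s1 p := by
    change ((s1 p - c0) / (1 - c0 * s1 p) + c0) / (1 + c0 * ((s1 p - c0) / (1 - c0 * s1 p))) = s1 p
    rw [hden2]
    have h0 : 1 - c0 * s1 p ≠ 0 := hden.ne'
    have h1 : (s1 p - c0) / (1 - c0 * s1 p) + c0 = s1 p * sa / (1 - c0 * s1 p) := by
      rw [div_add' _ _ _ h0]
      congr 1
      linear_combination (-s1 p) * hc2
    rw [h1, div_div_div_cancel_right₀ h0, mul_div_assoc, div_self hsa.ne', mul_one]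
  have G2 : Gs2 x = gg p * p.2.2.1 := by
    change g0 * (g0 * (gg p * p.2.2.1) / (1 - c0 * s1 p)) /
      (1 + c0 * ((s1 p - c0) / (1 - c0 * s1 p))) = gg p * p.2.2.1
    rw [hden2]
    have h0 : 1 - c0 * s1 p ≠ 0 := hden.ne'
    field_simp
    linear_combination (gg p * p.2.2.1) * hg2
  have G3 : Gc x = cc p := by
    change 2 - w1 p ^ 2 - w2 p ^ 2 = cc p
    unfold cc ww
    ring
  have G4 : Gq x = qq p := by
    unfold Gq
    rw [G1, G3]
    exact key1
  have G5 : Gm x = mm p := by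
    unfold Gm
    rw [G1, G3]
    exact key2
  have G6 : Gp x = (1 + p.2.1) / S := by
    unfold Gp
    rw [G4]
    exact key3
  have hq : qq p = (1 - p.2.1) / S := rfl
  have hw1 : w1 p = ((1 - p.2.1) + √2 * (1 + p.2.1) * p.1.1) / S := rfl
  have hw2 : w2 p = √2 * (1 + p.2.1) * p.1.2.1 / S := rfl
  have hmm : mm p = √2 * (1 + p.2.1) * p.1.2.2 / S := rfl
  have hsq2 : (√2 : ℝ) ≠ 0 := by positivity
  have htp' : 1 + p.2.1 ≠ 0 := htp.ne'
  have hS' : S ≠ 0 := hSpos.ne'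
  unfold Ga
  rw [G2, G3, G4, G5, G6]
  have x1 : x.1 = w1 p := rfl
  have x2 : x.2.1 = w2 p := rfl
  rw [x1, x2]
  ext
  · change (w1 p - qq p) / (√2 * ((1 + p.2.1) / S)) + sa = p.1.1 + sa
    rw [hw1, hq]
    field_simp
    ring
  · change w2 p / (√2 * ((1 + p.2.1) / S)) = p.1.2.1
    rw [hw2]
    field_simp
  · change mm p / (√2 * ((1 + p.2.1) / S)) - sa = p.1.2.2 - sa
    rw [hmm]
    field_simp
  · change ((1 + p.2.1) / S - qq p) / ((1 + p.2.1) / S + qq p) = p.2.1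
    rw [hq]
    have h1 : (1 + p.2.1) / S - (1 - p.2.1) / S = 2 * p.2.1 / S := by ring
    have h2 : (1 + p.2.1) / S + (1 - p.2.1) / S = 2 / S := by ring
    rw [h1, h2]
    field_simp
  · change gg p * p.2.2.1 * (2 * √((1 + p.2.1) / S) / ((1 + p.2.1) / S + qq p) * √(√(cc p))) = p.2.2.1
    rw [hq]
    have h2 : (1 + p.2.1) / S + (1 - p.2.1) / S = 2 / S := by ring
    rw [h2]
    have hgg : gg p = 1 / √(S * (1 + p.2.1) * C) := rfl
    have h3 : √(S * (1 + p.2.1) * C) = S * √((1 + p.2.1) / S) * √C := by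
      have h4 : S * (1 + p.2.1) * C = (S * √((1 + p.2.1) / S) * √C) ^ 2 := by
        rw [mul_pow, mul_pow, Real.sq_sqrt (show 0 ≤ (1 + p.2.1) / S by positivity),
          Real.sq_sqrt hCpos.le]
        field_simp
      rw [h4, Real.sqrt_sq (by positivity)]
    rw [hgg, h3]
    have h5 : 0 < √((1 + p.2.1) / S) := Real.sqrt_pos.mpr (by positivity)
    have h6 : 0 < √C := Real.sqrt_pos.mpr hCpos
    rw [← hC]
    field_simp

end S7Pair
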