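import Pool.Agent.S7Pair.Defs2
import Pool.Agent.S7Pair.Ch2
import Pool.Agent.S7Pair.Es2

/-! # Module ES1: the region near `H_a` in the chart -/

open scoped ContDiff Topology
open VectorField Set Filter

noncomputable section

namespace S7Pair

/-- the point with given `(b, (τ, y1))` and `y2 = y3 = 0`. -/
def ES1em (x : R3 × (ℝ × ℝ)) : E7 := (x.1, (x.2.1, x.2.2, 0, 0))

/-- the base point. -/
def ES1x0 : R3 × (ℝ × ℝ) := ((-sa, 0, sa), (0, 0))

lemma ES1_sa : sa ^ 2 = 1 / 2 ∧ √2 * sa = 1 ∧ 0 < sa := by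
  have h : √2 ^ 2 = 2 := Real.sq_sqrt (by norm_num)
  refine ⟨?_, ?_, ?_⟩
  · unfold sa
    rw [div_pow, h]
    norm_num
  · unfold sa
    linear_combination (1 / 2) * h
  · unfold sa
    positivity

lemma ES1_nn : 2 * nn (ES1em ES1x0) = 1 := by
  have h := ES1_sa.1
  unfold nn ES1em ES1x0
  simp only
  linear_combination (-2) * h

lemma ES1_w1 : w1 (ES1em ES1x0) = 0 := by
  have h := ES1_sa.2.1
  unfold w1
  rw [ES1_nn]
  have e : (1 - (ES1em ES1x0).2.1) + √2 * (1 + (ES1em ES1x0).2.1) * (ES1em ES1x0).1.1 = 0 := by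
    unfold ES1em ES1x0
    simp only
    linear_combination (-1 : ℝ) * h
  rw [e]
  simp

lemma ES1_w2 : w2 (ES1em ES1x0) = 0 := by
  unfold w2
  rw [ES1_nn]
  unfold ES1em ES1x0
  simp

lemma ES1_mm : mm (ES1em ES1x0) = 1 := by
  unfold mm
  rw [ES1_nn]
  unfold ES1em ES1x0
  simp only [add_zero, mul_one, Real.sqrt_one, div_one]
  exact ES1_sa.2.1

lemma ES1_qq : qq (ES1em ES1x0) = 1 := by
  unfold qq
  rw [ES1_nn]
  unfold ES1em ES1x0
  simp

lemma ES1_ww : ww (ES1em ES1x0) = 0 := by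
  unfold ww
  rw [ES1_w1, ES1_w2]
  norm_num

lemma ES1_cc : cc (ES1em ES1x0) = 2 := by
  unfold cc
  rw [ES1_ww]
  norm_num

lemma ES1_s1 : s1 (ES1em ES1x0) = c0 := by
  unfold s1
  rw [ES1_mm, ES1_cc, ES1_qq, mul_one]
  obtain ⟨hc, hc1, hc2, -⟩ := c0_facts
  obtain ⟨h1, h2, h3⟩ := ES1_sa
  have hD : 0 < √(2 + √2) := Real.sqrt_pos.mpr (by positivity)
  have hD2 : √(2 + √2) ^ 2 = 2 + √2 := Real.sq_sqrt (by positivity)
  have e : √2 = 2 * sa := by
    unfold sa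
    ring
  have h4 : (c0 * √(2 + √2)) ^ 2 = 1 := by
    rw [mul_pow, hD2, hc2, e]
    linear_combination (-2 : ℝ) * h1
  have h5 : c0 * √(2 + √2) = 1 := by
    have : 0 < c0 * √(2 + √2) := by positivity
    nlinarith
  rw [div_eq_iff hD.ne']
  exact h5.symm

lemma ES1_emc : Continuous ES1em := by
  unfold ES1em
  fun_prop

lemma ES1_root_c : ContinuousAt (fun x => √(2 * nn (ES1em x))) ES1x0 := by
  apply ContinuousAt.sqrt
  unfold nn ES1em
  fun_prop

lemma ES1_root_ne : √(2 * nn (ES1em ES1x0)) ≠ 0 := by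
  rw [ES1_nn]
  simp

lemma ES1_w1c : ContinuousAt (fun x => w1 (ES1em x)) ES1x0 := by
  unfold w1
  apply ContinuousAt.div _ ES1_root_c ES1_root_ne
  unfold ES1em
  fun_prop

lemma ES1_w2c : ContinuousAt (fun x => w2 (ES1em x)) ES1x0 := by
  unfold w2
  apply ContinuousAt.div _ ES1_root_c ES1_root_ne
  unfold ES1em
  fun_prop

lemma ES1_mmc : ContinuousAt (fun x => mm (ES1em x)) ES1x0 := by
  unfold mm
  apply ContinuousAt.div _ ES1_root_c ES1_root_ne
  unfold ES1em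
  fun_prop

lemma ES1_qqc : ContinuousAt (fun x => qq (ES1em x)) ES1x0 := by
  unfold qq
  apply ContinuousAt.div _ ES1_root_c ES1_root_ne
  unfold ES1em
  fun_prop

lemma ES1_wwc : ContinuousAt (fun x => ww (ES1em x)) ES1x0 := by
  unfold ww
  exact (ES1_w1c.pow 2).add (ES1_w2c.pow 2)

lemma ES1_ccc : ContinuousAt (fun x => cc (ES1em x)) ES1x0 := by
  unfold cc
  exact continuousAt_const.sub ES1_wwc

lemma ES1_s1c : ContinuousAt (fun x => s1 (ES1em x)) ES1x0 := by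
  unfold s1
  apply ContinuousAt.div ES1_mmc
  · exact (ES1_ccc.add (ES1_ccc.sqrt.mul ES1_qqc)).sqrt
  · rw [ES1_cc, ES1_qq]
    have : 0 < √(2 + √2 * 1) := Real.sqrt_pos.mpr (by positivity)
    exact this.ne'

lemma ES1_ggc : ContinuousAt (fun x => gg (ES1em x)) ES1x0 := by
  unfold gg
  apply ContinuousAt.div continuousAt_const
  · apply ContinuousAt.sqrt
    refine ((ES1_root_c).mul ?_).mul ES1_ccc.sqrt
    unfold ES1em
    fun_prop
  · rw [ES1_nn, ES1_cc]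
    have : 0 < √(√1 * (1 + (ES1em ES1x0).2.1) * √2) := by
      apply Real.sqrt_pos.mpr
      unfold ES1em ES1x0
      simp only [Real.sqrt_one, add_zero, mul_one]
      positivity
    exact this.ne'

/-- `zx ∘ ch` as a function of `(b,τ,y1)`. -/
def ES1F (x : R3 × (ℝ × ℝ)) : ℝ :=
  ww (ES1em x) + ((s1 (ES1em x) - c0) / (1 - c0 * s1 (ES1em x))) ^ 2 +
    (g0 * (gg (ES1em x) * x.2.2) / (1 - c0 * s1 (ES1em x))) ^ 2

lemma ES1_Fc : ContinuousAt ES1F ES1x0 := by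
  unfold ES1F
  have hne : 1 - c0 * s1 (ES1em ES1x0) ≠ 0 := by
    rw [ES1_s1]
    obtain ⟨hc, hc1, hc2, -⟩ := c0_facts
    have : 1 - c0 * c0 = sa := by linear_combination (-1 : ℝ) * hc2
    rw [this]
    exact ES1_sa.2.2.ne'
  have hd : ContinuousAt (fun x => 1 - c0 * s1 (ES1em x)) ES1x0 :=
    continuousAt_const.sub (continuousAt_const.mul ES1_s1c)
  have hy : ContinuousAt (fun x : R3 × (ℝ × ℝ) => x.2.2) ES1x0 := by fun_prop
  exact (ES1_wwc.add (((ES1_s1c.sub continuousAt_const).div hd hne).pow 2)).add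
    (((continuousAt_const.mul (ES1_ggc.mul hy)).div hd hne).pow 2)

lemma ES1_F0 : ES1F ES1x0 = 0 := by
  unfold ES1F
  rw [ES1_ww, ES1_s1]
  have : ES1x0.2.2 = 0 := rfl
  rw [this]
  simp

/-- the reduced point. -/
def ES1re (P : E7) : R3 × (ℝ × ℝ) := ((pr P).1, ((pr P).2.1, (pr P).2.2.1))

lemma ES1_ww_re (P : E7) : ww (ES1em (ES1re P)) = ww (pr P) := rfl

lemma ES1_zx {P : E7} (hP : P ∈ O1) : zx (ch P) = ES1F (ES1re P) := by
  unfold zx
  rw [ES2_zk hP]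
  rfl

/-- near `H_a` the chart coordinates `x = (w,κ^h)` are small. -/
theorem near_region : ∀ η : ℝ, 0 < η → ∃ δ : ℝ, 0 < δ ∧
    ∀ P ∈ O7, QQ P < δ → P ∈ O1 ∧ zx (ch P) < η := by
  intro η hη
  have h1 : ∀ᶠ x in 𝓝 ES1x0, ES1F x < η := by
    apply ES1_Fc.eventually_lt continuousAt_const
    rw [ES1_F0]
    exact hη
  have h2 : ∀ᶠ x in 𝓝 ES1x0, ww (ES1em x) < 1 / 8 := by
    apply ES1_wwc.eventually_lt continuousAt_const
    rw [ES1_ww]
    norm_num
  obtain ⟨ε, hε, hb⟩ := Metric.eventually_nhds_iff_ball.mp (h1.and h2)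
  refine ⟨ε ^ 2, by positivity, ?_⟩
  intro P hP hQ
  have hmem : ES1re P ∈ Metric.ball ES1x0 ε := by
    rw [Metric.mem_ball, dist_eq_norm]
    unfold QQ at hQ
    have key : ∀ y : ℝ, y ^ 2 ≤ ((pr P).1.1 + sa) ^ 2 + (pr P).1.2.1 ^ 2 + ((pr P).1.2.2 - sa) ^ 2
        + (pr P).2.1 ^ 2 + (pr P).2.2.1 ^ 2 → |y| < ε := by
      intro y hy
      exact abs_lt_of_sq_lt_sq (lt_of_le_of_lt hy hQ) hε.le
    have q1 := sq_nonneg ((pr P).1.1 + sa)
    have q2 := sq_nonneg (pr P).1.2.1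
    have q3 := sq_nonneg ((pr P).1.2.2 - sa)
    have q4 := sq_nonneg (pr P).2.1
    have q5 := sq_nonneg (pr P).2.2.1
    have k1 := key ((pr P).1.1 + sa) (by linarith)
    have k2 := key (pr P).1.2.1 (by linarith)
    have k3 := key ((pr P).1.2.2 - sa) (by linarith)
    have k4 := key (pr P).2.1 (by linarith)
    have k5 := key (pr P).2.2.1 (by linarith)
    unfold ES1re ES1x0
    simp only [Prod.norm_def, sup_lt_iff, Real.norm_eq_abs, Prod.fst_sub, Prod.snd_sub,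
      sub_neg_eq_add, sub_zero]
    exact ⟨⟨k1, k2, k3⟩, k4, k5⟩
  obtain ⟨h3, h4⟩ := hb _ hmem
  have hO : P ∈ O1 := ⟨hP, h4⟩
  refine ⟨hO, ?_⟩
  rw [ES1_zx hO]
  exact h3

lemma QQ_nonneg (P : E7) : 0 ≤ QQ P := by
  unfold QQ
  positivity

lemma zx_of_QQ {P : E7} (hP : P ∈ O1) (h : QQ P = 0) : zx (ch P) = 0 := by
  apply le_antisymm
  · apply le_of_forall_pos_lt_add
    intro η hη
    obtain ⟨δ, hδ, hd⟩ := near_region η hη
    have := (hd P hP.1 (by rw [h]; exact hδ)).2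
    linarith
  · unfold zx
    positivity

lemma QQ_smooth : ContDiffOn ℝ ∞ QQ O7 := by
  have h : ContDiffOn ℝ ∞ pr O7 := pr_smooth
  have hb : ContDiffOn ℝ ∞ (fun P => (pr P).1) O7 := contDiff_fst.comp_contDiffOn h
  have hw : ContDiffOn ℝ ∞ (fun P => (pr P).2) O7 := contDiff_snd.comp_contDiffOn h
  have b1 : ContDiffOn ℝ ∞ (fun P => (pr P).1.1) O7 := contDiff_fst.comp_contDiffOn hb
  have b23 : ContDiffOn ℝ ∞ (fun P => (pr P).1.2) O7 := contDiff_snd.comp_contDiffOn hb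
  have b2 : ContDiffOn ℝ ∞ (fun P => (pr P).1.2.1) O7 := contDiff_fst.comp_contDiffOn b23
  have b3 : ContDiffOn ℝ ∞ (fun P => (pr P).1.2.2) O7 := contDiff_snd.comp_contDiffOn b23
  have t : ContDiffOn ℝ ∞ (fun P => (pr P).2.1) O7 := contDiff_fst.comp_contDiffOn hw
  have y : ContDiffOn ℝ ∞ (fun P => (pr P).2.2) O7 := contDiff_snd.comp_contDiffOn hw
  have y1 : ContDiffOn ℝ ∞ (fun P => (pr P).2.2.1) O7 := contDiff_fst.comp_contDiffOn y
  unfold QQ
  exact (((((b1.add contDiffOn_const).pow 2).add (b2.pow 2)).add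
    ((b3.sub contDiffOn_const).pow 2)).add (t.pow 2)).add (y1.pow 2)

end S7Pair
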