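import Pool.Agent.S7Pair.Defs2
import Pool.Agent.S7Pair.Xi1

/-! # Module ES3: derivative of `Ga` at 0 -/

open scoped ContDiff Topology
open VectorField Set Filter

noncomputable section

namespace S7Pair

def GaL : R4 →L[ℝ] R3 × (ℝ × ℝ) :=
  LinearMap.toContinuousLinearMap
    { toFun := GaLfun
      map_add' := by intro x y; simp only [GaLfun]; ext <;> simp <;> ring
      map_smul' := by intro c x; simp only [GaLfun]; ext <;> simp <;> ring }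

lemma ES3_sa : sa ^ 2 = 1 / 2 := by
  unfold sa
  rw [div_pow, Real.sq_sqrt (by norm_num)]
  norm_num

lemma ES3_sa_pos : 0 < sa := by
  unfold sa
  positivity

lemma ES3_sqrt2 : √2 * sa = 1 := by
  unfold sa
  have : √2 * √2 = 2 := Real.mul_self_sqrt (by norm_num)
  linarith

lemma ES3_sa2 : sa = 1 / √2 := by
  have h := ES3_sqrt2
  have : (√2 : ℝ) ≠ 0 := by positivity
  field_simp
  linarith

lemma ES3_c0 : 0 < c0 ∧ c0 < 1 ∧ c0 ^ 2 = 1 - sa ∧ 0 < g0 ∧ g0 ^ 2 = sa := by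
  have h := c0_facts
  exact ⟨h.1, h.2.1, h.2.2.1, h.2.2.2.1, h.2.2.2.2.1⟩

lemma ES3_Gs1 : Gs1 0 = c0 := by
  simp [Gs1]

lemma ES3_Gs2 : Gs2 0 = 0 := by
  simp [Gs2]

lemma ES3_Gc : Gc 0 = 2 := by
  simp [Gc]

lemma ES3_Gq : Gq 0 = 1 := by
  unfold Gq
  rw [ES3_Gs1, ES3_Gc, ES3_c0.2.2.1]
  have := ES3_sqrt2
  linarith

lemma ES3_root : √(2 - c0 ^ 2) * (√2 * c0) = 1 := by
  have h1 : (√(2 - c0 ^ 2) * (√2 * c0)) ^ 2 = 1 := by
    rw [mul_pow, mul_pow, Real.sq_sqrt (by nlinarith [ES3_c0.1, ES3_c0.2.1]),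
      Real.sq_sqrt (by norm_num), ES3_c0.2.2.1]
    have := ES3_sa
    nlinarith
  have h2 : 0 ≤ √(2 - c0 ^ 2) * (√2 * c0) := by
    have := ES3_c0.1
    positivity
  nlinarith

lemma ES3_Gm : Gm 0 = 1 := by
  unfold Gm
  rw [ES3_Gs1, ES3_Gc]
  have := ES3_root
  linarith

lemma ES3_Gp : Gp 0 = 1 := by
  unfold Gp
  simp

lemma Ga_zero : Ga 0 = 0 := by
  unfold Ga
  rw [ES3_Gq, ES3_Gm, ES3_Gp, ES3_Gs2]
  have h : (√2)⁻¹ = sa := by rw [ES3_sa2, one_div]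
  ext <;> simp [h]
  rw [neg_div, one_div, h]
  ring

lemma ES3_Gs1_smooth : ContDiffAt ℝ ∞ Gs1 0 := by
  unfold Gs1
  apply ContDiffAt.div
  · fun_prop
  · fun_prop
  · simp

lemma ES3_Gs2_smooth : ContDiffAt ℝ ∞ Gs2 0 := by
  unfold Gs2
  apply ContDiffAt.div
  · fun_prop
  · fun_prop
  · simp

lemma ES3_Gc_smooth : ContDiffAt ℝ ∞ Gc 0 := by
  unfold Gc
  fun_prop

lemma ES3_sqrtGc_smooth : ContDiffAt ℝ ∞ (fun x => √(Gc x)) 0 := by
  apply ContDiffAt.sqrt ES3_Gc_smooth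
  rw [ES3_Gc]
  norm_num

lemma ES3_Gq_smooth : ContDiffAt ℝ ∞ Gq 0 := by
  unfold Gq
  exact ES3_sqrtGc_smooth.mul (contDiffAt_const.sub (ES3_Gs1_smooth.pow 2))

lemma ES3_Gm_smooth : ContDiffAt ℝ ∞ Gm 0 := by
  unfold Gm
  refine (ES3_sqrtGc_smooth.mul ES3_Gs1_smooth).mul ?_
  apply ContDiffAt.sqrt (contDiffAt_const.sub (ES3_Gs1_smooth.pow 2))
  rw [ES3_Gs1]
  nlinarith [ES3_c0.1, ES3_c0.2.1]

lemma ES3_Gp_smooth : ContDiffAt ℝ ∞ Gp 0 := by
  unfold Gp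
  apply ContDiffAt.sqrt (contDiffAt_const.sub (ES3_Gq_smooth.mul (by fun_prop)))
  simp

lemma Ga_smooth : ContDiffAt ℝ ∞ Ga 0 := by
  unfold Ga
  have h2 : (√2 * Gp 0) ≠ 0 := by rw [ES3_Gp]; simp
  have h3 : Gp 0 + Gq 0 ≠ 0 := by rw [ES3_Gp, ES3_Gq]; norm_num
  have hp : ContDiffAt ℝ ∞ (fun x => √2 * Gp x) 0 := contDiffAt_const.mul ES3_Gp_smooth
  have hs : ContDiffAt ℝ ∞ (fun x => √(Gp x)) 0 := by
    apply ContDiffAt.sqrt ES3_Gp_smooth
    rw [ES3_Gp]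
    norm_num
  have hs2 : ContDiffAt ℝ ∞ (fun x => √(√(Gc x))) 0 := by
    apply ContDiffAt.sqrt ES3_sqrtGc_smooth
    rw [ES3_Gc]
    positivity
  refine ContDiffAt.prodMk (ContDiffAt.prodMk ?_ (ContDiffAt.prodMk ?_ ?_))
    (ContDiffAt.prodMk ?_ ?_)
  · exact (ContDiffAt.div ((by fun_prop : ContDiffAt ℝ ∞ (fun x : R4 => x.1) 0).sub ES3_Gq_smooth) hp h2).add
      contDiffAt_const
  · exact ContDiffAt.div (by fun_prop) hp h2
  · exact (ContDiffAt.div ES3_Gm_smooth hp h2).sub contDiffAt_const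
  · exact ContDiffAt.div (ES3_Gp_smooth.sub ES3_Gq_smooth) (ES3_Gp_smooth.add ES3_Gq_smooth) h3
  · exact ES3_Gs2_smooth.mul ((ContDiffAt.div (contDiffAt_const.mul hs)
      (ES3_Gp_smooth.add ES3_Gq_smooth) h3).mul hs2)

/-! derivatives along lines -/

lemma ES3_lin (c : ℝ) : HasDerivAt (fun t : ℝ => t * c) c 0 := by
  simpa using (hasDerivAt_id (0 : ℝ)).mul_const c

lemma ES3_line_Gs1 (v : R4) : HasDerivAt (fun t : ℝ => Gs1 (t • v)) (sa * v.2.2.1) 0 := by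
  have h := ((ES3_lin v.2.2.1).add_const c0).div (((ES3_lin v.2.2.1).const_mul c0).const_add 1)
    (by simp)
  refine (h.congr_deriv ?_)
  have := ES3_c0.2.2.1
  simp only [zero_mul, mul_zero, add_zero, zero_add, one_pow, div_one, mul_one]
  linear_combination (-v.2.2.1) * this

lemma ES3_line_Gs2 (v : R4) : HasDerivAt (fun t : ℝ => Gs2 (t • v)) (g0 * v.2.2.2) 0 := by
  have h := ((ES3_lin v.2.2.2).const_mul g0).div (((ES3_lin v.2.2.1).const_mul c0).const_add 1)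
    (by simp)
  refine (h.congr_deriv ?_)
  simp

lemma ES3_line_Gc (v : R4) : HasDerivAt (fun t : ℝ => Gc (t • v)) 0 0 := by
  have h := (((ES3_lin v.1).pow 2).const_sub 2).sub ((ES3_lin v.2.1).pow 2)
  refine (h.congr_deriv ?_)
  simp

lemma ES3_line_sqrtGc (v : R4) : HasDerivAt (fun t : ℝ => √(Gc (t • v))) 0 0 := by
  have h := (ES3_line_Gc v).sqrt (by simp [ES3_Gc])
  refine (h.congr_deriv ?_)
  simp

lemma ES3_line_Gq (v : R4) : HasDerivAt (fun t : ℝ => Gq (t • v)) (-(2 * c0 * v.2.2.1)) 0 := by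
  have h := (ES3_line_sqrtGc v).mul (((ES3_line_Gs1 v).pow 2).const_sub 1)
  refine (h.congr_deriv ?_)
  have := ES3_sqrt2
  simp only [zero_smul, ES3_Gs1, ES3_Gc]
  push_cast
  linear_combination (-(2 * c0 * v.2.2.1)) * this

lemma ES3_line_Gm (v : R4) : HasDerivAt (fun t : ℝ => Gm (t • v)) (2 * c0 * v.2.2.1) 0 := by
  have hne : (2 - c0 ^ 2) ≠ 0 := by nlinarith [ES3_c0.1, ES3_c0.2.1]
  have hpos : 0 < 2 - c0 ^ 2 := by nlinarith [ES3_c0.1, ES3_c0.2.1]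
  have h1 := (((ES3_line_Gs1 v).pow 2).const_sub 2).sqrt (by simpa [ES3_Gs1] using hne)
  have h := ((ES3_line_sqrtGc v).mul (ES3_line_Gs1 v)).mul h1
  refine (h.congr_deriv ?_)
  have e1 := ES3_sqrt2
  have e2 := ES3_root
  have e3 := ES3_c0.2.2.1
  have e4 := ES3_sa
  simp only [zero_smul, ES3_Gs1, ES3_Gc, zero_mul, zero_add, Pi.pow_apply, Pi.mul_apply]
  set r := √(2 - c0 ^ 2) with hr
  have hr0 : 0 < r := Real.sqrt_pos.mpr hpos
  have hr2 : r ^ 2 = 2 - c0 ^ 2 := Real.sq_sqrt hpos.le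
  have e5 : r * c0 = sa := by
    have : sa * (r * (√2 * c0)) = sa := by rw [e2, mul_one]
    linear_combination this - r * c0 * e1
  push_cast
  field_simp
  linear_combination (v.2.2.1 * (r ^ 2 - c0 ^ 2)) * e1 + v.2.2.1 * hr2 - 2 * v.2.2.1 * e3
    - 2 * v.2.2.1 * e5

lemma ES3_line_Gp (v : R4) : HasDerivAt (fun t : ℝ => Gp (t • v)) (-(v.1 / 2)) 0 := by
  have h := (((ES3_line_Gq v).mul (ES3_lin v.1)).const_sub 1).sqrt (by simp)
  refine (h.congr_deriv ?_)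
  simp [ES3_Gq]
  ring

lemma ES3_line_sqrtGp (v : R4) : HasDerivAt (fun t : ℝ => √(Gp (t • v))) (-(v.1 / 4)) 0 := by
  have h := (ES3_line_Gp v).sqrt (by simp [ES3_Gp])
  refine (h.congr_deriv ?_)
  simp [ES3_Gp]
  ring

lemma ES3_line_sqrtsqrtGc (v : R4) : HasDerivAt (fun t : ℝ => √(√(Gc (t • v)))) 0 0 := by
  have h := (ES3_line_sqrtGc v).sqrt (by simp [ES3_Gc])
  refine (h.congr_deriv ?_)
  simp

lemma ES3_line_den (v : R4) : HasDerivAt (fun t : ℝ => √2 * Gp (t • v)) (√2 * -(v.1 / 2)) 0 :=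
  (ES3_line_Gp v).const_mul _

lemma ES3_line_1 (v : R4) : HasDerivAt (fun t : ℝ => (Ga (t • v)).1.1) (GaLfun v).1.1 0 := by
  have h := (((ES3_lin v.1).sub (ES3_line_Gq v)).div (ES3_line_den v)
    (by simp [ES3_Gp])).add_const sa
  refine (h.congr_deriv ?_)
  have e5 : √2 ^ 2 = 2 := Real.sq_sqrt (by norm_num)
  have e6 : sa = √2 / 2 := rfl
  simp only [zero_smul, ES3_Gq, ES3_Gp, zero_mul, GaLfun, Pi.sub_apply, mul_one]
  rw [e5, e6]
  ring

lemma ES3_line_2 (v : R4) : HasDerivAt (fun t : ℝ => (Ga (t • v)).1.2.1) (GaLfun v).1.2.1 0 := by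
  have h := ((ES3_lin v.2.1).div (ES3_line_den v) (by simp [ES3_Gp]))
  refine (h.congr_deriv ?_)
  have e5 : √2 ^ 2 = 2 := Real.sq_sqrt (by norm_num)
  have e6 : sa = √2 / 2 := rfl
  simp only [zero_smul, ES3_Gp, zero_mul, GaLfun, mul_one]
  rw [e5, e6]
  ring

lemma ES3_line_3 (v : R4) : HasDerivAt (fun t : ℝ => (Ga (t • v)).1.2.2) (GaLfun v).1.2.2 0 := by
  have h := ((ES3_line_Gm v).div (ES3_line_den v) (by simp [ES3_Gp])).sub_const sa
  refine (h.congr_deriv ?_)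
  have e5 : √2 ^ 2 = 2 := Real.sq_sqrt (by norm_num)
  have e6 : sa = √2 / 2 := rfl
  simp only [zero_smul, ES3_Gm, ES3_Gp, GaLfun, mul_one]
  rw [e5, e6]
  ring

lemma ES3_line_4 (v : R4) : HasDerivAt (fun t : ℝ => (Ga (t • v)).2.1) (GaLfun v).2.1 0 := by
  have h := ((ES3_line_Gp v).sub (ES3_line_Gq v)).div ((ES3_line_Gp v).add (ES3_line_Gq v))
    (by simp [ES3_Gp, ES3_Gq])
  refine (h.congr_deriv ?_)
  simp only [zero_smul, ES3_Gq, ES3_Gp, GaLfun, Pi.sub_apply, Pi.add_apply]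
  ring

lemma ES3_line_5 (v : R4) : HasDerivAt (fun t : ℝ => (Ga (t • v)).2.2) (GaLfun v).2.2 0 := by
  have h := (ES3_line_Gs2 v).mul ((((ES3_line_sqrtGp v).const_mul 2).div
    ((ES3_line_Gp v).add (ES3_line_Gq v)) (by simp [ES3_Gp, ES3_Gq])).mul
      (ES3_line_sqrtsqrtGc v))
  refine (h.congr_deriv ?_)
  simp only [zero_smul, ES3_Gq, ES3_Gp, ES3_Gs2, ES3_Gc, GaLfun, Pi.mul_apply, Pi.div_apply,
    Pi.add_apply, zero_mul, add_zero, Real.sqrt_one]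
  have e1 : g0 * √(√2) = 1 := by
    have h1 : (g0 * √(√2)) ^ 2 = 1 := by
      rw [mul_pow, Real.sq_sqrt (by positivity), ES3_c0.2.2.2.2]
      have := ES3_sqrt2
      linarith
    have h2 : 0 ≤ g0 * √(√2) := by
      have := ES3_c0.2.2.2.1
      positivity
    nlinarith
  have e2 : (2 : ℝ) * 1 / (1 + 1) = 1 := by norm_num
  rw [e2]
  linear_combination v.2.2.2 * e1

theorem Ga_deriv : HasFDerivAt Ga GaL 0 := by
  have hd : DifferentiableAt ℝ Ga 0 := Ga_smooth.differentiableAt (by simp)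
  have h := hd.hasFDerivAt
  have e : fderiv ℝ Ga 0 = GaL := by
    refine ContinuousLinearMap.ext fun v => ?_
    have hl : HasDerivAt (fun t : ℝ => t • v) v 0 := by
      simpa using (hasDerivAt_id (0 : ℝ)).smul_const v
    have h1 : HasDerivAt (fun t : ℝ => Ga (t • v)) (fderiv ℝ Ga 0 v) 0 := by
      have h0 : HasFDerivAt Ga (fderiv ℝ Ga 0) ((0 : ℝ) • v) := by
        rw [zero_smul]
        exact h
      exact h0.comp_hasDerivAt 0 hl
    have h2 : HasDerivAt (fun t : ℝ => Ga (t • v)) (GaLfun v) 0 := by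
      exact ((ES3_line_1 v).prodMk ((ES3_line_2 v).prodMk (ES3_line_3 v))).prodMk
        ((ES3_line_4 v).prodMk (ES3_line_5 v))
    exact h1.unique h2
  rw [← e]
  exact h

end S7Pair
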