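import Pool.Agent.S7Pair.Es3

/-! # Module ES4: the acute angle, infinitesimally and near 0 -/

open scoped ContDiff Topology
open VectorField Set Filter

noncomputable section

namespace S7Pair

/-- the quadratic form at 0. -/
lemma gB_quad (x : R4) : gB (rhoL (GaLfun x)) (GaLfun (J0 x)) =
    (x.1 ^ 2 + x.2.1 ^ 2) * (√2 / 4) + 4 * √2 * c0 ^ 2 * (x.2.2.1 ^ 2 + x.2.2.2 ^ 2) := by
  have e1 : sa ^ 2 = 1 / 2 := ES3_sa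
  have e2 : sa = √2 / 2 := rfl
  simp only [gB, rhoL, GaLfun, J0, dot3]
  linear_combination (2 * (-x.2.1) * (-(sa / 2) * x.2.1 + √2 * c0 * x.2.2.2) +
    (sa * x.1 ^ 2 + 2 * √2 * c0 * x.2.2.1 * x.1)) * e1 + (1 / 2) * (x.1 ^ 2 + x.2.1 ^ 2) * e2

lemma ES4_gB_le (X Y : R3 × (ℝ × ℝ)) : |gB X Y| ≤ 16 * (‖X‖ * ‖Y‖) := by
  obtain ⟨hc, hc1, -, -, -⟩ := ES3_c0
  have hs : √2 ≤ 3 / 2 := by
    rw [Real.sqrt_le_left (by norm_num)]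
    norm_num
  have hs0 : 0 ≤ √2 := Real.sqrt_nonneg 2
  have hk : 4 * √2 * c0 ≤ 6 := by nlinarith
  have hk0 : 0 ≤ 4 * √2 * c0 := by positivity
  have b1 : |X.1.1 * Y.1.1| ≤ ‖X‖ * ‖Y‖ := by
    rw [abs_mul]
    exact mul_le_mul ((norm_fst_le X.1).trans (norm_fst_le X))
      ((norm_fst_le Y.1).trans (norm_fst_le Y)) (abs_nonneg _) (norm_nonneg _)
  have b2 : |X.1.2.1 * Y.1.2.1| ≤ ‖X‖ * ‖Y‖ := by
    rw [abs_mul]
    exact mul_le_mul ((norm_fst_le X.1.2).trans ((norm_snd_le X.1).trans (norm_fst_le X)))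
      ((norm_fst_le Y.1.2).trans ((norm_snd_le Y.1).trans (norm_fst_le Y)))
      (abs_nonneg _) (norm_nonneg _)
  have b3 : |X.1.2.2 * Y.1.2.2| ≤ ‖X‖ * ‖Y‖ := by
    rw [abs_mul]
    exact mul_le_mul ((norm_snd_le X.1.2).trans ((norm_snd_le X.1).trans (norm_fst_le X)))
      ((norm_snd_le Y.1.2).trans ((norm_snd_le Y.1).trans (norm_fst_le Y)))
      (abs_nonneg _) (norm_nonneg _)
  have b4 : |X.2.1 * Y.2.1| ≤ ‖X‖ * ‖Y‖ := by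
    rw [abs_mul]
    exact mul_le_mul ((norm_fst_le X.2).trans (norm_snd_le X))
      ((norm_fst_le Y.2).trans (norm_snd_le Y)) (abs_nonneg _) (norm_nonneg _)
  have b5 : |X.2.2 * Y.2.2| ≤ ‖X‖ * ‖Y‖ := by
    rw [abs_mul]
    exact mul_le_mul ((norm_snd_le X.2).trans (norm_snd_le X))
      ((norm_snd_le Y.2).trans (norm_snd_le Y)) (abs_nonneg _) (norm_nonneg _)
  have h0 : 0 ≤ ‖X‖ * ‖Y‖ := by positivity
  rw [abs_le] at *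
  have c4 : |4 * √2 * c0 * (X.2.1 * Y.2.1 + X.2.2 * Y.2.2)| ≤ 6 * (2 * (‖X‖ * ‖Y‖)) := by
    rw [abs_mul, abs_of_nonneg hk0]
    apply mul_le_mul hk _ (abs_nonneg _) (by norm_num)
    rw [abs_le]
    constructor <;> linarith [b4.1, b4.2, b5.1, b5.2]
  rw [abs_le] at c4
  unfold gB dot3
  constructor <;> linarith [b1.1, b1.2, b2.1, b2.2, b3.1, b3.2, c4.1, c4.2]

lemma ES4_rhoL_sub (X Y : R3 × (ℝ × ℝ)) : rhoL X - rhoL Y = rhoL (X - Y) := by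
  unfold rhoL
  ext <;> simp <;> ring

lemma ES4_gB_split (X X' Y Y' : R3 × (ℝ × ℝ)) :
    gB X Y = gB X' Y' + gB (X - X') Y + gB X' (Y - Y') := by
  unfold gB dot3
  simp only [Prod.fst_sub, Prod.snd_sub]
  ring

lemma ES4_rhoL_le (X : R3 × (ℝ × ℝ)) : ‖rhoL X‖ ≤ 2 * ‖X‖ := by
  have hs0 : 0 < sa := ES3_sa_pos
  have hs1 : sa ≤ 1 := by nlinarith [ES3_sa]
  have hX := norm_nonneg X
  have a1 : |X.1.1| ≤ ‖X‖ := (norm_fst_le X.1).trans (norm_fst_le X)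
  have a2 : |X.1.2.1| ≤ ‖X‖ := (norm_fst_le X.1.2).trans ((norm_snd_le X.1).trans (norm_fst_le X))
  have a3 : |X.1.2.2| ≤ ‖X‖ := (norm_snd_le X.1.2).trans ((norm_snd_le X.1).trans (norm_fst_le X))
  have a4 : |X.2.1| ≤ ‖X‖ := (norm_fst_le X.2).trans (norm_snd_le X)
  have a5 : |X.2.2| ≤ ‖X‖ := (norm_snd_le X.2).trans (norm_snd_le X)
  have hm : ∀ y : ℝ, |y| ≤ 2 * ‖X‖ → |sa * y| ≤ 2 * ‖X‖ := by
    intro y hy
    rw [abs_mul, abs_of_pos hs0]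
    nlinarith [abs_nonneg y]
  have c2 : |(-(sa * X.1.2.1))| ≤ 2 * ‖X‖ := by
    rw [abs_neg]
    exact hm _ (by linarith)
  have c13 : |sa * (X.1.1 + X.1.2.2)| ≤ 2 * ‖X‖ := by
    apply hm
    rw [abs_le] at *
    constructor <;> linarith [a1.1, a1.2, a3.1, a3.2]
  unfold rhoL
  simp only [Prod.norm_def, sup_le_iff, Real.norm_eq_abs] at *
  refine ⟨⟨c2, c13, c2⟩, by linarith, ?_⟩
  rw [abs_neg]
  linarith

lemma ES4_J0_le (x : R4) : ‖J0 x‖ ≤ ‖x‖ := by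
  have a1 : |x.1| ≤ ‖x‖ := norm_fst_le x
  have a2 : |x.2.1| ≤ ‖x‖ := (norm_fst_le x.2).trans (norm_snd_le x)
  have a3 : |x.2.2.1| ≤ ‖x‖ := (norm_fst_le x.2.2).trans ((norm_snd_le x.2).trans (norm_snd_le x))
  have a4 : |x.2.2.2| ≤ ‖x‖ := (norm_snd_le x.2.2).trans ((norm_snd_le x.2).trans (norm_snd_le x))
  unfold J0
  generalize ‖x‖ = r at *
  simp only [Prod.norm_def, sup_le_iff, Real.norm_eq_abs, abs_neg]
  exact ⟨a2, a1, a4, a3⟩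

lemma ES4_norm_sq (x : R4) : ‖x‖ ^ 2 ≤ x.1 ^ 2 + x.2.1 ^ 2 + x.2.2.1 ^ 2 + x.2.2.2 ^ 2 := by
  have h : ‖x‖ ≤ √(x.1 ^ 2 + x.2.1 ^ 2 + x.2.2.1 ^ 2 + x.2.2.2 ^ 2) := by
    simp only [Prod.norm_def, sup_le_iff, Real.norm_eq_abs]
    refine ⟨?_, ?_, ?_, ?_⟩ <;>
    · apply Real.abs_le_sqrt
      nlinarith [sq_nonneg x.1, sq_nonneg x.2.1, sq_nonneg x.2.2.1, sq_nonneg x.2.2.2]
  have h2 : 0 ≤ x.1 ^ 2 + x.2.1 ^ 2 + x.2.2.1 ^ 2 + x.2.2.2 ^ 2 := by positivity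
  calc ‖x‖ ^ 2 ≤ √(x.1 ^ 2 + x.2.1 ^ 2 + x.2.2.1 ^ 2 + x.2.2.2 ^ 2) ^ 2 := by
        gcongr
    _ = _ := Real.sq_sqrt h2

theorem gB_pos : ∃ η : ℝ, 0 < η ∧ ∀ x : R4, x ≠ 0 →
    x.1 ^ 2 + x.2.1 ^ 2 + x.2.2.1 ^ 2 + x.2.2.2 ^ 2 < η →
    0 < gB (rhoL (Ga x)) (fderiv ℝ Ga x (J0 x)) := by
  obtain ⟨hc, hc1, -, -, -⟩ := ES3_c0
  set m : ℝ := min (√2 / 4) (4 * √2 * c0 ^ 2) with hm
  have hmpos : 0 < m := lt_min (by positivity) (by positivity)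
  set L : ℝ := ‖GaL‖ + 1 with hL
  have hL1 : 1 ≤ L := by
    have := norm_nonneg GaL
    linarith
  set ε : ℝ := min 1 (m / (128 * L)) with hε
  have hε0 : 0 < ε := lt_min one_pos (by positivity)
  have hε1 : ε ≤ 1 := min_le_left _ _
  have hε2 : 128 * L * ε ≤ m := by
    have : ε ≤ m / (128 * L) := min_le_right _ _
    calc 128 * L * ε ≤ 128 * L * (m / (128 * L)) := by gcongr
      _ = m := by field_simp
  -- first smallness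
  have h1 : ∀ᶠ x in 𝓝 (0 : R4), ‖Ga x - GaL x‖ ≤ ε * ‖x‖ := by
    have h := Ga_deriv.isLittleO.def hε0
    filter_upwards [h] with x hx
    simpa [Ga_zero] using hx
  have h2 : ∀ᶠ x in 𝓝 (0 : R4), ‖fderiv ℝ Ga x - GaL‖ ≤ ε := by
    have hc : ContinuousAt (fderiv ℝ Ga) 0 :=
      (Ga_smooth.fderiv_right (m := 0) (by simp)).continuousAt
    have h := Metric.continuousAt_iff.mp hc ε hε0
    obtain ⟨δ, hδ, h⟩ := h
    filter_upwards [Metric.ball_mem_nhds (0 : R4) hδ] with x hx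
    have := h (Metric.mem_ball.mp hx)
    rw [Ga_deriv.fderiv, dist_eq_norm] at this
    exact this.le
  obtain ⟨η, hη, hball⟩ := Metric.eventually_nhds_iff_ball.mp (h1.and h2)
  refine ⟨η ^ 2, by positivity, ?_⟩
  intro x hx0 hx
  have hN := ES4_norm_sq x
  have hxη : ‖x‖ < η := by
    have : ‖x‖ ^ 2 < η ^ 2 := lt_of_le_of_lt hN hx
    exact lt_of_pow_lt_pow_left₀ 2 hη.le this
  obtain ⟨hx1, hx2⟩ := hball x (by simpa using hxη)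
  have hxpos : 0 < ‖x‖ := norm_pos_iff.mpr hx0
  set A := rhoL (Ga x) with hA
  set B := fderiv ℝ Ga x (J0 x) with hB
  have hGL : ∀ y : R4, GaL y = GaLfun y := fun y => rfl
  rw [ES4_gB_split A (rhoL (GaLfun x)) B (GaLfun (J0 x)), gB_quad]
  have hJ := ES4_J0_le x
  -- bounds
  have b1 : ‖A - rhoL (GaLfun x)‖ ≤ 2 * (ε * ‖x‖) := by
    rw [hA, ES4_rhoL_sub, ← hGL]
    exact (ES4_rhoL_le _).trans (by linarith)
  have b2 : ‖B‖ ≤ L * ‖x‖ := by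
    have h3 : ‖fderiv ℝ Ga x‖ ≤ L := by
      calc ‖fderiv ℝ Ga x‖ = ‖(fderiv ℝ Ga x - GaL) + GaL‖ := by simp
        _ ≤ ‖fderiv ℝ Ga x - GaL‖ + ‖GaL‖ := norm_add_le _ _
        _ ≤ L := by linarith
    calc ‖B‖ ≤ ‖fderiv ℝ Ga x‖ * ‖J0 x‖ := ContinuousLinearMap.le_opNorm _ _
      _ ≤ L * ‖x‖ := by gcongr
  have b3 : ‖rhoL (GaLfun x)‖ ≤ 2 * (L * ‖x‖) := by
    refine (ES4_rhoL_le _).trans ?_
    have : ‖GaLfun x‖ ≤ L * ‖x‖ := by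
      rw [← hGL]
      calc ‖GaL x‖ ≤ ‖GaL‖ * ‖x‖ := ContinuousLinearMap.le_opNorm _ _
        _ ≤ L * ‖x‖ := by
          gcongr
          linarith
    linarith
  have b4 : ‖B - GaLfun (J0 x)‖ ≤ ε * ‖x‖ := by
    rw [← hGL, hB, ← sub_apply]
    calc ‖(fderiv ℝ Ga x - GaL) (J0 x)‖ ≤ ‖fderiv ℝ Ga x - GaL‖ * ‖J0 x‖ :=
          ContinuousLinearMap.le_opNorm _ _
      _ ≤ ε * ‖x‖ := by gcongr
  have g1 := ES4_gB_le (A - rhoL (GaLfun x)) B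
  have g2 := ES4_gB_le (rhoL (GaLfun x)) (B - GaLfun (J0 x))
  have p1 : ‖A - rhoL (GaLfun x)‖ * ‖B‖ ≤ (2 * (ε * ‖x‖)) * (L * ‖x‖) :=
    mul_le_mul b1 b2 (norm_nonneg _) (by positivity)
  have p2 : ‖rhoL (GaLfun x)‖ * ‖B - GaLfun (J0 x)‖ ≤ (2 * (L * ‖x‖)) * (ε * ‖x‖) :=
    mul_le_mul b3 b4 (norm_nonneg _) (by positivity)
  have q : m * ‖x‖ ^ 2 ≤ (x.1 ^ 2 + x.2.1 ^ 2) * (√2 / 4) +
      4 * √2 * c0 ^ 2 * (x.2.2.1 ^ 2 + x.2.2.2 ^ 2) := by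
    have m1 : m ≤ √2 / 4 := min_le_left _ _
    have m2 : m ≤ 4 * √2 * c0 ^ 2 := min_le_right _ _
    calc m * ‖x‖ ^ 2 ≤ m * (x.1 ^ 2 + x.2.1 ^ 2 + x.2.2.1 ^ 2 + x.2.2.2 ^ 2) := by gcongr
      _ = (x.1 ^ 2 + x.2.1 ^ 2) * m + m * (x.2.2.1 ^ 2 + x.2.2.2 ^ 2) := by ring
      _ ≤ _ := by gcongr
  have r : 128 * L * ε * ‖x‖ ^ 2 ≤ m * ‖x‖ ^ 2 := by gcongr
  have s : 0 < m * ‖x‖ ^ 2 := by positivity
  have g1' := (abs_le.mp g1).1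
  have g2' := (abs_le.mp g2).1
  nlinarith

end S7Pair
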