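import Pool.Agent.S7Pair.Gen

/-! # Calculus of derivatives along a vector for functions on `E7`

Usage: `simp (disch := fun_prop) only [fd_add, fd_mul, ..., fd_b1, ...]`. -/

open scoped ContDiff Topology
open VectorField Set Filter

noncomputable section

namespace S7Pair

section rules
variable {E : Type*} [NormedAddCommGroup E] [NormedSpace ℝ E] {f g : E → ℝ} {p v : E}

lemma fd_add (hf : DifferentiableAt ℝ f p) (hg : DifferentiableAt ℝ g p) :
    fderiv ℝ (fun P => f P + g P) p v = fderiv ℝ f p v + fderiv ℝ g p v := by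
  rw [fderiv_fun_add hf hg]; rfl

lemma fd_sub (hf : DifferentiableAt ℝ f p) (hg : DifferentiableAt ℝ g p) :
    fderiv ℝ (fun P => f P - g P) p v = fderiv ℝ f p v - fderiv ℝ g p v := by
  rw [fderiv_fun_sub hf hg]; rfl

lemma fd_neg : fderiv ℝ (fun P => -f P) p v = -fderiv ℝ f p v := by
  rw [fderiv_fun_neg]; rfl

lemma fd_mul (hf : DifferentiableAt ℝ f p) (hg : DifferentiableAt ℝ g p) :
    fderiv ℝ (fun P => f P * g P) p v = f p * fderiv ℝ g p v + g p * fderiv ℝ f p v := by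
  rw [fderiv_fun_mul hf hg]; rfl

lemma fd_pow (n : ℕ) (hf : DifferentiableAt ℝ f p) :
    fderiv ℝ (fun P => f P ^ n) p v = n * f p ^ (n - 1) * fderiv ℝ f p v := by
  rw [fderiv_fun_pow _ hf]; simp [mul_assoc]

lemma fd_sq (hf : DifferentiableAt ℝ f p) :
    fderiv ℝ (fun P => f P ^ 2) p v = 2 * f p * fderiv ℝ f p v := by
  rw [fd_pow 2 hf]; norm_num

lemma fd_const (c : ℝ) : fderiv ℝ (fun _ : E => c) p v = 0 := by simp

lemma fd_inv (hf : DifferentiableAt ℝ f p) (h0 : f p ≠ 0) :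
    fderiv ℝ (fun P => (f P)⁻¹) p v = -fderiv ℝ f p v / f p ^ 2 := by
  have h := ((hasDerivAt_inv h0).comp_hasFDerivAt p hf.hasFDerivAt).fderiv
  have h2 : (fun P => (f P)⁻¹) = (fun y : ℝ => y⁻¹) ∘ f := rfl
  rw [h2, h]
  simp only [smul_apply, smul_eq_mul]
  field_simp

lemma fd_div (hf : DifferentiableAt ℝ f p) (hg : DifferentiableAt ℝ g p) (h0 : g p ≠ 0) :
    fderiv ℝ (fun P => f P / g P) p v =
      (fderiv ℝ f p v * g p - f p * fderiv ℝ g p v) / g p ^ 2 := by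
  have : (fun P => f P / g P) = fun P => f P * (g P)⁻¹ := by ext; rw [div_eq_mul_inv]
  rw [this, fd_mul (g := fun P => (g P)⁻¹) hf (hg.inv h0), fd_inv hg h0]
  field_simp
  ring

lemma fd_sqrt (hf : DifferentiableAt ℝ f p) (h0 : 0 < f p) :
    fderiv ℝ (fun P => √(f P)) p v = fderiv ℝ f p v / (2 * √(f p)) := by
  have h := ((Real.hasDerivAt_sqrt h0.ne').comp_hasFDerivAt p hf.hasFDerivAt).fderiv
  have h2 : (fun P => √(f P)) = (fun y : ℝ => √y) ∘ f := rfl
  rw [h2, h]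
  simp only [smul_apply, smul_eq_mul]
  ring

/-- chain rule for a real function of one variable -/
lemma fd_comp {φ : ℝ → ℝ} (hf : DifferentiableAt ℝ f p) (hφ : DifferentiableAt ℝ φ (f p)) :
    fderiv ℝ (fun P => φ (f P)) p v = deriv φ (f p) * fderiv ℝ f p v := by
  have h := (hφ.hasDerivAt.comp_hasFDerivAt p hf.hasFDerivAt).fderiv
  have h2 : (fun P => φ (f P)) = φ ∘ f := rfl
  rw [h2, h]
  simp

/-- pairs -/
lemma fd_pair {A B : Type*} [NormedAddCommGroup A] [NormedSpace ℝ A] [NormedAddCommGroup B]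
    [NormedSpace ℝ B] {F : E → A} {G : E → B} (hF : DifferentiableAt ℝ F p)
    (hG : DifferentiableAt ℝ G p) :
    fderiv ℝ (fun P => (F P, G P)) p v = (fderiv ℝ F p v, fderiv ℝ G p v) := by
  rw [hF.fderiv_prodMk hG]; rfl

lemma fd_fst {A B : Type*} [NormedAddCommGroup A] [NormedSpace ℝ A] [NormedAddCommGroup B]
    [NormedSpace ℝ B] {F : E → A × B} (hF : DifferentiableAt ℝ F p) :
    fderiv ℝ (fun P => (F P).1) p v = (fderiv ℝ F p v).1 := by
  rw [fderiv.fst hF]; rfl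

lemma fd_snd {A B : Type*} [NormedAddCommGroup A] [NormedSpace ℝ A] [NormedAddCommGroup B]
    [NormedSpace ℝ B] {F : E → A × B} (hF : DifferentiableAt ℝ F p) :
    fderiv ℝ (fun P => (F P).2) p v = (fderiv ℝ F p v).2 := by
  rw [fderiv.snd hF]; rfl

end rules

section coords
variable (p v : E7)

lemma fd_b1 : fderiv ℝ (fun P : E7 => P.1.1) p v = v.1.1 :=
  DFunLike.congr_fun (((ContinuousLinearMap.fst ℝ ℝ (ℝ × ℝ)).comp
    (ContinuousLinearMap.fst ℝ R3 R4)).hasFDerivAt (x := p)).fderiv v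
lemma fd_b2 : fderiv ℝ (fun P : E7 => P.1.2.1) p v = v.1.2.1 :=
  DFunLike.congr_fun (((ContinuousLinearMap.fst ℝ ℝ ℝ).comp
    ((ContinuousLinearMap.snd ℝ ℝ (ℝ × ℝ)).comp
      (ContinuousLinearMap.fst ℝ R3 R4))).hasFDerivAt (x := p)).fderiv v
lemma fd_b3 : fderiv ℝ (fun P : E7 => P.1.2.2) p v = v.1.2.2 :=
  DFunLike.congr_fun (((ContinuousLinearMap.snd ℝ ℝ ℝ).comp
    ((ContinuousLinearMap.snd ℝ ℝ (ℝ × ℝ)).comp
      (ContinuousLinearMap.fst ℝ R3 R4))).hasFDerivAt (x := p)).fderiv v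
lemma fd_ta : fderiv ℝ (fun P : E7 => P.2.1) p v = v.2.1 :=
  DFunLike.congr_fun (((ContinuousLinearMap.fst ℝ ℝ (ℝ × ℝ × ℝ)).comp
    (ContinuousLinearMap.snd ℝ R3 R4)).hasFDerivAt (x := p)).fderiv v
lemma fd_y1 : fderiv ℝ (fun P : E7 => P.2.2.1) p v = v.2.2.1 :=
  DFunLike.congr_fun (((ContinuousLinearMap.fst ℝ ℝ (ℝ × ℝ)).comp
    ((ContinuousLinearMap.snd ℝ ℝ (ℝ × ℝ × ℝ)).comp
      (ContinuousLinearMap.snd ℝ R3 R4))).hasFDerivAt (x := p)).fderiv v
lemma fd_y2 : fderiv ℝ (fun P : E7 => P.2.2.2.1) p v = v.2.2.2.1 :=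
  DFunLike.congr_fun (((ContinuousLinearMap.fst ℝ ℝ ℝ).comp
    ((ContinuousLinearMap.snd ℝ ℝ (ℝ × ℝ)).comp
      ((ContinuousLinearMap.snd ℝ ℝ (ℝ × ℝ × ℝ)).comp
        (ContinuousLinearMap.snd ℝ R3 R4)))).hasFDerivAt (x := p)).fderiv v
lemma fd_y3 : fderiv ℝ (fun P : E7 => P.2.2.2.2) p v = v.2.2.2.2 :=
  DFunLike.congr_fun (((ContinuousLinearMap.snd ℝ ℝ ℝ).comp
    ((ContinuousLinearMap.snd ℝ ℝ (ℝ × ℝ)).comp
      ((ContinuousLinearMap.snd ℝ ℝ (ℝ × ℝ × ℝ)).comp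
        (ContinuousLinearMap.snd ℝ R3 R4)))).hasFDerivAt (x := p)).fderiv v

/-- the derivative of a map to `E7`, component by component -/
lemma fd_E7 {E : Type*} [NormedAddCommGroup E] [NormedSpace ℝ E] {F : E → E7} {x w : E}
    (hF : DifferentiableAt ℝ F x) :
    fderiv ℝ F x w =
      ((fderiv ℝ (fun P => (F P).1.1) x w, fderiv ℝ (fun P => (F P).1.2.1) x w,
        fderiv ℝ (fun P => (F P).1.2.2) x w),
       (fderiv ℝ (fun P => (F P).2.1) x w, fderiv ℝ (fun P => (F P).2.2.1) x w,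
        fderiv ℝ (fun P => (F P).2.2.2.1) x w, fderiv ℝ (fun P => (F P).2.2.2.2) x w)) := by
  have h1 : DifferentiableAt ℝ (fun P => (F P).1) x := hF.fst
  have h2 : DifferentiableAt ℝ (fun P => (F P).2) x := hF.snd
  have h12 : DifferentiableAt ℝ (fun P => (F P).1.2) x := h1.snd
  have h22 : DifferentiableAt ℝ (fun P => (F P).2.2) x := h2.snd
  have h222 : DifferentiableAt ℝ (fun P => (F P).2.2.2) x := h22.snd
  rw [fd_fst (F := fun P => (F P).1) h1, fd_fst (F := fun P => (F P).1.2) h12,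
    fd_snd (F := fun P => (F P).1.2) h12, fd_snd (F := fun P => (F P).1) h1, fd_fst (F := F) hF,
    fd_fst (F := fun P => (F P).2) h2, fd_fst (F := fun P => (F P).2.2) h22,
    fd_fst (F := fun P => (F P).2.2.2) h222, fd_snd (F := fun P => (F P).2.2.2) h222,
    fd_snd (F := fun P => (F P).2.2) h22, fd_snd (F := fun P => (F P).2) h2, fd_snd (F := F) hF]

end coords

end S7Pair
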