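import Pool.Agent.S7Pair.Es1
import Pool.Agent.S7Pair.Es2
import Pool.Agent.S7Pair.Es4
import Pool.Agent.S7Pair.FD

/-! # Module ES5: the acute angle between `rho` and `rhoP` near `H_a` -/

open scoped ContDiff Topology
open VectorField Set Filter

noncomputable section

namespace S7Pair

lemma ch_rhoP : ∀ P ∈ O1, fderiv ℝ ch P (rhoP P) = zRho (ch P) := by
  intro P hP
  exact fderiv_pullback ch zRho P (ch_inv P hP)

lemma ES5_diff_div {E : Type*} [NormedAddCommGroup E] [NormedSpace ℝ E] {f g : E → ℝ} {p : E}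
    (hf : DifferentiableAt ℝ f p) (hg : DifferentiableAt ℝ g p) (h : g p ≠ 0) :
    DifferentiableAt ℝ (fun q => f q / g q) p := by
  simp only [div_eq_mul_inv]
  exact hf.mul (hg.inv h)

lemma ES5_n4_pos {s : R4} (hs : s ≠ 0) : 0 < n4 s := by
  unfold n4
  apply Real.sqrt_pos.2
  by_contra hcon
  apply hs
  have h1 : s.1 ^ 2 = 0 := by nlinarith [sq_nonneg s.1, sq_nonneg s.2.1, sq_nonneg s.2.2.1, sq_nonneg s.2.2.2]
  have h2 : s.2.1 ^ 2 = 0 := by nlinarith [sq_nonneg s.1, sq_nonneg s.2.1, sq_nonneg s.2.2.1, sq_nonneg s.2.2.2]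
  have h3 : s.2.2.1 ^ 2 = 0 := by nlinarith [sq_nonneg s.1, sq_nonneg s.2.1, sq_nonneg s.2.2.1, sq_nonneg s.2.2.2]
  have h4 : s.2.2.2 ^ 2 = 0 := by nlinarith [sq_nonneg s.1, sq_nonneg s.2.1, sq_nonneg s.2.2.1, sq_nonneg s.2.2.2]
  ext
  · simpa using h1
  · simpa using h2
  · simpa using h3
  · simpa using h4

lemma ES5_n3_pos {s : R3} (hs : s ≠ 0) : 0 < n3 s := by
  unfold n3
  apply Real.sqrt_pos.2
  by_contra hcon
  apply hs
  have h1 : s.1 ^ 2 = 0 := by nlinarith [sq_nonneg s.1, sq_nonneg s.2.1, sq_nonneg s.2.2]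
  have h2 : s.2.1 ^ 2 = 0 := by nlinarith [sq_nonneg s.1, sq_nonneg s.2.1, sq_nonneg s.2.2]
  have h3 : s.2.2 ^ 2 = 0 := by nlinarith [sq_nonneg s.1, sq_nonneg s.2.1, sq_nonneg s.2.2]
  ext
  · simpa using h1
  · simpa using h2
  · simpa using h3

lemma ES5_n4_sq (s : R4) : n4 s ^ 2 = s.1 ^ 2 + s.2.1 ^ 2 + s.2.2.1 ^ 2 + s.2.2.2 ^ 2 := by
  unfold n4
  rw [Real.sq_sqrt]
  positivity

lemma ES5_n3_sq (s : R3) : n3 s ^ 2 = s.1 ^ 2 + s.2.1 ^ 2 + s.2.2 ^ 2 := by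
  unfold n3
  rw [Real.sq_sqrt]
  positivity

lemma ES5_n4_diff {P : E7} (hP : P.2 ≠ 0) : DifferentiableAt ℝ (fun Q : E7 => n4 Q.2) P := by
  unfold n4
  have h := ES5_n4_pos hP
  unfold n4 at h
  have h' := Real.sqrt_pos.1 h
  apply DifferentiableAt.sqrt
  · fun_prop
  · exact h'.ne'

lemma ES5_n3_diff {P : E7} (hP : P.1 ≠ 0) : DifferentiableAt ℝ (fun Q : E7 => n3 Q.1) P := by
  unfold n3
  have h := ES5_n3_pos hP
  unfold n3 at h
  have h' := Real.sqrt_pos.1 h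
  apply DifferentiableAt.sqrt
  · fun_prop
  · exact h'.ne'

lemma ES5_n4_fd {P : E7} (hP : P.2 ≠ 0) (V : E7) :
    fderiv ℝ (fun Q : E7 => n4 Q.2) P V = dot4 P.2 V.2 / n4 P.2 := by
  have h := ES5_n4_pos hP
  have h' : 0 < P.2.1 ^ 2 + P.2.2.1 ^ 2 + P.2.2.2.1 ^ 2 + P.2.2.2.2 ^ 2 := by
    have := h; unfold n4 at this; exact Real.sqrt_pos.1 this
  unfold n4
  rw [fd_sqrt (f := fun Q : E7 => Q.2.1 ^ 2 + Q.2.2.1 ^ 2 + Q.2.2.2.1 ^ 2 + Q.2.2.2.2 ^ 2)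
    (by fun_prop) h']
  simp (disch := fun_prop) only [fd_add, fd_sq, fd_ta, fd_y1, fd_y2, fd_y3]
  unfold dot4
  have h2 : √(P.2.1 ^ 2 + P.2.2.1 ^ 2 + P.2.2.2.1 ^ 2 + P.2.2.2.2 ^ 2) ≠ 0 := (Real.sqrt_pos.2 h').ne'
  field_simp

lemma ES5_n3_fd {P : E7} (hP : P.1 ≠ 0) (V : E7) :
    fderiv ℝ (fun Q : E7 => n3 Q.1) P V = dot3 P.1 V.1 / n3 P.1 := by
  have h := ES5_n3_pos hP
  have h' : 0 < P.1.1 ^ 2 + P.1.2.1 ^ 2 + P.1.2.2 ^ 2 := by
    have := h; unfold n3 at this; exact Real.sqrt_pos.1 this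
  unfold n3
  rw [fd_sqrt (f := fun Q : E7 => Q.1.1 ^ 2 + Q.1.2.1 ^ 2 + Q.1.2.2 ^ 2) (by fun_prop) h']
  simp (disch := fun_prop) only [fd_add, fd_sq, fd_b1, fd_b2, fd_b3]
  unfold dot3
  have h2 : √(P.1.1 ^ 2 + P.1.2.1 ^ 2 + P.1.2.2 ^ 2) ≠ 0 := (Real.sqrt_pos.2 h').ne'
  field_simp

/-- the field `zRho` is tangent to the spheres `|s| = const`. -/
lemma ES5_zRho_dot {Z : E7} (hZ : Z.2 ≠ 0) : dot4 Z.2 (zRho Z).2 = 0 := by
  have h := ES5_n4_pos hZ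
  have h2 := ES5_n4_sq Z.2
  unfold dot4 zRho
  simp only
  generalize n4 Z.2 = n at *
  field_simp
  linear_combination (g0⁻¹ * c0 * Z.2.2.1) * h2

lemma ES5_c0_lt : |c0| < 1 := by
  obtain ⟨h1, h2, -⟩ := c0_facts
  rw [abs_of_pos h1]; exact h2

lemma ES5_den_pos {s : R4} (hs : s ≠ 0) : 0 < n4 s - c0 * s.1 := by
  obtain ⟨h1, h2, -⟩ := c0_facts
  have hn := ES5_n4_pos hs
  have hsq := ES5_n4_sq s
  have hle : s.1 ≤ n4 s := by
    apply le_of_abs_le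
    apply abs_le_of_sq_le_sq _ hn.le
    nlinarith [sq_nonneg s.2.1, sq_nonneg s.2.2.1, sq_nonneg s.2.2.2]
  nlinarith

/-- `zk` in closed form. -/
lemma ES5_zk {Z : E7} (hZ : Z.2 ≠ 0) : zk Z = ((Z.2.1 - c0 * n4 Z.2) / (n4 Z.2 - c0 * Z.2.1),
    g0 * Z.2.2.1 / (n4 Z.2 - c0 * Z.2.1)) := by
  have hn := (ES5_n4_pos hZ).ne'
  have hd := (ES5_den_pos hZ).ne'
  have hg := c0_facts.2.2.2.2.2
  unfold zk hc
  rw [hg]
  ext
  · simp only
    field_simp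
  · simp only
    field_simp

/-- `zRho` is `(iw, -iκ^h)` in the coordinate `x`. -/
lemma zX_rho : ∀ Z ∈ OZ, fderiv ℝ zX Z (zRho Z) = J0 (zX Z) := by
  intro Z hZ
  have hZ2 : Z.2 ≠ 0 := hZ.2.2
  have hn := ES5_n4_pos hZ2
  have hd := ES5_den_pos hZ2
  have hsq := ES5_n4_sq Z.2
  obtain ⟨hc1, hc2, hc3, hg1, hg2, -⟩ := c0_facts
  have hopen : IsOpen {W : E7 | W.2 ≠ 0} := isOpen_ne_fun continuous_snd continuous_const
  have hev : zX =ᶠ[𝓝 Z] fun W : E7 => (W.1.1, W.1.2.1,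
      (W.2.1 - c0 * n4 W.2) / (n4 W.2 - c0 * W.2.1), g0 * W.2.2.1 / (n4 W.2 - c0 * W.2.1)) := by
    refine eventually_of_mem (hopen.mem_nhds hZ2) fun W hW => ?_
    unfold zX
    rw [ES5_zk hW]
  rw [hev.fderiv_eq]
  have dn := ES5_n4_diff (P := Z) hZ2
  have dd : DifferentiableAt ℝ (fun W : E7 => n4 W.2 - c0 * W.2.1) Z := by fun_prop
  have d3 : DifferentiableAt ℝ
      (fun W : E7 => (W.2.1 - c0 * n4 W.2) / (n4 W.2 - c0 * W.2.1)) Z := by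
    refine ES5_diff_div ?_ dd hd.ne'
    fun_prop
  have d4 : DifferentiableAt ℝ
      (fun W : E7 => g0 * W.2.2.1 / (n4 W.2 - c0 * W.2.1)) Z := by
    refine ES5_diff_div ?_ dd hd.ne'
    fun_prop
  have hdot := ES5_zRho_dot hZ2
  have fn := ES5_n4_fd hZ2 (zRho Z)
  rw [hdot, zero_div] at fn
  rw [fd_pair (by fun_prop) (by fun_prop), fd_pair (by fun_prop) (by fun_prop), fd_pair d3 d4,
    fd_b1, fd_b2, fd_div (by fun_prop) dd hd.ne', fd_div (by fun_prop) dd hd.ne',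
    fd_sub (by fun_prop) (by fun_prop), fd_sub (by fun_prop) (by fun_prop)]
  simp (disch := fun_prop) only [fd_mul, fd_const, fd_ta, fd_y1, fn]
  unfold J0 zX
  rw [ES5_zk hZ2]
  unfold zRho
  simp only
  generalize n4 Z.2 = n at *
  refine Prod.ext rfl (Prod.ext rfl (Prod.ext ?_ ?_))
  · simp only
    have hg : g0 ^ 2 = 1 - c0 ^ 2 := by rw [hg2, hc3]; ring
    field_simp
    linear_combination -(Z.2.2.1 * n * (n - c0 * Z.2.1)) * hg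
  · simp only
    have hd' : n - Z.2.1 * c0 ≠ 0 := by rw [mul_comm]; exact hd.ne'
    field_simp
    ring

lemma ES5_ch_diff {P : E7} (hP : P ∈ O1) : DifferentiableAt ℝ ch P :=
  (ch_smooth.contDiffAt (O1_open.mem_nhds hP)).differentiableAt (by simp)

lemma rhoP_tan : ∀ P ∈ O1, Tan P (rhoP P) := by
  intro P hP
  have hO7 : P ∈ O7 := hP.1
  have hd := ES5_ch_diff hP
  have hZ : ch P ∈ OZ := ch_maps hP
  have hr := ch_rhoP P hP
  constructor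
  · have hev : (fun Q : E7 => (ch Q).1.2.2) =ᶠ[𝓝 P] fun Q => n3 Q.1 :=
      eventually_of_mem (O1_open.mem_nhds hP) fun Q hQ => (ch_levels hQ).1
    have h1 := congrArg (fun L : E7 →L[ℝ] ℝ => L (rhoP P)) hev.fderiv_eq
    rw [fd_snd (F := fun Q => (ch Q).1.2) hd.fst.snd, fd_snd (F := fun Q => (ch Q).1) hd.fst,
      fd_fst (F := ch) hd, hr, ES5_n3_fd hO7.1] at h1
    have h3 := ES5_n3_pos hO7.1
    have h4 : (0 : ℝ) = dot3 P.1 (rhoP P).1 / n3 P.1 := h1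
    field_simp at h4
    linarith
  · have hev : (fun Q : E7 => n4 (ch Q).2) =ᶠ[𝓝 P] fun Q => n4 Q.2 :=
      eventually_of_mem (O1_open.mem_nhds hP) fun Q hQ => (ch_levels hQ).2.1
    have h1 := congrArg (fun L : E7 →L[ℝ] ℝ => L (rhoP P)) hev.fderiv_eq
    have hcomp : fderiv ℝ (fun Q : E7 => n4 (ch Q).2) P (rhoP P)
        = fderiv ℝ (fun Z : E7 => n4 Z.2) (ch P) (fderiv ℝ ch P (rhoP P)) := by
      have := fderiv_comp P (g := fun Z : E7 => n4 Z.2) (f := ch) (ES5_n4_diff hZ.2.2) hd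
      have h5 : (fun Z : E7 => n4 Z.2) ∘ ch = fun Q : E7 => n4 (ch Q).2 := rfl
      rw [h5] at this
      rw [this]; rfl
    rw [hcomp, hr, ES5_n4_fd hZ.2.2, ES5_zRho_dot hZ.2.2, ES5_n4_fd hO7.2] at h1
    have h3 := ES5_n4_pos hO7.2
    have h4 : (0 : ℝ) = dot4 P.2 (rhoP P).2 / n4 P.2 := by rw [← h1]; simp
    field_simp at h4
    linarith

/-- derivative of `pr` along a tangent vector. -/
lemma ES5_pr_fd {P V : E7} (hP : P ∈ O7) (hV : Tan P V) :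
    fderiv ℝ pr P V = ((n3 P.1)⁻¹ • V.1, (n4 P.2)⁻¹ • V.2) := by
  have h3 := (ES5_n3_pos hP.1).ne'
  have h4 := (ES5_n4_pos hP.2).ne'
  have e : sc P ((n3 P.1)⁻¹ • V.1, (n4 P.2)⁻¹ • V.2) = V := by
    unfold sc
    simp only [smul_smul, mul_inv_cancel₀ h3, mul_inv_cancel₀ h4, one_smul]
  have h := fderiv_pr (P := P) (V := ((n3 P.1)⁻¹ • V.1, (n4 P.2)⁻¹ • V.2)) hP ?_
  · rw [e] at h; exact h
  · obtain ⟨ha, hb⟩ := hV
    unfold dot3 at ha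
    unfold dot4 at hb
    constructor
    · unfold dot3 pr
      simp only [Prod.smul_fst, Prod.smul_snd, smul_eq_mul]
      linear_combination ((n3 P.1)⁻¹ * (n3 P.1)⁻¹) * ha
    · unfold dot4 pr
      simp only [Prod.smul_fst, Prod.smul_snd, smul_eq_mul]
      linear_combination ((n4 P.2)⁻¹ * (n4 P.2)⁻¹) * hb

lemma ES5_zX_diff {Z : E7} (hZ : Z ∈ OZ) : DifferentiableAt ℝ zX Z := by
  have hZ2 : Z.2 ≠ 0 := hZ.2.2
  have hd := ES5_den_pos hZ2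
  have hopen : IsOpen {W : E7 | W.2 ≠ 0} := isOpen_ne_fun continuous_snd continuous_const
  have hev : zX =ᶠ[𝓝 Z] fun W : E7 => (W.1.1, W.1.2.1,
      (W.2.1 - c0 * n4 W.2) / (n4 W.2 - c0 * W.2.1), g0 * W.2.2.1 / (n4 W.2 - c0 * W.2.1)) := by
    refine eventually_of_mem (hopen.mem_nhds hZ2) fun W hW => ?_
    unfold zX
    rw [ES5_zk hW]
  have dn := ES5_n4_diff (P := Z) hZ2
  have dd : DifferentiableAt ℝ (fun W : E7 => n4 W.2 - c0 * W.2.1) Z := by fun_prop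
  have d3 : DifferentiableAt ℝ
      (fun W : E7 => (W.2.1 - c0 * n4 W.2) / (n4 W.2 - c0 * W.2.1)) Z := by
    refine ES5_diff_div ?_ dd hd.ne'
    fun_prop
  have d4 : DifferentiableAt ℝ
      (fun W : E7 => g0 * W.2.2.1 / (n4 W.2 - c0 * W.2.1)) Z := by
    refine ES5_diff_div ?_ dd hd.ne'
    fun_prop
  refine DifferentiableAt.congr_of_eventuallyEq ?_ hev
  have d1 : DifferentiableAt ℝ (fun W : E7 => W.1.1) Z := by fun_prop
  have d2 : DifferentiableAt ℝ (fun W : E7 => W.1.2.1) Z := by fun_prop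
  exact d1.prodMk (d2.prodMk (d3.prodMk d4))

lemma ES5_zx_eq (Z : E7) : zx Z = (zX Z).1 ^ 2 + (zX Z).2.1 ^ 2 + (zX Z).2.2.1 ^ 2
    + (zX Z).2.2.2 ^ 2 := rfl

/-- small `zx` means small `zX`. -/
lemma ES5_small {U : Set R4} (hU : U ∈ 𝓝 (0 : R4)) : ∃ η : ℝ, 0 < η ∧ ∀ x : R4,
    x.1 ^ 2 + x.2.1 ^ 2 + x.2.2.1 ^ 2 + x.2.2.2 ^ 2 < η → x ∈ U := by
  obtain ⟨ε, he, hb⟩ := Metric.mem_nhds_iff.1 hU
  refine ⟨ε ^ 2, by positivity, fun x hx => hb ?_⟩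
  have key : ∀ t : ℝ, t ^ 2 < ε ^ 2 → |t| < ε := fun t ht => by
    exact abs_lt_of_sq_lt_sq ht he.le
  rw [Metric.mem_ball, dist_zero_right]
  rw [Prod.norm_def, Prod.norm_def, Prod.norm_def, max_lt_iff, max_lt_iff, max_lt_iff]
  simp only [Real.norm_eq_abs]
  refine ⟨key _ ?_, key _ ?_, key _ ?_, key _ ?_⟩ <;>
    nlinarith [sq_nonneg x.1, sq_nonneg x.2.1, sq_nonneg x.2.2.1, sq_nonneg x.2.2.2]

/-- `Ga ∘ zX ∘ ch` and its derivative along `rhoP`. -/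
lemma ES5_Ga_fd {P : E7} (hP : P ∈ O1) (hG : DifferentiableAt ℝ Ga (zX (ch P))) :
    fderiv ℝ Ga (zX (ch P)) (J0 (zX (ch P))) =
      (((n3 P.1)⁻¹ * (rhoP P).1.1, (n3 P.1)⁻¹ * (rhoP P).1.2.1, (n3 P.1)⁻¹ * (rhoP P).1.2.2),
        ((n4 P.2)⁻¹ * (rhoP P).2.1, (n4 P.2)⁻¹ * (rhoP P).2.2.1)) := by
  have hd := ES5_ch_diff hP
  have hZ : ch P ∈ OZ := ch_maps hP
  have hz := ES5_zX_diff hZ
  have hO7 : P ∈ O7 := hP.1
  have hev : (fun Q : E7 => Ga (zX (ch Q))) =ᶠ[𝓝 P] fun Q =>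
      (((pr Q).1.1 + sa, (pr Q).1.2.1, (pr Q).1.2.2 - sa), ((pr Q).2.1, (pr Q).2.2.1)) :=
    eventually_of_mem (O1_open.mem_nhds hP) fun Q hQ => Ga_eq Q hQ
  have h1 := congrArg (fun L : E7 →L[ℝ] (R3 × (ℝ × ℝ)) => L (rhoP P)) hev.fderiv_eq
  have hc1 : fderiv ℝ (fun Q : E7 => zX (ch Q)) P (rhoP P) = J0 (zX (ch P)) := by
    have := fderiv_comp P (g := zX) (f := ch) hz hd
    have h5 : zX ∘ ch = fun Q : E7 => zX (ch Q) := rfl
    rw [h5] at this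
    rw [this, ← zX_rho _ hZ, ← ch_rhoP P hP]; rfl
  have hdc : DifferentiableAt ℝ (fun Q : E7 => zX (ch Q)) P := hz.comp P hd
  have hc2 : fderiv ℝ (fun Q : E7 => Ga (zX (ch Q))) P (rhoP P)
      = fderiv ℝ Ga (zX (ch P)) (J0 (zX (ch P))) := by
    have := fderiv_comp P (g := Ga) (f := fun Q : E7 => zX (ch Q)) hG hdc
    have h5 : Ga ∘ (fun Q : E7 => zX (ch Q)) = fun Q : E7 => Ga (zX (ch Q)) := rfl
    rw [h5] at this
    rw [this, ← hc1]; rfl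
  have hp : DifferentiableAt ℝ pr P :=
    (pr_smooth.contDiffAt (O7_open.mem_nhds hO7)).differentiableAt (by simp)
  have hp1 : DifferentiableAt ℝ (fun Q : E7 => (pr Q).1) P := hp.fst
  have hp2 : DifferentiableAt ℝ (fun Q : E7 => (pr Q).2) P := hp.snd
  have hp11 : DifferentiableAt ℝ (fun Q : E7 => (pr Q).1.1) P := hp1.fst
  have hp12 : DifferentiableAt ℝ (fun Q : E7 => (pr Q).1.2) P := hp1.snd
  have hp121 : DifferentiableAt ℝ (fun Q : E7 => (pr Q).1.2.1) P := hp12.fst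
  have hp122 : DifferentiableAt ℝ (fun Q : E7 => (pr Q).1.2.2) P := hp12.snd
  have hp21 : DifferentiableAt ℝ (fun Q : E7 => (pr Q).2.1) P := hp2.fst
  have hp22 : DifferentiableAt ℝ (fun Q : E7 => (pr Q).2.2) P := hp2.snd
  have hp221 : DifferentiableAt ℝ (fun Q : E7 => (pr Q).2.2.1) P := hp22.fst
  rw [hc2] at h1
  rw [h1]
  rw [fd_pair (F := fun Q : E7 => ((pr Q).1.1 + sa, (pr Q).1.2.1, (pr Q).1.2.2 - sa))
      (G := fun Q : E7 => ((pr Q).2.1, (pr Q).2.2.1)) (by fun_prop) (by fun_prop),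
    fd_pair (F := fun Q : E7 => (pr Q).1.1 + sa) (G := fun Q : E7 => ((pr Q).1.2.1, (pr Q).1.2.2 - sa))
      (by fun_prop) (by fun_prop),
    fd_pair (F := fun Q : E7 => (pr Q).1.2.1) (G := fun Q : E7 => (pr Q).1.2.2 - sa)
      (by fun_prop) (by fun_prop),
    fd_pair hp21 hp221]
  simp (disch := fun_prop) only [fd_add, fd_sub, fd_const]
  rw [fd_fst (F := fun Q : E7 => (pr Q).1) hp1, fd_fst (F := fun Q : E7 => (pr Q).1.2) hp12,
    fd_snd (F := fun Q : E7 => (pr Q).1.2) hp12, fd_snd (F := fun Q : E7 => (pr Q).1) hp1,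
    fd_fst (F := pr) hp, fd_fst (F := fun Q : E7 => (pr Q).2) hp2,
    fd_fst (F := fun Q : E7 => (pr Q).2.2) hp22, fd_snd (F := fun Q : E7 => (pr Q).2) hp2,
    fd_snd (F := pr) hp, ES5_pr_fd hO7 (rhoP_tan P hP)]
  simp

lemma gf_eq : ∃ δ : ℝ, 0 < δ ∧ ∀ P ∈ O7, QQ P < δ → P ∈ O1 ∧
    gf P (rho P) (rhoP P) = gB (rhoL (Ga (zX (ch P)))) (fderiv ℝ Ga (zX (ch P)) (J0 (zX (ch P)))) := by
  have hev : ∀ᶠ x in 𝓝 (0 : R4), DifferentiableAt ℝ Ga x := by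
    have h1 : ContDiffAt ℝ 1 Ga 0 := Ga_smooth.of_le (by exact_mod_cast le_top)
    have h2 := h1.eventually (by simp)
    exact h2.mono fun x hx => hx.differentiableAt (by simp)
  obtain ⟨η, he, hη⟩ := ES5_small hev
  obtain ⟨δ, hd, hδ⟩ := near_region η he
  refine ⟨δ, hd, fun P hP hQ => ?_⟩
  obtain ⟨hO1, hz⟩ := hδ P hP hQ
  refine ⟨hO1, ?_⟩
  have hG : DifferentiableAt ℝ Ga (zX (ch P)) := hη _ (by rw [← ES5_zx_eq]; exact hz)
  rw [ES5_Ga_fd hO1 hG, Ga_eq P hO1]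
  have h3 := (ES5_n3_pos hP.1).ne'
  have h4 := (ES5_n4_pos hP.2).ne'
  unfold gf gB rhoL dot3 rho pr
  simp only [Prod.smul_fst, Prod.smul_snd, smul_eq_mul]
  field_simp
  ring

lemma QQ_zero {P : E7} (hP : P ∈ O1) (h : zx (ch P) = 0) : QQ P = 0 := by
  have h0 : zX (ch P) = 0 := by
    rw [ES5_zx_eq] at h
    have h1 : (zX (ch P)).1 ^ 2 = 0 := by
      nlinarith [sq_nonneg (zX (ch P)).1, sq_nonneg (zX (ch P)).2.1,
        sq_nonneg (zX (ch P)).2.2.1, sq_nonneg (zX (ch P)).2.2.2]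
    have h2 : (zX (ch P)).2.1 ^ 2 = 0 := by
      nlinarith [sq_nonneg (zX (ch P)).1, sq_nonneg (zX (ch P)).2.1,
        sq_nonneg (zX (ch P)).2.2.1, sq_nonneg (zX (ch P)).2.2.2]
    have h3 : (zX (ch P)).2.2.1 ^ 2 = 0 := by
      nlinarith [sq_nonneg (zX (ch P)).1, sq_nonneg (zX (ch P)).2.1,
        sq_nonneg (zX (ch P)).2.2.1, sq_nonneg (zX (ch P)).2.2.2]
    have h4 : (zX (ch P)).2.2.2 ^ 2 = 0 := by
      nlinarith [sq_nonneg (zX (ch P)).1, sq_nonneg (zX (ch P)).2.1,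
        sq_nonneg (zX (ch P)).2.2.1, sq_nonneg (zX (ch P)).2.2.2]
    refine Prod.ext ?_ (Prod.ext ?_ (Prod.ext ?_ ?_))
    · simpa using h1
    · simpa using h2
    · simpa using h3
    · simpa using h4
  have h1 := Ga_eq P hP
  rw [h0, Ga_zero] at h1
  have e1 := congrArg (fun A => A.1.1) h1
  have e2 := congrArg (fun A => A.1.2.1) h1
  have e3 := congrArg (fun A => A.1.2.2) h1
  have e4 := congrArg (fun A => A.2.1) h1
  have e5 := congrArg (fun A => A.2.2) h1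
  simp only [Prod.fst_zero, Prod.snd_zero] at e1 e2 e3 e4 e5
  unfold QQ
  rw [← e1, ← e2, ← e3, ← e4, ← e5]
  ring

theorem rhoP_pos : ∃ δ : ℝ, 0 < δ ∧ ∀ P ∈ O7, QQ P ≠ 0 → QQ P < δ →
    0 < gf P (rho P) (rhoP P) := by
  obtain ⟨η, he, hη⟩ := gB_pos
  obtain ⟨δ1, hd1, hδ1⟩ := near_region η he
  obtain ⟨δ2, hd2, hδ2⟩ := gf_eq
  refine ⟨min δ1 δ2, lt_min hd1 hd2, fun P hP h0 hlt => ?_⟩
  obtain ⟨hO1, hz⟩ := hδ1 P hP (lt_of_lt_of_le hlt (min_le_left _ _))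
  obtain ⟨-, hgf⟩ := hδ2 P hP (lt_of_lt_of_le hlt (min_le_right _ _))
  rw [hgf]
  refine hη _ ?_ (by rw [← ES5_zx_eq]; exact hz)
  intro hx
  apply h0
  apply QQ_zero hO1
  rw [ES5_zx_eq, hx]
  simp

/-- `rhoP` has no component in the direction of `Th`. -/
theorem rhoP_theta : ∀ P ∈ O1,
    P.2.2.2.1 * (rhoP P).2.2.2.2 - P.2.2.2.2 * (rhoP P).2.2.2.1 = 0 := by
  intro P hP
  have hd := ES5_ch_diff hP
  have hr := ch_rhoP P hP
  have hid : ∀ Q ∈ O1, Q.2.2.2.1 = (ch Q).2.2.2.1 * zg (ch Q) ∧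
      Q.2.2.2.2 = (ch Q).2.2.2.2 * zg (ch Q) := by
    intro Q hQ
    have h := ch_left Q hQ
    constructor
    · conv_lhs => rw [← h]
      rfl
    · conv_lhs => rw [← h]
      rfl
  have hev : (fun Q : E7 => Q.2.2.2.1 * (ch Q).2.2.2.2 - Q.2.2.2.2 * (ch Q).2.2.2.1)
      =ᶠ[𝓝 P] fun _ => (0 : ℝ) := by
    refine eventually_of_mem (O1_open.mem_nhds hP) fun Q hQ => ?_
    obtain ⟨h1, h2⟩ := hid Q hQ
    simp only
    rw [h1, h2]
    ring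
  have h1 := congrArg (fun L : E7 →L[ℝ] ℝ => L (rhoP P)) hev.fderiv_eq
  have d2 : DifferentiableAt ℝ (fun Q : E7 => (ch Q).2) P := hd.snd
  have d22 : DifferentiableAt ℝ (fun Q : E7 => (ch Q).2.2) P := d2.snd
  have d222 : DifferentiableAt ℝ (fun Q : E7 => (ch Q).2.2.2) P := d22.snd
  have d2221 : DifferentiableAt ℝ (fun Q : E7 => (ch Q).2.2.2.1) P := d222.fst
  have d2222 : DifferentiableAt ℝ (fun Q : E7 => (ch Q).2.2.2.2) P := d222.snd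
  rw [fd_sub (f := fun Q : E7 => Q.2.2.2.1 * (ch Q).2.2.2.2)
      (g := fun Q : E7 => Q.2.2.2.2 * (ch Q).2.2.2.1) (by fun_prop) (by fun_prop),
    fd_mul (f := fun Q : E7 => Q.2.2.2.1) (by fun_prop) d2222,
    fd_mul (f := fun Q : E7 => Q.2.2.2.2) (by fun_prop) d2221,
    fd_const, fd_y2, fd_y3,
    fd_fst (F := fun Q : E7 => (ch Q).2.2.2) d222, fd_snd (F := fun Q : E7 => (ch Q).2.2.2) d222,
    fd_snd (F := fun Q : E7 => (ch Q).2.2) d22, fd_snd (F := fun Q : E7 => (ch Q).2) d2,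
    fd_snd (F := ch) hd, hr] at h1
  obtain ⟨e1, e2⟩ := hid P hP
  have e3 : (zRho (ch P)).2.2.2.1 = g0⁻¹ * -(c0 * (ch P).2.2.1 * (ch P).2.2.2.1 / n4 (ch P).2) := rfl
  have e4 : (zRho (ch P)).2.2.2.2 = g0⁻¹ * -(c0 * (ch P).2.2.1 * (ch P).2.2.2.2 / n4 (ch P).2) := rfl
  rw [e3, e4] at h1
  generalize (ch P).2.2.2.1 = s3 at *
  generalize (ch P).2.2.2.2 = s4 at *
  generalize (ch P).2.2.1 = s2 at *
  generalize n4 (ch P).2 = n at *
  generalize zg (ch P) = z at *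
  rw [e1, e2] at h1 ⊢
  linear_combination (-z) * h1

end S7Pair
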