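import Pool.Agent.S7Pair.Defs

/-! # General lemmas on commuting pairs of vector fields -/

open scoped ContDiff Topology
open VectorField Set Filter

noncomputable section

namespace S7Pair

section general

variable {E : Type*} [NormedAddCommGroup E] [NormedSpace ℝ E]
variable {F : Type*} [NormedAddCommGroup F] [NormedSpace ℝ F]
variable {O O' : Set E} {f g f' g' : E → E}

lemma CP.mono (h : CP O f g) (hO : IsOpen O') (hs : O' ⊆ O) : CP O' f g :=
  ⟨hO, h.sf.mono hs, h.sg.mono hs, fun x hx => h.comm x (hs hx)⟩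

lemma CP.cat (h : CP O f g) {x : E} (hx : x ∈ O) : CAt f g x :=
  ⟨h.sf.contDiffAt (h.op.mem_nhds hx), h.sg.contDiffAt (h.op.mem_nhds hx), h.comm x hx⟩

lemma CP.of_cat (hO : IsOpen O) (h : ∀ x ∈ O, CAt f g x) : CP O f g :=
  ⟨hO, fun x hx => (h x hx).sf.contDiffWithinAt, fun x hx => (h x hx).sg.contDiffWithinAt,
    fun x hx => (h x hx).comm⟩

lemma CAt.symm {x : E} (h : CAt f g x) : CAt g f x :=
  ⟨h.sg, h.sf, by rw [lieBracket_swap]; simp [h.comm]⟩

lemma CAt.refl {x : E} (h : ContDiffAt ℝ ∞ f x) : CAt f f x := ⟨h, h, by simp⟩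

lemma CAt.congr {x : E} (h : CAt f g x) (hf : f' =ᶠ[𝓝 x] f) (hg : g' =ᶠ[𝓝 x] g) : CAt f' g' x :=
  ⟨h.sf.congr_of_eventuallyEq hf, h.sg.congr_of_eventuallyEq hg, by
    rw [hf.lieBracket_vectorField_eq hg]; exact h.comm⟩

lemma CP.congr (h : CP O f g) (hf : ∀ x ∈ O, f' x = f x) (hg : ∀ x ∈ O, g' x = g x) :
    CP O f' g' :=
  CP.of_cat h.op fun _ hx => (h.cat hx).congr
    (eventually_of_mem (h.op.mem_nhds hx) hf) (eventually_of_mem (h.op.mem_nhds hx) hg)

lemma CP.union (h : CP O f g) (h' : CP O' f g) : CP (O ∪ O') f g :=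
  CP.of_cat (h.op.union h'.op) fun _ hx => hx.elim (fun hx => h.cat hx) fun hx => h'.cat hx

lemma CP.symm (h : CP O f g) : CP O g f := CP.of_cat h.op fun _ hx => (h.cat hx).symm

/-- addition in the second argument -/
lemma CAt.add {x : E} {X Y Z : E → E} (h : CAt X Y x) (h' : CAt X Z x) :
    CAt X (fun y => Y y + Z y) x :=
  ⟨h.sf, h.sg.add h'.sg, by
    have h1 := lieBracket_add_right (𝕜 := ℝ) (V := X) (W := Y) (W₁ := Z) (x := x)
      (h.sg.differentiableAt (by simp)) (h'.sg.differentiableAt (by simp))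
    have h2 : (fun y => Y y + Z y) = Y + Z := rfl
    rw [h2, h1, h.comm, h'.comm, add_zero]⟩

lemma CAt.add_left {x : E} {X Y Z : E → E} (h : CAt X Z x) (h' : CAt Y Z x) :
    CAt (fun y => X y + Y y) Z x := (h.symm.add h'.symm).symm

/-- multiplication of the second field by a function annihilated by the first one -/
lemma CAt.smul {x : E} {X Y : E → E} {a : E → ℝ} (h : CAt X Y x) (ha : ContDiffAt ℝ ∞ a x)
    (h0 : fderiv ℝ a x (X x) = 0) : CAt X (fun y => a y • Y y) x :=
  ⟨h.sf, ha.smul h.sg, by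
    rw [lieBracket_smul_right (ha.differentiableAt (by simp)) (h.sg.differentiableAt (by simp)),
      h0, h.comm]
    simp⟩

lemma CAt.smul_left {x : E} {X Y : E → E} {a : E → ℝ} (h : CAt X Y x) (ha : ContDiffAt ℝ ∞ a x)
    (h0 : fderiv ℝ a x (Y x) = 0) : CAt (fun y => a y • X y) Y x :=
  (h.symm.smul ha h0).symm

/-- combinations `(a X + b Y, c X + d Y)` with coefficients annihilated by both fields. -/
lemma CAt.comb {x : E} {X Y : E → E} {a b c d : E → ℝ} (h : CAt X Y x)
    (ha : ContDiffAt ℝ ∞ a x) (hb : ContDiffAt ℝ ∞ b x) (hc : ContDiffAt ℝ ∞ c x)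
    (hd : ContDiffAt ℝ ∞ d x)
    (haX : fderiv ℝ a x (X x) = 0) (haY : fderiv ℝ a x (Y x) = 0)
    (hbX : fderiv ℝ b x (X x) = 0) (hbY : fderiv ℝ b x (Y x) = 0)
    (hcX : fderiv ℝ c x (X x) = 0) (hcY : fderiv ℝ c x (Y x) = 0)
    (hdX : fderiv ℝ d x (X x) = 0) (hdY : fderiv ℝ d x (Y x) = 0) :
    CAt (fun y => a y • X y + b y • Y y) (fun y => c y • X y + d y • Y y) x := by
  have XX : CAt X X x := CAt.refl h.sf
  have YY : CAt Y Y x := CAt.refl h.sg
  have h1 : CAt X (fun y => c y • X y + d y • Y y) x := (XX.smul hc hcX).add (h.smul hd hdX)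
  have h2 : CAt Y (fun y => c y • X y + d y • Y y) x := (h.symm.smul hc hcY).add (YY.smul hd hdY)
  refine CAt.add_left (h1.smul_left ha ?_) (h2.smul_left hb ?_)
  · simp [haX, haY]
  · simp [hbX, hbY]

/-- replace a pair inside an open set `O ⊆ Ω` when the two pairs agree on `O \ K`, `Ω \ K` open. -/
lemma CP.glue {Ω K : Set E} [DecidablePred (· ∈ O)] (h : CP Ω f g) (h' : CP O f' g')
    (hO : O ⊆ Ω) (hK : K ⊆ O) (hΩK : IsOpen (Ω \ K))
    (heq : ∀ x ∈ O, x ∉ K → f' x = f x ∧ g' x = g x) :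
    CP Ω (fun x => if x ∈ O then f' x else f x) (fun x => if x ∈ O then g' x else g x) := by
  have hu : Ω = O ∪ (Ω \ K) := by
    ext x; constructor
    · intro hx
      by_cases hxO : x ∈ O
      · exact Or.inl hxO
      · exact Or.inr ⟨hx, fun hk => hxO (hK hk)⟩
    · rintro (hx | hx)
      · exact hO hx
      · exact hx.1
  have h1 : CP O (fun x => if x ∈ O then f' x else f x) (fun x => if x ∈ O then g' x else g x) :=
    h'.congr (fun x hx => by simp [hx]) (fun x hx => by simp [hx])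
  have h2 : CP (Ω \ K) (fun x => if x ∈ O then f' x else f x)
      (fun x => if x ∈ O then g' x else g x) := by
    refine (h.mono hΩK sdiff_subset).congr (fun x hx => ?_) (fun x hx => ?_)
    · by_cases hxO : x ∈ O
      · simp [hxO, (heq x hxO hx.2).1]
      · simp [hxO]
    · by_cases hxO : x ∈ O
      · simp [hxO, (heq x hxO hx.2).2]
      · simp [hxO]
  rw [hu]
  exact h1.union h2

/-- pull-back of a commuting pair by a map with invertible derivative. -/
lemma CP.pullback [CompleteSpace E] {O' : Set F} {f g : F → F} {Φ : E → F} (h : CP O' f g)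
    (hO : IsOpen O) (hΦ : ContDiffOn ℝ ∞ Φ O) (hm : MapsTo Φ O O')
    (hi : ∀ x ∈ O, (fderiv ℝ Φ x).IsInvertible) :
    CP O (VectorField.pullback ℝ Φ f) (VectorField.pullback ℝ Φ g) := by
  have key : ∀ V : F → F, ContDiffOn ℝ ∞ V O' →
      ContDiffOn ℝ ∞ (VectorField.pullback ℝ Φ V) O := by
    intro V hV x hx
    have h1 : ContDiffAt ℝ ∞ Φ x := hΦ.contDiffAt (hO.mem_nhds hx)
    have h2 : ContDiffAt ℝ ∞ (fun y => V (Φ y)) x :=
      (hV.contDiffAt (h.op.mem_nhds (hm hx))).comp x h1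
    have h3 : ContDiffAt ℝ ∞ (fun y => fderiv ℝ Φ y) x := h1.fderiv_right (by simp)
    obtain ⟨M, hM⟩ := hi x hx
    have h4 : ContDiffAt ℝ ∞ (fun y => (fderiv ℝ Φ y).inverse) x := by
      have h5 : ContDiffAt ℝ ∞ ContinuousLinearMap.inverse (fderiv ℝ Φ x) := by
        rw [← hM]; exact contDiffAt_map_inverse M
      exact h5.comp x h3
    have h6 : ContDiffAt ℝ ∞ (fun y => (fderiv ℝ Φ y).inverse (V (Φ y))) x := h4.clm_apply h2
    exact h6.contDiffWithinAt
  refine ⟨hO, key f h.sf, key g h.sg, fun x hx => ?_⟩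
  have h1 : ContDiffAt ℝ ∞ Φ x := hΦ.contDiffAt (hO.mem_nhds hx)
  have hf := (h.sf.contDiffAt (h.op.mem_nhds (hm hx))).differentiableAt (n := ∞) (by simp)
  have hg := (h.sg.contDiffAt (h.op.mem_nhds (hm hx))).differentiableAt (n := ∞) (by simp)
  rw [← pullback_lieBracket (n := ∞) (by simpa using WithTop.coe_le_coe.2 (le_top : (2 : ℕ∞) ≤ ⊤)) h1 hf hg]
  simp [VectorField.pullback, h.comm _ (hm hx)]

lemma Ind.pullback {f g : F → F} {Φ : E → F} {x : E} (hi : (fderiv ℝ Φ x).IsInvertible)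
    (h : Ind (f (Φ x)) (g (Φ x))) :
    Ind (VectorField.pullback ℝ Φ f x) (VectorField.pullback ℝ Φ g x) := by
  intro a b hab
  have h1 := congrArg (fderiv ℝ Φ x) hab
  rw [map_add, map_smul, map_smul, fderiv_pullback Φ f x hi, fderiv_pullback Φ g x hi,
    map_zero] at h1
  exact h a b h1

lemma pullback_eq_of {V : F → F} {Φ : E → F} {x v : E} (hi : (fderiv ℝ Φ x).IsInvertible)
    (hv : fderiv ℝ Φ x v = V (Φ x)) : VectorField.pullback ℝ Φ V x = v := by
  have h1 := fderiv_pullback Φ V x hi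
  obtain ⟨M, hM⟩ := hi
  rw [← hM] at h1 hv
  have : M (VectorField.pullback ℝ Φ V x) = M v := by
    have h2 : (M : E →L[ℝ] F) (VectorField.pullback ℝ Φ V x) = (M : E →L[ℝ] F) v := by
      rw [h1, hv]
    simpa using h2
  exact M.injective this

/-- a smooth map with a smooth left inverse between spaces of the same finite dimension has
invertible derivative. -/
lemma isInvertible_of_leftInverse [FiniteDimensional ℝ E] [FiniteDimensional ℝ F]
    (hd : Module.finrank ℝ E = Module.finrank ℝ F) {Φ : E → F} {Ψ : F → E} {x : E}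
    (hΦ : DifferentiableAt ℝ Φ x) (hΨ : DifferentiableAt ℝ Ψ (Φ x))
    (h : ∀ᶠ y in 𝓝 x, Ψ (Φ y) = y) : (fderiv ℝ Φ x).IsInvertible := by
  have h1 : (fderiv ℝ Ψ (Φ x)).comp (fderiv ℝ Φ x) = ContinuousLinearMap.id ℝ E := by
    rw [← fderiv_comp x hΨ hΦ, ← fderiv_id (𝕜 := ℝ) (x := x)]
    exact Filter.EventuallyEq.fderiv_eq h
  have hinj : Function.Injective (fderiv ℝ Φ x) := by
    intro a b hab
    have := congrArg (fderiv ℝ Ψ (Φ x)) hab
    have e1 := congrArg (fun L : E →L[ℝ] E => L a) h1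
    have e2 := congrArg (fun L : E →L[ℝ] E => L b) h1
    simp only [ContinuousLinearMap.comp_apply, ContinuousLinearMap.id_apply] at e1 e2
    rw [← e1, ← e2, this]
  let e := LinearEquiv.ofInjectiveOfFinrankEq (fderiv ℝ Φ x : E →ₗ[ℝ] F) hinj hd
  refine ⟨e.toContinuousLinearEquiv, ?_⟩
  ext v
  rfl

lemma Ind.comb {x y : E} (h : Ind x y) {a b c d : ℝ} (hdet : a * d - b * c ≠ 0) :
    Ind (a • x + b • y) (c • x + d • y) := by
  intro p q hpq
  have h1 : (p * a + q * c) • x + (p * b + q * d) • y = 0 := by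
    rw [← hpq]; module
  obtain ⟨h2, h3⟩ := h _ _ h1
  constructor
  · have : p * (a * d - b * c) = 0 := by linear_combination d * h2 - c * h3
    exact (mul_eq_zero.mp this).resolve_right hdet
  · have : q * (a * d - b * c) = 0 := by linear_combination a * h3 - b * h2
    exact (mul_eq_zero.mp this).resolve_right hdet

lemma Ind.symm {x y : E} (h : Ind x y) : Ind y x := by
  intro a b hab
  have := h b a (by rw [add_comm]; exact hab)
  exact ⟨this.2, this.1⟩

end general

end S7Pair
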