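import Pool.Agent.S7Pair.Defs2
import Pool.Agent.S7Pair.Hom
import Pool.Agent.S7Pair.Xi1

/-! # Module GI1: the gauge map is a diffeomorphism of `O7` -/

open scoped ContDiff Topology
open VectorField Set Filter

noncomputable section

namespace S7Pair

lemma GI1_sa_sq : sa ^ 2 = 1 / 2 := by
  unfold sa
  rw [div_pow, Real.sq_sqrt (by norm_num)]
  norm_num

lemma GI1_cs (A : ℝ) : Real.sin A ^ 2 + Real.cos A ^ 2 = 1 := Real.sin_sq_add_cos_sq A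

lemma n3_Rb (A : ℝ) (b : R3) : n3 (Rb A b) = n3 b := by
  unfold n3 Rb
  congr 1
  have h1 := GI1_sa_sq
  have h2 := GI1_cs A
  linear_combination ((b.2.1 + b.2.2) ^ 2 + (b.2.1 - b.2.2) ^ 2) * h1 +
    (b.1 ^ 2 + sa ^ 2 * (b.2.1 - b.2.2) ^ 2) * h2

lemma Rf_Rb (A : ℝ) (b : R3) : Rf A (Rb A b) = b := by
  have h1 := GI1_sa_sq
  have h2 := GI1_cs A
  obtain ⟨b1, b2, b3⟩ := b
  unfold Rf Rb
  ext
  · show Real.cos A * (Real.cos A * b1 + Real.sin A * (sa * (b2 - b3))) -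
      Real.sin A * (-(Real.sin A * b1) + Real.cos A * (sa * (b2 - b3))) = b1
    linear_combination b1 * h2
  · show sa * (sa * (b2 + b3) + (Real.sin A * (Real.cos A * b1 + Real.sin A * (sa * (b2 - b3))) +
      Real.cos A * (-(Real.sin A * b1) + Real.cos A * (sa * (b2 - b3))))) = b2
    linear_combination (2 * b2) * h1 + sa ^ 2 * (b2 - b3) * h2
  · show sa * (sa * (b2 + b3) - (Real.sin A * (Real.cos A * b1 + Real.sin A * (sa * (b2 - b3))) +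
      Real.cos A * (-(Real.sin A * b1) + Real.cos A * (sa * (b2 - b3))))) = b3
    linear_combination (2 * b3) * h1 - sa ^ 2 * (b2 - b3) * h2

lemma Gi_levels (P : E7) : n3 (Gi P).1 = n3 P.1 ∧ n4 (Gi P).2 = n4 P.2 :=
  ⟨n3_Rb _ _, n4_rotQ _ _⟩

lemma GI1_n3_pos {b : R3} (hb : b ≠ 0) : 0 < b.1 ^ 2 + b.2.1 ^ 2 + b.2.2 ^ 2 := by
  obtain ⟨x, y, z⟩ := b
  by_contra h
  apply hb
  have h' : x ^ 2 + y ^ 2 + z ^ 2 ≤ 0 := not_lt.1 h
  have hx : x = 0 := by nlinarith [sq_nonneg x, sq_nonneg y, sq_nonneg z]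
  have hy : y = 0 := by nlinarith [sq_nonneg x, sq_nonneg y, sq_nonneg z]
  have hz : z = 0 := by nlinarith [sq_nonneg x, sq_nonneg y, sq_nonneg z]
  rw [hx, hy, hz]
  rfl

lemma GI1_n4_pos {w : R4} (hw : w ≠ 0) :
    0 < w.1 ^ 2 + w.2.1 ^ 2 + w.2.2.1 ^ 2 + w.2.2.2 ^ 2 := by
  obtain ⟨x, y, z, t⟩ := w
  by_contra h
  apply hw
  have h' : x ^ 2 + y ^ 2 + z ^ 2 + t ^ 2 ≤ 0 := not_lt.1 h
  have hx : x = 0 := by nlinarith [sq_nonneg x, sq_nonneg y, sq_nonneg z, sq_nonneg t]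
  have hy : y = 0 := by nlinarith [sq_nonneg x, sq_nonneg y, sq_nonneg z, sq_nonneg t]
  have hz : z = 0 := by nlinarith [sq_nonneg x, sq_nonneg y, sq_nonneg z, sq_nonneg t]
  have ht : t = 0 := by nlinarith [sq_nonneg x, sq_nonneg y, sq_nonneg z, sq_nonneg t]
  rw [hx, hy, hz, ht]
  rfl

lemma GI1_Rb_ne {b : R3} (A : ℝ) (hb : b ≠ 0) : Rb A b ≠ 0 := by
  intro h
  apply hb
  rw [← Rf_Rb A b, h]
  simp [Rf]

lemma GI1_rotQ_ne {s : R4} (A : ℝ) (hs : s ≠ 0) : rotQ A s ≠ 0 := by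
  intro h
  apply hs
  rw [← rotQ_rotQ A s, h]
  simp [rotQ]

lemma Gi_maps : MapsTo Gi O7 O7 := by
  intro P hP
  exact ⟨GI1_Rb_ne _ hP.1, GI1_rotQ_ne _ hP.2⟩

lemma GI1_sm : ContDiff ℝ ∞ sm := Real.smoothTransition.contDiff

lemma GI1_o1 {P : E7} (hP : P.2 ≠ 0) : ContDiffAt ℝ ∞ o1 P := by
  unfold o1 n4
  have h := GI1_n4_pos hP
  have h2 : ContDiffAt ℝ ∞ (fun P : E7 =>
      √(P.2.1 ^ 2 + P.2.2.1 ^ 2 + P.2.2.2.1 ^ 2 + P.2.2.2.2 ^ 2)) P :=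
    ContDiffAt.sqrt (by fun_prop) h.ne'
  refine ContDiffAt.div (by fun_prop) (h2.pow 2) ?_
  rw [Real.sq_sqrt h.le]
  exact h.ne'

lemma GI1_angB {P : E7} (hP : P.2 ≠ 0) : ContDiffAt ℝ ∞ angB P := by
  unfold angB pp
  have h1 := GI1_o1 hP
  refine ContDiffAt.mul ?_ contDiffAt_const
  exact GI1_sm.contDiffAt.comp P ((contDiffAt_const.mul h1).sub contDiffAt_const)

lemma GI1_angW {b : R3} (hb : b ≠ 0) : ContDiffAt ℝ ∞ angW b := by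
  unfold angW n3
  have h := GI1_n3_pos hb
  have h2 : ContDiffAt ℝ ∞ (fun b : R3 => √(b.1 ^ 2 + b.2.1 ^ 2 + b.2.2 ^ 2)) b :=
    ContDiffAt.sqrt (by fun_prop) h.ne'
  refine ContDiffAt.mul ?_ contDiffAt_const
  refine GI1_sm.contDiffAt.comp b (ContDiffAt.add (ContDiffAt.div (by fun_prop) h2 ?_)
    contDiffAt_const)
  exact (Real.sqrt_pos.2 h).ne'

lemma GI1_Rb {A : E7 → ℝ} {b : E7 → R3} {P : E7} (hA : ContDiffAt ℝ ∞ A P)
    (hb : ContDiffAt ℝ ∞ b P) : ContDiffAt ℝ ∞ (fun P => Rb (A P) (b P)) P := by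
  unfold Rb
  have hc := hA.cos
  have hs := hA.sin
  fun_prop

lemma GI1_Rf {A : E7 → ℝ} {b : E7 → R3} {P : E7} (hA : ContDiffAt ℝ ∞ A P)
    (hb : ContDiffAt ℝ ∞ b P) : ContDiffAt ℝ ∞ (fun P => Rf (A P) (b P)) P := by
  unfold Rf
  have hc := hA.cos
  have hs := hA.sin
  fun_prop

lemma GI1_rotQ {A : E7 → ℝ} {s : E7 → R4} {P : E7} (hA : ContDiffAt ℝ ∞ A P)
    (hb : ContDiffAt ℝ ∞ s P) : ContDiffAt ℝ ∞ (fun P => rotQ (A P) (s P)) P := by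
  unfold rotQ
  have hc := hA.cos
  have hs := hA.sin
  fun_prop

lemma GI1_fst (P : E7) : ContDiffAt ℝ ∞ (fun P : E7 => P.1) P := contDiffAt_fst

lemma GI1_snd (P : E7) : ContDiffAt ℝ ∞ (fun P : E7 => P.2) P := contDiffAt_snd

lemma GI1_Gi_at {P : E7} (hP : P ∈ O7) : ContDiffAt ℝ ∞ Gi P := by
  unfold Gi Rw
  have h1 : ContDiffAt ℝ ∞ (fun P : E7 => Rb (angB P) P.1) P :=
    GI1_Rb (GI1_angB hP.2) (GI1_fst P)
  have h2 : ContDiffAt ℝ ∞ (fun P : E7 => -(angW (Rb (angB P) P.1))) P :=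
    ((GI1_angW (GI1_Rb_ne _ hP.1)).comp P h1).neg
  exact h1.prodMk (GI1_rotQ h2 (GI1_snd P))

lemma Gi_smooth : ContDiffOn ℝ ∞ Gi O7 := fun _ hP => (GI1_Gi_at hP).contDiffWithinAt

lemma GI1_Gf_at {P : E7} (hP : P ∈ O7) : ContDiffAt ℝ ∞ Gf P := by
  unfold Gf Rw
  have h1 : ContDiffAt ℝ ∞ (fun Q : E7 => angW Q.1) P :=
    (GI1_angW hP.1).comp P (GI1_fst P)
  have h2 : ContDiffAt ℝ ∞ (fun Q : E7 => rotQ (angW Q.1) Q.2) P := GI1_rotQ h1 (GI1_snd P)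
  have h3 : ContDiffAt ℝ ∞ (fun Q : E7 => ((Q.1, rotQ (angW Q.1) Q.2) : E7)) P :=
    (GI1_fst P).prodMk h2
  have h4 : ContDiffAt ℝ ∞ (fun Q : E7 => angB (Q.1, rotQ (angW Q.1) Q.2)) P :=
    ContDiffAt.comp (g := angB) (f := fun Q : E7 => ((Q.1, rotQ (angW Q.1) Q.2) : E7)) P
      (GI1_angB (P := ((P.1, rotQ (angW P.1) P.2) : E7)) (GI1_rotQ_ne _ hP.2)) h3
  exact (GI1_Rf h4 (GI1_fst P)).prodMk h2

lemma Gf_smooth : ContDiffOn ℝ ∞ Gf O7 := fun _ hP => (GI1_Gf_at hP).contDiffWithinAt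

lemma Gf_Gi : ∀ P ∈ O7, Gf (Gi P) = P := by
  intro P hP
  have e2 : rotQ (angW (Gi P).1) (Gi P).2 = P.2 := by
    show rotQ (angW (Rb (angB P) P.1)) (rotQ (-(angW (Rb (angB P) P.1))) P.2) = P.2
    have := rotQ_rotQ (-(angW (Rb (angB P) P.1))) P.2
    rw [neg_neg] at this
    exact this
  have e1 : angB ((Gi P).1, P.2) = angB P := rfl
  show (Rf (angB ((Gi P).1, rotQ (angW (Gi P).1) (Gi P).2)) (Gi P).1,
    rotQ (angW (Gi P).1) (Gi P).2) = P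
  rw [e2, e1]
  show (Rf (angB P) (Rb (angB P) P.1), P.2) = P
  rw [Rf_Rb]

theorem Gi_inv : ∀ P ∈ O7, (fderiv ℝ Gi P).IsInvertible := by
  intro P hP
  refine isInvertible_of_leftInverse rfl ((GI1_Gi_at hP).differentiableAt (by simp))
    ((GI1_Gf_at (Gi_maps hP)).differentiableAt (by simp)) ?_
  exact eventually_of_mem (O7_open.mem_nhds hP) Gf_Gi

end S7Pair
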