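import Pool.Agent.S7Pair.Gi1

/-! # Module GI2: the gauge map commutes with the Hopf field; normal forms -/

open scoped ContDiff Topology
open VectorField Set Filter

noncomputable section

namespace S7Pair

/-- the derivative along a vector from a curve -/
lemma GI2_curve {E F : Type*} [NormedAddCommGroup E] [NormedSpace ℝ E] [NormedAddCommGroup F]
    [NormedSpace ℝ F] {Φ : E → F} {P V : E} {U : F} (hΦ : DifferentiableAt ℝ Φ P)
    {γ : ℝ → E} (h0 : γ 0 = P) (hγ : HasDerivAt γ V 0) (h : HasDerivAt (fun t => Φ (γ t)) U 0) :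
    fderiv ℝ Φ P V = U := by
  have h1 : HasFDerivAt Φ (fderiv ℝ Φ P) (γ 0) := by
    rw [h0]
    exact hΦ.hasFDerivAt
  have h2 : HasDerivAt (Φ ∘ γ) (fderiv ℝ Φ P V) 0 := h1.comp_hasDerivAt 0 hγ
  exact h2.unique h

/-- if `Φ` is near `P` equal to `L`, and `L` is affine along `V` -/
lemma GI2_lin {E F : Type*} [NormedAddCommGroup E] [NormedSpace ℝ E] [NormedAddCommGroup F]
    [NormedSpace ℝ F] {Φ L : E → F} {P V : E} {U : F} (hΦ : DifferentiableAt ℝ Φ P)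
    (he : Φ =ᶠ[𝓝 P] L) (hL : ∀ t : ℝ, L (P + t • V) = L P + t • U) :
    fderiv ℝ Φ P V = U := by
  have hγ : HasDerivAt (fun t : ℝ => P + t • V) V 0 := by
    have := ((hasDerivAt_id (0 : ℝ)).smul_const V).const_add P
    simpa using this
  refine GI2_curve hΦ (γ := fun t : ℝ => P + t • V) (by simp) hγ ?_
  have h1 : HasDerivAt (fun t : ℝ => L P + t • U) U 0 := by
    have := ((hasDerivAt_id (0 : ℝ)).smul_const U).const_add (L P)
    simpa using this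
  refine h1.congr_of_eventuallyEq ?_
  have h2 : Tendsto (fun t : ℝ => P + t • V) (𝓝 0) (𝓝 P) := by
    have := hγ.continuousAt.tendsto
    simpa using this
  filter_upwards [h2.eventually he] with t ht
  rw [ht, hL]

/-- the flow of the Hopf field on `R4` -/
def GI2_fl (t : ℝ) (w : R4) : R4 :=
  (Real.cos t * w.1 - Real.sin t * w.2.1, Real.sin t * w.1 + Real.cos t * w.2.1,
    Real.cos t * w.2.2.1 - Real.sin t * w.2.2.2, Real.sin t * w.2.2.1 + Real.cos t * w.2.2.2)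

lemma GI2_fl_zero (w : R4) : GI2_fl 0 w = w := by
  simp [GI2_fl]

lemma GI2_fl_deriv (w : R4) :
    HasDerivAt (fun t => GI2_fl t w) (-w.2.1, w.1, -w.2.2.2, w.2.2.1) 0 := by
  have hc := Real.hasDerivAt_cos 0
  have hs := Real.hasDerivAt_sin 0
  rw [Real.sin_zero, neg_zero] at hc
  rw [Real.cos_zero] at hs
  unfold GI2_fl
  refine HasDerivAt.prodMk ?_ (HasDerivAt.prodMk ?_ (HasDerivAt.prodMk ?_ ?_))
  · exact ((hc.mul_const w.1).sub (hs.mul_const w.2.1)).congr_deriv (by simp)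
  · exact ((hs.mul_const w.1).add (hc.mul_const w.2.1)).congr_deriv (by simp)
  · exact ((hc.mul_const w.2.2.1).sub (hs.mul_const w.2.2.2)).congr_deriv (by simp)
  · exact ((hs.mul_const w.2.2.1).add (hc.mul_const w.2.2.2)).congr_deriv (by simp)

lemma GI2_fl_n4 (t : ℝ) (w : R4) : n4 (GI2_fl t w) = n4 w := by
  unfold n4 GI2_fl
  congr 1
  have h := Real.sin_sq_add_cos_sq t
  linear_combination (w.1 ^ 2 + w.2.1 ^ 2 + w.2.2.1 ^ 2 + w.2.2.2 ^ 2) * h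

lemma GI2_fl_o1 (t : ℝ) (P : E7) : o1 (P.1, GI2_fl t P.2) = o1 P := by
  unfold o1
  have h1 : n4 ((P.1, GI2_fl t P.2) : E7).2 = n4 P.2 := GI2_fl_n4 t P.2
  rw [h1]
  congr 1
  have h := Real.sin_sq_add_cos_sq t
  show (Real.cos t * P.2.1 - Real.sin t * P.2.2.1) ^ 2 +
    (Real.sin t * P.2.1 + Real.cos t * P.2.2.1) ^ 2 = _
  linear_combination (P.2.1 ^ 2 + P.2.2.1 ^ 2) * h

lemma GI2_fl_rot (t A : ℝ) (w : R4) : rotQ A (GI2_fl t w) = GI2_fl t (rotQ A w) := by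
  unfold rotQ GI2_fl
  ext <;> simp <;> ring

lemma GI2_Gi_fl (t : ℝ) (P : E7) :
    Gi (P.1, GI2_fl t P.2) = ((Gi P).1, GI2_fl t (Gi P).2) := by
  unfold Gi Rw angB
  rw [GI2_fl_o1]
  show (_, rotQ _ (GI2_fl t P.2)) = _
  rw [GI2_fl_rot]

theorem Gi_ee : ∀ P ∈ O7, fderiv ℝ Gi P (ee P) = ee (Gi P) := by
  intro P hP
  refine GI2_curve ((GI1_Gi_at hP).differentiableAt (by simp))
    (γ := fun t => ((P.1, GI2_fl t P.2) : E7)) ?_ ?_ ?_
  · show (P.1, GI2_fl 0 P.2) = P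
    rw [GI2_fl_zero]
  · have h := (hasDerivAt_const (0 : ℝ) P.1).prodMk (GI2_fl_deriv P.2)
    exact h
  · have h := (hasDerivAt_const (0 : ℝ) (Gi P).1).prodMk (GI2_fl_deriv (Gi P).2)
    have e : (fun t : ℝ => Gi (P.1, GI2_fl t P.2)) =
        fun t : ℝ => (((Gi P).1, GI2_fl t (Gi P).2) : E7) := by
      funext t
      exact GI2_Gi_fl t P
    rw [e]
    exact h

lemma GI2_sa : 0.7 < sa ∧ sa < 0.71 := by
  unfold sa
  have h0 : (0 : ℝ) ≤ √2 := Real.sqrt_nonneg 2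
  have h : √2 ^ 2 = 2 := Real.sq_sqrt (by norm_num)
  constructor <;> nlinarith

lemma GI2_pp0 {x : ℝ} (hx : x ≤ 1 / 4) : pp x = 0 := by
  unfold pp
  exact Real.smoothTransition.zero_of_nonpos (by linarith)

lemma GI2_pp1 {x : ℝ} (hx : 3 / 4 ≤ x) : pp x = 1 := by
  unfold pp
  exact Real.smoothTransition.one_of_one_le (by linarith)

lemma GI2_n3 {b : R3} (hb : b ≠ 0) : 0 < n3 b ∧ n3 b ^ 2 = b.1 ^ 2 + b.2.1 ^ 2 + b.2.2 ^ 2 := by
  have h := GI1_n3_pos hb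
  exact ⟨Real.sqrt_pos.2 h, Real.sq_sqrt h.le⟩

lemma GI2_n4 {w : R4} (hw : w ≠ 0) :
    0 < n4 w ∧ n4 w ^ 2 = w.1 ^ 2 + w.2.1 ^ 2 + w.2.2.1 ^ 2 + w.2.2.2 ^ 2 := by
  have h := GI1_n4_pos hw
  exact ⟨Real.sqrt_pos.2 h, Real.sq_sqrt h.le⟩

lemma GI2_o12 {P : E7} (hP : P ∈ O7) : o1 P + o2 P = 1 ∧ 0 ≤ o1 P ∧ 0 ≤ o2 P := by
  obtain ⟨h1, h2⟩ := GI2_n4 hP.2
  refine ⟨?_, ?_, ?_⟩
  · unfold o1 o2
    rw [← add_div, h2, div_eq_one_iff_eq (by rw [← h2]; positivity)]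
    ring
  · unfold o1; positivity
  · unfold o2; positivity

lemma GI2_qs_nonneg (P : E7) : 0 ≤ qs P := by
  unfold qs
  positivity

/-- linear functionals are controlled near the south pole -/
lemma GI2_qs_bound {P : E7} (hP : P ∈ O7) (hq : qs P < 1 / 64) {a : ℝ} (ha : a ^ 2 = 1) :
    0.52 < (sa * (P.1.2.1 - P.1.2.2) + a * P.1.1) / n3 P.1 := by
  obtain ⟨h1, h2⟩ := GI2_n3 hP.1
  obtain ⟨s1, s2⟩ := GI2_sa
  have hs := GI1_sa_sq
  unfold qs at hq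
  rw [div_lt_iff₀ (by positivity)] at hq
  rw [lt_div_iff₀ h1]
  obtain ⟨⟨b1, b2, b3⟩, w⟩ := P
  simp only at h1 h2 hq ⊢
  set n := n3 (b1, b2, b3) with hn
  -- v = (b1, b2, b3 + n), |v| ≤ n / 8
  have key : (sa * (b2 - (b3 + n)) + a * b1) ^ 2 ≤ 2 * (b1 ^ 2 + b2 ^ 2 + (b3 + n) ^ 2) := by
    nlinarith [sq_nonneg (sa * b1 - a * b2), sq_nonneg (sa * b1 + a * (b3 + n)),
      sq_nonneg (b2 + (b3 + n)), sq_nonneg (b2 - (b3 + n)), sq_nonneg b1]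
  have key2 : (sa * (b2 - (b3 + n)) + a * b1) ^ 2 < (0.18 * n) ^ 2 := by nlinarith
  have key3 := abs_lt_of_sq_lt_sq key2 (by positivity)
  have key4 := (abs_lt.1 key3).1
  nlinarith

/-- the gauge map near `Σ_a` -/
def GI2_La (P : E7) : E7 := ((sa * (P.1.2.1 + P.1.2.2), P.1.1, sa * (P.1.2.1 - P.1.2.2)), P.2)

/-- the gauge map near `Σ_b` -/
def GI2_Lb (P : E7) : E7 :=
  ((sa * (P.1.2.1 + P.1.2.2), sa * (P.1.2.1 - P.1.2.2), -P.1.1),
    (-P.2.2.2.1, -P.2.2.2.2, P.2.1, P.2.2.1))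

lemma GI2_Rb0 (b : R3) : Rb 0 b = (sa * (b.2.1 + b.2.2), b.1, sa * (b.2.1 - b.2.2)) := by
  simp [Rb]

lemma GI2_Rb1 (b : R3) : Rb (Real.pi / 2) b =
    (sa * (b.2.1 + b.2.2), sa * (b.2.1 - b.2.2), -b.1) := by
  simp [Rb]

lemma GI2_rot0 (w : R4) : rotQ 0 w = w := by
  simp [rotQ]

lemma GI2_rot1 (w : R4) : rotQ (-(Real.pi / 2)) w = (-w.2.2.1, -w.2.2.2, w.1, w.2.1) := by
  simp [rotQ, Real.cos_neg, Real.sin_neg]

lemma GI2_angW0 {b : R3} (h : (b.2.1 - b.2.2) / n3 b ≤ -1 / 2) : angW b = 0 := by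
  unfold angW
  rw [show sm ((b.2.1 - b.2.2) / n3 b + 1 / 2) = 0 from
    Real.smoothTransition.zero_of_nonpos (by linarith), zero_mul]

lemma GI2_angW1 {b : R3} (h : 1 / 2 ≤ (b.2.1 - b.2.2) / n3 b) : angW b = Real.pi / 2 := by
  unfold angW
  rw [show sm ((b.2.1 - b.2.2) / n3 b + 1 / 2) = 1 from
    Real.smoothTransition.one_of_one_le (by linarith), one_mul]

lemma GI2_Gi_a {P : E7} (hP : P ∈ O7) (h : qa P < 1 / 64) : Gi P = GI2_La P := by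
  have h1 := GI2_qs_nonneg P
  obtain ⟨h2, h3, h4⟩ := GI2_o12 hP
  unfold qa at h
  have hA : angB P = 0 := by
    unfold angB
    rw [GI2_pp0 (by linarith), zero_mul]
  have hb := GI2_qs_bound hP (by linarith) (a := -1) (by norm_num)
  unfold Gi Rw
  rw [hA]
  have hW : angW (Rb 0 P.1) = 0 := by
    apply GI2_angW0
    rw [n3_Rb, GI2_Rb0]
    show (P.1.1 - sa * (P.1.2.1 - P.1.2.2)) / n3 P.1 ≤ -1 / 2
    have e : (P.1.1 - sa * (P.1.2.1 - P.1.2.2)) / n3 P.1 =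
      -((sa * (P.1.2.1 - P.1.2.2) + -1 * P.1.1) / n3 P.1) := by ring
    rw [e]
    linarith
  rw [hW, neg_zero, GI2_rot0, GI2_Rb0]
  rfl

lemma GI2_Gi_b {P : E7} (hP : P ∈ O7) (h : qb P < 1 / 64) : Gi P = GI2_Lb P := by
  have h1 := GI2_qs_nonneg P
  obtain ⟨h2, h3, h4⟩ := GI2_o12 hP
  unfold qb at h
  have hA : angB P = Real.pi / 2 := by
    unfold angB
    rw [GI2_pp1 (by linarith), one_mul]
  have hb := GI2_qs_bound hP (by linarith) (a := 1) (by norm_num)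
  unfold Gi Rw
  rw [hA]
  have hW : angW (Rb (Real.pi / 2) P.1) = Real.pi / 2 := by
    apply GI2_angW1
    rw [n3_Rb, GI2_Rb1]
    show 1 / 2 ≤ (sa * (P.1.2.1 - P.1.2.2) - -P.1.1) / n3 P.1
    have e : (sa * (P.1.2.1 - P.1.2.2) - -P.1.1) / n3 P.1 =
      (sa * (P.1.2.1 - P.1.2.2) + 1 * P.1.1) / n3 P.1 := by ring
    rw [e]
    linarith
  rw [hW, GI2_rot1, GI2_Rb1]
  rfl

lemma GI2_qs_cont {P : E7} (hP : P ∈ O7) : ContinuousAt qs P := by
  unfold qs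
  have h := GI1_n3_pos hP.1
  have h2 : ContinuousAt (fun P : E7 => n3 P.1) P := by
    unfold n3
    fun_prop
  refine ContinuousAt.div ?_ (h2.pow 2) ?_
  · have : ContinuousAt (fun P : E7 => P.1.2.2 + n3 P.1) P :=
      ContinuousAt.add (by fun_prop) h2
    have h3 := this.pow 2
    refine ContinuousAt.add (by fun_prop) h3
  · exact pow_ne_zero 2 (GI2_n3 hP.1).1.ne'

lemma GI2_o1_cont {P : E7} (hP : P ∈ O7) : ContinuousAt o1 P :=
  (GI1_o1 hP.2).continuousAt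

lemma GI2_o2_cont {P : E7} (hP : P ∈ O7) : ContinuousAt o2 P := by
  have h : (fun Q : E7 => 1 - o1 Q) =ᶠ[𝓝 P] o2 := by
    filter_upwards [O7_open.mem_nhds hP] with Q hQ
    have := (GI2_o12 hQ).1
    linarith
  exact (ContinuousAt.sub continuousAt_const (GI2_o1_cont hP)).congr h

lemma GI2_ev_a {P : E7} (hP : P ∈ O7) (h : qa P < 1 / 64) : Gi =ᶠ[𝓝 P] GI2_La := by
  have hc : ContinuousAt qa P := (GI2_qs_cont hP).add (GI2_o1_cont hP)
  filter_upwards [O7_open.mem_nhds hP, hc.eventually (Iio_mem_nhds h)] with Q hQ h2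
  exact GI2_Gi_a hQ h2

lemma GI2_ev_b {P : E7} (hP : P ∈ O7) (h : qb P < 1 / 64) : Gi =ᶠ[𝓝 P] GI2_Lb := by
  have hc : ContinuousAt qb P := (GI2_qs_cont hP).add (GI2_o2_cont hP)
  filter_upwards [O7_open.mem_nhds hP, hc.eventually (Iio_mem_nhds h)] with Q hQ h2
  exact GI2_Gi_b hQ h2

/-- near `Σ_a`. -/
theorem Gi_a : ∀ P ∈ O7, qa P < 1 / 64 →
    fderiv ℝ Gi P (That P) = -rho (Gi P) ∧ QQ (Gi P) = qa P := by
  intro P hP h
  have h1 := GI2_qs_nonneg P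
  obtain ⟨h2, h3, h4⟩ := GI2_o12 hP
  have hG := GI2_Gi_a hP h
  have hs := GI1_sa_sq
  obtain ⟨n1, n2⟩ := GI2_n3 hP.1
  constructor
  · rw [hG]
    refine GI2_lin ((GI1_Gi_at hP).differentiableAt (by simp)) (GI2_ev_a hP h) (fun t => ?_)
    have hpp : pp (o1 P) = 0 := GI2_pp0 (by unfold qa at h; linarith)
    unfold That
    rw [hpp]
    obtain ⟨⟨b1, b2, b3⟩, x, y, z, u⟩ := P
    simp only [GI2_La, rho, Prod.smul_mk, smul_eq_mul, Prod.mk_add_mk, Prod.neg_mk,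
      Prod.mk.injEq]
    refine ⟨⟨?_, ?_, ?_⟩, ?_, ?_, ?_, ?_⟩
    · ring
    · linear_combination (2 * t * b2) * hs
    · ring
    · ring
    · ring
    · ring
    · ring
  · have e1 : n3 (Gi P).1 = n3 P.1 := (Gi_levels P).1
    have e2 : n4 (Gi P).2 = n4 P.2 := (Gi_levels P).2
    unfold QQ qa qs o1 pr
    rw [e1, e2, hG]
    obtain ⟨m1, m2⟩ := GI2_n4 hP.2
    obtain ⟨⟨b1, b2, b3⟩, x, y, z, u⟩ := P
    simp only [GI2_La, Prod.smul_mk, smul_eq_mul] at n1 n2 m1 m2 ⊢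
    field_simp
    have e3 : ∀ n : ℝ, sa ^ 2 = 1 / 2 → (sa * (b2 + b3) + sa * n) ^ 2 + b1 ^ 2 +
        (sa * (b2 - b3) - sa * n) ^ 2 = b1 ^ 2 + b2 ^ 2 + (b3 + n) ^ 2 := by
      intro n hs
      linear_combination ((b2 + b3 + n) ^ 2 + (b2 - b3 - n) ^ 2) * hs
    nlinarith [e3 (n3 (b1, b2, b3)) hs]

/-- near `Σ_b`. -/
theorem Gi_b : ∀ P ∈ O7, qb P < 1 / 64 →
    fderiv ℝ Gi P (That P) = rhob (Gi P) ∧ QQ (sg (Gi P)) = qb P := by
  intro P hP h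
  have h1 := GI2_qs_nonneg P
  obtain ⟨h2, h3, h4⟩ := GI2_o12 hP
  have hG := GI2_Gi_b hP h
  have hs := GI1_sa_sq
  obtain ⟨n1, n2⟩ := GI2_n3 hP.1
  constructor
  · rw [hG]
    refine GI2_lin ((GI1_Gi_at hP).differentiableAt (by simp)) (GI2_ev_b hP h) (fun t => ?_)
    have hpp : pp (o1 P) = 1 := GI2_pp1 (by unfold qb at h; linarith)
    unfold That
    rw [hpp]
    obtain ⟨⟨b1, b2, b3⟩, x, y, z, u⟩ := P
    simp only [GI2_Lb, rhob, Prod.smul_mk, smul_eq_mul, Prod.mk_add_mk, Prod.neg_mk,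
      Prod.mk.injEq]
    refine ⟨⟨?_, ?_, ?_⟩, ?_, ?_, ?_, ?_⟩
    · ring
    · ring
    · linear_combination (-2 * t * b2) * hs
    · ring
    · ring
    · ring
    · ring
  · have e1 : n3 (sg (Gi P)).1 = n3 P.1 := by
      rw [← (Gi_levels P).1]
      unfold n3 sg
      congr 1
      ring
    have e2 : n4 (sg (Gi P)).2 = n4 P.2 := by
      rw [← (Gi_levels P).2]
      unfold n4 sg
      congr 1
      ring
    unfold QQ qb qs o2 pr
    rw [e1, e2, hG]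
    obtain ⟨m1, m2⟩ := GI2_n4 hP.2
    obtain ⟨⟨b1, b2, b3⟩, x, y, z, u⟩ := P
    simp only [GI2_Lb, sg, Prod.smul_mk, smul_eq_mul] at n1 n2 m1 m2 ⊢
    field_simp
    have e3 : ∀ n : ℝ, sa ^ 2 = 1 / 2 → (sa * (b2 + b3) + sa * n) ^ 2 + b1 ^ 2 +
        (sa * (b2 - b3) - sa * n) ^ 2 = b1 ^ 2 + b2 ^ 2 + (b3 + n) ^ 2 := by
      intro n hs
      linear_combination ((b2 + b3 + n) ^ 2 + (b2 - b3 - n) ^ 2) * hs
    nlinarith [e3 (n3 (b1, b2, b3)) hs]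

lemma GI2_sq5 {a b c d e : ℝ} (h : a ^ 2 + b ^ 2 + c ^ 2 + d ^ 2 + e ^ 2 = 0) :
    a = 0 ∧ b = 0 ∧ c = 0 ∧ d = 0 ∧ e = 0 := by
  have ha := sq_nonneg a
  have hb := sq_nonneg b
  have hc := sq_nonneg c
  have hd := sq_nonneg d
  have he := sq_nonneg e
  refine ⟨?_, ?_, ?_, ?_, ?_⟩ <;>
    exact pow_eq_zero_iff (two_ne_zero) |>.1 (by linarith)

/-- if `QQ G = 0` then `G.1` points to `b_a` and `ω₁ = 0` -/
lemma GI2_QQ_zero {G : E7} (hG : G ∈ O7) (h : QQ G = 0) :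
    G.1.1 = -sa * n3 G.1 ∧ G.1.2.1 = 0 ∧ G.1.2.2 = sa * n3 G.1 ∧ G.2.1 = 0 ∧ G.2.2.1 = 0 := by
  obtain ⟨n1, -⟩ := GI2_n3 hG.1
  obtain ⟨m1, -⟩ := GI2_n4 hG.2
  unfold QQ pr at h
  obtain ⟨a1, a2, a3, a4, a5⟩ := GI2_sq5 h
  simp only [Prod.smul_fst, Prod.smul_snd, smul_eq_mul] at a1 a2 a3 a4 a5
  refine ⟨?_, ?_, ?_, ?_, ?_⟩
  · field_simp at a1
    linarith
  · exact (mul_eq_zero.1 a2).resolve_left (inv_ne_zero n1.ne')
  · field_simp at a3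
    linarith
  · exact (mul_eq_zero.1 a4).resolve_left (inv_ne_zero m1.ne')
  · exact (mul_eq_zero.1 a5).resolve_left (inv_ne_zero m1.ne')

lemma GI2_rot_inv (A : ℝ) (w : R4) : w = rotQ A (rotQ (-A) w) := by
  have := rotQ_rotQ (-A) w
  rw [neg_neg] at this
  exact this.symm

theorem Gi_zero_a : ∀ P ∈ O7, QQ (Gi P) = 0 → qa P = 0 := by
  intro P hP h
  obtain ⟨a1, a2, a3, a4, a5⟩ := GI2_QQ_zero (Gi_maps hP) h
  rw [(Gi_levels P).1] at a1 a3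
  obtain ⟨n1, n2⟩ := GI2_n3 hP.1
  have hs := GI1_sa_sq
  obtain ⟨s1, s2⟩ := GI2_sa
  have hW : angW (Gi P).1 = 0 := by
    apply GI2_angW0
    rw [(Gi_levels P).1, a2, a3]
    have e : (0 - sa * n3 P.1) / n3 P.1 = -sa := by field_simp; ring
    rw [e]
    linarith
  have hw : (Gi P).2 = P.2 := by
    show rotQ (-(angW (Gi P).1)) P.2 = P.2
    rw [hW, neg_zero, GI2_rot0]
  rw [hw] at a4 a5
  have ho : o1 P = 0 := by
    unfold o1
    rw [a4, a5]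
    simp
  have hA : angB P = 0 := by
    unfold angB
    rw [ho, GI2_pp0 (by norm_num), zero_mul]
  have hb : (Gi P).1 = (sa * (P.1.2.1 + P.1.2.2), P.1.1, sa * (P.1.2.1 - P.1.2.2)) := by
    show Rb (angB P) P.1 = _
    rw [hA, GI2_Rb0]
  rw [hb] at a1 a2 a3
  simp only at a1 a2 a3
  have c1 : P.1.2.1 + P.1.2.2 = -n3 P.1 := by
    apply mul_left_cancel₀ (show sa ≠ 0 by linarith)
    linarith
  have c2 : P.1.2.1 - P.1.2.2 = n3 P.1 := by
    apply mul_left_cancel₀ (show sa ≠ 0 by linarith)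
    linarith
  have c3 : P.1.2.1 = 0 := by linarith
  have c4 : P.1.2.2 + n3 P.1 = 0 := by linarith
  unfold qa
  rw [ho]
  unfold qs
  rw [a2, c3, c4]
  simp

theorem Gi_zero_b : ∀ P ∈ O7, QQ (sg (Gi P)) = 0 → qb P = 0 := by
  intro P hP h
  have hG := Gi_maps hP
  have e1 : n3 (sg (Gi P)).1 = n3 P.1 := by
    rw [← (Gi_levels P).1]
    unfold n3 sg
    congr 1
    ring
  have hsg : sg (Gi P) ∈ O7 := by
    constructor
    · intro hc
      have := (GI2_n3 hP.1).1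
      rw [← e1, hc] at this
      simp [n3] at this
    · intro hc
      have h4 := (GI2_n4 hP.2).1
      have e2 : n4 (sg (Gi P)).2 = n4 P.2 := by
        rw [← (Gi_levels P).2]
        unfold n4 sg
        congr 1
        ring
      rw [← e2, hc] at h4
      simp [n4] at h4
  obtain ⟨a1, a2, a3, a4, a5⟩ := GI2_QQ_zero hsg h
  rw [e1] at a1 a3
  have b1 : (Gi P).1.1 = -sa * n3 P.1 := a1
  have b2 : (Gi P).1.2.2 = 0 := a2
  have b3 : (Gi P).1.2.1 = sa * n3 P.1 := a3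
  have b4 : (Gi P).2.1 = 0 := by
    have : -(Gi P).2.1 = 0 := a4
    linarith
  have b5 : (Gi P).2.2.1 = 0 := by
    have : -(Gi P).2.2.1 = 0 := a5
    linarith
  obtain ⟨n1, n2⟩ := GI2_n3 hP.1
  obtain ⟨m1, m2⟩ := GI2_n4 hP.2
  have hs := GI1_sa_sq
  obtain ⟨s1, s2⟩ := GI2_sa
  have hW : angW (Gi P).1 = Real.pi / 2 := by
    apply GI2_angW1
    rw [(Gi_levels P).1, b2, b3]
    have e : (sa * n3 P.1 - 0) / n3 P.1 = sa := by field_simp; ring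
    rw [e]
    linarith
  have hw : (Gi P).2 = (-P.2.2.2.1, -P.2.2.2.2, P.2.1, P.2.2.1) := by
    show rotQ (-(angW (Gi P).1)) P.2 = _
    rw [hW, GI2_rot1]
  rw [hw] at b4 b5
  simp only at b4 b5
  have b4' : P.2.2.2.1 = 0 := by linarith
  have b5' : P.2.2.2.2 = 0 := by linarith
  have ho2 : o2 P = 0 := by
    unfold o2
    rw [b4', b5']
    simp
  have ho : o1 P = 1 := by
    have := (GI2_o12 hP).1
    linarith
  have hA : angB P = Real.pi / 2 := by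
    unfold angB
    rw [ho, GI2_pp1 (by norm_num), one_mul]
  have hb : (Gi P).1 = (sa * (P.1.2.1 + P.1.2.2), sa * (P.1.2.1 - P.1.2.2), -P.1.1) := by
    show Rb (angB P) P.1 = _
    rw [hA, GI2_Rb1]
  rw [hb] at b1 b2 b3
  simp only at b1 b2 b3
  have c1 : P.1.2.1 + P.1.2.2 = -n3 P.1 := by
    apply mul_left_cancel₀ (show sa ≠ 0 by linarith)
    linarith
  have c2 : P.1.2.1 - P.1.2.2 = n3 P.1 := by
    apply mul_left_cancel₀ (show sa ≠ 0 by linarith)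
    linarith
  have c3 : P.1.2.1 = 0 := by linarith
  have c4 : P.1.2.2 + n3 P.1 = 0 := by linarith
  have c5 : P.1.1 = 0 := by linarith
  unfold qb
  rw [ho2]
  unfold qs
  rw [c5, c3, c4]
  simp

end S7Pair
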