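import Pool.Agent.S7Pair.Gi2

/-! # Module GIA: Theorem J from the pair on `O7` (pull back by `Gi`, then make it homogeneous
with `hom`) -/

open scoped ContDiff Topology
open VectorField Set Filter

noncomputable section

namespace S7Pair

lemma GIA_n3_pos {P : E7} (hP : P ∈ O7) : 0 < n3 P.1 := by
  unfold n3
  apply Real.sqrt_pos.2
  by_contra h
  apply hP.1
  have h1 := sq_nonneg P.1.1
  have h2 := sq_nonneg P.1.2.1
  have h3 := sq_nonneg P.1.2.2
  ext
  · exact pow_eq_zero_iff (two_ne_zero) |>.1 (by linarith : P.1.1 ^ 2 = 0)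
  · exact pow_eq_zero_iff (two_ne_zero) |>.1 (by linarith : P.1.2.1 ^ 2 = 0)
  · exact pow_eq_zero_iff (two_ne_zero) |>.1 (by linarith : P.1.2.2 ^ 2 = 0)

lemma GIA_n4_pos {P : E7} (hP : P ∈ O7) : 0 < n4 P.2 := by
  unfold n4
  apply Real.sqrt_pos.2
  by_contra h
  apply hP.2
  have h1 := sq_nonneg P.2.1
  have h2 := sq_nonneg P.2.2.1
  have h3 := sq_nonneg P.2.2.2.1
  have h4 := sq_nonneg P.2.2.2.2
  ext
  · exact pow_eq_zero_iff (two_ne_zero) |>.1 (by linarith : P.2.1 ^ 2 = 0)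
  · exact pow_eq_zero_iff (two_ne_zero) |>.1 (by linarith : P.2.2.1 ^ 2 = 0)
  · exact pow_eq_zero_iff (two_ne_zero) |>.1 (by linarith : P.2.2.2.1 ^ 2 = 0)
  · exact pow_eq_zero_iff (two_ne_zero) |>.1 (by linarith : P.2.2.2.2 ^ 2 = 0)

lemma GIA_n3_pr {P : E7} (hP : P ∈ O7) : n3 (pr P).1 = 1 := by
  have h := (pr_mem hP).1
  unfold n3
  unfold dot3 at h
  rw [Real.sqrt_eq_one]
  linarith

lemma GIA_n4_pr {P : E7} (hP : P ∈ O7) : n4 (pr P).2 = 1 := by
  have h := (pr_mem hP).2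
  unfold n4
  unfold dot4 at h
  rw [Real.sqrt_eq_one]
  linarith

lemma GIA_o1 {P : E7} (hP : P ∈ O7) : o1 (pr P) = o1 P := by
  have h4 := GIA_n4_pos hP
  unfold o1
  rw [GIA_n4_pr hP]
  simp only [pr, Prod.smul_fst, Prod.smul_snd, smul_eq_mul]
  field_simp

lemma GIA_o2 {P : E7} (hP : P ∈ O7) : o2 (pr P) = o2 P := by
  have h4 := GIA_n4_pos hP
  unfold o2
  rw [GIA_n4_pr hP]
  simp only [pr, Prod.smul_fst, Prod.smul_snd, smul_eq_mul]
  field_simp

lemma GIA_qs {P : E7} (hP : P ∈ O7) : qs (pr P) = qs P := by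
  have h3 := GIA_n3_pos hP
  unfold qs
  rw [GIA_n3_pr hP]
  simp only [pr, Prod.smul_fst, Prod.smul_snd, smul_eq_mul]
  field_simp

lemma hom_ee : ∀ P ∈ O7, hom ee P = ee P := by
  intro P hP
  have h4 := GIA_n4_pos hP
  simp only [hom, sc, ee, pr, Prod.smul_fst, Prod.smul_snd, smul_eq_mul, Prod.smul_mk,
    Prod.mk.injEq, mul_zero]
  refine ⟨trivial, ?_, ?_, ?_, ?_⟩ <;> field_simp

lemma hom_That : ∀ P ∈ O7, hom That P = That P := by
  intro P hP
  have h4 := GIA_n4_pos hP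
  have h3 := GIA_n3_pos hP
  simp only [hom, sc, That, GIA_o1 hP]
  simp only [pr, Prod.smul_fst, Prod.smul_snd, smul_eq_mul, Prod.smul_mk,
    Prod.mk.injEq, mul_zero]
  refine ⟨⟨?_, ?_, ?_⟩, ?_, ?_, ?_, ?_⟩ <;> first | trivial | field_simp

lemma qa_pr : ∀ P ∈ O7, qa (pr P) = qa P ∧ qb (pr P) = qb P := by
  intro P hP
  unfold qa qb
  rw [GIA_qs hP, GIA_o1 hP, GIA_o2 hP]
  exact ⟨rfl, rfl⟩

lemma GIA_n3_sq (b : R3) : n3 b ^ 2 = dot3 b b := by
  unfold n3 dot3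
  rw [Real.sq_sqrt (by positivity)]
  ring

lemma GIA_n4_sq (b : R4) : n4 b ^ 2 = dot4 b b := by
  unfold n4 dot4
  rw [Real.sq_sqrt (by positivity)]
  ring

lemma GIA_fst (P V : E7) : fderiv ℝ (fun Q : E7 => Q.1) P V = V.1 :=
  DFunLike.congr_fun ((ContinuousLinearMap.fst ℝ R3 R4).hasFDerivAt (x := P)).fderiv V

lemma GIA_D3 (P V : E7) : HasFDerivAt (fun Q : E7 => dot3 Q.1 Q.1)
    (fderiv ℝ (fun Q : E7 => dot3 Q.1 Q.1) P) P ∧
    fderiv ℝ (fun Q : E7 => dot3 Q.1 Q.1) P V = 2 * dot3 P.1 V.1 := by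
  have hd : Differentiable ℝ (fun Q : E7 => dot3 Q.1 Q.1) := by
    unfold dot3; fun_prop
  refine ⟨(hd P).hasFDerivAt, ?_⟩
  have h1 : HasDerivAt (fun t : ℝ => (fun Q : E7 => dot3 Q.1 Q.1) (P + t • V))
      (fderiv ℝ (fun Q : E7 => dot3 Q.1 Q.1) P V) 0 := by
    have h2 : HasDerivAt (fun t : ℝ => P + t • V) V 0 := by
      simpa using ((hasDerivAt_id (0 : ℝ)).smul_const V).const_add P
    have h3 : HasFDerivAt (fun Q : E7 => dot3 Q.1 Q.1)
        (fderiv ℝ (fun Q : E7 => dot3 Q.1 Q.1) P) (P + (0 : ℝ) • V) := by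
      simpa using (hd P).hasFDerivAt
    exact h3.comp_hasDerivAt 0 h2
  have h4 : HasDerivAt (fun t : ℝ => (fun Q : E7 => dot3 Q.1 Q.1) (P + t • V))
      (2 * dot3 P.1 V.1) 0 := by
    have h5 : (fun t : ℝ => (fun Q : E7 => dot3 Q.1 Q.1) (P + t • V)) =
        fun t : ℝ => dot3 P.1 P.1 + t * (2 * dot3 P.1 V.1) + t ^ 2 * dot3 V.1 V.1 := by
      funext t
      simp only [dot3, Prod.fst_add, Prod.snd_add, Prod.smul_fst, Prod.smul_snd, smul_eq_mul]
      ring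
    rw [h5]
    have h6 := (((hasDerivAt_id (0 : ℝ)).mul_const (2 * dot3 P.1 V.1)).const_add
      (dot3 P.1 P.1)).fun_add (((hasDerivAt_id (0 : ℝ)).fun_pow 2).mul_const (dot3 V.1 V.1))
    simpa using h6
  exact h1.unique h4

lemma GIA_D4 (P V : E7) : HasFDerivAt (fun Q : E7 => dot4 Q.2 Q.2)
    (fderiv ℝ (fun Q : E7 => dot4 Q.2 Q.2) P) P ∧
    fderiv ℝ (fun Q : E7 => dot4 Q.2 Q.2) P V = 2 * dot4 P.2 V.2 := by
  have hd : Differentiable ℝ (fun Q : E7 => dot4 Q.2 Q.2) := by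
    unfold dot4; fun_prop
  refine ⟨(hd P).hasFDerivAt, ?_⟩
  have h1 : HasDerivAt (fun t : ℝ => (fun Q : E7 => dot4 Q.2 Q.2) (P + t • V))
      (fderiv ℝ (fun Q : E7 => dot4 Q.2 Q.2) P V) 0 := by
    have h2 : HasDerivAt (fun t : ℝ => P + t • V) V 0 := by
      simpa using ((hasDerivAt_id (0 : ℝ)).smul_const V).const_add P
    have h3 : HasFDerivAt (fun Q : E7 => dot4 Q.2 Q.2)
        (fderiv ℝ (fun Q : E7 => dot4 Q.2 Q.2) P) (P + (0 : ℝ) • V) := by
      simpa using (hd P).hasFDerivAt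
    exact h3.comp_hasDerivAt 0 h2
  have h4 : HasDerivAt (fun t : ℝ => (fun Q : E7 => dot4 Q.2 Q.2) (P + t • V))
      (2 * dot4 P.2 V.2) 0 := by
    have h5 : (fun t : ℝ => (fun Q : E7 => dot4 Q.2 Q.2) (P + t • V)) =
        fun t : ℝ => dot4 P.2 P.2 + t * (2 * dot4 P.2 V.2) + t ^ 2 * dot4 V.2 V.2 := by
      funext t
      simp only [dot4, Prod.fst_add, Prod.snd_add, Prod.smul_fst, Prod.smul_snd, smul_eq_mul]
      ring
    rw [h5]
    have h6 := (((hasDerivAt_id (0 : ℝ)).mul_const (2 * dot4 P.2 V.2)).const_add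
      (dot4 P.2 P.2)).fun_add (((hasDerivAt_id (0 : ℝ)).fun_pow 2).mul_const (dot4 V.2 V.2))
    simpa using h6
  exact h1.unique h4

/-- the pull-back by `Gi` preserves tangency. -/
lemma GIA_tan {f : E7 → E7} {P : E7} (hP : P ∈ O7) (h : Tan (Gi P) (f (Gi P))) :
    Tan P (VectorField.pullback ℝ Gi f P) := by
  have hd : HasFDerivAt Gi (fderiv ℝ Gi P) P :=
    ((Gi_smooth.contDiffAt (O7_open.mem_nhds hP)).differentiableAt (by simp)).hasFDerivAt
  have hv : fderiv ℝ Gi P (VectorField.pullback ℝ Gi f P) = f (Gi P) :=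
    fderiv_pullback Gi f P (Gi_inv P hP)
  constructor
  · have e : (fun Q : E7 => dot3 Q.1 Q.1) ∘ Gi = fun Q : E7 => dot3 Q.1 Q.1 := by
      funext Q
      simp only [Function.comp]
      rw [← GIA_n3_sq, ← GIA_n3_sq, (Gi_levels Q).1]
    have h1 := (GIA_D3 (Gi P) (f (Gi P))).1.comp P hd
    rw [e] at h1
    have h2 := h1.unique (GIA_D3 P (VectorField.pullback ℝ Gi f P)).1
    have h3 := DFunLike.congr_fun h2 (VectorField.pullback ℝ Gi f P)
    rw [ContinuousLinearMap.comp_apply, hv, (GIA_D3 (Gi P) (f (Gi P))).2,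
      (GIA_D3 P (VectorField.pullback ℝ Gi f P)).2, h.1] at h3
    linarith
  · have e : (fun Q : E7 => dot4 Q.2 Q.2) ∘ Gi = fun Q : E7 => dot4 Q.2 Q.2 := by
      funext Q
      simp only [Function.comp]
      rw [← GIA_n4_sq, ← GIA_n4_sq, (Gi_levels Q).2]
    have h1 := (GIA_D4 (Gi P) (f (Gi P))).1.comp P hd
    rw [e] at h1
    have h2 := h1.unique (GIA_D4 P (VectorField.pullback ℝ Gi f P)).1
    have h3 := DFunLike.congr_fun h2 (VectorField.pullback ℝ Gi f P)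
    rw [ContinuousLinearMap.comp_apply, hv, (GIA_D4 (Gi P) (f (Gi P))).2,
      (GIA_D4 P (VectorField.pullback ℝ Gi f P)).2, h.2] at h3
    linarith

theorem stJ (h : StJ3) : StJ := by
  obtain ⟨f, g, hcp, htan, hind, δ, hδ, ha, hb⟩ := h
  have hcp' : CP O7 (VectorField.pullback ℝ Gi f) (VectorField.pullback ℝ Gi g) :=
    hcp.pullback O7_open Gi_smooth Gi_maps Gi_inv
  have htf : ∀ P ∈ O7, Tan P (VectorField.pullback ℝ Gi f P) := fun P hP =>
    GIA_tan hP (htan _ (Gi_maps hP)).1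
  have htg : ∀ P ∈ O7, Tan P (VectorField.pullback ℝ Gi g P) := fun P hP =>
    GIA_tan hP (htan _ (Gi_maps hP)).2
  have hprO : ∀ P ∈ O7, pr P ∈ O7 := fun P hP => M7_sub (pr_mem hP)
  refine ⟨hom (VectorField.pullback ℝ Gi f), hom (VectorField.pullback ℝ Gi g),
    min δ (1 / 64), lt_min hδ (by norm_num), min_le_right _ _, ?_, ?_, ?_, ?_, ?_⟩
  · exact hom_CP _ _ (fun p hp => (hcp'.cat (M7_sub hp)).sf) (fun p hp => (hcp'.cat (M7_sub hp)).sg)
      (fun p hp => htf p (M7_sub hp)) (fun p hp => htg p (M7_sub hp))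
      (fun p hp => (hcp'.cat (M7_sub hp)).comm)
  · intro P hP
    exact ⟨hom_tan hP (htf _ (hprO P hP)), hom_tan hP (htg _ (hprO P hP))⟩
  · intro P hP c hc
    exact ⟨hom_scale _ hP hc, hom_scale _ hP hc⟩
  · intro P hP hq
    have hpr := hprO P hP
    have e1 : VectorField.pullback ℝ Gi f (pr P) = ee (pr P) ∧
        VectorField.pullback ℝ Gi g (pr P) = That (pr P) := by
      rcases hq with hq | hq
      · have hq1 : qa (pr P) < 1 / 64 := by
          rw [(qa_pr P hP).1]; exact lt_of_lt_of_le hq (min_le_right _ _)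
        have hq2 : qa (pr P) < δ := by
          rw [(qa_pr P hP).1]; exact lt_of_lt_of_le hq (min_le_left _ _)
        obtain ⟨r1, r2⟩ := Gi_a _ hpr hq1
        have r3 := ha _ (Gi_maps hpr) (by rw [r2]; exact hq2)
        refine ⟨pullback_eq_of (Gi_inv _ hpr) ?_, pullback_eq_of (Gi_inv _ hpr) ?_⟩
        · rw [Gi_ee _ hpr, r3.1]
        · rw [r1, r3.2]
      · have hq1 : qb (pr P) < 1 / 64 := by
          rw [(qa_pr P hP).2]; exact lt_of_lt_of_le hq (min_le_right _ _)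
        have hq2 : qb (pr P) < δ := by
          rw [(qa_pr P hP).2]; exact lt_of_lt_of_le hq (min_le_left _ _)
        obtain ⟨r1, r2⟩ := Gi_b _ hpr hq1
        have r3 := hb _ (Gi_maps hpr) (by rw [r2]; exact hq2)
        refine ⟨pullback_eq_of (Gi_inv _ hpr) ?_, pullback_eq_of (Gi_inv _ hpr) ?_⟩
        · rw [Gi_ee _ hpr, r3.1]
        · rw [r1, r3.2]
    constructor
    · rw [← hom_ee P hP]
      unfold hom
      rw [e1.1]
    · rw [← hom_That P hP]
      unfold hom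
      rw [e1.2]
  · intro P hP h1 h2
    apply hom_ind hP
    have hpr := hprO P hP
    apply Ind.pullback (Gi_inv _ hpr)
    apply hind _ (Gi_maps hpr)
    · intro h3
      exact h1 (by rw [← (qa_pr P hP).1]; exact Gi_zero_a _ hpr h3)
    · intro h3
      exact h2 (by rw [← (qa_pr P hP).2]; exact Gi_zero_b _ hpr h3)

end S7Pair
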