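import Pool.Agent.S7Pair.Gen

/-! # Module J1a: elementary facts, smoothness and symmetry of the exotic pair -/

open scoped ContDiff Topology
open VectorField Set Filter

noncomputable section

namespace S7Pair

lemma sa_sq : sa ^ 2 = 1 / 2 := by
  unfold sa
  rw [div_pow, Real.sq_sqrt (by norm_num)]
  norm_num

lemma sa_pos : 0 < sa := by unfold sa; positivity

lemma sa_lt : sa < 1 := by
  have h1 := sa_sq
  have h2 := sa_pos
  nlinarith

lemma b1_le {p : E7} (hp : p ∈ M7) : -1 ≤ p.1.1 ∧ p.1.1 ≤ 1 := by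
  have h1 : p.1.1 ^ 2 + p.1.2.1 ^ 2 + p.1.2.2 ^ 2 = 1 := by
    have := hp.1; unfold dot3 at this; linarith
  constructor <;> nlinarith [sq_nonneg p.1.2.1, sq_nonneg p.1.2.2]

lemma tau_le {p : E7} (hp : p ∈ M7) : -1 ≤ p.2.1 ∧ p.2.1 ≤ 1 := by
  have h1 : p.2.1 ^ 2 + p.2.2.1 ^ 2 + p.2.2.2.1 ^ 2 + p.2.2.2.2 ^ 2 = 1 := by
    have := hp.2; unfold dot4 at this; linarith
  constructor <;> nlinarith [sq_nonneg p.2.2.1, sq_nonneg p.2.2.2.1, sq_nonneg p.2.2.2.2]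

lemma nn_pos {p : E7} (hp : p ∈ M7) : 0 < nn p := by
  have h1 := b1_le hp
  have h2 := tau_le hp
  have h3 := sa_pos
  have h4 := sa_lt
  have h5 : 0 ≤ 1 - p.2.1 ^ 2 := by nlinarith
  have h6 : -1 < sa * p.1.1 := by nlinarith
  unfold nn
  nlinarith [mul_nonneg h5 (sub_nonneg.2 h6.le), sq_nonneg p.2.1]

lemma sg_mem {p : E7} (hp : p ∈ M7) : sg p ∈ M7 := by
  have h1 := hp.1
  have h2 := hp.2
  unfold dot3 at h1
  unfold dot4 at h2
  refine ⟨?_, ?_⟩
  · simp only [sg, dot3]; linarith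
  · simp only [sg, dot4]; linarith

lemma sg_sg (p : E7) : sg (sg p) = p := by
  simp [sg]

lemma sg_smooth (n : WithTop ℕ∞) (p : E7) : ContDiffAt ℝ n sg p := by
  unfold sg; fun_prop

lemma nn_smooth (n : WithTop ℕ∞) (p : E7) : ContDiffAt ℝ n nn p := by
  unfold nn; fun_prop

lemma t1_smooth {p : E7} (h : nn p ≠ 0) : ContDiffAt ℝ ∞ t1 p := by
  have h1 : ContDiffAt ℝ ∞ (fun P : E7 => 2 * nn P) p := contDiffAt_const.mul (nn_smooth _ p)
  have h2 : ContDiffAt ℝ ∞ (fun P : E7 => (1 + P.2.1) ^ 2) p := by fun_prop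
  exact contDiffAt_const.sub (h2.div h1 (by simpa using h))

lemma t2_smooth {p : E7} (h : nn p ≠ 0) : ContDiffAt ℝ ∞ t2 p := by
  have h2 : ContDiffAt ℝ ∞ (fun P : E7 => sa * P.1.2.1 * (1 - P.2.1 ^ 2)) p := by fun_prop
  exact h2.div (nn_smooth _ p) h

lemma t3_smooth {p : E7} (h : nn p ≠ 0) : ContDiffAt ℝ ∞ t3 p := by
  have h1 : ContDiffAt ℝ ∞ (fun P : E7 => 2 * nn P) p := contDiffAt_const.mul (nn_smooth _ p)
  have h2 : ContDiffAt ℝ ∞ (fun P : E7 => (1 - P.2.1) ^ 2) p := by fun_prop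
  exact contDiffAt_const.sub (h2.div h1 (by simpa using h))

lemma t4_smooth {p : E7} (h : nn p ≠ 0) : ContDiffAt ℝ ∞ t4 p := by
  have h2 : ContDiffAt ℝ ∞ (fun P : E7 => sa * P.1.2.2 * (1 - P.2.1 ^ 2)) p := by fun_prop
  exact h2.div (nn_smooth _ p) h

lemma sm_smooth (n : ℕ∞) (x : ℝ) : ContDiffAt ℝ n sm x :=
  Real.smoothTransition.contDiffAt

lemma sm_comp {E : Type*} [NormedAddCommGroup E] [NormedSpace ℝ E] {f : E → ℝ} {x : E}
    (hf : ContDiffAt ℝ ∞ f x) : ContDiffAt ℝ ∞ (fun y => sm (f y)) x :=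
  (sm_smooth ⊤ (f x)).comp x hf

lemma mu_comp {E : Type*} [NormedAddCommGroup E] [NormedSpace ℝ E] {f : E → ℝ} {x : E}
    (hf : ContDiffAt ℝ ∞ f x) : ContDiffAt ℝ ∞ (fun y => mu (f y)) x := by
  unfold mu
  exact sm_comp ((contDiffAt_const.mul hf).sub contDiffAt_const)

lemma fU_smooth (p : E7) : ContDiffAt ℝ ∞ fU p := by
  unfold fU cU; fun_prop

lemma fW_smooth (p : E7) : ContDiffAt ℝ ∞ fW p := by
  unfold fW cW; fun_prop

lemma Th_smooth (p : E7) : ContDiffAt ℝ ∞ Th p := by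
  unfold Th; fun_prop

lemma psi1_smooth {p : E7} (hp : p ∈ M7) : ContDiffAt ℝ ∞ psi1 p := by
  have hn := nn_pos hp
  have ht := t1_smooth hn.ne'
  have hs : ContDiffAt ℝ ∞ (fun P => sm (4 * t1 P - 2)) p :=
    sm_comp ((contDiffAt_const.mul ht).sub contDiffAt_const)
  have h2 : ContDiffAt ℝ ∞ (fun P => sm (4 * t1 P - 2) / √(2 * nn P)) p := by
    refine hs.div ((contDiffAt_const.mul (nn_smooth _ p)).sqrt (by positivity)) ?_
    have : 0 < √(2 * nn p) := by positivity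
    exact this.ne'
  have h1 : ContDiffAt ℝ ∞ (fun P : E7 => (1 - sm (4 * t1 P - 2)) / (1 + P.2.1)) p := by
    by_cases h0 : 1 + p.2.1 = 0
    · have h3 : t1 p = 1 := by simp [t1, h0]
      have h4 : ∀ᶠ P in 𝓝 p, 1 < 4 * t1 P - 2 := by
        have : ContinuousAt (fun P => 4 * t1 P - 2) p :=
          ((contDiffAt_const.mul ht).sub contDiffAt_const : ContDiffAt ℝ ∞ _ p).continuousAt
        exact this.eventually (lt_mem_nhds (by simp only [h3]; norm_num))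
      have h5 : (fun P : E7 => (1 - sm (4 * t1 P - 2)) / (1 + P.2.1)) =ᶠ[𝓝 p] fun _ => 0 := by
        filter_upwards [h4] with P hP
        rw [show sm (4 * t1 P - 2) = 1 from Real.smoothTransition.one_of_one_le hP.le]
        simp
      exact contDiffAt_const.congr_of_eventuallyEq h5
    · exact (contDiffAt_const.sub hs).div (by fun_prop) h0
  exact h1.add h2

theorem u1_smooth : ∀ p ∈ M7, ContDiffAt ℝ ∞ u1 p := by
  intro p hp
  have hn := nn_pos hp
  have h1 : ContDiffAt ℝ ∞ (fun P => mu (t3 P ^ 2 + t4 P ^ 2)) p :=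
    mu_comp (((t3_smooth hn.ne').pow 2).add ((t4_smooth hn.ne').pow 2))
  exact ((psi1_smooth hp).smul (fU_smooth p)).sub (h1.smul (Th_smooth p))

lemma nn_sg (p : E7) : nn (sg p) = nn p := by simp only [nn, sg]; ring
lemma t1_sg (p : E7) : t1 (sg p) = t3 p := by
  simp only [t1, t3, nn_sg]; simp only [sg, ← sub_eq_add_neg]
lemma t2_sg (p : E7) : t2 (sg p) = t4 p := by
  simp only [t2, t4, nn_sg]; simp only [sg, neg_sq]
lemma t3_sg (p : E7) : t3 (sg p) = t1 p := by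
  simp only [t1, t3, nn_sg]; simp only [sg, sub_neg_eq_add]
lemma t4_sg (p : E7) : t4 (sg p) = t2 p := by
  simp only [t2, t4, nn_sg]; simp only [sg, neg_sq]
lemma psi1_sg (p : E7) : psi1 (sg p) = psi3 p := by
  simp only [psi1, psi3, nn_sg, t1_sg]; simp only [sg, ← sub_eq_add_neg]
lemma psi3_sg (p : E7) : psi3 (sg p) = psi1 p := by
  rw [← psi1_sg, sg_sg]

/-- the symmetry exchanges `u` and `v` (identity of functions). -/
theorem v1_eq (p : E7) : v1 p = sg (u1 (sg p)) := by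
  have h : u1 (sg p) = psi3 p • fU (sg p) - mu (t1 p ^ 2 + t2 p ^ 2) • Th (sg p) := by
    simp only [u1, psi1_sg, t3_sg, t4_sg]
  rw [h]
  simp only [v1, sg, fU, fW, Th, cU, cW, Prod.smul_mk, Prod.mk_sub_mk, smul_eq_mul,
    Prod.mk.injEq]
  refine ⟨⟨?_, ?_, ?_⟩, ?_, ?_, ?_, ?_⟩ <;> ring

theorem v1_smooth : ∀ p ∈ M7, ContDiffAt ℝ ∞ v1 p := by
  intro p hp
  have h : v1 = fun p => sg (u1 (sg p)) := funext v1_eq
  rw [h]
  have h1 : ContDiffAt ℝ ∞ (fun p => u1 (sg p)) p := (u1_smooth _ (sg_mem hp)).comp p (sg_smooth _ p)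
  exact (sg_smooth _ _).comp p h1

theorem u1_tan : ∀ p ∈ M7, Tan p (u1 p) := by
  intro p hp
  have h1 := hp.1
  have h2 := hp.2
  unfold dot3 at h1
  unfold dot4 at h2
  refine ⟨?_, ?_⟩
  · simp only [u1, fU, Th, cU, dot3, Prod.smul_mk, Prod.mk_sub_mk, smul_eq_mul]
    linear_combination (-psi1 p * (sa * (1 - p.2.1) * p.1.2.1)) * h1
  · simp only [u1, fU, Th, cU, dot4, Prod.smul_mk, Prod.mk_sub_mk, smul_eq_mul]
    linear_combination (-psi1 p * (sa / 2 * (1 - p.2.1) * p.1.2.1) * p.2.1) * h2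

theorem v1_tan : ∀ p ∈ M7, Tan p (v1 p) := by
  intro p hp
  have h := u1_tan _ (sg_mem hp)
  rw [v1_eq]
  have h1 := h.1
  have h2 := h.2
  refine ⟨?_, ?_⟩
  · simp only [sg, dot3] at h1 ⊢
    linarith
  · simp only [sg, dot4] at h2 ⊢
    linarith

end S7Pair
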