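import Pool.Agent.S7Pair.J1a
import Pool.Agent.S7Pair.FD

/-! # Module J1b: the bracket of `fU` and `fW` -/

open scoped ContDiff Topology
open VectorField Set Filter

noncomputable section

namespace S7Pair

lemma df_fU (p : E7) : DifferentiableAt ℝ fU p := by
  unfold fU cU; fun_prop

lemma df_fW (p : E7) : DifferentiableAt ℝ fW p := by
  unfold fW cW; fun_prop

lemma df_Th (p : E7) : DifferentiableAt ℝ Th p := by
  unfold Th; fun_prop

/-- polynomial identity: `[U,W] = -λ_U W + λ_W U` on `M7`, `λ_U = cU (1+τ)`, `λ_W = -cW (1-τ)`. -/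
theorem bracket_UW {p : E7} (hp : p ∈ M7) :
    lieBracket ℝ fU fW p = -(cU p * (1 + p.2.1)) • fW p + (-(cW p * (1 - p.2.1))) • fU p := by
  have hs := sa_sq
  have h1 : p.1.1 ^ 2 + p.1.2.1 ^ 2 + p.1.2.2 ^ 2 = 1 := by
    have := hp.1; unfold dot3 at this; linarith
  simp only [lieBracket]
  rw [fd_E7 (df_fU p), fd_E7 (df_fW p)]
  simp only [fU, cU, fW, cW]
  simp (disch := fun_prop) only [fd_mul, fd_add, fd_sub, fd_sq, fd_neg, fd_const, fd_b1, fd_b2,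
    fd_b3, fd_ta, fd_y1, fd_y2, fd_y3]
  simp only [Prod.smul_mk, Prod.mk_add_mk, Prod.mk_sub_mk, smul_eq_mul, Prod.mk.injEq]
  generalize sa = s at *
  obtain ⟨⟨a, b, c⟩, ⟨t, y, z, w⟩⟩ := p
  simp only at *
  refine ⟨⟨?_, ?_, ?_⟩, ?_, ?_, ?_, ?_⟩
  all_goals grind

lemma bracket_UTh (p : E7) : lieBracket ℝ fU Th p = 0 := by
  simp only [lieBracket]
  rw [fd_E7 (df_fU p), fd_E7 (df_Th p)]
  simp only [fU, cU, Th]
  simp (disch := fun_prop) only [fd_mul, fd_add, fd_sub, fd_sq, fd_neg, fd_const, fd_b1, fd_b2,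
    fd_b3, fd_ta, fd_y1, fd_y2, fd_y3]
  simp only [Prod.mk_sub_mk, Prod.mk_eq_zero]
  refine ⟨⟨?_, ?_, ?_⟩, ?_, ?_, ?_, ?_⟩
  all_goals ring

lemma bracket_WTh (p : E7) : lieBracket ℝ fW Th p = 0 := by
  simp only [lieBracket]
  rw [fd_E7 (df_fW p), fd_E7 (df_Th p)]
  simp only [fW, cW, Th]
  simp (disch := fun_prop) only [fd_mul, fd_add, fd_sub, fd_sq, fd_neg, fd_const, fd_b1, fd_b2,
    fd_b3, fd_ta, fd_y1, fd_y2, fd_y3]
  simp only [Prod.mk_sub_mk, Prod.mk_eq_zero]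
  refine ⟨⟨?_, ?_, ?_⟩, ?_, ?_, ?_, ?_⟩
  all_goals ring

end S7Pair
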