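import Pool.Agent.S7Pair.J1a

/-! # Module TABU: derivatives of the basic functions along `fU` -/

open scoped ContDiff Topology
open VectorField Set Filter

noncomputable section

namespace S7Pair

/-- `f` is differentiable at `p` and its derivative along `v` is `d`. -/
structure TABU_HD (f : E7 → ℝ) (p v : E7) (d : ℝ) : Prop where
  di : DifferentiableAt ℝ f p
  eq : fderiv ℝ f p v = d

section rules

variable {f g : E7 → ℝ} {p v : E7} {d e : ℝ}

lemma TABU_HD.of {L : E7 →L[ℝ] ℝ} (h : HasFDerivAt f L p) : TABU_HD f p v (L v) :=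
  ⟨h.differentiableAt, by rw [h.fderiv]⟩

lemma TABU_HD.const (c : ℝ) : TABU_HD (fun _ => c) p v 0 :=
  ⟨differentiableAt_const c, by simp⟩

lemma TABU_HD.add (hf : TABU_HD f p v d) (hg : TABU_HD g p v e) :
    TABU_HD (fun P => f P + g P) p v (d + e) :=
  ⟨hf.di.add hg.di, by
    have := (hf.di.hasFDerivAt.add hg.di.hasFDerivAt).fderiv
    rw [show (fun P => f P + g P) = f + g from rfl, this]
    simp [hf.eq, hg.eq]⟩

lemma TABU_HD.sub (hf : TABU_HD f p v d) (hg : TABU_HD g p v e) :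
    TABU_HD (fun P => f P - g P) p v (d - e) :=
  ⟨hf.di.sub hg.di, by
    have := (hf.di.hasFDerivAt.sub hg.di.hasFDerivAt).fderiv
    rw [show (fun P => f P - g P) = f - g from rfl, this]
    simp [hf.eq, hg.eq]⟩

lemma TABU_HD.mul (hf : TABU_HD f p v d) (hg : TABU_HD g p v e) :
    TABU_HD (fun P => f P * g P) p v (f p * e + g p * d) :=
  ⟨hf.di.mul hg.di, by
    have := (hf.di.hasFDerivAt.mul hg.di.hasFDerivAt).fderiv
    rw [show (fun P => f P * g P) = f * g from rfl, this]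
    simp [hf.eq, hg.eq]⟩

lemma TABU_HD.inv (hf : TABU_HD f p v d) (h0 : f p ≠ 0) :
    TABU_HD (fun P => (f P)⁻¹) p v (-d / f p ^ 2) := by
  have h1 : HasFDerivAt (fun P => (f P)⁻¹) ((-(f p ^ 2)⁻¹) • fderiv ℝ f p) p :=
    (hasDerivAt_inv h0).comp_hasFDerivAt p hf.di.hasFDerivAt
  refine ⟨h1.differentiableAt, ?_⟩
  rw [h1.fderiv]
  simp [hf.eq]
  ring

lemma TABU_HD.div (hf : TABU_HD f p v d) (hg : TABU_HD g p v e) (h0 : g p ≠ 0) :
    TABU_HD (fun P => f P / g P) p v ((d * g p - f p * e) / g p ^ 2) := by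
  have h1 := hf.mul (hg.inv h0)
  have h2 : (fun P => f P * (g P)⁻¹) = fun P => f P / g P := by
    ext P; rw [div_eq_mul_inv]
  rw [h2] at h1
  refine ⟨h1.di, h1.eq.trans ?_⟩
  field_simp
  ring

lemma TABU_HD.sqrt (hf : TABU_HD f p v d) (h0 : 0 < f p) :
    TABU_HD (fun P => √(f P)) p v (d / (2 * √(f p))) := by
  have h1 : HasFDerivAt (fun P => √(f P)) ((1 / (2 * √(f p))) • fderiv ℝ f p) p :=
    (Real.hasDerivAt_sqrt h0.ne').comp_hasFDerivAt p hf.di.hasFDerivAt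
  refine ⟨h1.differentiableAt, ?_⟩
  rw [h1.fderiv]
  simp [hf.eq]
  ring

lemma TABU_HD.cast {d' : ℝ} (hf : TABU_HD f p v d) (h : d = d') : TABU_HD f p v d' := h ▸ hf

end rules

section coords

variable {p v : E7}

lemma TABU_b1 : TABU_HD (fun P : E7 => P.1.1) p v v.1.1 := by
  have h : HasFDerivAt (fun P : E7 => P.1.1)
      ((ContinuousLinearMap.fst ℝ ℝ (ℝ × ℝ)).comp (ContinuousLinearMap.fst ℝ R3 R4)) p :=
    ((ContinuousLinearMap.fst ℝ ℝ (ℝ × ℝ)).comp (ContinuousLinearMap.fst ℝ R3 R4)).hasFDerivAt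
  exact TABU_HD.of h

lemma TABU_b2 : TABU_HD (fun P : E7 => P.1.2.1) p v v.1.2.1 := by
  have h : HasFDerivAt (fun P : E7 => P.1.2.1)
      (((ContinuousLinearMap.fst ℝ ℝ ℝ).comp (ContinuousLinearMap.snd ℝ ℝ (ℝ × ℝ))).comp
        (ContinuousLinearMap.fst ℝ R3 R4)) p :=
    (((ContinuousLinearMap.fst ℝ ℝ ℝ).comp (ContinuousLinearMap.snd ℝ ℝ (ℝ × ℝ))).comp
        (ContinuousLinearMap.fst ℝ R3 R4)).hasFDerivAt
  exact TABU_HD.of h

lemma TABU_b3 : TABU_HD (fun P : E7 => P.1.2.2) p v v.1.2.2 := by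
  have h : HasFDerivAt (fun P : E7 => P.1.2.2)
      (((ContinuousLinearMap.snd ℝ ℝ ℝ).comp (ContinuousLinearMap.snd ℝ ℝ (ℝ × ℝ))).comp
        (ContinuousLinearMap.fst ℝ R3 R4)) p :=
    (((ContinuousLinearMap.snd ℝ ℝ ℝ).comp (ContinuousLinearMap.snd ℝ ℝ (ℝ × ℝ))).comp
        (ContinuousLinearMap.fst ℝ R3 R4)).hasFDerivAt
  exact TABU_HD.of h

lemma TABU_t : TABU_HD (fun P : E7 => P.2.1) p v v.2.1 := by
  have h : HasFDerivAt (fun P : E7 => P.2.1)
      ((ContinuousLinearMap.fst ℝ ℝ (ℝ × ℝ × ℝ)).comp (ContinuousLinearMap.snd ℝ R3 R4)) p :=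
    ((ContinuousLinearMap.fst ℝ ℝ (ℝ × ℝ × ℝ)).comp
      (ContinuousLinearMap.snd ℝ R3 R4)).hasFDerivAt
  exact TABU_HD.of h

/-- `nn`, arbitrary direction. -/
lemma TABU_nn : TABU_HD nn p v (2 * p.2.1 * v.2.1 + sa * (-(2 * p.2.1 * v.2.1)) * p.1.1 +
    sa * (1 - p.2.1 ^ 2) * v.1.1) := by
  have ht := TABU_t (p := p) (v := v)
  have hb := TABU_b1 (p := p) (v := v)
  have h1 := ((TABU_HD.const 1).add (ht.mul ht)).add
    (((TABU_HD.const sa).mul ((TABU_HD.const 1).sub (ht.mul ht))).mul hb)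
  have h2 : (fun P : E7 => 1 + P.2.1 * P.2.1 + sa * (1 - P.2.1 * P.2.1) * P.1.1) = nn := by
    ext P
    unfold nn
    ring
  rw [h2] at h1
  exact h1.cast (by ring)

end coords

lemma TABU_sqrt2 : √2 = 2 * sa := by unfold sa; ring

lemma dU_tau (p : E7) : fderiv ℝ (fun P : E7 => P.2.1) p (fU p) = cU p * (1 - p.2.1 ^ 2) :=
  TABU_t.eq

lemma TABU_dnn (p : E7) : TABU_HD nn p (fU p) (-2 * cU p * (1 + p.2.1) * nn p) := by
  refine (TABU_nn (p := p) (v := fU p)).cast ?_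
  unfold nn fU cU
  dsimp only
  ring

lemma dU_nn {p : E7} (hp : p ∈ M7) :
    fderiv ℝ nn p (fU p) = -2 * cU p * (1 + p.2.1) * nn p := (TABU_dnn p).eq

/-- the square root of `2 nn` -/
lemma TABU_S {p : E7} (hp : p ∈ M7) :
    TABU_HD (fun P => √(2 * nn P)) p (fU p) (-(cU p * (1 + p.2.1)) * √(2 * nn p)) := by
  have hn := nn_pos hp
  have h1 := (((TABU_HD.const 2).mul (TABU_dnn p)).sqrt (by positivity))
  refine h1.cast ?_
  have hs : √(2 * nn p) ^ 2 = 2 * nn p := Real.sq_sqrt (by positivity)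
  have hs0 : √(2 * nn p) ≠ 0 := (Real.sqrt_pos.mpr (by positivity)).ne'
  rw [div_eq_iff (by positivity)]
  linear_combination (2 * cU p * (1 + p.2.1)) * hs

lemma dU_w1 {p : E7} (hp : p ∈ M7) : fderiv ℝ w1 p (fU p) = -((1 + p.2.1) * w2 p) := by
  have hn := nn_pos hp
  have hs0 : √(2 * nn p) ≠ 0 := (Real.sqrt_pos.mpr (by positivity)).ne'
  have ht := TABU_t (p := p) (v := fU p)
  have hb := TABU_b1 (p := p) (v := fU p)
  have h1 := (((TABU_HD.const 1).sub ht).add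
    (((TABU_HD.const (√2)).mul ((TABU_HD.const 1).add ht)).mul hb)).div (TABU_S hp) hs0
  refine h1.eq.trans ?_
  unfold w2 fU cU
  rw [TABU_sqrt2]
  dsimp only
  field_simp
  ring

lemma dU_w2 {p : E7} (hp : p ∈ M7) : fderiv ℝ w2 p (fU p) = (1 + p.2.1) * w1 p := by
  have hn := nn_pos hp
  have hs0 : √(2 * nn p) ≠ 0 := (Real.sqrt_pos.mpr (by positivity)).ne'
  have ht := TABU_t (p := p) (v := fU p)
  have hb := TABU_b2 (p := p) (v := fU p)
  have h1 := (((TABU_HD.const (√2)).mul ((TABU_HD.const 1).add ht)).mul hb).div (TABU_S hp) hs0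
  refine h1.eq.trans ?_
  unfold w1 fU cU
  rw [TABU_sqrt2]
  dsimp only
  field_simp
  linear_combination (2 * (1 + p.2.1) * (1 - p.2.1)) * sa_sq

lemma dU_mm {p : E7} (hp : p ∈ M7) : fderiv ℝ mm p (fU p) = 0 := by
  have hn := nn_pos hp
  have hs0 : √(2 * nn p) ≠ 0 := (Real.sqrt_pos.mpr (by positivity)).ne'
  have ht := TABU_t (p := p) (v := fU p)
  have hb := TABU_b3 (p := p) (v := fU p)
  have h1 := (((TABU_HD.const (√2)).mul ((TABU_HD.const 1).add ht)).mul hb).div (TABU_S hp) hs0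
  refine h1.eq.trans ?_
  unfold fU cU
  dsimp only
  field_simp
  ring

lemma dU_qq {p : E7} (hp : p ∈ M7) : fderiv ℝ qq p (fU p) = 0 := by
  have hn := nn_pos hp
  have hs0 : √(2 * nn p) ≠ 0 := (Real.sqrt_pos.mpr (by positivity)).ne'
  have ht := TABU_t (p := p) (v := fU p)
  have h1 := ((TABU_HD.const 1).sub ht).div (TABU_S hp) hs0
  refine h1.eq.trans ?_
  unfold fU cU
  dsimp only
  field_simp
  ring

lemma dU_t1 {p : E7} (hp : p ∈ M7) : fderiv ℝ t1 p (fU p) = -((1 + p.2.1) * t2 p) := by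
  have hn := nn_pos hp
  have ht := TABU_t (p := p) (v := fU p)
  have h0 := (TABU_HD.const 1).add ht
  have h1 := (TABU_HD.const 1).sub ((h0.mul h0).div ((TABU_HD.const 2).mul (TABU_dnn p))
    (by positivity))
  have h2 : (fun P : E7 => 1 - (1 + P.2.1) * (1 + P.2.1) / (2 * nn P)) = t1 := by
    ext P
    unfold t1
    ring
  rw [h2] at h1
  refine h1.eq.trans ?_
  unfold t2 fU cU
  dsimp only
  field_simp
  ring

lemma dU_t2 {p : E7} (hp : p ∈ M7) : fderiv ℝ t2 p (fU p) = (1 + p.2.1) * t1 p := by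
  have hn := nn_pos hp
  have ht := TABU_t (p := p) (v := fU p)
  have hb := TABU_b2 (p := p) (v := fU p)
  have h1 := (((TABU_HD.const sa).mul hb).mul ((TABU_HD.const 1).sub (ht.mul ht))).div
    (TABU_dnn p) hn.ne'
  have h2 : (fun P : E7 => sa * P.1.2.1 * (1 - P.2.1 * P.2.1) / nn P) = t2 := by
    ext P
    unfold t2
    ring
  rw [h2] at h1
  refine h1.eq.trans ?_
  unfold t1 fU cU
  have hnn : nn p = 1 + p.2.1 ^ 2 + sa * (1 - p.2.1 ^ 2) * p.1.1 := rfl
  dsimp only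
  field_simp
  rw [hnn]
  linear_combination (2 * (1 - p.2.1 ^ 2) * (1 - p.2.1)) * sa_sq

lemma dU_t3 {p : E7} (hp : p ∈ M7) : fderiv ℝ t3 p (fU p) = 0 := by
  have hn := nn_pos hp
  have ht := TABU_t (p := p) (v := fU p)
  have h0 := (TABU_HD.const 1).sub ht
  have h1 := (TABU_HD.const 1).sub ((h0.mul h0).div ((TABU_HD.const 2).mul (TABU_dnn p))
    (by positivity))
  have h2 : (fun P : E7 => 1 - (1 - P.2.1) * (1 - P.2.1) / (2 * nn P)) = t3 := by
    ext P
    unfold t3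
    ring
  rw [h2] at h1
  refine h1.eq.trans ?_
  unfold fU cU
  dsimp only
  field_simp
  ring

lemma dU_t4 {p : E7} (hp : p ∈ M7) : fderiv ℝ t4 p (fU p) = 0 := by
  have hn := nn_pos hp
  have ht := TABU_t (p := p) (v := fU p)
  have hb := TABU_b3 (p := p) (v := fU p)
  have h1 := (((TABU_HD.const sa).mul hb).mul ((TABU_HD.const 1).sub (ht.mul ht))).div
    (TABU_dnn p) hn.ne'
  have h2 : (fun P : E7 => sa * P.1.2.2 * (1 - P.2.1 * P.2.1) / nn P) = t4 := by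
    ext P
    unfold t4
    ring
  rw [h2] at h1
  refine h1.eq.trans ?_
  unfold fU cU
  dsimp only
  field_simp
  ring

end S7Pair
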