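import Pool.Agent.S7Pair.J1a
import Pool.Agent.S7Pair.TabU

/-! # Module TABW: derivatives of the basic functions along `fW` -/

open scoped ContDiff Topology
open VectorField Set Filter

noncomputable section

namespace S7Pair

lemma dW_tau (p : E7) : fderiv ℝ (fun P : E7 => P.2.1) p (fW p) = cW p * (1 - p.2.1 ^ 2) :=
  TABU_t.eq

lemma TABW_dnn (p : E7) : TABU_HD nn p (fW p) (2 * cW p * (1 - p.2.1) * nn p) := by
  refine (TABU_nn (p := p) (v := fW p)).cast ?_
  unfold nn fW cW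
  dsimp only
  ring

lemma dW_nn {p : E7} (hp : p ∈ M7) :
    fderiv ℝ nn p (fW p) = 2 * cW p * (1 - p.2.1) * nn p := (TABW_dnn p).eq

/-- the square root of `2 nn` -/
lemma TABW_S {p : E7} (hp : p ∈ M7) :
    TABU_HD (fun P => √(2 * nn P)) p (fW p) (cW p * (1 - p.2.1) * √(2 * nn p)) := by
  have hn := nn_pos hp
  have h1 := (((TABU_HD.const 2).mul (TABW_dnn p)).sqrt (by positivity))
  refine h1.cast ?_
  have hs : √(2 * nn p) ^ 2 = 2 * nn p := Real.sq_sqrt (by positivity)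
  have hs0 : √(2 * nn p) ≠ 0 := (Real.sqrt_pos.mpr (by positivity)).ne'
  rw [div_eq_iff (by positivity)]
  linear_combination (-2 * cW p * (1 - p.2.1)) * hs

lemma dW_w1 {p : E7} (hp : p ∈ M7) :
    fderiv ℝ w1 p (fW p) = -(1 / 2 * √(2 * nn p) * mm p * w1 p) := by
  have hn := nn_pos hp
  have hs0 : √(2 * nn p) ≠ 0 := (Real.sqrt_pos.mpr (by positivity)).ne'
  have ht := TABU_t (p := p) (v := fW p)
  have hb := TABU_b1 (p := p) (v := fW p)
  have h1 := (((TABU_HD.const 1).sub ht).add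
    (((TABU_HD.const (√2)).mul ((TABU_HD.const 1).add ht)).mul hb)).div (TABW_S hp) hs0
  refine h1.eq.trans ?_
  unfold w1 mm fW cW
  rw [TABU_sqrt2]
  dsimp only
  field_simp
  ring

lemma dW_w2 {p : E7} (hp : p ∈ M7) :
    fderiv ℝ w2 p (fW p) = -(1 / 2 * √(2 * nn p) * mm p * w2 p) := by
  have hn := nn_pos hp
  have hs0 : √(2 * nn p) ≠ 0 := (Real.sqrt_pos.mpr (by positivity)).ne'
  have ht := TABU_t (p := p) (v := fW p)
  have hb := TABU_b2 (p := p) (v := fW p)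
  have h1 := (((TABU_HD.const (√2)).mul ((TABU_HD.const 1).add ht)).mul hb).div (TABW_S hp) hs0
  refine h1.eq.trans ?_
  unfold w2 mm fW cW
  rw [TABU_sqrt2]
  dsimp only
  field_simp
  ring

lemma dW_mm {p : E7} (hp : p ∈ M7) :
    fderiv ℝ mm p (fW p) = √(2 * nn p) * (1 - qq p ^ 2 - 1 / 2 * mm p ^ 2) := by
  have hn := nn_pos hp
  have hs : √(2 * nn p) ^ 2 = 2 * nn p := Real.sq_sqrt (by positivity)
  have hs0 : √(2 * nn p) ≠ 0 := (Real.sqrt_pos.mpr (by positivity)).ne'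
  have ht := TABU_t (p := p) (v := fW p)
  have hb := TABU_b3 (p := p) (v := fW p)
  have h1 := (((TABU_HD.const (√2)).mul ((TABU_HD.const 1).add ht)).mul hb).div (TABW_S hp) hs0
  refine h1.eq.trans ?_
  unfold mm qq fW cW
  rw [TABU_sqrt2]
  have hnn : nn p = 1 + p.2.1 ^ 2 + sa * (1 - p.2.1 ^ 2) * p.1.1 := rfl
  dsimp only
  field_simp
  rw [hs, hnn]
  linear_combination (2 * (1 + p.2.1) ^ 2) * sa_sq

lemma dW_qq {p : E7} (hp : p ∈ M7) :
    fderiv ℝ qq p (fW p) = 1 / 2 * √(2 * nn p) * mm p * qq p := by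
  have hn := nn_pos hp
  have hs0 : √(2 * nn p) ≠ 0 := (Real.sqrt_pos.mpr (by positivity)).ne'
  have ht := TABU_t (p := p) (v := fW p)
  have h1 := ((TABU_HD.const 1).sub ht).div (TABW_S hp) hs0
  refine h1.eq.trans ?_
  unfold qq mm fW cW
  rw [TABU_sqrt2]
  dsimp only
  field_simp
  ring

lemma dW_t1 {p : E7} (hp : p ∈ M7) : fderiv ℝ t1 p (fW p) = 0 := by
  have hn := nn_pos hp
  have ht := TABU_t (p := p) (v := fW p)
  have h0 := (TABU_HD.const 1).add ht
  have h1 := (TABU_HD.const 1).sub ((h0.mul h0).div ((TABU_HD.const 2).mul (TABW_dnn p))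
    (by positivity))
  have h2 : (fun P : E7 => 1 - (1 + P.2.1) * (1 + P.2.1) / (2 * nn P)) = t1 := by
    ext P
    unfold t1
    ring
  rw [h2] at h1
  refine h1.eq.trans ?_
  unfold fW cW
  dsimp only
  field_simp
  ring

lemma dW_t2 {p : E7} (hp : p ∈ M7) : fderiv ℝ t2 p (fW p) = 0 := by
  have hn := nn_pos hp
  have ht := TABU_t (p := p) (v := fW p)
  have hb := TABU_b2 (p := p) (v := fW p)
  have h1 := (((TABU_HD.const sa).mul hb).mul ((TABU_HD.const 1).sub (ht.mul ht))).div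
    (TABW_dnn p) hn.ne'
  have h2 : (fun P : E7 => sa * P.1.2.1 * (1 - P.2.1 * P.2.1) / nn P) = t2 := by
    ext P
    unfold t2
    ring
  rw [h2] at h1
  refine h1.eq.trans ?_
  unfold fW cW
  dsimp only
  field_simp
  ring

lemma dW_t3 {p : E7} (hp : p ∈ M7) : fderiv ℝ t3 p (fW p) = -((1 - p.2.1) * t4 p) := by
  have hn := nn_pos hp
  have ht := TABU_t (p := p) (v := fW p)
  have h0 := (TABU_HD.const 1).sub ht
  have h1 := (TABU_HD.const 1).sub ((h0.mul h0).div ((TABU_HD.const 2).mul (TABW_dnn p))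
    (by positivity))
  have h2 : (fun P : E7 => 1 - (1 - P.2.1) * (1 - P.2.1) / (2 * nn P)) = t3 := by
    ext P
    unfold t3
    ring
  rw [h2] at h1
  refine h1.eq.trans ?_
  unfold t4 fW cW
  dsimp only
  field_simp
  ring

lemma dW_t4 {p : E7} (hp : p ∈ M7) : fderiv ℝ t4 p (fW p) = (1 - p.2.1) * t3 p := by
  have hn := nn_pos hp
  have ht := TABU_t (p := p) (v := fW p)
  have hb := TABU_b3 (p := p) (v := fW p)
  have h1 := (((TABU_HD.const sa).mul hb).mul ((TABU_HD.const 1).sub (ht.mul ht))).div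
    (TABW_dnn p) hn.ne'
  have h2 : (fun P : E7 => sa * P.1.2.2 * (1 - P.2.1 * P.2.1) / nn P) = t4 := by
    ext P
    unfold t4
    ring
  rw [h2] at h1
  refine h1.eq.trans ?_
  unfold t3 fW cW
  have hnn : nn p = 1 + p.2.1 ^ 2 + sa * (1 - p.2.1 ^ 2) * p.1.1 := rfl
  dsimp only
  field_simp
  rw [hnn]
  linear_combination (2 * (1 - p.2.1 ^ 2) * (1 + p.2.1)) * sa_sq

end S7Pair
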