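import Pool.Agent.S7Pair.TabU
import Pool.Agent.S7Pair.TabW
import Pool.Agent.S7Pair.J1b
import Pool.Agent.S7Pair.Alg

/-! # Module J1c: the exotic pair commutes (from the tables) -/

open scoped ContDiff Topology
open VectorField Set Filter

noncomputable section

namespace S7Pair

lemma J1c_inv {F : E7 → ℝ} {p v : E7} (hF : DifferentiableAt ℝ F p)
    (h : ∀ t : ℝ, F (p + t • v) = F p) : fderiv ℝ F p v = 0 := by
  have h1 : HasDerivAt (fun t : ℝ => F (p + t • v)) (fderiv ℝ F p v) 0 :=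
    hF.hasFDerivAt.hasLineDerivAt v
  have h2 : (fun t : ℝ => F (p + t • v)) = fun _ => F p := funext h
  rw [h2] at h1
  exact h1.unique (hasDerivAt_const 0 (F p))

lemma J1c_div {f g : E7 → ℝ} {p : E7} (hf : DifferentiableAt ℝ f p) (hg : DifferentiableAt ℝ g p)
    (h0 : g p ≠ 0) : DifferentiableAt ℝ (fun P => f P / g P) p := by
  have h : (fun P => f P / g P) = fun P => f P * (g P)⁻¹ := by ext; rw [div_eq_mul_inv]
  rw [h]
  exact hf.mul (hg.inv h0)

lemma J1c_psi3_smooth {p : E7} (hp : p ∈ M7) : ContDiffAt ℝ ∞ psi3 p := by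
  have h : psi3 = fun p => psi1 (sg p) := funext fun p => (psi1_sg p).symm
  rw [h]
  exact (psi1_smooth (sg_mem hp)).comp p (sg_smooth _ p)

lemma J1c_sm_diff {f : E7 → ℝ} {p : E7} (hf : DifferentiableAt ℝ f p) :
    DifferentiableAt ℝ (fun P => sm (f P)) p :=
  ((sm_smooth ⊤ (f p)).differentiableAt (by simp)).comp p hf

/-- derivative of a cut-off of an invariant function is zero -/
lemma J1c_sm_zero {f : E7 → ℝ} {p v : E7} (hf : DifferentiableAt ℝ f p)
    (h : fderiv ℝ f p v = 0) (a b : ℝ) : fderiv ℝ (fun P => sm (a * f P - b)) p v = 0 := by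
  have h1 : DifferentiableAt ℝ (fun x : ℝ => sm (a * x - b)) (f p) := by
    have h2 : DifferentiableAt ℝ sm (a * f p - b) :=
      (sm_smooth ⊤ (a * f p - b)).differentiableAt (by simp)
    have h4 : DifferentiableAt ℝ (fun x : ℝ => a * x - b) (f p) := by fun_prop
    exact DifferentiableAt.comp (f p) h2 h4
  have h3 := fd_comp (v := v) (φ := fun x : ℝ => sm (a * x - b)) hf h1
  rw [h3, h, mul_zero]

/-- the common computation behind `dW_psi1` and `dU_psi3`. -/
lemma J1c_core {T D : E7 → ℝ} {p v : E7} (hp : p ∈ M7) (lam : ℝ)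
    (hT : ContDiffAt ℝ ∞ T p) (hD : ContDiffAt ℝ ∞ D p)
    (hn : fderiv ℝ nn p v = 2 * lam * nn p) (hT0 : fderiv ℝ T p v = 0)
    (hD0 : fderiv ℝ D p v = lam * D p) (hz : D p = 0 → T p = 1) :
    fderiv ℝ (fun P => (1 - sm (4 * T P - 2)) / D P + sm (4 * T P - 2) / √(2 * nn P)) p v =
      -lam * ((1 - sm (4 * T p - 2)) / D p + sm (4 * T p - 2) / √(2 * nn p)) := by
  have hnn := nn_pos hp
  have hs := s2n_pos hp
  have hs2 := s2n_sq hp
  have dT : DifferentiableAt ℝ T p := hT.differentiableAt (by simp)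
  have dD : DifferentiableAt ℝ D p := hD.differentiableAt (by simp)
  have dn : DifferentiableAt ℝ nn p := (nn_smooth ∞ p).differentiableAt (by simp)
  have d2n : DifferentiableAt ℝ (fun P => 2 * nn P) p := dn.const_mul 2
  have dsq : DifferentiableAt ℝ (fun P => √(2 * nn P)) p := d2n.sqrt (by positivity)
  have dsm : DifferentiableAt ℝ (fun P => sm (4 * T P - 2)) p :=
    J1c_sm_diff ((dT.const_mul 4).sub_const 2)
  have zsm : fderiv ℝ (fun P => sm (4 * T P - 2)) p v = 0 := J1c_sm_zero dT hT0 4 2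
  have e2n : fderiv ℝ (fun P => 2 * nn P) p v = 2 * (2 * lam * nn p) := by
    rw [fd_mul (f := fun _ => (2 : ℝ)) (differentiableAt_const _) dn, fd_const, hn]
    ring
  have esq : fderiv ℝ (fun P => √(2 * nn P)) p v = lam * √(2 * nn p) := by
    rw [fd_sqrt d2n (by positivity), e2n]
    rw [div_eq_iff (by positivity)]
    linear_combination (-2 * lam) * hs2
  have e2 : fderiv ℝ (fun P => sm (4 * T P - 2) / √(2 * nn P)) p v =
      -lam * (sm (4 * T p - 2) / √(2 * nn p)) := by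
    rw [fd_div dsm dsq hs.ne', zsm, esq]
    field_simp
    ring
  have d2 : DifferentiableAt ℝ (fun P => sm (4 * T P - 2) / √(2 * nn P)) p :=
    J1c_div dsm dsq hs.ne'
  by_cases h0 : D p = 0
  · have h3 : T p = 1 := hz h0
    have h4 : ∀ᶠ P in 𝓝 p, 1 < 4 * T P - 2 := by
      have : ContinuousAt (fun P => 4 * T P - 2) p :=
        ((contDiffAt_const.mul hT).sub contDiffAt_const : ContDiffAt ℝ ∞ _ p).continuousAt
      exact this.eventually (lt_mem_nhds (by simp only [h3]; norm_num))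
    have h5 : (fun P : E7 => (1 - sm (4 * T P - 2)) / D P + sm (4 * T P - 2) / √(2 * nn P))
        =ᶠ[𝓝 p] fun P => sm (4 * T P - 2) / √(2 * nn P) := by
      filter_upwards [h4] with P hP
      rw [show sm (4 * T P - 2) = 1 from Real.smoothTransition.one_of_one_le hP.le]
      simp
    rw [h5.fderiv_eq, e2, h0]
    simp
  · have d1 : DifferentiableAt ℝ (fun P => 1 - sm (4 * T P - 2)) p := dsm.const_sub 1
    have e1 : fderiv ℝ (fun P => (1 - sm (4 * T P - 2)) / D P) p v =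
        -lam * ((1 - sm (4 * T p - 2)) / D p) := by
      rw [fd_div d1 dD h0, fd_sub (f := fun _ => (1 : ℝ)) (differentiableAt_const _) dsm, zsm,
        fd_const, hD0]
      field_simp
      ring
    rw [fd_add (J1c_div d1 dD h0) d2, e1, e2]
    ring

lemma dW_psi1 {p : E7} (hp : p ∈ M7) :
    fderiv ℝ psi1 p (fW p) = -(cW p * (1 - p.2.1)) * psi1 p := by
  have hn := nn_pos hp
  have h := J1c_core (v := fW p) (T := t1) (D := fun P : E7 => 1 + P.2.1) hp (cW p * (1 - p.2.1))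
    (t1_smooth hn.ne') (by fun_prop) (by rw [dW_nn hp]; ring) (dW_t1 hp)
    (by
      rw [fd_add (f := fun _ => (1 : ℝ)) (differentiableAt_const _) (by fun_prop), fd_const,
        dW_tau]
      ring)
    (by intro h0; simp [t1, h0])
  exact h

lemma dU_psi3 {p : E7} (hp : p ∈ M7) :
    fderiv ℝ psi3 p (fU p) = cU p * (1 + p.2.1) * psi3 p := by
  have hn := nn_pos hp
  have h := J1c_core (v := fU p) (T := t3) (D := fun P : E7 => 1 - P.2.1) hp
    (-(cU p * (1 + p.2.1)))
    (t3_smooth hn.ne') (by fun_prop) (by rw [dU_nn hp]; ring) (dU_t3 hp)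
    (by
      rw [fd_sub (f := fun _ => (1 : ℝ)) (differentiableAt_const _) (by fun_prop), fd_const,
        dU_tau]
      ring)
    (by intro h0; simp [t3, h0])
  rw [neg_neg] at h
  exact h

theorem j1_comm : ∀ p ∈ M7, lieBracket ℝ u1 v1 p = 0 := by
  intro p hp
  have hn := nn_pos hp
  have s1' := t1_smooth hn.ne'
  have s2' := t2_smooth hn.ne'
  have s3' := t3_smooth hn.ne'
  have s4' := t4_smooth hn.ne'
  have p1 := psi1_smooth hp
  have p3 := J1c_psi3_smooth hp
  have dp1 : DifferentiableAt ℝ psi1 p := p1.differentiableAt (by simp)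
  have dp3 : DifferentiableAt ℝ psi3 p := p3.differentiableAt (by simp)
  have dU := df_fU p
  have dW := df_fW p
  -- the pair `X`, `Y`
  have hXY : CAt (fun P => psi1 P • fU P) (fun P => psi3 P • fW P) p := by
    refine ⟨p1.smul (fU_smooth p), p3.smul (fW_smooth p), ?_⟩
    have dY : DifferentiableAt ℝ (fun P => psi3 P • fW P) p := dp3.smul dW
    rw [lieBracket_smul_left (W := fun P => psi3 P • fW P) dp1 dU,
      lieBracket_smul_right dp3 dW, bracket_UW hp, dU_psi3 hp]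
    have e : fderiv ℝ psi1 p (psi3 p • fW p) = psi3 p * (-(cW p * (1 - p.2.1)) * psi1 p) := by
      rw [map_smul, dW_psi1 hp, smul_eq_mul]
    rw [e]
    module
  -- invariance under `Th`
  have it1 : fderiv ℝ psi1 p (Th p) = 0 := J1c_inv dp1 (fun t => by simp [psi1, t1, nn, Th])
  have it3 : fderiv ℝ psi3 p (Th p) = 0 := J1c_inv dp3 (fun t => by simp [psi3, t3, nn, Th])
  have hXT : CAt (fun P => psi1 P • fU P) Th p :=
    CAt.smul_left ⟨fU_smooth p, Th_smooth p, bracket_UTh p⟩ p1 it1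
  have hYT : CAt (fun P => psi3 P • fW P) Th p :=
    CAt.smul_left ⟨fW_smooth p, Th_smooth p, bracket_WTh p⟩ p3 it3
  have sA : ContDiffAt ℝ ∞ (fun P => -mu (t3 P ^ 2 + t4 P ^ 2)) p :=
    (mu_comp ((s3'.pow 2).add (s4'.pow 2))).neg
  have sB : ContDiffAt ℝ ∞ (fun P => -mu (t1 P ^ 2 + t2 P ^ 2)) p :=
    (mu_comp ((s1'.pow 2).add (s2'.pow 2))).neg
  have d1 : DifferentiableAt ℝ t1 p := s1'.differentiableAt (by simp)
  have d2 : DifferentiableAt ℝ t2 p := s2'.differentiableAt (by simp)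
  have d3 : DifferentiableAt ℝ t3 p := s3'.differentiableAt (by simp)
  have d4 : DifferentiableAt ℝ t4 p := s4'.differentiableAt (by simp)
  have kA : fderiv ℝ (fun P => t3 P ^ 2 + t4 P ^ 2) p (fW p) = 0 := by
    rw [fd_add (f := fun P => t3 P ^ 2) (g := fun P => t4 P ^ 2) (d3.pow 2) (d4.pow 2), fd_sq d3,
      fd_sq d4, dW_t3 hp, dW_t4 hp]
    ring
  have kB : fderiv ℝ (fun P => t1 P ^ 2 + t2 P ^ 2) p (fU p) = 0 := by
    rw [fd_add (f := fun P => t1 P ^ 2) (g := fun P => t2 P ^ 2) (d1.pow 2) (d2.pow 2), fd_sq d1,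
      fd_sq d2, dU_t1 hp, dU_t2 hp]
    ring
  have jA : fderiv ℝ (fun P => -mu (t3 P ^ 2 + t4 P ^ 2)) p (fW p) = 0 := by
    rw [fd_neg]
    have := J1c_sm_zero ((d3.pow 2).add (d4.pow 2)) kA 2 (1 / 2)
    unfold mu
    rw [neg_eq_zero]
    exact this
  have jB : fderiv ℝ (fun P => -mu (t1 P ^ 2 + t2 P ^ 2)) p (fU p) = 0 := by
    rw [fd_neg]
    have := J1c_sm_zero ((d1.pow 2).add (d2.pow 2)) kB 2 (1 / 2)
    unfold mu
    rw [neg_eq_zero]
    exact this
  have lA : fderiv ℝ (fun P => -mu (t3 P ^ 2 + t4 P ^ 2)) p (Th p) = 0 :=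
    J1c_inv (sA.differentiableAt (by simp)) (fun t => by simp [t3, t4, nn, Th])
  have lB : fderiv ℝ (fun P => -mu (t1 P ^ 2 + t2 P ^ 2)) p (Th p) = 0 :=
    J1c_inv (sB.differentiableAt (by simp)) (fun t => by simp [t1, t2, nn, Th])
  have hXT2 : CAt (fun P => psi1 P • fU P) (fun P => (-mu (t1 P ^ 2 + t2 P ^ 2)) • Th P) p :=
    hXT.smul sB (by rw [map_smul, jB, smul_zero])
  have hT1Y : CAt (fun P => (-mu (t3 P ^ 2 + t4 P ^ 2)) • Th P) (fun P => psi3 P • fW P) p :=
    hYT.symm.smul_left sA (by rw [map_smul, jA, smul_zero])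
  have hT1T2 : CAt (fun P => (-mu (t3 P ^ 2 + t4 P ^ 2)) • Th P)
      (fun P => (-mu (t1 P ^ 2 + t2 P ^ 2)) • Th P) p :=
    ((CAt.refl (Th_smooth p)).smul sB lB).smul_left sA (by rw [map_smul, lA, smul_zero])
  have key := (hXY.add hXT2).add_left (hT1Y.add hT1T2)
  have eu : u1 = fun P => psi1 P • fU P + (-mu (t3 P ^ 2 + t4 P ^ 2)) • Th P := by
    ext1 P
    rw [neg_smul, ← sub_eq_add_neg]
    rfl
  have ev : v1 = fun P => psi3 P • fW P + (-mu (t1 P ^ 2 + t2 P ^ 2)) • Th P := by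
    ext1 P
    rw [neg_smul, ← sub_eq_add_neg]
    rfl
  rw [eu, ev]
  exact key.comm

end S7Pair
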