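import Pool.Agent.S7Pair.Alg

/-! # Module J1d: independence of the exotic pair off the two bad circles -/

open scoped ContDiff Topology
open VectorField Set Filter

noncomputable section

namespace S7Pair

private lemma sm_nonneg' (x : ℝ) : 0 ≤ sm x := Real.smoothTransition.nonneg x
private lemma sm_le_one' (x : ℝ) : sm x ≤ 1 := Real.smoothTransition.le_one x

lemma psi1_pos {p : E7} (hp : p ∈ M7) : 0 < psi1 p := by
  have hn := nn_pos hp
  have hs : 0 < √(2 * nn p) := Real.sqrt_pos.2 (by linarith)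
  have h0 := sm_nonneg' (4 * t1 p - 2)
  have h1 := sm_le_one' (4 * t1 p - 2)
  unfold psi1
  rcases (tau_le hp).1.lt_or_eq with h | h
  · have hA : 0 < 1 + p.2.1 := by linarith
    rcases h0.lt_or_eq with h2 | h2
    · have e1 : 0 ≤ (1 - sm (4 * t1 p - 2)) / (1 + p.2.1) := div_nonneg (by linarith) hA.le
      have e2 : 0 < sm (4 * t1 p - 2) / √(2 * nn p) := div_pos h2 hs
      linarith
    · rw [← h2]
      have : 0 < (1 - (0 : ℝ)) / (1 + p.2.1) := by rw [sub_zero]; positivity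
      simpa using hA
  · have ht : t1 p = 1 := by
      unfold t1
      rw [← h]
      norm_num
    rw [ht]
    have : sm (4 * 1 - 2) = 1 := Real.smoothTransition.one_of_one_le (by norm_num)
    rw [this]
    simpa using hs

lemma psi3_pos {p : E7} (hp : p ∈ M7) : 0 < psi3 p := by
  have hn := nn_pos hp
  have hs : 0 < √(2 * nn p) := Real.sqrt_pos.2 (by linarith)
  have h0 := sm_nonneg' (4 * t3 p - 2)
  have h1 := sm_le_one' (4 * t3 p - 2)
  unfold psi3
  rcases (tau_le hp).2.lt_or_eq with h | h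
  · have hA : 0 < 1 - p.2.1 := by linarith
    rcases h0.lt_or_eq with h2 | h2
    · have e1 : 0 ≤ (1 - sm (4 * t3 p - 2)) / (1 - p.2.1) := div_nonneg (by linarith) hA.le
      have e2 : 0 < sm (4 * t3 p - 2) / √(2 * nn p) := div_pos h2 hs
      linarith
    · rw [← h2]
      have : 0 < (1 - (0 : ℝ)) / (1 - p.2.1) := by rw [sub_zero]; positivity
      simpa using hA
  · have ht : t3 p = 1 := by
      unfold t3
      rw [h]
      norm_num
    rw [ht]
    have : sm (4 * 1 - 2) = 1 := Real.smoothTransition.one_of_one_le (by norm_num)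
    rw [this]
    simpa using hs

private lemma ww_ne {p : E7} (h1 : ww p ≠ 0) :
    ¬ (sa * (1 - p.2.1) + (1 + p.2.1) * p.1.1 = 0 ∧ (1 + p.2.1) * p.1.2.1 = 0) := by
  rintro ⟨h2, h3⟩
  apply h1
  unfold ww w1 w2
  have e1 : (1 - p.2.1) + √2 * (1 + p.2.1) * p.1.1 = √2 * (sa * (1 - p.2.1) + (1 + p.2.1) * p.1.1) := by
    have : √2 * sa = 1 := by
      unfold sa
      have := Real.mul_self_sqrt (show (0 : ℝ) ≤ 2 by norm_num)
      linarith
    linear_combination -(1 - p.2.1) * this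
  have e2 : √2 * (1 + p.2.1) * p.1.2.1 = √2 * ((1 + p.2.1) * p.1.2.1) := by ring
  rw [e1, e2, h2, h3]
  simp

/-- `U` and `W` are independent when both complex normal coordinates are nonzero. -/
lemma UW_ind {p : E7} (hp : p ∈ M7) (h1 : ww p ≠ 0) (h2 : ww (sg p) ≠ 0) :
    Ind (fU p) (fW p) := by
  have g1 := ww_ne h1
  have g2 := ww_ne h2
  have hs := sa_sq
  have hs0 : 0 < sa := by unfold sa; positivity
  have hb : p.1.1 ^ 2 + p.1.2.1 ^ 2 + p.1.2.2 ^ 2 = 1 := by
    have := hp.1; unfold dot3 at this; linarith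
  have ht := tau_le hp
  have hy : p.2.1 ^ 2 + p.2.2.1 ^ 2 + p.2.2.2.1 ^ 2 + p.2.2.2.2 ^ 2 = 1 := by
    have := hp.2; unfold dot4 at this; linarith
  intro a c hac
  simp only [sg] at g2
  simp only [fU, fW, cU, cW, Prod.smul_mk, Prod.mk_add_mk, smul_eq_mul, Prod.mk_eq_zero] at hac
  obtain ⟨⟨b1, b2, b3⟩, ⟨t, y, z, w⟩⟩ := p
  simp only at *
  obtain ⟨⟨e1, e2, e3⟩, e4, -, -, -⟩ := hac
  generalize sa = s at *
  by_cases hA : 1 + t = 0
  · -- τ = -1
    have ht' : t = -1 := by linarith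
    subst ht'
    have hbb : b1 ^ 2 + b3 ^ 2 ≠ 0 := by
      intro h
      have hb1 : b1 = 0 := by nlinarith [sq_nonneg b1, sq_nonneg b3]
      have hb3 : b3 = 0 := by nlinarith [sq_nonneg b1, sq_nonneg b3]
      apply g2
      rw [hb1, hb3]
      constructor <;> ring
    have ha : a = 0 := by
      have : a * (2 * s) * (b1 ^ 2 + b3 ^ 2) = 0 := by linear_combination e2 + a * (2 * s) * hb
      rcases mul_eq_zero.1 this with h | h
      · rcases mul_eq_zero.1 h with h' | h'
        · exact h'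
        · exfalso; linarith
      · exact absurd h hbb
    subst ha
    refine ⟨rfl, ?_⟩
    by_contra hc
    apply hbb
    have f1 : b3 = 0 := by
      have : c * b3 = 0 := by linear_combination -(1 / 2) * e1
      exact (mul_eq_zero.1 this).resolve_left hc
    have f2 : b1 = 0 := by
      have : c * b1 = 0 := by linear_combination (1 / 2) * e3
      exact (mul_eq_zero.1 this).resolve_left hc
    rw [f1, f2]
    norm_num
  by_cases hB : 1 - t = 0
  · have ht' : t = 1 := by linarith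
    subst ht'
    have hbb : b1 ^ 2 + b2 ^ 2 ≠ 0 := by
      intro h
      have hb1 : b1 = 0 := by nlinarith [sq_nonneg b1, sq_nonneg b2]
      have hb2 : b2 = 0 := by nlinarith [sq_nonneg b1, sq_nonneg b2]
      apply g1
      rw [hb1, hb2]
      constructor <;> ring
    have hc : c = 0 := by
      have : c * (2 * s) * (b1 ^ 2 + b2 ^ 2) = 0 := by linear_combination e3 + c * (2 * s) * hb
      rcases mul_eq_zero.1 this with h | h
      · rcases mul_eq_zero.1 h with h' | h'
        · exact h'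
        · exfalso; linarith
      · exact absurd h hbb
    subst hc
    refine ⟨?_, rfl⟩
    by_contra ha
    apply hbb
    have f1 : b2 = 0 := by
      have : a * b2 = 0 := by linear_combination -(1 / 2) * e1
      exact (mul_eq_zero.1 this).resolve_left ha
    have f2 : b1 = 0 := by
      have : a * b1 = 0 := by linear_combination (1 / 2) * e2
      exact (mul_eq_zero.1 this).resolve_left ha
    rw [f1, f2]
    norm_num
  have hA' : 0 < 1 + t := lt_of_le_of_ne (by linarith) (Ne.symm hA)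
  have hB' : 0 < 1 - t := lt_of_le_of_ne (by linarith) (Ne.symm hB)
  have hAB : 0 < (1 + t) * (1 - t) := mul_pos hA' hB'
  -- the τ-component
  have k1 : a * (1 - t) * b2 = c * (1 + t) * b3 := by
    have : s / 2 * (((1 + t) * (1 - t)) * (a * (1 - t) * b2 - c * (1 + t) * b3)) = 0 := by
      linear_combination e4
    rcases mul_eq_zero.1 this with h | h
    · exfalso; linarith
    · rcases mul_eq_zero.1 h with h' | h'
      · exfalso; linarith
      · linarith
  set K := a * (1 - t) * b2 with hK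
  have q2 : a * ((1 + t) * b1 + s * (1 - t)) = 2 * s * K * b2 := by
    linear_combination e2 + s * b2 * hK - s * b2 * k1
  have q3 : c * ((1 - t) * b1 + s * (1 + t)) = 2 * s * K * b3 := by
    linear_combination e3 + s * b3 * hK - s * b3 * k1
  have q1 : a * b2 * (1 + t) + c * b3 * (1 - t) + 2 * s * b1 * K = 0 := by
    linear_combination -e1 + s * b1 * hK + s * b1 * k1
  have hK0 : K = 0 := by
    by_contra hne
    have h3 : K * ((1 + t) ^ 2 + (1 - t) ^ 2 + 2 * s * b1 * ((1 + t) * (1 - t))) = 0 := by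
      linear_combination (1 + t) * (1 - t) * q1 + (1 + t) ^ 2 * hK + (1 - t) ^ 2 * k1
    have h4 := (mul_eq_zero.1 h3).resolve_left hne
    have h5 : (s * b1) ^ 2 ≤ 1 / 2 := by
      have : b1 ^ 2 ≤ 1 := by nlinarith [sq_nonneg b2, sq_nonneg b3]
      rw [mul_pow, hs]
      linarith
    have h6 : -1 < s * b1 := by nlinarith
    nlinarith [mul_pos hAB (show 0 < s * b1 + 1 by linarith), sq_nonneg ((1 + t) - (1 - t))]
  rw [hK0] at k1 q2 q3
  have ha : a = 0 := by
    by_contra hne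
    apply g1
    constructor
    · have : a * ((1 + t) * b1 + s * (1 - t)) = 0 := by rw [q2]; ring
      have := (mul_eq_zero.1 this).resolve_left hne
      linarith
    · have h7 : a * (1 - t) * b2 = 0 := hK ▸ hK0
      have h8 : b2 = 0 := (mul_eq_zero.1 h7).resolve_left (mul_ne_zero hne hB)
      rw [h8, mul_zero]
  have hc : c = 0 := by
    by_contra hne
    apply g2
    constructor
    · have : c * ((1 - t) * b1 + s * (1 + t)) = 0 := by rw [q3]; ring
      have := (mul_eq_zero.1 this).resolve_left hne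
      linarith
    · have h8 : b3 = 0 := (mul_eq_zero.1 k1.symm).resolve_left (mul_ne_zero hne hA)
      rw [h8, mul_zero]
  exact ⟨ha, hc⟩

private lemma Th_ang {p : E7} {α β κ : ℝ} (h : α • fU p + β • fW p - κ • Th p = 0) :
    κ * (p.2.2.2.1 ^ 2 + p.2.2.2.2 ^ 2) = 0 := by
  have h3 := congrArg (fun v : E7 => v.2.2.2.1) h
  have h4 := congrArg (fun v : E7 => v.2.2.2.2) h
  simp [fU, fW, Th] at h3 h4
  linear_combination p.2.2.2.2 * h3 - p.2.2.2.1 * h4

private lemma j1_aux {p : E7} (hp : p ∈ M7) (hw : ww p = 0) (hy : p.2.2.2.1 ^ 2 + p.2.2.2.2 ^ 2 ≠ 0) :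
    Ind (u1 p) (v1 p) := by
  have hw1 : w1 p = 0 := by
    unfold ww at hw
    nlinarith [sq_nonneg (w1 p), sq_nonneg (w2 p)]
  have hw2 : w2 p = 0 := by
    unfold ww at hw
    nlinarith [sq_nonneg (w1 p), sq_nonneg (w2 p)]
  have ht1 : t1 p = 0 := by rw [alg_t1 hp, hw1, mul_zero]
  have ht2 : t2 p = 0 := by rw [alg_t2 hp, hw2, mul_zero]
  have h34 : t3 p ^ 2 + t4 p ^ 2 = 1 := by
    have := alg_sphere hp
    rw [ht1, ht2] at this
    linarith
  have hm2 : mu (t3 p ^ 2 + t4 p ^ 2) = 1 := by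
    rw [h34]
    exact Real.smoothTransition.one_of_one_le (by norm_num)
  have hm1 : mu (t1 p ^ 2 + t2 p ^ 2) = 0 := by
    rw [ht1, ht2]
    exact Real.smoothTransition.zero_of_nonpos (by norm_num)
  intro a c hac
  have hac' : (a * psi1 p) • fU p + (c * psi3 p) • fW p - a • Th p = 0 := by
    rw [← hac]
    unfold u1 v1
    rw [hm1, hm2]
    module
  have ha : a = 0 := (mul_eq_zero.1 (Th_ang hac')).resolve_right hy
  subst ha
  refine ⟨rfl, ?_⟩
  by_contra hc
  have hW : fW p = 0 := by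
    have h5 : (c * psi3 p) • fW p = 0 := by simpa using hac'
    exact (smul_eq_zero.1 h5).resolve_left (mul_ne_zero hc (psi3_pos hp).ne')
  have hn := nn_pos hp
  have hsq : √(2 * nn p) ≠ 0 := (Real.sqrt_pos.2 (by linarith)).ne'
  have hs2 : √2 ^ 2 = 2 := Real.sq_sqrt (by norm_num)
  have hb : p.1.1 ^ 2 + p.1.2.1 ^ 2 + p.1.2.2 ^ 2 = 1 := by
    have := hp.1; unfold dot3 at this; linarith
  have hy' : p.2.1 ^ 2 + p.2.2.1 ^ 2 + p.2.2.2.1 ^ 2 + p.2.2.2.2 ^ 2 = 1 := by
    have := hp.2; unfold dot4 at this; linarith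
  have ht := tau_le hp
  have hpos : 0 < p.2.2.2.1 ^ 2 + p.2.2.2.2 ^ 2 := lt_of_le_of_ne (by positivity) (Ne.symm hy)
  have htt : p.2.1 ^ 2 < 1 := by nlinarith [sq_nonneg p.2.2.1]
  have hA : 0 < 1 + p.2.1 := by nlinarith
  have hB : 0 < 1 - p.2.1 := by nlinarith
  have f1 : (1 - p.2.1) + √2 * (1 + p.2.1) * p.1.1 = 0 := by
    unfold w1 at hw1
    exact (div_eq_zero_iff.1 hw1).resolve_right hsq
  have f2 : p.1.2.1 = 0 := by
    unfold w2 at hw2
    have h6 := (div_eq_zero_iff.1 hw2).resolve_right hsq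
    have h7 : √2 ≠ 0 := by positivity
    exact (mul_eq_zero.1 h6).resolve_left (mul_ne_zero h7 hA.ne')
  have g1 := congrArg (fun v : E7 => v.2.1) hW
  have g2 := congrArg (fun v : E7 => v.1.2.2) hW
  simp only [fW, cW, Prod.fst_zero, Prod.snd_zero] at g1 g2
  have hsa : sa = √2 / 2 := rfl
  have f3 : p.1.2.2 = 0 := by
    have h8 : (sa / 2 * (1 + p.2.1) * ((1 + p.2.1) * (1 - p.2.1))) * p.1.2.2 = 0 := by linear_combination -g1
    refine (mul_eq_zero.1 h8).resolve_left ?_
    have : 0 < sa := by unfold sa; positivity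
    positivity
  rw [f3] at g2 hb
  rw [f2] at hb
  rw [hsa] at g2
  have h9 : p.1.1 ^ 2 = 1 := by linarith
  have h10 : (1 + p.2.1) * (√2 / 2) = 0 := by
    linear_combination -g2 + p.1.1 * f1 - √2 * (1 + p.2.1) * h9
  have h11 : 0 < (1 + p.2.1) * (√2 / 2) := by positivity
  linarith

private lemma sg_lin (a c : ℝ) (X Y : E7) : sg (a • X + c • Y) = a • sg X + c • sg Y := by
  have h1 : -(a * X.2.1 + c * Y.2.1) = a * -X.2.1 + c * -Y.2.1 := by ring
  have h2 : -(a * X.2.2.1 + c * Y.2.2.1) = a * -X.2.2.1 + c * -Y.2.2.1 := by ring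
  simp only [sg, Prod.smul_fst, Prod.smul_snd, Prod.fst_add, Prod.snd_add, Prod.smul_mk, Prod.mk_add_mk, smul_eq_mul,
    h1, h2]

private lemma sg_zero' : sg 0 = 0 := by
  simp [sg]

private lemma Ind_sg {X Y : E7} (h : Ind X Y) : Ind (sg X) (sg Y) := by
  intro a c hac
  apply h a c
  rw [← sg_sg (a • X + c • Y), sg_lin, hac, sg_zero']

theorem j1_ind : ∀ p ∈ M7,
    ¬(w1 p = 0 ∧ w2 p = 0 ∧ p.2.2.2.1 = 0 ∧ p.2.2.2.2 = 0) →
    ¬(w1 (sg p) = 0 ∧ w2 (sg p) = 0 ∧ p.2.2.2.1 = 0 ∧ p.2.2.2.2 = 0) →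
    Ind (u1 p) (v1 p) := by
  intro p hp h1 h2
  by_cases hw : ww p = 0
  · apply j1_aux hp hw
    intro hy
    apply h1
    unfold ww at hw
    refine ⟨?_, ?_, ?_, ?_⟩
    · nlinarith [sq_nonneg (w1 p), sq_nonneg (w2 p)]
    · nlinarith [sq_nonneg (w1 p), sq_nonneg (w2 p)]
    · nlinarith [sq_nonneg p.2.2.2.1, sq_nonneg p.2.2.2.2]
    · nlinarith [sq_nonneg p.2.2.2.1, sq_nonneg p.2.2.2.2]
  by_cases hw' : ww (sg p) = 0
  · have h3 : Ind (u1 (sg p)) (v1 (sg p)) := by
      apply j1_aux (sg_mem hp) hw'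
      intro hy
      apply h2
      unfold ww at hw'
      have hy' : p.2.2.2.1 ^ 2 + p.2.2.2.2 ^ 2 = 0 := hy
      refine ⟨?_, ?_, ?_, ?_⟩
      · nlinarith [sq_nonneg (w1 (sg p)), sq_nonneg (w2 (sg p))]
      · nlinarith [sq_nonneg (w1 (sg p)), sq_nonneg (w2 (sg p))]
      · nlinarith [sq_nonneg p.2.2.2.1, sq_nonneg p.2.2.2.2]
      · nlinarith [sq_nonneg p.2.2.2.1, sq_nonneg p.2.2.2.2]
    have h4 := Ind_sg h3.symm
    have e1 : sg (v1 (sg p)) = u1 p := by rw [v1_eq (sg p), sg_sg, sg_sg]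
    have e2 : sg (u1 (sg p)) = v1 p := (v1_eq p).symm
    rwa [e1, e2] at h4
  · intro a c hac
    have hac' : (a * psi1 p) • fU p + (c * psi3 p) • fW p -
        (a * mu (t3 p ^ 2 + t4 p ^ 2) + c * mu (t1 p ^ 2 + t2 p ^ 2)) • Th p = 0 := by
      rw [← hac]
      unfold u1 v1
      module
    have h5 := Th_ang hac'
    have h6 : (a * psi1 p) • fU p + (c * psi3 p) • fW p = 0 := by
      rcases mul_eq_zero.1 h5 with h | h
      · rw [h, zero_smul, sub_zero] at hac'
        exact hac'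
      · have hT : Th p = 0 := by
          have z1 : p.2.2.2.1 = 0 := by nlinarith [sq_nonneg p.2.2.2.1, sq_nonneg p.2.2.2.2]
          have z2 : p.2.2.2.2 = 0 := by nlinarith [sq_nonneg p.2.2.2.1, sq_nonneg p.2.2.2.2]
          unfold Th
          rw [z1, z2]
          simp
        rw [hT, smul_zero, sub_zero] at hac'
        exact hac'
    obtain ⟨h7, h8⟩ := UW_ind hp hw hw' _ _ h6
    exact ⟨(mul_eq_zero.1 h7).resolve_right (psi1_pos hp).ne', (mul_eq_zero.1 h8).resolve_right (psi3_pos hp).ne'⟩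

end S7Pair
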