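import Pool.Agent.S7Pair.Defs2
import Pool.Agent.S7Pair.J1c
import Pool.Agent.S7Pair.J1d
import Pool.Agent.S7Pair.Hom
import Pool.Agent.S7Pair.Es1

/-! # Module J3: both sides together

On `O1` rotate the local pair `(f,g)` by an angle `(π/2) sm (2 - 4 QQ/δ)` (which is a function
annihilated by `rho` and `ee`): it becomes `(ee,-rho)` near `H_a`. On `sg ⁻¹ O1` use
`(sg ∘ g ∘ sg, sg ∘ f ∘ sg)`, elsewhere `(hom u1, hom v1)`. -/

open scoped ContDiff Topology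
open VectorField Set Filter

noncomputable section

namespace S7Pair

/-! ### the symmetry -/

lemma J3_sg_add (x y : E7) : sg (x + y) = sg x + sg y := by
  simp only [sg, Prod.fst_add, Prod.snd_add, Prod.mk_add_mk]
  refine Prod.ext (Prod.ext rfl (Prod.ext rfl rfl)) (Prod.ext ?_ (Prod.ext ?_ (Prod.ext rfl rfl)))
  · simp only; ring
  · simp only; ring

lemma J3_sg_smul (c : ℝ) (x : E7) : sg (c • x) = c • sg x := by
  simp only [sg, Prod.smul_fst, Prod.smul_snd, Prod.smul_mk, smul_eq_mul]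
  refine Prod.ext (Prod.ext rfl (Prod.ext rfl rfl)) (Prod.ext ?_ (Prod.ext ?_ (Prod.ext rfl rfl)))
  · simp only; ring
  · simp only; ring

/-- the symmetry as a continuous linear map -/
def J3_L : E7 →L[ℝ] E7 :=
  LinearMap.toContinuousLinearMap ⟨⟨sg, J3_sg_add⟩, J3_sg_smul⟩

lemma J3_L_apply (x : E7) : J3_L x = sg x := rfl

lemma J3_hasF (x : E7) : HasFDerivAt sg J3_L x := J3_L.hasFDerivAt

lemma J3_fderiv (x : E7) : fderiv ℝ sg x = J3_L := (J3_hasF x).fderiv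

lemma J3_inv (x : E7) : (fderiv ℝ sg x).IsInvertible :=
  isInvertible_of_leftInverse rfl (J3_hasF x).differentiableAt (J3_hasF (sg x)).differentiableAt
    (Eventually.of_forall sg_sg)

lemma J3_contDiff : ContDiff ℝ ∞ sg := J3_L.contDiff

lemma J3_pull (V : E7 → E7) (x : E7) : VectorField.pullback ℝ sg V x = sg (V (sg x)) := by
  refine pullback_eq_of (J3_inv x) ?_
  rw [J3_fderiv, J3_L_apply, sg_sg]

lemma J3_n3 (P : E7) : n3 (sg P).1 = n3 P.1 := by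
  unfold n3 sg; congr 1; ring

lemma J3_n4 (P : E7) : n4 (sg P).2 = n4 P.2 := by
  unfold n4 sg; congr 1; ring

lemma J3_sg_fst (a : ℝ) (b : ℝ) (V : E7) :
    sg ((a • V.1, b • V.2) : E7) = (a • (sg V).1, b • (sg V).2) := by
  simp only [sg, Prod.smul_fst, Prod.smul_snd, Prod.smul_mk, smul_eq_mul]
  refine Prod.ext (Prod.ext rfl (Prod.ext rfl rfl)) (Prod.ext ?_ (Prod.ext ?_ (Prod.ext rfl rfl)))
  · simp only; ring
  · simp only; ring

lemma J3_pr (P : E7) : pr (sg P) = sg (pr P) := by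
  unfold pr
  rw [J3_sg_fst, J3_n3, J3_n4]

lemma J3_sg_zero : sg 0 = 0 := by
  have := J3_L.map_zero
  exact this

lemma J3_mem {P : E7} (hP : P ∈ O7) : sg P ∈ O7 := by
  have h : ∀ Q : E7, (sg Q).1 = 0 → Q.1 = 0 := by
    intro Q hQ
    have h1 := congrArg Prod.fst hQ
    have h2 := congrArg (fun x => x.2.1) hQ
    have h3 := congrArg (fun x => x.2.2) hQ
    exact Prod.ext h1 (Prod.ext h3 h2)
  have h' : ∀ Q : E7, (sg Q).2 = 0 → Q.2 = 0 := by
    intro Q hQ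
    have h1 : -Q.2.1 = 0 := congrArg Prod.fst hQ
    have h2 : -Q.2.2.1 = 0 := congrArg (fun x => x.2.1) hQ
    have h3 : Q.2.2.2.1 = 0 := congrArg (fun x => x.2.2.1) hQ
    have h4 : Q.2.2.2.2 = 0 := congrArg (fun x => x.2.2.2) hQ
    exact Prod.ext (by simpa using h1) (Prod.ext (by simpa using h2) (Prod.ext h3 h4))
  exact ⟨fun h0 => hP.1 (h _ h0), fun h0 => hP.2 (h' _ h0)⟩

lemma J3_hom_v (P : E7) : hom v1 P = sg (hom u1 (sg P)) := by
  unfold hom sc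
  rw [J3_sg_fst, J3_n3, J3_n4, J3_pr, v1_eq]

lemma J3_hom_u (P : E7) : hom u1 P = sg (hom v1 (sg P)) := by
  rw [J3_hom_v, sg_sg, sg_sg]

lemma J3_tan {P V : E7} (h : Tan (sg P) V) : Tan P (sg V) := by
  obtain ⟨h1, h2⟩ := h
  constructor
  · simp only [dot3, sg] at h1 ⊢
    linear_combination h1
  · simp only [dot4, sg] at h2 ⊢
    linear_combination h2

lemma J3_ind {x y : E7} (h : Ind x y) : Ind (sg x) (sg y) := by
  intro a b hab
  apply h a b
  have h1 : sg (a • x + b • y) = 0 := by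
    rw [J3_sg_add, J3_sg_smul, J3_sg_smul]; exact hab
  have h2 := congrArg sg h1
  rw [sg_sg, J3_sg_zero] at h2
  exact h2

lemma J3_ee (P : E7) : sg (ee (sg P)) = ee P := by
  simp only [ee, sg]
  refine Prod.ext (Prod.ext rfl (Prod.ext rfl rfl)) (Prod.ext ?_ (Prod.ext ?_ (Prod.ext rfl rfl)))
  · simp only; ring
  · simp only; ring

lemma J3_rho (P : E7) : sg (rho (sg P)) = rhob P := by
  simp only [rho, rhob, sg]
  refine Prod.ext (Prod.ext rfl (Prod.ext rfl rfl)) (Prod.ext ?_ (Prod.ext ?_ (Prod.ext rfl rfl)))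
  · simp only; ring
  · simp only; ring

lemma J3_tan_comb {P V W : E7} (hV : Tan P V) (hW : Tan P W) (a b : ℝ) :
    Tan P (a • V + b • W) := by
  obtain ⟨h1, h2⟩ := hV
  obtain ⟨h3, h4⟩ := hW
  constructor
  · simp only [dot3, Prod.fst_add, Prod.snd_add, Prod.smul_fst, Prod.smul_snd, smul_eq_mul]
      at h1 h3 ⊢
    linear_combination a * h1 + b * h3
  · simp only [dot4, Prod.fst_add, Prod.snd_add, Prod.smul_fst, Prod.smul_snd, smul_eq_mul]
      at h2 h4 ⊢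
    linear_combination a * h2 + b * h4

/-! ### `QQ` is annihilated by `rho` and `ee` -/

/-- the polynomial whose composition with `pr` is `QQ` -/
def J3_Q0 (p : E7) : ℝ :=
  (p.1.1 + sa) ^ 2 + p.1.2.1 ^ 2 + (p.1.2.2 - sa) ^ 2 + p.2.1 ^ 2 + p.2.2.1 ^ 2

lemma J3_line (p v : E7) : fderiv ℝ J3_Q0 p v =
    2 * (p.1.1 + sa) * v.1.1 + 2 * p.1.2.1 * v.1.2.1 + 2 * (p.1.2.2 - sa) * v.1.2.2
      + 2 * p.2.1 * v.2.1 + 2 * p.2.2.1 * v.2.2.1 := by
  have hd : DifferentiableAt ℝ J3_Q0 p := by unfold J3_Q0; fun_prop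
  have h1 : HasDerivAt (fun t : ℝ => J3_Q0 (p + t • v)) (fderiv ℝ J3_Q0 p v) 0 := by
    have h2 : HasFDerivAt J3_Q0 (fderiv ℝ J3_Q0 p) (p + (0 : ℝ) • v) := by
      rw [zero_smul, add_zero]; exact hd.hasFDerivAt
    have h3 : HasDerivAt (fun t : ℝ => p + t • v) v 0 := by
      simpa using ((hasDerivAt_id (0 : ℝ)).smul_const v).const_add p
    exact h2.comp_hasDerivAt 0 h3
  have h4 : (fun t : ℝ => J3_Q0 (p + t • v)) = fun t : ℝ => J3_Q0 p +
      t * (2 * (p.1.1 + sa) * v.1.1 + 2 * p.1.2.1 * v.1.2.1 + 2 * (p.1.2.2 - sa) * v.1.2.2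
      + 2 * p.2.1 * v.2.1 + 2 * p.2.2.1 * v.2.2.1) +
      t ^ 2 * (v.1.1 ^ 2 + v.1.2.1 ^ 2 + v.1.2.2 ^ 2 + v.2.1 ^ 2 + v.2.2.1 ^ 2) := by
    funext t
    simp only [J3_Q0, Prod.fst_add, Prod.snd_add, Prod.smul_fst, Prod.smul_snd, smul_eq_mul]
    ring
  rw [h4] at h1
  refine h1.unique ?_
  have h5 := (((hasDerivAt_id (0 : ℝ)).mul_const
    (2 * (p.1.1 + sa) * v.1.1 + 2 * p.1.2.1 * v.1.2.1 + 2 * (p.1.2.2 - sa) * v.1.2.2
      + 2 * p.2.1 * v.2.1 + 2 * p.2.2.1 * v.2.2.1)).const_add (J3_Q0 p)).add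
    (((hasDerivAt_id (0 : ℝ)).pow 2).mul_const
      (v.1.1 ^ 2 + v.1.2.1 ^ 2 + v.1.2.2 ^ 2 + v.2.1 ^ 2 + v.2.2.1 ^ 2))
  exact h5.congr_deriv (by simp)

lemma J3_DQQ {P V : E7} (hP : P ∈ O7) (hV : Tan (pr P) V) :
    fderiv ℝ QQ P (sc P V) = fderiv ℝ J3_Q0 (pr P) V := by
  have hpr : DifferentiableAt ℝ pr P :=
    (pr_smooth.contDiffAt (O7_open.mem_nhds hP)).differentiableAt (by simp)
  have hd : DifferentiableAt ℝ J3_Q0 (pr P) := by unfold J3_Q0; fun_prop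
  have h := hd.hasFDerivAt.comp P hpr.hasFDerivAt
  have h2 : fderiv ℝ QQ P = (fderiv ℝ J3_Q0 (pr P)).comp (fderiv ℝ pr P) := h.fderiv
  rw [h2, ContinuousLinearMap.comp_apply, fderiv_pr hP hV]

lemma J3_n3_ne {P : E7} (hP : P ∈ O7) : n3 P.1 ≠ 0 := by
  intro h
  apply hP.1
  have h0 : P.1.1 ^ 2 + P.1.2.1 ^ 2 + P.1.2.2 ^ 2 = 0 := by
    have := Real.sqrt_eq_zero'.1 h
    nlinarith [sq_nonneg P.1.1, sq_nonneg P.1.2.1, sq_nonneg P.1.2.2]
  have h1 : P.1.1 ^ 2 = 0 := by nlinarith [sq_nonneg P.1.1, sq_nonneg P.1.2.1, sq_nonneg P.1.2.2]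
  have h2 : P.1.2.1 ^ 2 = 0 := by nlinarith [sq_nonneg P.1.1, sq_nonneg P.1.2.1, sq_nonneg P.1.2.2]
  have h3 : P.1.2.2 ^ 2 = 0 := by nlinarith [sq_nonneg P.1.1, sq_nonneg P.1.2.1, sq_nonneg P.1.2.2]
  rw [pow_eq_zero_iff (two_ne_zero)] at h1 h2 h3
  exact Prod.ext h1 (Prod.ext h2 h3)

lemma J3_n4_ne {P : E7} (hP : P ∈ O7) : n4 P.2 ≠ 0 := by
  intro h
  apply hP.2
  have h0 : P.2.1 ^ 2 + P.2.2.1 ^ 2 + P.2.2.2.1 ^ 2 + P.2.2.2.2 ^ 2 = 0 := by
    have := Real.sqrt_eq_zero'.1 h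
    nlinarith [sq_nonneg P.2.1, sq_nonneg P.2.2.1, sq_nonneg P.2.2.2.1, sq_nonneg P.2.2.2.2]
  have h1 : P.2.1 ^ 2 = 0 := by
    nlinarith [sq_nonneg P.2.1, sq_nonneg P.2.2.1, sq_nonneg P.2.2.2.1, sq_nonneg P.2.2.2.2]
  have h2 : P.2.2.1 ^ 2 = 0 := by
    nlinarith [sq_nonneg P.2.1, sq_nonneg P.2.2.1, sq_nonneg P.2.2.2.1, sq_nonneg P.2.2.2.2]
  have h3 : P.2.2.2.1 ^ 2 = 0 := by
    nlinarith [sq_nonneg P.2.1, sq_nonneg P.2.2.1, sq_nonneg P.2.2.2.1, sq_nonneg P.2.2.2.2]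
  have h4 : P.2.2.2.2 ^ 2 = 0 := by
    nlinarith [sq_nonneg P.2.1, sq_nonneg P.2.2.1, sq_nonneg P.2.2.2.1, sq_nonneg P.2.2.2.2]
  rw [pow_eq_zero_iff (two_ne_zero)] at h1 h2 h3 h4
  exact Prod.ext h1 (Prod.ext h2 (Prod.ext h3 h4))

lemma J3_QQ_rho {P : E7} (hP : P ∈ O7) : fderiv ℝ QQ P (rho P) = 0 := by
  have h3 := J3_n3_ne hP
  have h4 := J3_n4_ne hP
  have hs : sc P (rho (pr P)) = rho P := by
    simp only [sc, rho, pr, Prod.smul_fst, Prod.smul_snd, smul_eq_mul, Prod.smul_mk]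
    refine Prod.ext (Prod.ext ?_ (Prod.ext ?_ ?_)) (Prod.ext ?_ (Prod.ext ?_ (Prod.ext ?_ ?_)))
    · simp only; field_simp
    · simp only; field_simp
    · simp only; field_simp
    · simp only; field_simp
    · simp only; field_simp
    · simp
    · simp
  have ht : Tan (pr P) (rho (pr P)) := by
    constructor
    · simp only [dot3, rho]; ring
    · simp only [dot4, rho]; ring
  rw [← hs, J3_DQQ hP ht, J3_line]
  simp only [rho]
  ring

lemma J3_QQ_ee {P : E7} (hP : P ∈ O7) : fderiv ℝ QQ P (ee P) = 0 := by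
  have h4 := J3_n4_ne hP
  have hs : sc P (ee (pr P)) = ee P := by
    simp only [sc, ee, pr, Prod.smul_fst, Prod.smul_snd, smul_eq_mul, Prod.smul_mk]
    refine Prod.ext (Prod.ext ?_ (Prod.ext ?_ ?_)) (Prod.ext ?_ (Prod.ext ?_ (Prod.ext ?_ ?_)))
    · simp
    · simp
    · simp
    · simp only; field_simp
    · simp only; field_simp
    · simp only; field_simp
    · simp only; field_simp
  have ht : Tan (pr P) (ee (pr P)) := by
    constructor
    · simp only [dot3, ee]; ring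
    · simp only [dot4, ee]; ring
  rw [← hs, J3_DQQ hP ht, J3_line]
  simp only [ee]
  ring

/-- functions of `QQ` that are constant for `QQ ≥ δ/2` -/
lemma J3_coef {f g : E7 → E7} {δ : ℝ} (hδ : 0 < δ)
    (hloc : ∀ P ∈ O7, QQ P < δ → P ∈ O1 ∧ f P = rho P ∧ g P = ee P) {h : ℝ → ℝ}
    (hh : ContDiff ℝ ∞ h) (hc : ∀ q, δ / 2 ≤ q → h q = h δ) {x : E7} (hx : x ∈ O7) :
    ContDiffAt ℝ ∞ (fun P => h (QQ P)) x ∧ fderiv ℝ (fun P => h (QQ P)) x (f x) = 0 ∧
      fderiv ℝ (fun P => h (QQ P)) x (g x) = 0 := by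
  have hQ : ContDiffAt ℝ ∞ QQ x := QQ_smooth.contDiffAt (O7_open.mem_nhds hx)
  refine ⟨hh.contDiffAt.comp x hQ, ?_⟩
  rcases lt_or_ge (QQ x) δ with hlt | hge
  · obtain ⟨-, h1, h2⟩ := hloc x hx hlt
    have hd : DifferentiableAt ℝ h (QQ x) := (hh.differentiable (by simp)).differentiableAt
    have h3 := hd.hasFDerivAt.comp x (hQ.differentiableAt (by simp)).hasFDerivAt
    have h4 : fderiv ℝ (fun P => h (QQ P)) x = (fderiv ℝ h (QQ x)).comp (fderiv ℝ QQ x) :=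
      h3.fderiv
    rw [h4, h1, h2, ContinuousLinearMap.comp_apply, ContinuousLinearMap.comp_apply, J3_QQ_rho hx,
      J3_QQ_ee hx, map_zero]
    exact ⟨rfl, rfl⟩
  · have h1 : ∀ᶠ y in 𝓝 x, δ / 2 < QQ y := by
      have := hQ.continuousAt.eventually (lt_mem_nhds (by linarith : δ / 2 < QQ x))
      exact this
    have h2 : (fun P => h (QQ P)) =ᶠ[𝓝 x] fun _ => h δ := by
      filter_upwards [h1] with y hy
      exact hc _ hy.le
    rw [h2.fderiv_eq]
    simp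

/-- the angle -/
def J3_ang (δ q : ℝ) : ℝ := sm (2 - 4 * (q / δ)) * (Real.pi / 2)

lemma J3_ang_smooth (δ : ℝ) : ContDiff ℝ ∞ (J3_ang δ) := by
  unfold J3_ang
  refine ContDiff.mul ?_ contDiff_const
  refine Real.smoothTransition.contDiff.comp ?_
  exact contDiff_const.sub (contDiff_const.mul (contDiff_id.div_const δ))

lemma J3_ang_far {δ : ℝ} (hδ : 0 < δ) {q : ℝ} (hq : δ / 2 ≤ q) : J3_ang δ q = 0 := by
  have h1 : 1 / 2 ≤ q / δ := by
    rw [le_div_iff₀ hδ]; linarith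
  have h2 : sm (2 - 4 * (q / δ)) = 0 := Real.smoothTransition.zero_of_nonpos (by linarith)
  unfold J3_ang
  rw [h2, zero_mul]

lemma J3_ang_near {δ : ℝ} (hδ : 0 < δ) {q : ℝ} (hq : q < δ / 4) : J3_ang δ q = Real.pi / 2 := by
  have h1 : q / δ < 1 / 4 := by
    rw [div_lt_iff₀ hδ]; linarith
  have h2 : sm (2 - 4 * (q / δ)) = 1 := Real.smoothTransition.one_of_one_le (by linarith)
  unfold J3_ang
  rw [h2, one_mul]

theorem stJ3 (h : StLoc) : StJ3 := by
  classical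
  obtain ⟨f, g, hCP, ⟨K, hKO, hKopen, hfar⟩, htan, hind, δ, hδ, hnear⟩ := h
  -- the rotated pair on `O1`
  set fa : E7 → E7 := fun P => Real.cos (J3_ang δ (QQ P)) • f P + Real.sin (J3_ang δ (QQ P)) • g P
    with hfa
  set ga : E7 → E7 := fun P => (-Real.sin (J3_ang δ (QQ P))) • f P +
    Real.cos (J3_ang δ (QQ P)) • g P with hga
  have hO17 : O1 ⊆ O7 := fun P hP => hP.1
  have hcos : ContDiff ℝ ∞ (fun q => Real.cos (J3_ang δ q)) :=
    Real.contDiff_cos.comp (J3_ang_smooth δ)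
  have hsin : ContDiff ℝ ∞ (fun q => Real.sin (J3_ang δ q)) :=
    Real.contDiff_sin.comp (J3_ang_smooth δ)
  have hCPa : CP O1 fa ga := by
    refine CP.of_cat hCP.op fun x hx => ?_
    have hx7 := hO17 hx
    obtain ⟨c1, c2, c3⟩ := J3_coef hδ hnear hcos (fun q hq => by
      rw [J3_ang_far hδ hq, J3_ang_far hδ (by linarith)]) hx7
    obtain ⟨s1', s2', s3'⟩ := J3_coef hδ hnear hsin (fun q hq => by
      rw [J3_ang_far hδ hq, J3_ang_far hδ (by linarith)]) hx7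
    obtain ⟨m1, m2, m3⟩ := J3_coef hδ hnear hsin.neg (fun q hq => by
      rw [J3_ang_far hδ hq, J3_ang_far hδ (by linarith)]) hx7
    exact (hCP.cat hx).comb c1 s1' m1 c1 c2 c3 s2' s3' m2 m3 c2 c3
  -- first gluing
  have hbase : CP O7 (hom u1) (hom v1) :=
    hom_CP u1 v1 u1_smooth v1_smooth u1_tan v1_tan j1_comm
  have hQcont : ContinuousOn QQ O7 := QQ_smooth.continuousOn
  set K' : Set E7 := K ∪ {P | P ∈ O7 ∧ QQ P ≤ δ / 2} with hK'
  have hK'sub : K' ⊆ O1 := by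
    rintro P (hP | ⟨hP, hq⟩)
    · exact hKO hP
    · exact (hnear P hP (by linarith)).1
  have hK'open : IsOpen (O7 \ K') := by
    have h1 : O7 \ K' = (O7 \ K) ∩ (O7 ∩ QQ ⁻¹' (Ioi (δ / 2))) := by
      ext P
      simp only [hK', Set.mem_sdiff, mem_union, mem_ofPred_eq, not_or, not_and, not_le, mem_inter_iff,
        mem_preimage, mem_Ioi]
      constructor
      · rintro ⟨h1, h2, h3⟩
        exact ⟨⟨h1, h2⟩, h1, h3 h1⟩
      · rintro ⟨⟨h1, h2⟩, -, h3⟩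
        exact ⟨h1, h2, fun _ => h3⟩
    rw [h1]
    exact hKopen.inter (hQcont.isOpen_inter_preimage O7_open isOpen_Ioi)
  have hglue1 := hbase.glue hCPa hO17 hK'sub hK'open (by
    intro x hx hxK
    have hx7 := hO17 hx
    have hxK1 : x ∉ K := fun h => hxK (Or.inl h)
    have hxq : δ / 2 ≤ QQ x := by
      by_contra hlt
      exact hxK (Or.inr ⟨hx7, by linarith⟩)
    obtain ⟨h1, h2⟩ := hfar x hx hxK1
    rw [hfa, hga]
    dsimp only
    rw [J3_ang_far hδ hxq, Real.cos_zero, Real.sin_zero, h1, h2]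
    simp)
  set F1 : E7 → E7 := fun x => if x ∈ O1 then fa x else hom u1 x with hF1
  set G1 : E7 → E7 := fun x => if x ∈ O1 then ga x else hom v1 x with hG1
  have hFin : ∀ x ∈ O1, F1 x = fa x ∧ G1 x = ga x := fun x hx => by
    rw [hF1, hG1]; simp only [if_pos hx]; exact ⟨trivial, trivial⟩
  have hFout : ∀ x, x ∉ O1 → F1 x = hom u1 x ∧ G1 x = hom v1 x := fun x hx => by
    rw [hF1, hG1]; simp only [if_neg hx]; exact ⟨trivial, trivial⟩
  -- the other side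
  set fb : E7 → E7 := fun P => sg (g (sg P)) with hfb
  set gb : E7 → E7 := fun P => sg (f (sg P)) with hgb
  set O2 : Set E7 := sg ⁻¹' O1 with hO2
  have hO2open : IsOpen O2 := hCP.op.preimage J3_contDiff.continuous
  have hCPb : CP O2 fb gb := by
    have h1 := hCP.symm.pullback (Φ := sg) hO2open J3_contDiff.contDiffOn (fun x hx => hx)
      (fun x _ => J3_inv x)
    exact h1.congr (fun x _ => (J3_pull g x).symm) (fun x _ => (J3_pull f x).symm)
  have hO27 : O2 ⊆ O7 := fun P hP => by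
    have h1 := J3_mem (hO17 hP)
    rwa [sg_sg] at h1
  have hdisj : ∀ P, P ∈ O1 → P ∈ O2 → False := by
    intro P h1 h2
    refine ww_disj (pr P) (pr_mem h1.1) ⟨h1.2, ?_⟩
    have h3 := h2.2
    rwa [J3_pr] at h3
  set K2 : Set E7 := sg ⁻¹' K with hK2
  have hK2open : IsOpen (O7 \ K2) := by
    have h1 : O7 \ K2 = sg ⁻¹' (O7 \ K) := by
      ext P
      simp only [hK2, Set.mem_sdiff, mem_preimage]
      constructor
      · rintro ⟨h1, h2⟩; exact ⟨J3_mem h1, h2⟩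
      · rintro ⟨h1, h2⟩
        refine ⟨?_, h2⟩
        have := J3_mem h1
        rwa [sg_sg] at this
    rw [h1]
    exact hKopen.preimage J3_contDiff.continuous
  have hglue2 := hglue1.glue hCPb hO27 (fun x hx => hKO hx) hK2open (by
    intro x hx hxK
    have hx1 : x ∉ O1 := fun h => hdisj x h hx
    obtain ⟨h1, h2⟩ := hfar (sg x) hx hxK
    rw [(hFout x hx1).1, (hFout x hx1).2]
    refine ⟨?_, ?_⟩
    · change sg (g (sg x)) = hom u1 x
      rw [h2, ← J3_hom_u]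
    · change sg (f (sg x)) = hom v1 x
      rw [h1, ← J3_hom_v])
  refine ⟨_, _, hglue2, ?_, ?_, δ / 4, by positivity, ?_, ?_⟩
  · -- tangency
    intro P hP
    by_cases h2 : P ∈ O2
    · simp only [if_pos h2]
      obtain ⟨t1', t2'⟩ := htan (sg P) h2
      exact ⟨J3_tan t2', J3_tan t1'⟩
    · simp only [if_neg h2]
      by_cases h1 : P ∈ O1
      · rw [(hFin P h1).1, (hFin P h1).2]
        obtain ⟨t1', t2'⟩ := htan P h1
        exact ⟨J3_tan_comb t1' t2' _ _, J3_tan_comb t1' t2' _ _⟩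
      · rw [(hFout P h1).1, (hFout P h1).2]
        exact ⟨hom_tan hP (u1_tan _ (pr_mem hP)), hom_tan hP (v1_tan _ (pr_mem hP))⟩
  · -- independence
    intro P hP hq1 hq2
    by_cases h2 : P ∈ O2
    · simp only [if_pos h2]
      exact J3_ind (hind (sg P) h2 hq2).symm
    · simp only [if_neg h2]
      by_cases h1 : P ∈ O1
      · rw [(hFin P h1).1, (hFin P h1).2]
        refine (hind P h1 hq1).comb ?_
        have := Real.cos_sq_add_sin_sq (J3_ang δ (QQ P))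
        nlinarith
      · rw [(hFout P h1).1, (hFout P h1).2]
        have hp := pr_mem hP
        have w1' : ¬ ww (pr P) < 1 / 8 := fun h => h1 ⟨hP, h⟩
        have w2' : ¬ ww (sg (pr P)) < 1 / 8 := fun h => h2 ⟨J3_mem hP, by rw [J3_pr]; exact h⟩
        refine hom_ind hP (j1_ind _ hp ?_ ?_)
        · rintro ⟨e1, e2, -, -⟩
          apply w1'
          unfold ww; rw [e1, e2]; norm_num
        · rintro ⟨e1, e2, -, -⟩
          apply w2'
          unfold ww; rw [e1, e2]; norm_num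
  · intro P hP hq
    obtain ⟨h1, h2, h3⟩ := hnear P hP (by linarith)
    have h4 : P ∉ O2 := fun h => hdisj P h1 h
    simp only [if_neg h4]
    rw [(hFin P h1).1, (hFin P h1).2, hfa, hga]
    dsimp only
    rw [J3_ang_near hδ hq, Real.cos_pi_div_two, Real.sin_pi_div_two, h2, h3]
    simp
  · intro P hP hq
    obtain ⟨h1, h2, h3⟩ := hnear (sg P) (J3_mem hP) (by linarith)
    have h4 : P ∈ O2 := h1
    simp only [if_pos h4]
    rw [hfb, hgb]
    dsimp only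
    rw [h2, h3, J3_ee, J3_rho]
    exact ⟨rfl, rfl⟩

end S7Pair
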