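import Pool.Agent.S7Pair.ZHom

/-! # Module LU1: Lemma U, smoothness and commutation -/

open scoped ContDiff Topology
open VectorField Set Filter

noncomputable section

namespace S7Pair

namespace LU1

/-- the flow of `zu` -/
def rt (t : ℝ) (Z : E7) : E7 :=
  ((Real.cos t * Z.1.1 - Real.sin t * Z.1.2.1, Real.sin t * Z.1.1 + Real.cos t * Z.1.2.1,
    Z.1.2.2),
   (Z.2.1, Z.2.2.1, Real.cos t * Z.2.2.2.1 + Real.sin t * Z.2.2.2.2,
    -(Real.sin t * Z.2.2.2.1) + Real.cos t * Z.2.2.2.2))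

lemma rt_zero (Z : E7) : rt 0 Z = Z := by
  simp only [rt, Real.cos_zero, Real.sin_zero]
  ext <;> simp

lemma rt_deriv (Z : E7) : HasDerivAt (fun t => rt t Z) (zu Z) 0 := by
  have hc : ∀ a : ℝ, HasDerivAt (fun t : ℝ => Real.cos t * a) 0 0 := by
    intro a
    have := (Real.hasDerivAt_cos 0).mul_const a
    simpa using this
  have hs : ∀ a : ℝ, HasDerivAt (fun t : ℝ => Real.sin t * a) a 0 := by
    intro a
    have := (Real.hasDerivAt_sin 0).mul_const a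
    simpa using this
  have h1 := ((hc Z.1.1).sub (hs Z.1.2.1))
  have h2 := ((hs Z.1.1).add (hc Z.1.2.1))
  have h3 := ((hc Z.2.2.2.1).add (hs Z.2.2.2.2))
  have h4 := ((hs Z.2.2.2.1).neg.add (hc Z.2.2.2.2))
  have h := (h1.prodMk (h2.prodMk (hasDerivAt_const (0 : ℝ) Z.1.2.2))).prodMk
    ((hasDerivAt_const (0 : ℝ) Z.2.1).prodMk ((hasDerivAt_const (0 : ℝ) Z.2.2.1).prodMk
      (h3.prodMk h4)))
  refine h.congr_deriv ?_
  simp only [zu]
  ext <;> simp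

lemma bracket_of_equiv {V : E7 → E7} {Z : E7} (hV : ContDiffAt ℝ ∞ V Z)
    (h : ∀ t, V (rt t Z) = rt t (V Z)) : lieBracket ℝ zu V Z = 0 := by
  have hd := (hV.differentiableAt (by simp)).hasFDerivAt
  have h1 : HasDerivAt (fun t => V (rt t Z)) (fderiv ℝ V Z (zu Z)) 0 := by
    have h2 : HasFDerivAt V (fderiv ℝ V Z) (rt 0 Z) := by
      rw [rt_zero]
      exact hd
    exact h2.comp_hasDerivAt (0 : ℝ) (rt_deriv Z)
  have h2 : HasDerivAt (fun t => V (rt t Z)) (zu (V Z)) 0 := by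
    have : (fun t => V (rt t Z)) = fun t => rt t (V Z) := funext h
    rw [this]
    exact rt_deriv (V Z)
  have h3 := h1.unique h2
  rw [lieBracket, ZHOM.zu_fderiv, ZHOM.zuL_apply, h3, sub_self]

lemma cs (t : ℝ) : Real.cos t ^ 2 + Real.sin t ^ 2 = 1 := by
  rw [add_comm]; exact Real.sin_sq_add_cos_sq t

lemma zR_rt (t : ℝ) (Z : E7) : zR (rt t Z) = zR Z := by
  have h := cs t
  simp only [zR, rt]
  linear_combination (16 * (Z.1.1 ^ 2 + Z.1.2.1 ^ 2 + Z.2.2.2.1 ^ 2 + Z.2.2.2.2 ^ 2)) * h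

lemma zw_rt (t : ℝ) (Z : E7) : zw (rt t Z) = zw Z := by
  have h := cs t
  simp only [zw, rt]
  linear_combination (Z.1.1 ^ 2 + Z.1.2.1 ^ 2) * h

lemma zr_rt (t : ℝ) (Z : E7) : zr (rt t Z) = zr Z := by
  have h := cs t
  simp only [zr, rt]
  linear_combination (Z.1.1 * Z.2.2.2.1 - Z.1.2.1 * Z.2.2.2.2) * h

lemma zc1_rt (t : ℝ) (Z : E7) : zc1 (rt t Z) = zc1 Z := by
  have h : (rt t Z).2.1 = Z.2.1 := rfl
  simp only [zc1, zc, zw_rt, h]

lemma zc2_rt (t : ℝ) (Z : E7) : zc2 (rt t Z) = zc2 Z := by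
  have h : (rt t Z).2.1 = Z.2.1 := rfl
  simp only [zc2, zc, zw_rt, h]

lemma rt_add (t : ℝ) (X Y : E7) : rt t (X + Y) = rt t X + rt t Y := by
  simp only [rt]
  ext <;> simp <;> ring

lemma rt_smul (t c : ℝ) (X : E7) : rt t (c • X) = c • rt t X := by
  simp only [rt]
  ext <;> simp <;> ring

lemma zv0_rt (t : ℝ) (Z : E7) : zv0 (rt t Z) = rt t (zv0 Z) := by
  simp only [zv0, zc1_rt, zc2_rt]
  simp only [rt]
  ext <;> simp <;> ring

lemma zJ_rt (t : ℝ) (Z : E7) : zJ (rt t Z) = rt t (zJ Z) := by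
  simp only [zJ, zr_rt]
  simp only [rt]
  ext <;> simp <;> ring

lemma zK_rt (t : ℝ) (Z : E7) : zK (rt t Z) = rt t (zK Z) := by
  simp only [zK]
  simp only [rt]
  ext <;> simp

lemma zVu_rt (t : ℝ) (Z : E7) : zVu (rt t Z) = rt t (zVu Z) := by
  simp only [zVu, zR_rt, zv0_rt, zJ_rt, zK_rt, rt_add, rt_smul]

lemma sm_smooth : ContDiff ℝ ∞ sm := Real.smoothTransition.contDiff

lemma zl_smooth : ContDiff ℝ ∞ zl := by
  rw [contDiff_iff_contDiffAt]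
  intro q
  by_cases hq : q = 0
  · have h1 : ∀ᶠ x in 𝓝 q, 1 ≤ 4 * (1 - x ^ 2) - 2 := by
      have hc : ContinuousAt (fun x : ℝ => 4 * (1 - x ^ 2) - 2) q := by fun_prop
      have h2 : (1 : ℝ) < 4 * (1 - q ^ 2) - 2 := by rw [hq]; norm_num
      exact (hc.eventually (lt_mem_nhds h2)).mono fun x hx => le_of_lt hx
    have h2 : zl =ᶠ[𝓝 q] fun _ => 1 := by
      filter_upwards [h1] with x hx
      simp only [zl, sm, Real.smoothTransition.one_of_one_le hx]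
      simp
    exact contDiffAt_const.congr_of_eventuallyEq h2
  · have h1 : ContDiffAt ℝ ∞ (fun x : ℝ => sm (4 * (1 - x ^ 2) - 2)) q := by
      have : ContDiffAt ℝ ∞ (fun x : ℝ => 4 * (1 - x ^ 2) - 2) q := by fun_prop
      exact sm_smooth.contDiffAt.comp q this
    unfold zl
    exact ((contDiffAt_const.sub h1).div contDiffAt_id hq).add h1

lemma zc_pos {Z : E7} (hZ : Z ∈ OZ) : 0 < zc Z := by
  have h := hZ.1
  simp only [zc, zw]
  linarith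

lemma s1_le {Z : E7} (h : dot4 Z.2 Z.2 = 1) : Z.2.1 ^ 2 ≤ 1 := by
  simp only [dot4] at h
  nlinarith [sq_nonneg Z.2.2.1, sq_nonneg Z.2.2.2.1, sq_nonneg Z.2.2.2.2]

lemma zc1_smooth {Z : E7} (hZ : Z ∈ OZ) (h : dot4 Z.2 Z.2 = 1) : ContDiffAt ℝ ∞ zc1 Z := by
  have h0 := zc_pos hZ
  have h1 := s1_le h
  have e1 : ContDiffAt ℝ ∞ (fun Z : E7 => √(zc Z)) Z := by
    apply ContDiffAt.sqrt
    · unfold zc zw; fun_prop
    · exact h0.ne'
  have e2 : ContDiffAt ℝ ∞ (fun Z : E7 => √(2 - Z.2.1 ^ 2)) Z := by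
    apply ContDiffAt.sqrt
    · fun_prop
    · have : 0 < 2 - Z.2.1 ^ 2 := by linarith
      exact this.ne'
  have e3 : ContDiffAt ℝ ∞ (fun Z : E7 => √(zc Z) * (1 - Z.2.1 ^ 2)) Z :=
    e1.mul (by fun_prop)
  have e4 : ContDiffAt ℝ ∞ (fun Z : E7 => zl (√(zc Z) * (1 - Z.2.1 ^ 2))) Z :=
    zl_smooth.contDiffAt.comp Z e3
  unfold zc1
  exact e4.mul ((contDiffAt_const.mul e1).mul e2)

lemma zc2_smooth {Z : E7} (hZ : Z ∈ OZ) (h : dot4 Z.2 Z.2 = 1) : ContDiffAt ℝ ∞ zc2 Z := by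
  have h0 := zc_pos hZ
  have h1 := s1_le h
  have e1 : ContDiffAt ℝ ∞ (fun Z : E7 => √(zc Z)) Z := by
    apply ContDiffAt.sqrt
    · unfold zc zw; fun_prop
    · exact h0.ne'
  have e2 : ContDiffAt ℝ ∞ (fun Z : E7 => √(2 - Z.2.1 ^ 2)) Z := by
    apply ContDiffAt.sqrt
    · fun_prop
    · have : 0 < 2 - Z.2.1 ^ 2 := by linarith
      exact this.ne'
  have e3 : ContDiffAt ℝ ∞ (fun Z : E7 => √(zc Z) * (1 - Z.2.1 ^ 2)) Z :=
    e1.mul (by fun_prop)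
  have e4 : ContDiffAt ℝ ∞ (fun Z : E7 => zl (√(zc Z) * (1 - Z.2.1 ^ 2))) Z :=
    zl_smooth.contDiffAt.comp Z e3
  have e5 : ContDiffAt ℝ ∞ (fun Z : E7 => 1 - zw Z) Z := by unfold zw; fun_prop
  unfold zc2
  exact e4.mul ((contDiffAt_const.mul (e5.div e1 (Real.sqrt_pos.2 h0).ne')).mul e2)

lemma zVu_smooth {Z : E7} (hZ : Z ∈ OZ) (h : dot4 Z.2 Z.2 = 1) : ContDiffAt ℝ ∞ zVu Z := by
  have h1 := zc1_smooth hZ h
  have h2 := zc2_smooth hZ h
  have hR : ContDiffAt ℝ ∞ zR Z := by unfold zR; fun_prop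
  have hr : ContDiffAt ℝ ∞ zr Z := by unfold zr; fun_prop
  have a1 : ContDiffAt ℝ ∞ (fun Z : E7 => Z.1.1) Z := by fun_prop
  have a2 : ContDiffAt ℝ ∞ (fun Z : E7 => Z.1.2.1) Z := by fun_prop
  have b1 : ContDiffAt ℝ ∞ (fun Z : E7 => Z.2.1) Z := by fun_prop
  have b2 : ContDiffAt ℝ ∞ (fun Z : E7 => Z.2.2.1) Z := by fun_prop
  have b3 : ContDiffAt ℝ ∞ (fun Z : E7 => Z.2.2.2.1) Z := by fun_prop
  have b4 : ContDiffAt ℝ ∞ (fun Z : E7 => Z.2.2.2.2) Z := by fun_prop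
  have v0 : ContDiffAt ℝ ∞ zv0 Z := by
    unfold zv0
    exact ContDiffAt.prodMk
      (((h1.mul b1).mul a1).neg.prodMk (((h1.mul b1).mul a2).neg.prodMk contDiffAt_const))
      ((h2.mul (contDiffAt_const.add (b1.pow 2))).prodMk (((h2.mul b1).mul b2).prodMk
        (((h2.mul b1).mul b3).prodMk ((h2.mul b1).mul b4))))
  have vJ : ContDiffAt ℝ ∞ zJ Z := by
    unfold zJ
    exact ContDiffAt.prodMk (b3.prodMk (b4.neg.prodMk contDiffAt_const))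
      ((hr.mul b1).neg.prodMk ((hr.mul b2).neg.prodMk ((a1.sub (hr.mul b3)).prodMk
        (a2.neg.sub (hr.mul b4)))))
  have vK : ContDiffAt ℝ ∞ zK Z := by
    unfold zK
    fun_prop
  have s1 : ContDiffAt ℝ ∞ (fun Z => sm (5 * zR Z - 3)) Z :=
    sm_smooth.contDiffAt.comp Z ((contDiffAt_const.mul hR).sub contDiffAt_const)
  have s2 : ContDiffAt ℝ ∞ (fun Z => sm (5 - 5 * zR Z)) Z :=
    sm_smooth.contDiffAt.comp Z (contDiffAt_const.sub (contDiffAt_const.mul hR))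
  have s3 : ContDiffAt ℝ ∞ (fun Z => sm (5 * zR Z - 1)) Z :=
    sm_smooth.contDiffAt.comp Z ((contDiffAt_const.mul hR).sub contDiffAt_const)
  have s4 : ContDiffAt ℝ ∞ (fun Z => sm (3 - 5 * zR Z)) Z :=
    sm_smooth.contDiffAt.comp Z (contDiffAt_const.sub (contDiffAt_const.mul hR))
  unfold zVu
  exact ((s1.smul v0).add ((s2.mul s3).smul vJ)).add (s4.smul vK)

lemma zv0_dot {Z : E7} (h : dot4 Z.2 Z.2 = 1) : dot4 Z.2 (zv0 Z).2 = 0 := by
  simp only [dot4] at h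
  simp only [dot4, zv0]
  linear_combination (zc2 Z * Z.2.1) * h

lemma zJ_dot {Z : E7} (h : dot4 Z.2 Z.2 = 1) : dot4 Z.2 (zJ Z).2 = 0 := by
  simp only [dot4] at h
  simp only [dot4, zJ]
  have : zr Z = Z.1.1 * Z.2.2.2.1 - Z.1.2.1 * Z.2.2.2.2 := rfl
  linear_combination (-zr Z) * h - this

lemma zK_dot (Z : E7) : dot4 Z.2 (zK Z).2 = 0 := by
  simp only [dot4, zK]
  ring

lemma dot4_add (a b c : R4) : dot4 a (b + c) = dot4 a b + dot4 a c := by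
  simp only [dot4, Prod.fst_add, Prod.snd_add]
  ring

lemma dot4_smul (a b : R4) (c : ℝ) : dot4 a (c • b) = c * dot4 a b := by
  simp only [dot4, Prod.smul_fst, Prod.smul_snd, smul_eq_mul]
  ring

end LU1

theorem zVu_facts : ∀ Z ∈ OZ, dot4 Z.2 Z.2 = 1 →
    ContDiffAt ℝ ∞ zVu Z ∧ dot4 Z.2 (zVu Z).2 = 0 ∧ (zVu Z).1.2.2 = 0 ∧
      lieBracket ℝ zu zVu Z = 0 := by
  intro Z hZ h
  have hs := LU1.zVu_smooth hZ h
  refine ⟨hs, ?_, ?_, LU1.bracket_of_equiv hs fun t => LU1.zVu_rt t Z⟩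
  · simp only [zVu, Prod.snd_add, Prod.smul_snd, LU1.dot4_add, LU1.dot4_smul, LU1.zv0_dot h,
      LU1.zJ_dot h, LU1.zK_dot]
    ring
  · simp [zVu, zv0, zJ, zK]

end S7Pair
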