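import Pool.Agent.S7Pair.ZHom

/-! # Module LU2: Lemma U, independence -/

open scoped ContDiff Topology
open VectorField Set Filter

noncomputable section

namespace S7Pair

namespace LU2

lemma zl_pos {q : ℝ} (hq : 0 ≤ q) : 0 < zl q := by
  unfold zl sm
  have h0 := Real.smoothTransition.nonneg (4 * (1 - q ^ 2) - 2)
  have h1 := Real.smoothTransition.le_one (4 * (1 - q ^ 2) - 2)
  rcases hq.eq_or_lt with h | h
  · have e : Real.smoothTransition (4 * (1 - q ^ 2) - 2) = 1 := by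
      apply Real.smoothTransition.one_of_one_le
      rw [← h]; norm_num
    rw [e]
    simp
  · rcases h0.eq_or_lt with h2 | h2
    · rw [← h2]
      have : 0 < 1 / q := by positivity
      simpa using this
    · have : 0 ≤ (1 - Real.smoothTransition (4 * (1 - q ^ 2) - 2)) / q :=
        div_nonneg (by linarith) hq
      linarith

lemma zc_pos {Z : E7} (hZ : Z ∈ OZ) : 0 < zc Z := by
  have h := hZ.1
  simp only [zc, zw]
  linarith

lemma s1_le {Z : E7} (h : dot4 Z.2 Z.2 = 1) : Z.2.1 ^ 2 ≤ 1 := by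
  simp only [dot4] at h
  nlinarith [sq_nonneg Z.2.2.1, sq_nonneg Z.2.2.2.1, sq_nonneg Z.2.2.2.2]

end LU2

lemma zc1_pos {Z : E7} (hZ : Z ∈ OZ) (h : dot4 Z.2 Z.2 = 1) : 0 < zc1 Z := by
  have h0 := LU2.zc_pos hZ
  have h1 := LU2.s1_le h
  have e1 : 0 < √(zc Z) := Real.sqrt_pos.2 h0
  have e2 : 0 < √(2 - Z.2.1 ^ 2) := Real.sqrt_pos.2 (by linarith)
  have e3 : 0 < zl (√(zc Z) * (1 - Z.2.1 ^ 2)) :=
    LU2.zl_pos (mul_nonneg e1.le (by linarith))
  unfold zc1
  positivity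

lemma zc2_pos {Z : E7} (hZ : Z ∈ OZ) (h : dot4 Z.2 Z.2 = 1) : 0 < zc2 Z := by
  have h0 := LU2.zc_pos hZ
  have h1 := LU2.s1_le h
  have e1 : 0 < √(zc Z) := Real.sqrt_pos.2 h0
  have e2 : 0 < √(2 - Z.2.1 ^ 2) := Real.sqrt_pos.2 (by linarith)
  have e3 : 0 < zl (√(zc Z) * (1 - Z.2.1 ^ 2)) :=
    LU2.zl_pos (mul_nonneg e1.le (by linarith))
  have e4 : 0 < 1 - zw Z := by
    have h := hZ.1
    simp only [zw]
    linarith
  unfold zc2
  positivity

set_option maxHeartbeats 1000000 in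
theorem zVu_ind : ∀ Z ∈ OZ, dot4 Z.2 Z.2 = 1 →
    ¬(Z.1.1 = 0 ∧ Z.1.2.1 = 0 ∧ Z.2.2.2.1 = 0 ∧ Z.2.2.2.2 = 0) → Ind (zu Z) (zVu Z) := by
  intro Z hZ h hne a b hab
  have hc1 := zc1_pos hZ h
  have hc2 := zc2_pos hZ h
  have hr : zr Z = Z.1.1 * Z.2.2.2.1 - Z.1.2.1 * Z.2.2.2.2 := rfl
  have hR : zR Z = 16 * (Z.1.1 ^ 2 + Z.1.2.1 ^ 2 + Z.2.2.2.1 ^ 2 + Z.2.2.2.2 ^ 2) := rfl
  have hdot : Z.2.1 ^ 2 + Z.2.2.1 ^ 2 + Z.2.2.2.1 ^ 2 + Z.2.2.2.2 ^ 2 = 1 := by
    simp only [dot4] at h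
    linarith
  have hα0 : 0 ≤ sm (5 * zR Z - 3) := Real.smoothTransition.nonneg _
  have hβ0 : 0 ≤ sm (5 - 5 * zR Z) * sm (5 * zR Z - 1) :=
    mul_nonneg (Real.smoothTransition.nonneg _) (Real.smoothTransition.nonneg _)
  have hαγ : 0 < sm (5 * zR Z - 3) → sm (3 - 5 * zR Z) = 0 := by
    intro hp
    apply Real.smoothTransition.zero_of_nonpos
    by_contra hn
    have : sm (5 * zR Z - 3) = 0 := Real.smoothTransition.zero_of_nonpos (by linarith)
    rw [this] at hp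
    exact lt_irrefl _ hp
  have hαβ : sm (5 * zR Z - 3) = 0 → sm (5 - 5 * zR Z) * sm (5 * zR Z - 1) = 0 →
      sm (3 - 5 * zR Z) = 1 ∧ zR Z ≤ 1 / 5 := by
    intro h1 h2
    have h3 : 5 * zR Z - 3 ≤ 0 := by
      by_contra hn
      exact (Real.smoothTransition.pos_of_pos (not_le.1 hn)).ne' h1
    have h4 : sm (5 - 5 * zR Z) = 1 := Real.smoothTransition.one_of_one_le (by linarith)
    rw [h4, one_mul] at h2
    have h5 : 5 * zR Z - 1 ≤ 0 := by
      by_contra hn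
      exact (Real.smoothTransition.pos_of_pos (not_le.1 hn)).ne' h2
    exact ⟨Real.smoothTransition.one_of_one_le (by linarith), by linarith⟩
  have hV : zVu Z = sm (5 * zR Z - 3) • zv0 Z + (sm (5 - 5 * zR Z) * sm (5 * zR Z - 1)) • zJ Z
    + sm (3 - 5 * zR Z) • zK Z := rfl
  generalize sm (5 * zR Z - 3) = α at *
  generalize sm (5 - 5 * zR Z) * sm (5 * zR Z - 1) = β at *
  generalize sm (3 - 5 * zR Z) = γ at *
  rw [hV] at hab
  -- components
  have q1 := congrArg (fun X : E7 => X.1.1) hab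
  have q2 := congrArg (fun X : E7 => X.1.2.1) hab
  have q4 := congrArg (fun X : E7 => X.2.1) hab
  have q5 := congrArg (fun X : E7 => X.2.2.1) hab
  have q6 := congrArg (fun X : E7 => X.2.2.2.1) hab
  have q7 := congrArg (fun X : E7 => X.2.2.2.2) hab
  simp only [zu, zv0, zJ, zK, Prod.fst_add, Prod.snd_add, Prod.smul_fst, Prod.smul_snd,
    smul_eq_mul, Prod.fst_zero, Prod.snd_zero] at q1 q2 q4 q5 q6 q7
  generalize zr Z = r at *
  generalize zc1 Z = c1 at *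
  generalize zc2 Z = c2 at *
  generalize zR Z = R at *
  generalize Z.1.1 = x1 at *
  generalize Z.1.2.1 = x2 at *
  generalize Z.2.1 = k1 at *
  generalize Z.2.2.1 = k2 at *
  generalize Z.2.2.2.1 = k3 at *
  generalize Z.2.2.2.2 = k4 at *
  have hpos : 0 < x1 ^ 2 + x2 ^ 2 + k3 ^ 2 + k4 ^ 2 := by
    by_contra hn
    apply hne
    have e1 : x1 ^ 2 = 0 := by nlinarith [sq_nonneg x1, sq_nonneg x2, sq_nonneg k3, sq_nonneg k4]
    have e2 : x2 ^ 2 = 0 := by nlinarith [sq_nonneg x1, sq_nonneg x2, sq_nonneg k3, sq_nonneg k4]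
    have e3 : k3 ^ 2 = 0 := by nlinarith [sq_nonneg x1, sq_nonneg x2, sq_nonneg k3, sq_nonneg k4]
    have e4 : k4 ^ 2 = 0 := by nlinarith [sq_nonneg x1, sq_nonneg x2, sq_nonneg k3, sq_nonneg k4]
    rw [sq_eq_zero_iff] at e1 e2 e3 e4
    exact ⟨e1, e2, e3, e4⟩
  by_cases hb : b = 0
  · subst hb
    refine ⟨?_, rfl⟩
    have : a * (x1 ^ 2 + x2 ^ 2 + k3 ^ 2 + k4 ^ 2) = 0 := by
      linear_combination (-x2) * q1 + x1 * q2 + k4 * q6 - k3 * q7
    exact (mul_eq_zero.1 this).resolve_right hpos.ne'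
  exfalso
  have E1 : -(α * c1 * k1 * (x1 ^ 2 + x2 ^ 2)) + β * r = 0 := by
    have : b * (-(α * c1 * k1 * (x1 ^ 2 + x2 ^ 2)) + β * r) = 0 := by
      linear_combination x1 * q1 + x2 * q2 + b * β * hr
    exact (mul_eq_zero.1 this).resolve_left hb
  have E2 : α * c2 * k1 * (k3 ^ 2 + k4 ^ 2) + β * r * (1 - (k3 ^ 2 + k4 ^ 2)) = 0 := by
    have : b * (α * c2 * k1 * (k3 ^ 2 + k4 ^ 2) + β * r * (1 - (k3 ^ 2 + k4 ^ 2))) = 0 := by
      linear_combination k3 * q6 + k4 * q7 + b * β * hr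
    exact (mul_eq_zero.1 this).resolve_left hb
  have E3 : α * c2 * (-1 + k1 ^ 2) - β * r * k1 - γ * k2 = 0 := by
    have : b * (α * c2 * (-1 + k1 ^ 2) - β * r * k1 - γ * k2) = 0 := by
      linear_combination q4
    exact (mul_eq_zero.1 this).resolve_left hb
  have E4 : α * c2 * k1 * k2 - β * r * k2 + γ * k1 = 0 := by
    have : b * (α * c2 * k1 * k2 - β * r * k2 + γ * k1) = 0 := by
      linear_combination q5
    exact (mul_eq_zero.1 this).resolve_left hb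
  rcases hα0.eq_or_lt with hα | hα
  · rcases hβ0.eq_or_lt with hβ | hβ
    · obtain ⟨g1, g2⟩ := hαβ hα.symm hβ.symm
      rw [← hα, ← hβ, g1] at E3 E4
      have f1 : k1 = 0 := by linear_combination E4
      have f2 : k2 = 0 := by linear_combination -E3
      rw [f1, f2] at hdot
      have f3 : R = 16 * (x1 ^ 2 + x2 ^ 2) + 16 := by linear_combination hR + 16 * hdot
      have f4 : 0 ≤ 16 * (x1 ^ 2 + x2 ^ 2) := by positivity
      clear hR hdot E1 E2 E3 E4 q1 q2 q4 q5 q6 q7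
      linarith
    · rw [← hα] at E1 q1 q2 q6 q7
      have hr0 : r = 0 := by
        have : β * r = 0 := by linear_combination E1
        exact (mul_eq_zero.1 this).resolve_left hβ.ne'
      rw [hr0] at q6 q7
      have hbβ : b * β ≠ 0 := mul_ne_zero hb hβ.ne'
      have w1 : (a ^ 2 + (b * β) ^ 2) * x1 = 0 := by
        linear_combination a * q2 + (b * β) * q6
      have w2 : (a ^ 2 + (b * β) ^ 2) * x2 = 0 := by
        linear_combination (-a) * q1 - (b * β) * q7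
      have hp : a ^ 2 + (b * β) ^ 2 ≠ 0 := by positivity
      have x10 := (mul_eq_zero.1 w1).resolve_left hp
      have x20 := (mul_eq_zero.1 w2).resolve_left hp
      rw [x10, x20] at q1 q2
      have k30 : k3 = 0 := by
        have : (b * β) * k3 = 0 := by linear_combination q1
        exact (mul_eq_zero.1 this).resolve_left hbβ
      have k40 : k4 = 0 := by
        have : (b * β) * k4 = 0 := by linear_combination -q2
        exact (mul_eq_zero.1 this).resolve_left hbβ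
      exact hne ⟨x10, x20, k30, k40⟩
  · have hγ := hαγ hα
    have hs : k1 * (c1 * (x1 ^ 2 + x2 ^ 2) * (k1 ^ 2 + k2 ^ 2) + c2 * (k3 ^ 2 + k4 ^ 2)) = 0 := by
      have : α * (k1 * (c1 * (x1 ^ 2 + x2 ^ 2) * (k1 ^ 2 + k2 ^ 2) + c2 * (k3 ^ 2 + k4 ^ 2))) = 0 := by
        linear_combination (-(k1 ^ 2 + k2 ^ 2)) * E1 + E2 + (β * r) * hdot
      exact (mul_eq_zero.1 this).resolve_left hα.ne'
    rcases mul_eq_zero.1 hs with k10 | h0
    · rw [k10, hγ] at E3
      have : α * c2 = 0 := by linear_combination -E3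
      exact (mul_pos hα hc2).ne' this
    · have p1 : 0 ≤ c1 * (x1 ^ 2 + x2 ^ 2) * (k1 ^ 2 + k2 ^ 2) := by positivity
      have p2 : 0 ≤ c2 * (k3 ^ 2 + k4 ^ 2) := by positivity
      clear q1 q2 q4 q5 q6 q7 E1 E2 E3 E4
      have p3 : c2 * (k3 ^ 2 + k4 ^ 2) = 0 := by linarith
      have p4 : k3 ^ 2 + k4 ^ 2 = 0 := (mul_eq_zero.1 p3).resolve_left hc2.ne'
      have p5 : k1 ^ 2 + k2 ^ 2 = 1 := by linarith
      have p6 : c1 * (x1 ^ 2 + x2 ^ 2) * (k1 ^ 2 + k2 ^ 2) = 0 := by linarith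
      rw [p5, mul_one] at p6
      have p7 : x1 ^ 2 + x2 ^ 2 = 0 := (mul_eq_zero.1 p6).resolve_left hc1.ne'
      linarith

lemma zVu_far {Z : E7} (h : 1 ≤ zR Z) : zVu Z = zv0 Z := by
  have h1 : sm (5 * zR Z - 3) = 1 := Real.smoothTransition.one_of_one_le (by linarith)
  have h2 : sm (5 - 5 * zR Z) = 0 := Real.smoothTransition.zero_of_nonpos (by linarith)
  have h3 : sm (3 - 5 * zR Z) = 0 := Real.smoothTransition.zero_of_nonpos (by linarith)
  unfold zVu
  rw [h1, h2, h3]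
  simp

lemma zVu_near {Z : E7} (h : zR Z ≤ 1 / 5) : zVu Z = zK Z := by
  have h1 : sm (5 * zR Z - 3) = 0 := Real.smoothTransition.zero_of_nonpos (by linarith)
  have h2 : sm (5 * zR Z - 1) = 0 := Real.smoothTransition.zero_of_nonpos (by linarith)
  have h3 : sm (3 - 5 * zR Z) = 1 := Real.smoothTransition.one_of_one_le (by linarith)
  unfold zVu
  rw [h1, h2, h3]
  simp

end S7Pair
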