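import Pool.Agent.S7Pair.Xi1
import Pool.Agent.S7Pair.FD

/-! # Module XI2: the fields rho' and Theta are the pull-backs of `zu` and `zK` near `w = 0` -/

open scoped ContDiff Topology
open VectorField Set Filter

noncomputable section

namespace S7Pair

lemma Xi_near {Z : E7} (h : zw Z ≤ 1 / 32) :
    Xi Z = (Z.1, ((hc c0 Z.2).2.2.1, (hc c0 Z.2).2.2.2, -(hc c0 Z.2).1, -(hc c0 Z.2).2.1)) := by
  have h1 : chi Z = 1 := by
    unfold chi zw at *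
    exact Real.smoothTransition.one_of_one_le (by linarith)
  unfold Xi
  rw [h1, one_mul, one_mul]
  unfold rotQ
  rw [Real.cos_pi_div_two, Real.sin_pi_div_two]
  simp

private lemma xi2_pos {s : R4} (hs : s ≠ 0) :
    0 < s.1 ^ 2 + s.2.1 ^ 2 + s.2.2.1 ^ 2 + s.2.2.2 ^ 2 := by
  refine lt_of_le_of_ne (by positivity) fun h => hs ?_
  have a : s.1 = 0 := by nlinarith [sq_nonneg s.1, sq_nonneg s.2.1, sq_nonneg s.2.2.1, sq_nonneg s.2.2.2]
  have b : s.2.1 = 0 := by nlinarith [sq_nonneg s.1, sq_nonneg s.2.1, sq_nonneg s.2.2.1, sq_nonneg s.2.2.2]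
  have c : s.2.2.1 = 0 := by nlinarith [sq_nonneg s.1, sq_nonneg s.2.1, sq_nonneg s.2.2.1, sq_nonneg s.2.2.2]
  have d : s.2.2.2 = 0 := by nlinarith [sq_nonneg s.1, sq_nonneg s.2.1, sq_nonneg s.2.2.1, sq_nonneg s.2.2.2]
  exact Prod.ext a (Prod.ext b (Prod.ext c d))

private lemma xi2_n4_pos {s : R4} (hs : s ≠ 0) : 0 < n4 s := Real.sqrt_pos.2 (xi2_pos hs)

private lemma xi2_n4_sq (s : R4) : n4 s ^ 2 = s.1 ^ 2 + s.2.1 ^ 2 + s.2.2.1 ^ 2 + s.2.2.2 ^ 2 :=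
  Real.sq_sqrt (by positivity)

private lemma xi2_den {s : R4} (hs : s ≠ 0) : 0 < n4 s - c0 * s.1 := by
  have h0 := c0_facts
  have h1 := xi2_n4_pos hs
  have h2 : s.1 ≤ n4 s := by
    apply Real.le_sqrt_of_sq_le
    nlinarith [sq_nonneg s.2.1, sq_nonneg s.2.2.1, sq_nonneg s.2.2.2]
  nlinarith [mul_pos h0.1 h1]

private lemma xi2_dn {p : E7} (hp : p.2 ≠ 0) :
    DifferentiableAt ℝ (fun P : E7 => n4 P.2) p := by
  unfold n4
  refine DifferentiableAt.sqrt (by fun_prop) (xi2_pos hp).ne'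

private lemma xi2_fn {p : E7} (v : E7) (hp : p.2 ≠ 0) :
    fderiv ℝ (fun P : E7 => n4 P.2) p v = dot4 p.2 v.2 / n4 p.2 := by
  unfold n4
  rw [fd_sqrt (f := fun P : E7 => P.2.1 ^ 2 + P.2.2.1 ^ 2 + P.2.2.2.1 ^ 2 + P.2.2.2.2 ^ 2)
    (by fun_prop) (xi2_pos hp)]
  simp (disch := fun_prop) only [fd_add, fd_sq, fd_ta, fd_y1, fd_y2, fd_y3]
  unfold dot4
  have h := Real.sqrt_pos.2 (xi2_pos hp)
  field_simp

/-- derivative of one component of `hc` along a direction in which `n4` is constant. -/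
private lemma xi2_comp {p v : E7} (hp : p.2 ≠ 0) (hv : dot4 p.2 v.2 = 0) {A : E7 → ℝ}
    (hA : DifferentiableAt ℝ A p) :
    DifferentiableAt ℝ (fun P : E7 => n4 P.2 * A P / (n4 P.2 - c0 * P.2.1)) p ∧
    fderiv ℝ (fun P : E7 => n4 P.2 * A P / (n4 P.2 - c0 * P.2.1)) p v =
      n4 p.2 * (fderiv ℝ A p v * (n4 p.2 - c0 * p.2.1) + A p * (c0 * v.2.1)) /
        (n4 p.2 - c0 * p.2.1) ^ 2 := by
  have hd := xi2_den hp
  have hn := xi2_dn hp
  have h0 : DifferentiableAt ℝ (fun P : E7 => P.2.1) p := by fun_prop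
  have h1 : DifferentiableAt ℝ (fun P : E7 => n4 P.2 - c0 * P.2.1) p :=
    hn.sub (h0.const_mul _)
  have h2 : DifferentiableAt ℝ (fun P : E7 => n4 P.2 * A P) p := hn.mul hA
  have h3 : n4 p.2 - c0 * p.2.1 ≠ 0 := hd.ne'
  have h4 : DifferentiableAt ℝ (fun P : E7 => n4 P.2 * A P / (n4 P.2 - c0 * P.2.1)) p := by
    simp only [div_eq_mul_inv]
    exact h2.mul (h1.inv h3)
  refine ⟨h4, ?_⟩
  rw [fd_div h2 h1 hd.ne', fd_mul hn hA, fd_sub hn (h0.const_mul _),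
    fd_mul (f := fun _ => c0) (by fun_prop) h0, fd_const, fd_ta, xi2_fn v hp, hv]
  congr 1
  ring

private def xi2X (Z : E7) : E7 :=
  (Z.1, ((hc c0 Z.2).2.2.1, (hc c0 Z.2).2.2.2, -(hc c0 Z.2).1, -(hc c0 Z.2).2.1))

private lemma xi2_ev {Z : E7} (h : zw Z < 1 / 32) : Xi =ᶠ[𝓝 Z] xi2X := by
  have ho : IsOpen {P : E7 | zw P < 1 / 32} := by
    apply isOpen_lt _ continuous_const
    unfold zw; fun_prop
  exact eventually_of_mem (ho.mem_nhds h) fun P hP => Xi_near (le_of_lt hP)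

private lemma xi2_fd {p v : E7} (hp : p.2 ≠ 0) (hv : dot4 p.2 v.2 = 0) :
    fderiv ℝ xi2X p v = (v.1,
      (n4 p.2 * (g0 * v.2.2.2.1 * (n4 p.2 - c0 * p.2.1) + g0 * p.2.2.2.1 * (c0 * v.2.1)) /
        (n4 p.2 - c0 * p.2.1) ^ 2,
       n4 p.2 * (g0 * v.2.2.2.2 * (n4 p.2 - c0 * p.2.1) + g0 * p.2.2.2.2 * (c0 * v.2.1)) /
        (n4 p.2 - c0 * p.2.1) ^ 2,
       -(n4 p.2 * (v.2.1 * (n4 p.2 - c0 * p.2.1) + (p.2.1 - c0 * n4 p.2) * (c0 * v.2.1)) /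
        (n4 p.2 - c0 * p.2.1) ^ 2),
       -(n4 p.2 * (g0 * v.2.2.1 * (n4 p.2 - c0 * p.2.1) + g0 * p.2.2.1 * (c0 * v.2.1)) /
        (n4 p.2 - c0 * p.2.1) ^ 2))) := by
  have hg : √(1 - c0 ^ 2) = g0 := c0_facts.2.2.2.2.2
  have hn := xi2_dn hp
  have a1 : DifferentiableAt ℝ (fun P : E7 => P.2.1 - c0 * n4 P.2) p :=
    DifferentiableAt.sub (by fun_prop) (hn.const_mul _)
  have a2 : DifferentiableAt ℝ (fun P : E7 => g0 * P.2.2.1) p := by fun_prop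
  have a3 : DifferentiableAt ℝ (fun P : E7 => g0 * P.2.2.2.1) p := by fun_prop
  have a4 : DifferentiableAt ℝ (fun P : E7 => g0 * P.2.2.2.2) p := by fun_prop
  have b1 := xi2_comp hp hv a1
  have b2 := xi2_comp hp hv a2
  have b3 := xi2_comp hp hv a3
  have b4 := xi2_comp hp hv a4
  have e1 : fderiv ℝ (fun P : E7 => P.2.1 - c0 * n4 P.2) p v = v.2.1 := by
    rw [fd_sub (by fun_prop) (hn.const_mul _), fd_mul (f := fun _ => c0) (by fun_prop) hn,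
      fd_const, fd_ta, xi2_fn v hp, hv]
    ring
  have e2 : fderiv ℝ (fun P : E7 => g0 * P.2.2.1) p v = g0 * v.2.2.1 := by
    rw [fd_mul (f := fun _ => g0) (by fun_prop) (by fun_prop), fd_const, fd_y1]; ring
  have e3 : fderiv ℝ (fun P : E7 => g0 * P.2.2.2.1) p v = g0 * v.2.2.2.1 := by
    rw [fd_mul (f := fun _ => g0) (by fun_prop) (by fun_prop), fd_const, fd_y2]; ring
  have e4 : fderiv ℝ (fun P : E7 => g0 * P.2.2.2.2) p v = g0 * v.2.2.2.2 := by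
    rw [fd_mul (f := fun _ => g0) (by fun_prop) (by fun_prop), fd_const, fd_y3]; ring
  rw [e1] at b1
  rw [e2] at b2
  rw [e3] at b3
  rw [e4] at b4
  have hX : xi2X = fun P : E7 => (P.1,
      (n4 P.2 * (g0 * P.2.2.2.1) / (n4 P.2 - c0 * P.2.1),
       n4 P.2 * (g0 * P.2.2.2.2) / (n4 P.2 - c0 * P.2.1),
       -(n4 P.2 * (P.2.1 - c0 * n4 P.2) / (n4 P.2 - c0 * P.2.1)),
       -(n4 P.2 * (g0 * P.2.2.1) / (n4 P.2 - c0 * P.2.1)))) := by
    funext P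
    unfold xi2X hc
    rw [hg]
  have d0 : DifferentiableAt ℝ (fun P : E7 => P.1) p := by fun_prop
  rw [hX]
  rw [fd_pair d0 (b3.1.prodMk (b4.1.prodMk (b1.1.fun_neg.prodMk b2.1.fun_neg))),
    fd_pair b3.1 (b4.1.prodMk (b1.1.fun_neg.prodMk b2.1.fun_neg)),
    fd_pair b4.1 (b1.1.fun_neg.prodMk b2.1.fun_neg), fd_pair b1.1.fun_neg b2.1.fun_neg, b3.2, b4.2, fd_neg,
    fd_neg, b1.2, b2.2]
  congr 1
  rw [show (fun P : E7 => P.1) = Prod.fst from rfl, fderiv_fst]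
  rfl

theorem Xi_rho : ∀ Z ∈ OZ, zw Z < 1 / 32 → fderiv ℝ Xi Z (zRho Z) = zu (Xi Z) := by
  intro Z hZ hw
  have hs : Z.2 ≠ 0 := hZ.2.2
  have hn := xi2_n4_pos hs
  have hd := xi2_den hs
  have hsq := xi2_n4_sq Z.2
  obtain ⟨hc0, hc1, hc2, hg0, hg2, hg⟩ := c0_facts
  have hcg : g0 ^ 2 = 1 - c0 ^ 2 := by rw [hg2, hc2]; ring
  have hv : dot4 Z.2 (zRho Z).2 = 0 := by
    unfold dot4 zRho
    simp only
    field_simp
    rw [hsq]
    ring
  rw [(xi2_ev hw).fderiv_eq, xi2_fd hs hv, Xi_near hw.le]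
  unfold zu zRho hc
  rw [hg]
  simp only
  refine Prod.ext rfl (Prod.ext ?_ (Prod.ext ?_ (Prod.ext ?_ ?_)))
  · simp only
    field_simp
    ring
  · simp only
    field_simp
    ring
  · simp only
    field_simp
    rw [hcg]
    ring
  · simp only
    field_simp
    ring

theorem Xi_Th : ∀ Z ∈ OZ, zw Z < 1 / 32 → fderiv ℝ Xi Z (Th Z) = zK (Xi Z) := by
  intro Z hZ hw
  have hs : Z.2 ≠ 0 := hZ.2.2
  have hn := xi2_n4_pos hs
  have hd := xi2_den hs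
  obtain ⟨hc0, hc1, hc2, hg0, hg2, hg⟩ := c0_facts
  have hv : dot4 Z.2 (Th Z).2 = 0 := by
    unfold dot4 Th
    simp only
    ring
  rw [(xi2_ev hw).fderiv_eq, xi2_fd hs hv, Xi_near hw.le]
  unfold zK Th hc
  rw [hg]
  simp only
  refine Prod.ext rfl (Prod.ext ?_ (Prod.ext ?_ (Prod.ext ?_ ?_)))
  · simp only
    field_simp
    ring
  · simp only
    field_simp
    ring
  · simp only
    ring
  · simp only
    ring

theorem Xi_zR : ∀ Z ∈ OZ, zw Z ≤ 1 / 32 → zR (zpr (Xi Z)) = 16 * zx Z := by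
  intro Z hZ hw
  have hs : Z.2 ≠ 0 := hZ.2.2
  have hn := xi2_n4_pos hs
  have hl := (Xi_levels Z hZ).2
  have hX := Xi_near hw
  unfold zR zpr zx zk
  rw [hl, hX]
  simp only [Prod.smul_fst, Prod.smul_snd, smul_eq_mul]
  field_simp

end S7Pair
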