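import Pool.Agent.S7Pair.Defs2
import Pool.Agent.S7Pair.J1c
import Pool.Agent.S7Pair.J1d
import Pool.Agent.S7Pair.Ch4
import Pool.Agent.S7Pair.LU1
import Pool.Agent.S7Pair.LU2
import Pool.Agent.S7Pair.Xi2

/-! # Module LOC1: the pair on `O1` after moving the bad circle -/

open scoped ContDiff Topology
open VectorField Set Filter

noncomputable section

namespace S7Pair

lemma Loc1_ch_diff {P : E7} (hP : P ∈ O1) : DifferentiableAt ℝ ch P :=
  (ch_smooth.contDiffAt (O1_open.mem_nhds hP)).differentiableAt (by simp)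

lemma Loc1_Xi_diff {Z : E7} (hZ : Z ∈ OZ) : DifferentiableAt ℝ Xi Z :=
  (Xi_smooth.contDiffAt (OZ_open.mem_nhds hZ)).differentiableAt (by simp)

lemma Loc1_fd {P : E7} (hP : P ∈ O1) :
    fderiv ℝ (fun P => Xi (ch P)) P = (fderiv ℝ Xi (ch P)).comp (fderiv ℝ ch P) :=
  fderiv_comp P (Loc1_Xi_diff (ch_maps hP)) (Loc1_ch_diff hP)

lemma Loc1_diff {P : E7} (hP : P ∈ O1) : DifferentiableAt ℝ (fun P => Xi (ch P)) P :=
  (Loc1_Xi_diff (ch_maps hP)).comp P (Loc1_ch_diff hP)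

lemma Loc1_inv {P : E7} (hP : P ∈ O1) :
    (fderiv ℝ (fun P => Xi (ch P)) P).IsInvertible := by
  rw [Loc1_fd hP]
  exact (Xi_inv _ (ch_maps hP)).comp (ch_inv P hP)

lemma Loc1_maps : MapsTo (fun P => Xi (ch P)) O1 OZ := fun _ hP => Xi_maps (ch_maps hP)

lemma Loc1_zCP : CP OZ zu zV :=
  zhom_CP zVu fun Z hZ h => by
    obtain ⟨h1, h2, -, h4⟩ := zVu_facts Z hZ h
    exact ⟨h1, h2, h4⟩

theorem loc1_CP : CP O1 Pu Pv :=
  CP.pullback Loc1_zCP O1_open (Xi_smooth.comp ch_smooth ch_maps) Loc1_maps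
    fun _ hP => Loc1_inv hP

lemma Loc1_zpr1 (Z : E7) : (zpr Z).1 = Z.1 := rfl

theorem loc1_far : ∀ P ∈ O1, 1 / 16 < ww (pr P) → Pu P = hom u1 P ∧ Pv P = hom v1 P := by
  intro P hP hw
  have hZ := ch_maps hP
  have hzw : 1 / 16 < zw (ch P) := by rw [(ch_levels hP).2.2]; exact hw
  have hev : ∀ᶠ Z in 𝓝 (ch P), Xi Z = Z := by
    have h1 : IsOpen {Z : E7 | 1 / 16 < zw Z} := by
      unfold zw
      exact isOpen_lt (by fun_prop) (by fun_prop)
    filter_upwards [OZ_open.mem_nhds hZ, h1.mem_nhds hzw] with Z h2 h3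
    exact Xi_far Z h2 h3
  have hX : Xi (ch P) = ch P := hev.self_of_nhds
  have hfX : fderiv ℝ Xi (ch P) = ContinuousLinearMap.id ℝ E7 := by
    have : Xi =ᶠ[𝓝 (ch P)] fun Z => Z := hev
    rw [this.fderiv_eq]
    exact fderiv_id
  have hfd : ∀ v, fderiv ℝ (fun P => Xi (ch P)) P v = fderiv ℝ ch P v := by
    intro v
    rw [Loc1_fd hP, hfX]
    rfl
  constructor
  · apply pullback_eq_of (Loc1_inv hP)
    rw [hfd, ch_u P hP, hX]
  · apply pullback_eq_of (Loc1_inv hP)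
    rw [hfd, ch_v P hP, hX]
    unfold zV zhom
    have h4 : 1 ≤ zR (zpr (ch P)) := by
      unfold zw at hzw
      unfold zR
      rw [Loc1_zpr1]
      nlinarith [sq_nonneg (zpr (ch P)).2.2.2.1, sq_nonneg (zpr (ch P)).2.2.2.2]
    rw [zVu_far h4]

lemma Loc1_fd_pull {P : E7} (hP : P ∈ O1) (V : E7 → E7) :
    fderiv ℝ (fun P => Xi (ch P)) P (VectorField.pullback ℝ (fun P => Xi (ch P)) V P) =
      V (Xi (ch P)) := fderiv_pullback _ V P (Loc1_inv hP)

/-- a vector whose image is tangent to the levels is tangent to the levels. -/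
lemma Loc1_tan {P v : E7} (hP : P ∈ O1)
    (h1 : (fderiv ℝ (fun P => Xi (ch P)) P v).1.2.2 = 0)
    (h2 : dot4 (Xi (ch P)).2 (fderiv ℝ (fun P => Xi (ch P)) P v).2 = 0) : Tan P v := by
  have hd := Loc1_diff hP
  constructor
  · have e1 : (fun P => (Xi (ch P)).1.2.2) =ᶠ[𝓝 P] fun P => n3 P.1 := by
      filter_upwards [O1_open.mem_nhds hP] with Q hQ
      rw [(Xi_levels _ (ch_maps hQ)).1, (ch_levels hQ).1]
    have e2 : fderiv ℝ (fun P => (Xi (ch P)).1.2.2) P v =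
        (fderiv ℝ (fun P => Xi (ch P)) P v).1.2.2 := by
      have k1 : DifferentiableAt ℝ (fun P => (Xi (ch P)).1) P := hd.fst
      have k2 : DifferentiableAt ℝ (fun P => (Xi (ch P)).1.2) P := k1.snd
      rw [fd_snd (F := fun P => (Xi (ch P)).1.2) k2, fd_snd (F := fun P => (Xi (ch P)).1) k1,
        fd_fst (F := fun P => Xi (ch P)) hd]
    rw [e1.fderiv_eq, h1] at e2
    obtain ⟨L, hL, hLv⟩ := Hom_n3_deriv hP.1.1
    have h3 : HasFDerivAt (fun P : E7 => n3 P.1) (L.comp (ContinuousLinearMap.fst ℝ R3 R4)) P :=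
      hL.comp P hasFDerivAt_fst
    rw [h3.fderiv] at e2
    have e3 : L v.1 = 0 := e2
    rw [← hLv, e3, mul_zero]
  · have hn := ZHOM.n4_pos hP.1.2
    have hZ := Loc1_maps hP
    have hd2 : DifferentiableAt ℝ (fun P => (Xi (ch P)).2) P := hd.snd
    have e1 : (fun P => n4 (Xi (ch P)).2) =ᶠ[𝓝 P] fun P => n4 P.2 := by
      filter_upwards [O1_open.mem_nhds hP] with Q hQ
      rw [(Xi_levels _ (ch_maps hQ)).2, (ch_levels hQ).2.1]
    have e2 : fderiv ℝ (fun P => n4 (Xi (ch P)).2) P v =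
        dot4 (Xi (ch P)).2 (fderiv ℝ (fun P => Xi (ch P)) P v).2 / n4 (Xi (ch P)).2 := by
      have k1 : DifferentiableAt ℝ n4 (Xi (ch P)).2 :=
        (ZHOM.n4_smooth hZ.2.2).differentiableAt (by simp)
      have k2 : HasFDerivAt (fun P => n4 (Xi (ch P)).2)
          ((fderiv ℝ n4 (Xi (ch P)).2).comp (fderiv ℝ (fun P => (Xi (ch P)).2) P)) P :=
        HasFDerivAt.comp P (g := n4) k1.hasFDerivAt hd2.hasFDerivAt
      rw [k2.fderiv, ContinuousLinearMap.comp_apply, fd_snd (F := fun P => Xi (ch P)) hd,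
        ZHOM.n4_deriv hZ.2.2]
    rw [e1.fderiv_eq, h2, zero_div, ZHOM.n4snd_deriv hP.1.2] at e2
    exact (div_eq_zero_iff.1 e2).resolve_right hn.ne'

theorem loc1_tan : ∀ P ∈ O1, Tan P (Pu P) ∧ Tan P (Pv P) := by
  intro P hP
  have hZ := Loc1_maps hP
  constructor
  · apply Loc1_tan hP
    · unfold Pu
      rw [Loc1_fd_pull hP]
      rfl
    · unfold Pu
      rw [Loc1_fd_pull hP]
      exact ZHOM.zu_dot _
  · obtain ⟨hm1, hm2⟩ := zpr_mem hZ
    obtain ⟨-, h2, h3, -⟩ := zVu_facts _ hm1 hm2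
    obtain ⟨h4, h5⟩ := zhom_tan hZ h2 h3
    apply Loc1_tan hP
    · unfold Pv
      rw [Loc1_fd_pull hP]
      exact h5
    · unfold Pv
      rw [Loc1_fd_pull hP]
      exact h4

theorem loc1_ind : ∀ P ∈ O1, zx (ch P) ≠ 0 → Ind (Pu P) (Pv P) := by
  intro P hP hx
  have hZ := ch_maps hP
  have hZ' := Loc1_maps hP
  obtain ⟨hm1, hm2⟩ := zpr_mem hZ'
  apply Ind.pullback (Loc1_inv hP)
  apply zhom_ind hZ'
  apply zVu_ind _ hm1 hm2
  rintro ⟨h1, h2, h3, h4⟩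
  apply hx
  have h5 : (zpr (Xi (ch P))).1 = (ch P).1 := rfl
  have h6 : zw (ch P) ≤ 1 / 32 := by
    unfold zw
    rw [← h5, h1, h2]
    norm_num
  have h7 := Xi_zR _ hZ h6
  have h8 : zR (zpr (Xi (ch P))) = 0 := by
    unfold zR
    rw [h1, h2, h3, h4]
    norm_num
  linarith

lemma Loc1_zK {Z : E7} (hZ : Z.2 ≠ 0) : zhom zK Z = zK Z := by
  have hn := ZHOM.n4_pos hZ
  unfold zhom zK zpr
  refine Prod.ext rfl (Prod.ext ?_ (Prod.ext ?_ (Prod.ext ?_ ?_)))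
  · simp only [Prod.smul_fst, Prod.smul_snd, smul_eq_mul]
    field_simp
  · simp only [Prod.smul_fst, Prod.smul_snd, smul_eq_mul]
    field_simp
  · simp
  · simp

theorem loc1_near : ∀ P ∈ O1, zx (ch P) < 1 / 80 → Pu P = rhoP P ∧ Pv P = Th P := by
  intro P hP hx
  have hZ := ch_maps hP
  have hZ' := Loc1_maps hP
  have hw : zw (ch P) < 1 / 32 := by
    have h1 : zw (ch P) ≤ zx (ch P) := by
      unfold zw zx
      nlinarith [sq_nonneg (zk (ch P)).1, sq_nonneg (zk (ch P)).2]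
    linarith
  constructor
  · apply pullback_eq_of (Loc1_inv hP)
    have h2 : fderiv ℝ ch P (rhoP P) = zRho (ch P) := fderiv_pullback _ zRho P (ch_inv P hP)
    rw [Loc1_fd hP, ContinuousLinearMap.comp_apply, h2, Xi_rho _ hZ hw]
  · apply pullback_eq_of (Loc1_inv hP)
    rw [Loc1_fd hP, ContinuousLinearMap.comp_apply, ch_Th P hP, Xi_Th _ hZ hw]
    have h3 : zR (zpr (Xi (ch P))) ≤ 1 / 5 := by
      rw [Xi_zR _ hZ hw.le]
      linarith
    have h4 : zV (Xi (ch P)) = zhom zK (Xi (ch P)) := by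
      unfold zV zhom
      rw [zVu_near h3]
    rw [h4, Loc1_zK hZ'.2.2]

end S7Pair
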