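import Pool.Agent.S7Pair.Loc1
import Pool.Agent.S7Pair.Es5

/-! # Module LOC2: the local statement `StLoc`

Take `δ` small (`near_region`, `rhoP_pos`) and
`f P = Pu P + sm (5 - 5 QQ P/δ) • (rho P - Pu P)`, `g P = Pv P + sm (3 - 5 QQ P/δ) • om1 P`. -/

open scoped ContDiff Topology
open VectorField Set Filter

noncomputable section

namespace S7Pair

lemma LOC2_rho_smooth : ContDiff ℝ ∞ rho := by
  unfold rho; fun_prop

lemma LOC2_om1_smooth : ContDiff ℝ ∞ om1 := by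
  unfold om1; fun_prop

lemma LOC2_Th_smooth : ContDiff ℝ ∞ Th := by
  unfold Th; fun_prop

lemma LOC2_fd_rho (P w : E7) : fderiv ℝ rho P w = rho w := by
  rw [fd_E7 (LOC2_rho_smooth.differentiable (by simp) P)]
  simp only [rho]
  simp (disch := fun_prop) only [fd_mul, fd_add, fd_neg, fd_const, fd_b1, fd_b2, fd_b3, fd_ta,
    fd_y1]
  simp

lemma LOC2_fd_om1 (P w : E7) : fderiv ℝ om1 P w = om1 w := by
  rw [fd_E7 (LOC2_om1_smooth.differentiable (by simp) P)]
  simp only [om1]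
  simp (disch := fun_prop) only [fd_neg, fd_const, fd_ta, fd_y1]

lemma LOC2_fd_Th (P w : E7) : fderiv ℝ Th P w = Th w := by
  rw [fd_E7 (LOC2_Th_smooth.differentiable (by simp) P)]
  simp only [Th]
  simp (disch := fun_prop) only [fd_neg, fd_const, fd_y2, fd_y3]

lemma LOC2_rho_Th (P : E7) : CAt rho Th P := by
  refine ⟨LOC2_rho_smooth.contDiffAt, LOC2_Th_smooth.contDiffAt, ?_⟩
  rw [lieBracket_eq]
  simp only
  rw [LOC2_fd_rho, LOC2_fd_Th]
  simp [rho, Th]

lemma LOC2_rho_om1 (P : E7) : CAt rho om1 P := by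
  refine ⟨LOC2_rho_smooth.contDiffAt, LOC2_om1_smooth.contDiffAt, ?_⟩
  rw [lieBracket_eq]
  simp only
  rw [LOC2_fd_rho, LOC2_fd_om1]
  simp [rho, om1]

lemma LOC2_rho_tan (P : E7) : Tan P (rho P) := by
  unfold Tan dot3 dot4 rho
  constructor <;> simp only <;> ring

lemma LOC2_om1_tan (P : E7) : Tan P (om1 P) := by
  unfold Tan dot3 dot4 om1
  constructor <;> simp only <;> ring

lemma LOC2_Th_tan (P : E7) : Tan P (Th P) := by
  unfold Tan dot3 dot4 Th
  constructor <;> simp only <;> ring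

lemma LOC2_tan_add {P V W : E7} (hV : Tan P V) (hW : Tan P W) (a b : ℝ) :
    Tan P (a • V + b • W) := by
  unfold Tan dot3 dot4 at *
  obtain ⟨h1, h2⟩ := hV
  obtain ⟨h3, h4⟩ := hW
  simp only [Prod.fst_add, Prod.snd_add, Prod.smul_fst, Prod.smul_snd, smul_eq_mul]
  constructor
  · linear_combination a * h1 + b * h3
  · linear_combination a * h2 + b * h4

/-- derivative of `QQ` along a tangent vector. -/
lemma LOC2_QQ_fd {P V : E7} (hP : P ∈ O7) (hV : Tan P V) :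
    fderiv ℝ QQ P V = 2 * (((pr P).1.1 + sa) * ((n3 P.1)⁻¹ * V.1.1)
      + (pr P).1.2.1 * ((n3 P.1)⁻¹ * V.1.2.1) + ((pr P).1.2.2 - sa) * ((n3 P.1)⁻¹ * V.1.2.2)
      + (pr P).2.1 * ((n4 P.2)⁻¹ * V.2.1) + (pr P).2.2.1 * ((n4 P.2)⁻¹ * V.2.2.1)) := by
  have hp : DifferentiableAt ℝ pr P :=
    (pr_smooth.contDiffAt (O7_open.mem_nhds hP)).differentiableAt (by simp)
  have hp1 : DifferentiableAt ℝ (fun Q : E7 => (pr Q).1) P := hp.fst
  have hp2 : DifferentiableAt ℝ (fun Q : E7 => (pr Q).2) P := hp.snd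
  have hp11 : DifferentiableAt ℝ (fun Q : E7 => (pr Q).1.1) P := hp1.fst
  have hp12 : DifferentiableAt ℝ (fun Q : E7 => (pr Q).1.2) P := hp1.snd
  have hp121 : DifferentiableAt ℝ (fun Q : E7 => (pr Q).1.2.1) P := hp12.fst
  have hp122 : DifferentiableAt ℝ (fun Q : E7 => (pr Q).1.2.2) P := hp12.snd
  have hp21 : DifferentiableAt ℝ (fun Q : E7 => (pr Q).2.1) P := hp2.fst
  have hp22 : DifferentiableAt ℝ (fun Q : E7 => (pr Q).2.2) P := hp2.snd
  have hp221 : DifferentiableAt ℝ (fun Q : E7 => (pr Q).2.2.1) P := hp22.fst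
  have h0 : QQ = fun P : E7 => ((pr P).1.1 + sa) ^ 2 + (pr P).1.2.1 ^ 2 + ((pr P).1.2.2 - sa) ^ 2
    + (pr P).2.1 ^ 2 + (pr P).2.2.1 ^ 2 := rfl
  rw [h0]
  simp (disch := fun_prop) only [fd_add, fd_sub, fd_sq, fd_const]
  rw [fd_fst (F := fun Q : E7 => (pr Q).1) hp1, fd_fst (F := fun Q : E7 => (pr Q).1.2) hp12,
    fd_snd (F := fun Q : E7 => (pr Q).1.2) hp12, fd_snd (F := fun Q : E7 => (pr Q).1) hp1,
    fd_fst (F := pr) hp, fd_fst (F := fun Q : E7 => (pr Q).2) hp2,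
    fd_fst (F := fun Q : E7 => (pr Q).2.2) hp22, fd_snd (F := fun Q : E7 => (pr Q).2) hp2,
    fd_snd (F := pr) hp, ES5_pr_fd hP hV]
  simp only [Prod.smul_fst, Prod.smul_snd, smul_eq_mul]
  ring

lemma LOC2_QQ_rho {P : E7} (hP : P ∈ O7) : fderiv ℝ QQ P (rho P) = 0 := by
  rw [LOC2_QQ_fd hP (LOC2_rho_tan P)]
  unfold pr rho
  simp only [Prod.smul_fst, Prod.smul_snd, smul_eq_mul]
  ring

lemma LOC2_QQ_Th {P : E7} (hP : P ∈ O7) : fderiv ℝ QQ P (Th P) = 0 := by
  rw [LOC2_QQ_fd hP (LOC2_Th_tan P)]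
  unfold Th
  simp

/-- the cut-off functions. -/
def LOC2_s (δ a : ℝ) (P : E7) : ℝ := sm (a - 5 * QQ P / δ)

lemma LOC2_QQ_at {P : E7} (hP : P ∈ O7) : ContDiffAt ℝ ∞ QQ P :=
  QQ_smooth.contDiffAt (O7_open.mem_nhds hP)

lemma LOC2_s_smooth {P : E7} (hP : P ∈ O7) (δ a : ℝ) : ContDiffAt ℝ ∞ (LOC2_s δ a) P := by
  unfold LOC2_s sm
  have h1 := LOC2_QQ_at hP
  have h2 : ContDiffAt ℝ ∞ (fun P => a - 5 * QQ P / δ) P := by
    simp only [div_eq_mul_inv]
    exact contDiffAt_const.sub ((contDiffAt_const.mul h1).mul contDiffAt_const)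
  exact (Real.smoothTransition.contDiff (n := (⊤ : ℕ∞))).contDiffAt.comp P h2

lemma LOC2_s_fd {P V : E7} (hP : P ∈ O7) (δ a : ℝ) (h : fderiv ℝ QQ P V = 0) :
    fderiv ℝ (LOC2_s δ a) P V = 0 := by
  have h1 := (LOC2_QQ_at hP).differentiableAt (by simp)
  have h2 : DifferentiableAt ℝ (fun P => a - 5 * QQ P / δ) P := by
    simp only [div_eq_mul_inv]
    exact (differentiableAt_const _).sub (((differentiableAt_const _).mul h1).mul
      (differentiableAt_const _))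
  have h3 : fderiv ℝ (fun P => a - 5 * QQ P / δ) P V = 0 := by
    have e : (fun P => a - 5 * QQ P / δ) = fun P => a - (5 / δ) * QQ P := by
      ext P; ring
    rw [e, fd_sub (f := fun _ => a) (g := fun P => (5 / δ) * QQ P) (differentiableAt_const _)
      ((differentiableAt_const _).mul h1), fd_mul (f := fun _ => 5 / δ) (g := QQ)
      (differentiableAt_const _) h1, fd_const, fd_const, h]
    simp
  have h4 : LOC2_s δ a = fun P => sm ((fun P => a - 5 * QQ P / δ) P) := rfl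
  rw [h4, fd_comp (φ := fun x => sm x) h2
    ((Real.smoothTransition.contDiff (n := 1)).differentiable (by simp) _), h3, mul_zero]

def LOC2_f (δ : ℝ) (P : E7) : E7 := Pu P + LOC2_s δ 5 P • (rho P - Pu P)
def LOC2_g (δ : ℝ) (P : E7) : E7 := Pv P + LOC2_s δ 3 P • om1 P

/-- the properties of a good `δ`. -/
structure LOC2_good (δ : ℝ) : Prop where
  pos : 0 < δ
  le : δ ≤ 1
  reg : ∀ P ∈ O7, QQ P < 2 * δ → P ∈ O1
  eqs : ∀ P ∈ O7, QQ P < 2 * δ → Pu P = rhoP P ∧ Pv P = Th P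
  acute : ∀ P ∈ O7, QQ P ≠ 0 → QQ P < 2 * δ → 0 < gf P (rho P) (rhoP P)

lemma LOC2_exists : ∃ δ, LOC2_good δ := by
  obtain ⟨d1, h1, h1'⟩ := near_region (1 / 80) (by norm_num)
  obtain ⟨d2, h2, h2'⟩ := rhoP_pos
  refine ⟨min 1 (min (d1 / 2) (d2 / 2)), ?_, min_le_left _ _, ?_, ?_, ?_⟩
  · exact lt_min (by norm_num) (lt_min (by linarith) (by linarith))
  · intro P hP hQ
    have : min 1 (min (d1 / 2) (d2 / 2)) ≤ d1 / 2 := (min_le_right _ _).trans (min_le_left _ _)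
    exact (h1' P hP (by linarith)).1
  · intro P hP hQ
    have : min 1 (min (d1 / 2) (d2 / 2)) ≤ d1 / 2 := (min_le_right _ _).trans (min_le_left _ _)
    obtain ⟨ha, hb⟩ := h1' P hP (by linarith)
    exact loc1_near P ha hb
  · intro P hP h0 hQ
    have : min 1 (min (d1 / 2) (d2 / 2)) ≤ d2 / 2 := (min_le_right _ _).trans (min_le_right _ _)
    exact h2' P hP h0 (by linarith)

lemma LOC2_s_zero {δ a : ℝ} (hδ : 0 < δ) {P : E7} (h : a * δ ≤ 5 * QQ P) : LOC2_s δ a P = 0 := by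
  apply Real.smoothTransition.zero_of_nonpos
  rw [sub_nonpos, le_div_iff₀ hδ]
  exact h

lemma LOC2_s_one {δ a : ℝ} (hδ : 0 < δ) {P : E7} (h : 5 * QQ P ≤ (a - 1) * δ) :
    LOC2_s δ a P = 1 := by
  apply Real.smoothTransition.one_of_one_le
  have : 5 * QQ P / δ ≤ a - 1 := by rw [div_le_iff₀ hδ]; exact h
  linarith

lemma LOC2_open_lt (c : ℝ) : IsOpen {P : E7 | P ∈ O1 ∧ QQ P < c} := by
  have hc : ContinuousOn QQ O1 := QQ_smooth.continuousOn.mono fun P hP => hP.1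
  exact hc.isOpen_inter_preimage O1_open isOpen_Iio

lemma LOC2_open_gt (c : ℝ) : IsOpen {P : E7 | P ∈ O1 ∧ c < QQ P} := by
  have hc : ContinuousOn QQ O1 := QQ_smooth.continuousOn.mono fun P hP => hP.1
  exact hc.isOpen_inter_preimage O1_open isOpen_Ioi

lemma LOC2_comm {δ : ℝ} (h : LOC2_good δ) : CP O1 (LOC2_f δ) (LOC2_g δ) := by
  refine CP.of_cat O1_open fun P hP => ?_
  have hO7 : P ∈ O7 := hP.1
  have hpos := h.pos
  rcases lt_or_ge δ (QQ P) with hlt | hle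
  · -- far from `H_a`
    have hm : {P : E7 | P ∈ O1 ∧ δ < QQ P} ∈ 𝓝 P := (LOC2_open_gt δ).mem_nhds ⟨hP, hlt⟩
    refine (loc1_CP.cat hP).congr ?_ ?_
    · refine eventually_of_mem hm fun R hR => ?_
      have : LOC2_s δ 5 R = 0 := LOC2_s_zero hpos (by nlinarith [hR.2])
      simp [LOC2_f, this]
    · refine eventually_of_mem hm fun R hR => ?_
      have : LOC2_s δ 3 R = 0 := LOC2_s_zero hpos (by nlinarith [hR.2])
      simp [LOC2_g, this]
  · have hm : {P : E7 | P ∈ O1 ∧ QQ P < 2 * δ} ∈ 𝓝 P :=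
      (LOC2_open_lt _).mem_nhds ⟨hP, by linarith⟩
    have hRT : CAt rhoP Th P := (loc1_CP.cat hP).congr
      (eventually_of_mem hm fun R hR => ((h.eqs R hR.1.1 hR.2).1).symm)
      (eventually_of_mem hm fun R hR => ((h.eqs R hR.1.1 hR.2).2).symm)
    have hTh := LOC2_QQ_Th hO7
    have hrh := LOC2_QQ_rho hO7
    rcases lt_or_ge (3 * δ / 5) (QQ P) with hlt | hle'
    · -- `g = Th`
      have hm2 : {P : E7 | P ∈ O1 ∧ 3 * δ / 5 < QQ P} ∈ 𝓝 P :=
        (LOC2_open_gt _).mem_nhds ⟨hP, hlt⟩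
      have hs := LOC2_s_smooth hO7 δ 5
      have key : CAt (fun y => (1 - LOC2_s δ 5 y) • rhoP y + LOC2_s δ 5 y • rho y) Th P := by
        refine CAt.add_left (hRT.smul_left (contDiffAt_const.sub hs) ?_)
          ((LOC2_rho_Th P).smul_left hs (LOC2_s_fd hO7 δ 5 hTh))
        rw [fd_sub (differentiableAt_const _) (hs.differentiableAt (by simp)),
          LOC2_s_fd hO7 δ 5 hTh]
        simp
      refine key.congr ?_ ?_
      · refine eventually_of_mem hm fun R hR => ?_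
        simp only [LOC2_f, (h.eqs R hR.1.1 hR.2).1]
        module
      · filter_upwards [hm, hm2] with R hR hR2
        have : LOC2_s δ 3 R = 0 := LOC2_s_zero hpos (by nlinarith [hR2.2])
        simp [LOC2_g, this, (h.eqs R hR.1.1 hR.2).2]
    · -- `f = rho`
      have hm2 : {P : E7 | P ∈ O1 ∧ QQ P < 4 * δ / 5} ∈ 𝓝 P :=
        (LOC2_open_lt _).mem_nhds ⟨hP, by linarith⟩
      have hs := LOC2_s_smooth hO7 δ 3
      have key : CAt rho (fun y => Th y + LOC2_s δ 3 y • om1 y) P :=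
        (LOC2_rho_Th P).add ((LOC2_rho_om1 P).smul hs (LOC2_s_fd hO7 δ 3 hrh))
      refine key.congr ?_ ?_
      · filter_upwards [hm, hm2] with R hR hR2
        have : LOC2_s δ 5 R = 1 := LOC2_s_one hpos (by nlinarith [hR2.2])
        simp [LOC2_f, this]
      · refine eventually_of_mem hm fun R hR => ?_
        simp only [LOC2_g, (h.eqs R hR.1.1 hR.2).2]

lemma LOC2_tan {δ : ℝ} {P : E7} (hP : P ∈ O1) :
    Tan P (LOC2_f δ P) ∧ Tan P (LOC2_g δ P) := by
  obtain ⟨h1, h2⟩ := loc1_tan P hP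
  constructor
  · have e : LOC2_f δ P = (1 - LOC2_s δ 5 P) • Pu P + LOC2_s δ 5 P • rho P := by
      unfold LOC2_f; module
    rw [e]
    exact LOC2_tan_add h1 (LOC2_rho_tan P) _ _
  · have e : LOC2_g δ P = (1 : ℝ) • Pv P + LOC2_s δ 3 P • om1 P := by
      unfold LOC2_g; module
    rw [e]
    exact LOC2_tan_add h2 (LOC2_om1_tan P) _ _

lemma LOC2_sq3 {a b c : ℝ} (h : a * a + b * b + c * c = 0) : a = 0 ∧ b = 0 ∧ c = 0 := by
  refine ⟨?_, ?_, ?_⟩ <;> nlinarith [mul_self_nonneg a, mul_self_nonneg b, mul_self_nonneg c]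

lemma LOC2_sq2 {a b : ℝ} (h : a * a + b * b = 0) : a = 0 ∧ b = 0 := by
  refine ⟨?_, ?_⟩ <;> nlinarith [mul_self_nonneg a, mul_self_nonneg b]

/-- if `gf P V W` is positive for some `W` then so is `gf P V V`. -/
lemma LOC2_gf_self {P V W : E7} (h3 : 0 < n3 P.1) (h4 : 0 < n4 P.2) (h : 0 < gf P V W) :
    0 < gf P V V := by
  have hc0 := c0_facts.1
  have p1 : 0 ≤ dot3 V.1 V.1 / n3 P.1 ^ 2 := by
    unfold dot3
    have := mul_self_nonneg V.1.1
    have := mul_self_nonneg V.1.2.1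
    have := mul_self_nonneg V.1.2.2
    positivity
  have p2 : 0 ≤ 4 * √2 * c0 * (V.2.1 * V.2.1 + V.2.2.1 * V.2.2.1) / n4 P.2 ^ 2 := by
    have := mul_self_nonneg V.2.1
    have := mul_self_nonneg V.2.2.1
    positivity
  have hnn : 0 ≤ gf P V V := by unfold gf; linarith
  rcases hnn.lt_or_eq with hlt | heq
  · exact hlt
  · exfalso
    unfold gf at heq
    have q1 : dot3 V.1 V.1 / n3 P.1 ^ 2 = 0 := by linarith
    have q2 : 4 * √2 * c0 * (V.2.1 * V.2.1 + V.2.2.1 * V.2.2.1) / n4 P.2 ^ 2 = 0 := by linarith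
    have q1' : dot3 V.1 V.1 = 0 := by
      rcases div_eq_zero_iff.1 q1 with h1 | h1
      · exact h1
      · exact absurd h1 (by positivity)
    have q2' : V.2.1 * V.2.1 + V.2.2.1 * V.2.2.1 = 0 := by
      rcases div_eq_zero_iff.1 q2 with h1 | h1
      · rcases mul_eq_zero.1 h1 with h3 | h3
        · exact absurd h3 (by positivity)
        · exact h3
      · exact absurd h1 (by positivity)
    obtain ⟨r1, r2, r3⟩ := LOC2_sq3 (by unfold dot3 at q1'; exact q1')
    obtain ⟨r4, r5⟩ := LOC2_sq2 q2'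
    unfold gf dot3 at h
    rw [r1, r2, r3, r4, r5] at h
    simp at h

lemma LOC2_ind {δ : ℝ} (h : LOC2_good δ) {P : E7} (hP : P ∈ O1) (h0 : QQ P ≠ 0) :
    Ind (LOC2_f δ P) (LOC2_g δ P) := by
  have hO7 : P ∈ O7 := hP.1
  have hpos := h.pos
  rcases le_or_gt δ (QQ P) with hle | hlt
  · have e5 : LOC2_s δ 5 P = 0 := LOC2_s_zero hpos (by linarith)
    have e3 : LOC2_s δ 3 P = 0 := LOC2_s_zero hpos (by linarith)
    have e1 : LOC2_f δ P = Pu P := by simp [LOC2_f, e5]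
    have e2 : LOC2_g δ P = Pv P := by simp [LOC2_g, e3]
    rw [e1, e2]
    exact loc1_ind P hP fun hz => h0 (QQ_zero hP hz)
  · have hs0 : 0 ≤ LOC2_s δ 5 P := Real.smoothTransition.nonneg _
    have hs1 : LOC2_s δ 5 P ≤ 1 := Real.smoothTransition.le_one _
    obtain ⟨eu, ev⟩ := h.eqs P hO7 (by linarith)
    have hac := h.acute P hO7 h0 (by linarith)
    have hth := rhoP_theta P hP
    have hn3 := ES5_n3_pos hO7.1
    have hn4 := ES5_n4_pos hO7.2
    have hsq := ES5_n4_sq P.2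
    -- the angular component does not vanish
    have hy : 0 < P.2.2.2.1 ^ 2 + P.2.2.2.2 ^ 2 := by
      by_contra hcon
      have hy0 : P.2.2.2.1 ^ 2 + P.2.2.2.2 ^ 2 = 0 :=
        le_antisymm (not_lt.1 hcon) (by positivity)
      have hq : 1 ≤ QQ P := by
        unfold QQ pr
        simp only [Prod.smul_fst, Prod.smul_snd, smul_eq_mul]
        have e1 : ((n4 P.2)⁻¹ * P.2.1) ^ 2 + ((n4 P.2)⁻¹ * P.2.2.1) ^ 2 = 1 := by
          have : P.2.1 ^ 2 + P.2.2.1 ^ 2 = n4 P.2 ^ 2 := by rw [hsq]; linarith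
          field_simp
          exact this
        nlinarith [sq_nonneg ((n3 P.1)⁻¹ * P.1.1 + sa), sq_nonneg ((n3 P.1)⁻¹ * P.1.2.1),
          sq_nonneg ((n3 P.1)⁻¹ * P.1.2.2 - sa)]
      have := h.le
      linarith
    intro a b hab
    -- the angular component gives `b = 0`
    have ha3 := congrArg (fun V : E7 => P.2.2.2.1 * V.2.2.2.2 - P.2.2.2.2 * V.2.2.2.1) hab
    simp only [LOC2_f, LOC2_g, eu, ev, Prod.fst_add, Prod.snd_add, Prod.smul_fst, Prod.smul_snd,
      smul_eq_mul, Prod.fst_sub, Prod.snd_sub, rho, om1, Th, Prod.snd_zero, Prod.fst_zero] at ha3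
    have hb : b = 0 := by
      have : b * (P.2.2.2.1 ^ 2 + P.2.2.2.2 ^ 2) = 0 := by
        linear_combination ha3 - a * (1 - LOC2_s δ 5 P) * hth
      rcases mul_eq_zero.1 this with h1 | h1
      · exact h1
      · exact absurd h1 hy.ne'
    refine ⟨?_, hb⟩
    rw [hb, zero_smul, add_zero] at hab
    have hg := congrArg (fun V : E7 => gf P (rho P) V) hab
    have hlin : gf P (rho P) (a • LOC2_f δ P) = a * ((1 - LOC2_s δ 5 P) * gf P (rho P) (rhoP P)
        + LOC2_s δ 5 P * gf P (rho P) (rho P)) := by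
      unfold gf dot3 LOC2_f
      rw [eu]
      simp only [Prod.fst_add, Prod.snd_add, Prod.smul_fst, Prod.smul_snd, smul_eq_mul,
        Prod.fst_sub, Prod.snd_sub]
      ring
    have hz : gf P (rho P) 0 = 0 := by
      unfold gf dot3
      simp
    simp only [hlin, hz] at hg
    have hc0 := c0_facts.1
    have hrr : 0 < gf P (rho P) (rho P) := LOC2_gf_self hn3 hn4 hac
    have hF : 0 < (1 - LOC2_s δ 5 P) * gf P (rho P) (rhoP P)
        + LOC2_s δ 5 P * gf P (rho P) (rho P) := by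
      rcases hs1.lt_or_eq with h1 | h1
      · have : 0 < (1 - LOC2_s δ 5 P) * gf P (rho P) (rhoP P) := mul_pos (by linarith) hac
        have : 0 ≤ LOC2_s δ 5 P * gf P (rho P) (rho P) := mul_nonneg hs0 hrr.le
        linarith
      · rw [h1]; linarith
    rcases mul_eq_zero.1 hg with h1 | h1
    · exact h1
    · exact absurd h1 hF.ne'

lemma LOC2_ww_cont : ContinuousOn (fun P : E7 => ww (pr P)) O7 := by
  intro P hP
  have hp : ContinuousAt pr P :=
    (pr_smooth.contDiffAt (O7_open.mem_nhds hP)).continuousAt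
  have hM := pr_mem hP
  have hnn := nn_pos hM
  have h1 : ContinuousAt ww (pr P) := by
    have hnc : Continuous nn := by unfold nn; fun_prop
    have hs : √(2 * nn (pr P)) ≠ 0 := (Real.sqrt_pos.2 (by linarith)).ne'
    have hsc : Continuous fun p : E7 => √(2 * nn p) := by fun_prop
    have a1 : ContinuousAt w1 (pr P) := by
      unfold w1
      exact ContinuousAt.div (by fun_prop) hsc.continuousAt hs
    have a2 : ContinuousAt w2 (pr P) := by
      unfold w2
      exact ContinuousAt.div (by fun_prop) hsc.continuousAt hs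
    unfold ww
    exact (a1.pow 2).add (a2.pow 2)
  exact (ContinuousAt.comp (f := pr) (g := ww) h1 hp).continuousWithinAt

theorem stLoc : StLoc := by
  classical
  obtain ⟨δ, h⟩ := LOC2_exists
  have hpos := h.pos
  refine ⟨LOC2_f δ, LOC2_g δ, LOC2_comm h, ?_, fun P hP => LOC2_tan hP,
    fun P hP h0 => LOC2_ind h hP h0, ?_⟩
  · refine ⟨{P | P ∈ O7 ∧ (ww (pr P) ≤ 1 / 16 ∨ QQ P ≤ δ)}, ?_, ?_, ?_⟩
    · rintro P ⟨hP, h1 | h1⟩
      · exact ⟨hP, by linarith⟩
      · exact h.reg P hP (by linarith)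
    · have e : O7 \ {P | P ∈ O7 ∧ (ww (pr P) ≤ 1 / 16 ∨ QQ P ≤ δ)} =
          (O7 ∩ (fun P : E7 => ww (pr P)) ⁻¹' Ioi (1 / 16)) ∩ (O7 ∩ QQ ⁻¹' Ioi δ) := by
        ext P
        simp only [Set.mem_sdiff, mem_ofPred_eq, mem_inter_iff, mem_preimage, mem_Ioi, not_and, not_or,
          not_le]
        constructor
        · rintro ⟨h1, h2⟩
          exact ⟨⟨h1, (h2 h1).1⟩, h1, (h2 h1).2⟩
        · rintro ⟨⟨h1, h2⟩, -, h3⟩
          exact ⟨h1, fun _ => ⟨h2, h3⟩⟩
      rw [e]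
      exact (LOC2_ww_cont.isOpen_inter_preimage O7_open isOpen_Ioi).inter
        (QQ_smooth.continuousOn.isOpen_inter_preimage O7_open isOpen_Ioi)
    · intro P hP hK
      have hK' : 1 / 16 < ww (pr P) ∧ δ < QQ P := by
        constructor
        · by_contra hcon
          exact hK ⟨hP.1, Or.inl (not_lt.1 hcon)⟩
        · by_contra hcon
          exact hK ⟨hP.1, Or.inr (not_lt.1 hcon)⟩
      obtain ⟨e1, e2⟩ := loc1_far P hP hK'.1
      have e5 : LOC2_s δ 5 P = 0 := LOC2_s_zero hpos (by nlinarith [hK'.2])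
      have e3 : LOC2_s δ 3 P = 0 := LOC2_s_zero hpos (by nlinarith [hK'.2])
      exact ⟨by simp [LOC2_f, e5, e1], by simp [LOC2_g, e3, e2]⟩
  · refine ⟨2 * δ / 5, by positivity, fun P hP hQ => ?_⟩
    have hq : QQ P < 2 * δ := by linarith
    obtain ⟨eu, ev⟩ := h.eqs P hP hq
    have e5 : LOC2_s δ 5 P = 1 := LOC2_s_one hpos (by linarith)
    have e3 : LOC2_s δ 3 P = 1 := LOC2_s_one hpos (by linarith)
    refine ⟨h.reg P hP hq, by simp [LOC2_f, e5], ?_⟩
    simp only [LOC2_g, e3, ev, one_smul]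
    simp [Th, om1, ee]

end S7Pair
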