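import Pool.Agent.S7Pair.ManDefs

/-! # Module MAN2: a smooth tangent field of Euclidean space gives a smooth field on the sphere -/

open scoped ContDiff Topology Manifold InnerProductSpace
open VectorField Set Filter Bundle Metric

noncomputable section

namespace S7Pair

/-- the stereographic chart at `x₀` as a function on the ambient space -/
private def man2Phi (x₀ : S7) (y : A8) : EuclideanSpace ℝ (Fin 7) :=
  (OrthonormalBasis.fromOrthogonalSpanSingleton (𝕜 := ℝ) 7 (ne_zero_of_mem_unit_sphere (-x₀))).repr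
    (stereoToFun (((-x₀ : S7)) : A8) y)

private lemma man2_chart (x₀ x : S7) : extChartAt (𝓡 7) x₀ x = man2Phi x₀ (x : A8) := rfl

private lemma man2_open (x₀ : S7) : IsOpen {y : A8 | innerSL ℝ (((-x₀ : S7)) : A8) y ≠ (1 : ℝ)} :=
  isOpen_ne_fun (innerSL ℝ (((-x₀ : S7)) : A8)).continuous continuous_const

private lemma man2_smooth (x₀ : S7) :
    ContDiffOn ℝ ∞ (man2Phi x₀) {y : A8 | innerSL ℝ (((-x₀ : S7)) : A8) y ≠ (1 : ℝ)} := by
  unfold man2Phi
  exact (OrthonormalBasis.fromOrthogonalSpanSingleton (𝕜 := ℝ) 7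
    (ne_zero_of_mem_unit_sphere (-x₀))).repr.contDiff.comp_contDiffOn contDiffOn_stereoToFun

private lemma man2_mem {x₀ x : S7} (hx : x ≠ -x₀) :
    (x : A8) ∈ {y : A8 | innerSL ℝ (((-x₀ : S7)) : A8) y ≠ (1 : ℝ)} := by
  intro h
  apply hx
  rw [innerSL_apply_apply] at h
  exact ((sphere_ext_iff (-x₀) x).mpr h).symm

theorem sphere_field (u : A8 → A8) (hu : ContDiffOn ℝ ∞ u {x | x ≠ 0})
    (ht : ∀ x : A8, x ≠ 0 → ⟪x, u x⟫_ℝ = 0) :
    ∃ us : (x : S7) → TangentSpace (𝓡 7) x,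
      ContMDiff (𝓡 7) (𝓡 7).tangent ∞ (fun x => (⟨x, us x⟩ : TangentBundle (𝓡 7) S7)) ∧
      ∀ x : S7, (mfderiv (𝓡 7) 𝓘(ℝ, A8) ((↑) : S7 → A8) x (us x) : A8) = u x := by
  have hex : ∀ x : S7, ∃ w : TangentSpace (𝓡 7) x,
      (mfderiv (𝓡 7) 𝓘(ℝ, A8) ((↑) : S7 → A8) x w : A8) = u x := by
    intro x
    have h1 : u x ∈ (ℝ ∙ (x : A8))ᗮ := by
      rw [Submodule.mem_orthogonal_singleton_iff_inner_right]
      exact ht x (ne_zero_of_mem_unit_sphere x)
    rw [← range_mvfderiv_subtypeVal (n := 7) x] at h1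
    exact h1
  choose us hus using hex
  refine ⟨us, ?_, hus⟩
  intro x₀
  have hgoal : ContMDiffAt (𝓡 7) ((𝓡 7).prod 𝓘(ℝ, EuclideanSpace ℝ (Fin 7))) ∞
      (fun x => TotalSpace.mk' (EuclideanSpace ℝ (Fin 7)) x (us x)) x₀ := by
    rw [contMDiffAt_section]
    have hev : ∀ᶠ x : S7 in 𝓝 x₀, x ∈ (chartAt (EuclideanSpace ℝ (Fin 7)) x₀).source :=
      (chartAt (EuclideanSpace ℝ (Fin 7)) x₀).open_source.mem_nhds (mem_chart_source _ _)
    have hne : ∀ x : S7, x ∈ (chartAt (EuclideanSpace ℝ (Fin 7)) x₀).source → x ≠ -x₀ := by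
      intro x hx
      have h2 : x ∈ (stereographic' 7 (-x₀)).source := hx
      rw [stereographic'_source] at h2
      exact h2
    have heq : (fun x : S7 => (trivializationAt (EuclideanSpace ℝ (Fin 7)) (TangentSpace (𝓡 7)) x₀
        ⟨x, us x⟩).2) =ᶠ[𝓝 x₀] fun x : S7 => fderiv ℝ (man2Phi x₀) (x : A8) (u x) := by
      filter_upwards [hev] with x hx
      have h3 := TangentBundle.continuousLinearMapAt_trivializationAt (I := 𝓡 7) (M := S7) hx
      have h4 : (trivializationAt (EuclideanSpace ℝ (Fin 7)) (TangentSpace (𝓡 7)) x₀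
          ⟨x, us x⟩).2 = (trivializationAt (EuclideanSpace ℝ (Fin 7))
            (TangentSpace (𝓡 7)) x₀).continuousLinearMapAt ℝ x (us x) := by
        rw [Trivialization.continuousLinearMapAt_apply, Trivialization.linearMapAt_apply, if_pos]
        rw [TangentBundle.trivializationAt_baseSet]
        exact hx
      rw [h4, h3]
      have h5 : DifferentiableAt ℝ (man2Phi x₀) (x : A8) :=
        ((man2_smooth x₀).contDiffAt ((man2_open x₀).mem_nhds (man2_mem (hne x hx)))).differentiableAt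
          (by simp)
      have h6 : MDifferentiableAt (𝓡 7) 𝓘(ℝ, A8) ((↑) : S7 → A8) x :=
        (contMDiff_coe_sphere (m := ∞) x).mdifferentiableAt (by simp)
      have h7 := mfderiv_comp (I := 𝓡 7) (I' := 𝓘(ℝ, A8)) (I'' := 𝓘(ℝ, EuclideanSpace ℝ (Fin 7))) x
        (g := man2Phi x₀) (f := ((↑) : S7 → A8)) h5.mdifferentiableAt h6
      have h8 : (extChartAt (𝓡 7) x₀ : S7 → EuclideanSpace ℝ (Fin 7)) =
          man2Phi x₀ ∘ ((↑) : S7 → A8) := by
        funext y
        exact man2_chart x₀ y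
      rw [h8, h7, mfderiv_eq_fderiv]
      show fderiv ℝ (man2Phi x₀) (x : A8) (mfderiv (𝓡 7) 𝓘(ℝ, A8) ((↑) : S7 → A8) x (us x)) = _
      rw [hus x]
    refine ContMDiffAt.congr_of_eventuallyEq ?_ heq
    have h9 : ContDiffAt ℝ ∞ (fun y : A8 => fderiv ℝ (man2Phi x₀) y (u y)) (x₀ : A8) := by
      have h10 : ContDiffAt ℝ ∞ (man2Phi x₀) (x₀ : A8) :=
        (man2_smooth x₀).contDiffAt ((man2_open x₀).mem_nhds
          (man2_mem (hne x₀ (mem_chart_source _ _))))
      have h11 : ContDiffAt ℝ ∞ u (x₀ : A8) :=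
        hu.contDiffAt (isOpen_ne.mem_nhds (ne_zero_of_mem_unit_sphere x₀))
      exact (h10.fderiv_right (by simp)).clm_apply h11
    exact h9.contMDiffAt.comp x₀ (contMDiff_coe_sphere (m := ∞) x₀)
  exact hgoal

end S7Pair
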