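import Pool.Agent.S7Pair.ManDefs

/-! # Module MAN3: brackets on the sphere from brackets in Euclidean space -/

open scoped ContDiff Topology Manifold InnerProductSpace
open VectorField Set Filter Bundle Metric

noncomputable section

namespace S7Pair

/-- The Lie bracket of related vector fields. -/
lemma MAN3_related {E F : Type*} [NormedAddCommGroup E] [NormedSpace ℝ E]
    [NormedAddCommGroup F] [NormedSpace ℝ F]
    {σ : E → F} {U V : E → E} {u v : F → F} {y : E}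
    (hσ : ContDiffAt ℝ 2 σ y) (hU : DifferentiableAt ℝ U y) (hV : DifferentiableAt ℝ V y)
    (hu : DifferentiableAt ℝ u (σ y)) (hv : DifferentiableAt ℝ v (σ y))
    (hrU : ∀ᶠ z in 𝓝 y, fderiv ℝ σ z (U z) = u (σ z))
    (hrV : ∀ᶠ z in 𝓝 y, fderiv ℝ σ z (V z) = v (σ z)) :
    fderiv ℝ σ y (lieBracket ℝ U V y) = lieBracket ℝ u v (σ y) := by
  have hσ1 : DifferentiableAt ℝ σ y := hσ.differentiableAt (by norm_num)
  have hσ2 : DifferentiableAt ℝ (fderiv ℝ σ) y :=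
    (hσ.fderiv_right (m := 1) (by norm_num)).differentiableAt (by norm_num)
  have key : ∀ {W : E → E} {w : F → F}, DifferentiableAt ℝ W y → DifferentiableAt ℝ w (σ y) →
      (∀ᶠ z in 𝓝 y, fderiv ℝ σ z (W z) = w (σ z)) → ∀ e : E,
      fderiv ℝ (fderiv ℝ σ) y e (W y) + fderiv ℝ σ y (fderiv ℝ W y e) =
        fderiv ℝ w (σ y) (fderiv ℝ σ y e) := by
    intro W w hW hw hr e
    have h1 := hσ2.hasFDerivAt.clm_apply hW.hasFDerivAt
    have h2 : HasFDerivAt (fun z => w (σ z)) _ y := hw.hasFDerivAt.comp y hσ1.hasFDerivAt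
    have h3 := (h1.congr_of_eventuallyEq (hr.mono fun z hz => hz.symm)).unique h2
    have h4 := congrArg (fun L : E →L[ℝ] F => L e) h3
    simp only [_root_.add_apply, ContinuousLinearMap.comp_apply,
      ContinuousLinearMap.flip_apply] at h4
    rw [← h4, add_comm]
  have hsym : IsSymmSndFDerivAt ℝ σ y := hσ.isSymmSndFDerivAt (by simp)
  have hU0 := hrU.self_of_nhds
  have hV0 := hrV.self_of_nhds
  rw [lieBracket, lieBracket, map_sub, ← hU0, ← hV0, ← key hV hv hrV, ← key hU hu hrU,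
    hsym.eq (U y) (V y)]
  abel

theorem sphere_bracket (u v : A8 → A8) (h : CP {x | x ≠ 0} u v)
    (us vs : (x : S7) → TangentSpace (𝓡 7) x)
    (hus : ContMDiff (𝓡 7) (𝓡 7).tangent ∞ (fun x => (⟨x, us x⟩ : TangentBundle (𝓡 7) S7)))
    (hvs : ContMDiff (𝓡 7) (𝓡 7).tangent ∞ (fun x => (⟨x, vs x⟩ : TangentBundle (𝓡 7) S7)))
    (hu : ∀ x : S7, (mfderiv (𝓡 7) 𝓘(ℝ, A8) ((↑) : S7 → A8) x (us x) : A8) = u x)
    (hv : ∀ x : S7, (mfderiv (𝓡 7) 𝓘(ℝ, A8) ((↑) : S7 → A8) x (vs x) : A8) = v x) :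
    ∀ x : S7, mlieBracket (𝓡 7) us vs x = 0 := by
  intro x₀
  have hne : ∀ x : S7, (x : A8) ≠ 0 := fun x => ne_zero_of_mem_unit_sphere x
  set φ := extChartAt (𝓡 7) x₀ with hφ
  set σ : EuclideanSpace ℝ (Fin 7) → A8 := fun z => ((φ.symm z : S7) : A8) with hσdef
  have htgt : φ.target ∈ 𝓝 (φ x₀) := extChartAt_target_mem_nhds (I := 𝓡 7) x₀
  have hrange : range (𝓡 7) = univ := ModelWithCorners.range_eq_univ _
  -- smoothness of `σ`
  have hσm : ContMDiffAt 𝓘(ℝ, EuclideanSpace ℝ (Fin 7)) 𝓘(ℝ, A8) ∞ σ (φ x₀) := by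
    have h1 : ContMDiffOn 𝓘(ℝ, EuclideanSpace ℝ (Fin 7)) (𝓡 7) ∞ φ.symm φ.target :=
      contMDiffOn_extChartAt_symm x₀
    have h2 : ContMDiffAt 𝓘(ℝ, EuclideanSpace ℝ (Fin 7)) (𝓡 7) ∞ φ.symm (φ x₀) :=
      h1.contMDiffAt htgt
    exact (contMDiff_coe_sphere (m := ∞)).contMDiffAt.comp (φ x₀) h2
  have hσc : ContDiffAt ℝ 2 σ (φ x₀) := by
    have := hσm.contDiffAt
    exact this.of_le (by simpa using WithTop.coe_le_coe.2 (le_top : (2 : ℕ∞) ≤ ⊤))
  -- differentiability of the pulled back fields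
  have hdiff : ∀ w : (x : S7) → TangentSpace (𝓡 7) x,
      ContMDiff (𝓡 7) (𝓡 7).tangent ∞ (fun x => (⟨x, w x⟩ : TangentBundle (𝓡 7) S7)) →
      DifferentiableAt ℝ (mpullbackWithin 𝓘(ℝ, EuclideanSpace ℝ (Fin 7)) (𝓡 7) φ.symm w
        (range (𝓡 7))) (φ x₀) := by
    intro w hw
    have h1 : MDifferentiableWithinAt (𝓡 7) (𝓡 7).tangent
        (fun x => (⟨x, w x⟩ : TangentBundle (𝓡 7) S7)) univ x₀ :=
      ((hw x₀).mdifferentiableAt (by simp)).mdifferentiableWithinAt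
    have h2 := h1.differentiableWithinAt_mpullbackWithin_vectorField
    rw [preimage_univ, univ_inter, hrange] at h2
    rw [hrange]
    exact differentiableWithinAt_univ.1 h2
  -- the relation
  have hrel : ∀ (w : (x : S7) → TangentSpace (𝓡 7) x) (w' : A8 → A8),
      (∀ x : S7, (mfderiv (𝓡 7) 𝓘(ℝ, A8) ((↑) : S7 → A8) x (w x) : A8) = w' x) →
      ∀ᶠ z in 𝓝 (φ x₀), fderiv ℝ σ z (mpullbackWithin 𝓘(ℝ, EuclideanSpace ℝ (Fin 7)) (𝓡 7)
        φ.symm w (range (𝓡 7)) z) = w' (σ z) := by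
    intro w w' hw
    filter_upwards [eventually_mem_nhds_iff.2 htgt] with z hz
    have hzt : z ∈ φ.target := mem_of_mem_nhds hz
    have h1 : MDifferentiableAt 𝓘(ℝ, EuclideanSpace ℝ (Fin 7)) (𝓡 7) φ.symm z :=
      ((contMDiffOn_extChartAt_symm (n := ∞) x₀).contMDiffAt hz).mdifferentiableAt (by simp)
    have h2 : MDifferentiableAt (𝓡 7) 𝓘(ℝ, A8) ((↑) : S7 → A8) (φ.symm z) :=
      (contMDiff_coe_sphere (m := ∞)).contMDiffAt.mdifferentiableAt (by simp)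
    have h3 : mfderiv 𝓘(ℝ, EuclideanSpace ℝ (Fin 7)) 𝓘(ℝ, A8) σ z =
        (mfderiv (𝓡 7) 𝓘(ℝ, A8) ((↑) : S7 → A8) (φ.symm z)).comp
          (mfderiv 𝓘(ℝ, EuclideanSpace ℝ (Fin 7)) (𝓡 7) φ.symm z) :=
      mfderiv_comp z h2 h1
    have hinv := isInvertible_mfderivWithin_extChartAt_symm (I := 𝓡 7) (x := x₀) hzt
    rw [hrange] at hinv ⊢
    rw [mfderivWithin_univ] at hinv
    have h4 : mfderiv 𝓘(ℝ, EuclideanSpace ℝ (Fin 7)) (𝓡 7) φ.symm z
        (mpullbackWithin 𝓘(ℝ, EuclideanSpace ℝ (Fin 7)) (𝓡 7) φ.symm w univ z) = w (φ.symm z) := by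
      rw [mpullbackWithin_univ, mpullback_apply]
      exact hinv.self_apply_inverse _
    rw [← mfderiv_eq_fderiv, h3]
    have h5 := hw (φ.symm z)
    rw [← h4] at h5
    exact h5
  have hcomm := MAN3_related hσc (hdiff us hus) (hdiff vs hvs)
    ((h.sf.contDiffAt (h.op.mem_nhds (hne _))).differentiableAt (by simp))
    ((h.sg.contDiffAt (h.op.mem_nhds (hne _))).differentiableAt (by simp))
    (hrel us u hu) (hrel vs v hv)
  rw [h.comm _ (hne _)] at hcomm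
  -- injectivity of the derivative of `σ` at the base point
  have hz : φ x₀ ∈ φ.target := mem_of_mem_nhds htgt
  have h1 : MDifferentiableAt 𝓘(ℝ, EuclideanSpace ℝ (Fin 7)) (𝓡 7) φ.symm (φ x₀) :=
    ((contMDiffOn_extChartAt_symm (n := ∞) x₀).contMDiffAt htgt).mdifferentiableAt (by simp)
  have h2 : MDifferentiableAt (𝓡 7) 𝓘(ℝ, A8) ((↑) : S7 → A8) (φ.symm (φ x₀)) :=
    (contMDiff_coe_sphere (m := ∞)).contMDiffAt.mdifferentiableAt (by simp)
  have h3 : mfderiv 𝓘(ℝ, EuclideanSpace ℝ (Fin 7)) 𝓘(ℝ, A8) σ (φ x₀) =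
      (mfderiv (𝓡 7) 𝓘(ℝ, A8) ((↑) : S7 → A8) (φ.symm (φ x₀))).comp
        (mfderiv 𝓘(ℝ, EuclideanSpace ℝ (Fin 7)) (𝓡 7) φ.symm (φ x₀)) :=
    mfderiv_comp (φ x₀) h2 h1
  have hinv := isInvertible_mfderivWithin_extChartAt_symm (I := 𝓡 7) (x := x₀) hz
  rw [hrange, mfderivWithin_univ] at hinv
  have hinj1 : Function.Injective
      (mfderiv 𝓘(ℝ, EuclideanSpace ℝ (Fin 7)) (𝓡 7) φ.symm (φ x₀)) := hinv.bijective.injective
  have hinj2 : Function.Injective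
      (mfderiv (𝓡 7) 𝓘(ℝ, A8) ((↑) : S7 → A8) (φ.symm (φ x₀))) :=
    injective_mvfderiv_subtypeVal_sphere _
  have hinj : Function.Injective (fderiv ℝ σ (φ x₀)) := by
    rw [← mfderiv_eq_fderiv, h3]
    exact hinj2.comp hinj1
  have hbr := hinj (hcomm.trans (map_zero (fderiv ℝ σ (φ x₀))).symm)
  rw [mlieBracket, mlieBracketWithin_apply, preimage_univ, univ_inter]
  have hbr2 : lieBracketWithin ℝ
      (mpullbackWithin 𝓘(ℝ, EuclideanSpace ℝ (Fin 7)) (𝓡 7) (extChartAt (𝓡 7) x₀).symm us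
        (range (𝓡 7)))
      (mpullbackWithin 𝓘(ℝ, EuclideanSpace ℝ (Fin 7)) (𝓡 7) (extChartAt (𝓡 7) x₀).symm vs
        (range (𝓡 7))) (range (𝓡 7)) (extChartAt (𝓡 7) x₀ x₀) = 0 := by
    have h5 : range (𝓡 7) = univ := hrange
    conv_lhs => rw [h5]
    rw [lieBracketWithin_univ]
    rw [hrange] at hbr
    exact hbr
  rw [hbr2]
  exact map_zero _

end S7Pair
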