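import Pool.Agent.S7Pair.Man1
import Pool.Agent.S7Pair.Man2
import Pool.Agent.S7Pair.Man3

/-! # Module MAN4: the statement on the manifold `S⁷` -/

open scoped ContDiff Topology Manifold InnerProductSpace
open VectorField Set Filter Bundle Metric

noncomputable section

namespace S7Pair

theorem stMan (h : StE8) : StMan := by
  obtain ⟨u, v, hcp, ht, hind⟩ := h
  obtain ⟨us, hus, hus'⟩ := sphere_field u hcp.sf (fun x hx => (ht x hx).1)
  obtain ⟨vs, hvs, hvs'⟩ := sphere_field v hcp.sg (fun x hx => (ht x hx).2)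
  refine ⟨us, vs, hus, hvs, sphere_bracket u v hcp us vs hus hvs hus' hvs', fun x => ?_⟩
  have hx0 : (x : A8) ≠ 0 := by
    intro h0
    have h1 := x.2
    rw [mem_sphere_zero_iff_norm, h0, norm_zero] at h1
    exact zero_ne_one h1
  have h1 := hind (x : A8) hx0
  rw [LinearIndependent.pair_iff] at h1 ⊢
  intro s t hst
  refine h1 s t ?_
  have h2 := congrArg (fun w => (mfderiv (𝓡 7) 𝓘(ℝ, A8) ((↑) : S7 → A8) x w : A8)) hst
  simp only [map_add, map_smul, map_zero] at h2
  rw [← hus' x, ← hvs' x]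
  exact h2

end S7Pair
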