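import Pool.Agent.S7Pair.Pl1

/-! # Module PL4: independence of `(PF f δ, PG g δ)` -/

open scoped ContDiff Topology
open VectorField Set Filter

noncomputable section

namespace S7Pair

lemma PL4_ee_ne {W : E8} (hW : W ∈ O8) {a : ℝ}
    (h1 : a * W.1.2.1 = 0) (h2 : a * W.1.2.2.1 = 0) (h3 : a * W.1.2.2.2.1 = 0)
    (h4 : a * W.1.2.2.2.2 = 0) : a = 0 := by
  by_contra ha
  apply hW
  have e1 := (mul_eq_zero.mp h1).resolve_left ha
  have e2 := (mul_eq_zero.mp h2).resolve_left ha
  have e3 := (mul_eq_zero.mp h3).resolve_left ha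
  have e4 := (mul_eq_zero.mp h4).resolve_left ha
  exact Prod.ext e1 (Prod.ext e2 (Prod.ext e3 e4))

/-- where the first field is the Hopf field: independence of `ee` and a field with rotation part
`k` and normal part `(r b, η)`. -/
lemma ind_e {W : E8} (hW : W ∈ O8) {k c r : ℝ} {η : ℝ × ℝ} {p : ℝ} (hk : 0 < k)
    (h : W.1.1.1 ≠ 0 ∨ W.1.1.2.1 ≠ 0 ∨ η ≠ 0 ∨
      (c ≠ 0 ∧ (W.1.2.1 ≠ 0 ∨ W.1.2.2.1 ≠ 0) ∧ (W.1.2.2.2.1 ≠ 0 ∨ W.1.2.2.2.2 ≠ 0))) :
    Ind (E := E8) (ee W.1, (0 : ℝ))
      (((-(k * W.1.1.2.1) + r * W.1.1.1, k * W.1.1.1 + r * W.1.1.2.1, η.1),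
        (-((1 - p) * c * k * W.1.2.2.1), (1 - p) * c * k * W.1.2.1, p * c * k * W.1.2.2.2.2,
          -(p * c * k * W.1.2.2.2.1))), η.2) := by
  intro a b hab
  have e1 := congrArg (fun V : E8 => V.1.1.1) hab
  have e2 := congrArg (fun V : E8 => V.1.1.2.1) hab
  have e3 := congrArg (fun V : E8 => V.1.1.2.2) hab
  have e4 := congrArg (fun V : E8 => V.1.2.1) hab
  have e5 := congrArg (fun V : E8 => V.1.2.2.1) hab
  have e6 := congrArg (fun V : E8 => V.1.2.2.2.1) hab
  have e7 := congrArg (fun V : E8 => V.1.2.2.2.2) hab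
  have e8 := congrArg (fun V : E8 => V.2) hab
  simp only [ee, Prod.fst_add, Prod.snd_add, Prod.smul_fst, Prod.smul_snd, smul_eq_mul,
    Prod.fst_zero, Prod.snd_zero, mul_zero, zero_add] at e1 e2 e3 e4 e5 e6 e7 e8
  have hb : b = 0 := by
    by_contra hb
    have f1 := (mul_eq_zero.mp e1).resolve_left hb
    have f2 := (mul_eq_zero.mp e2).resolve_left hb
    have f3 := (mul_eq_zero.mp e3).resolve_left hb
    have f8 := (mul_eq_zero.mp e8).resolve_left hb
    have f9 : k * (W.1.1.1 ^ 2 + W.1.1.2.1 ^ 2) = 0 := by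
      linear_combination W.1.1.1 * f2 - W.1.1.2.1 * f1
    have f10 := (mul_eq_zero.mp f9).resolve_left hk.ne'
    have g1 : W.1.1.1 = 0 := by nlinarith [sq_nonneg W.1.1.1, sq_nonneg W.1.1.2.1]
    have g2 : W.1.1.2.1 = 0 := by nlinarith [sq_nonneg W.1.1.1, sq_nonneg W.1.1.2.1]
    rcases h with h | h | h | ⟨hc, ho1, ho2⟩
    · exact h g1
    · exact h g2
    · exact h (Prod.ext f3 f8)
    · have k1 : a + b * ((1 - p) * c * k) = 0 := by
        rcases ho1 with ho | ho
        · apply mul_right_cancel₀ ho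
          linear_combination e5
        · apply mul_right_cancel₀ ho
          linear_combination -e4
      have k2 : a - b * (p * c * k) = 0 := by
        rcases ho2 with ho | ho
        · apply mul_right_cancel₀ ho
          linear_combination e7
        · apply mul_right_cancel₀ ho
          linear_combination -e6
      have k3 : b * (c * k) = 0 := by linear_combination k1 - k2
      exact (mul_ne_zero hb (mul_ne_zero hc hk.ne')) k3
  subst hb
  refine ⟨?_, rfl⟩
  apply PL4_ee_ne hW
  · linear_combination e5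
  · linear_combination -e4
  · linear_combination e7
  · linear_combination -e6

lemma PL4_o12 {W : E8} (hW : W ∈ O8) : o1 W.1 + o2 W.1 = 1 := by
  have h0 : 0 < W.1.2.1 ^ 2 + W.1.2.2.1 ^ 2 + W.1.2.2.2.1 ^ 2 + W.1.2.2.2.2 ^ 2 := by
    by_contra hcon
    apply hW
    have h1 := sq_nonneg W.1.2.1
    have h2 := sq_nonneg W.1.2.2.1
    have h3 := sq_nonneg W.1.2.2.2.1
    have h4 := sq_nonneg W.1.2.2.2.2
    have e1 : W.1.2.1 = 0 := by nlinarith
    have e2 : W.1.2.2.1 = 0 := by nlinarith
    have e3 : W.1.2.2.2.1 = 0 := by nlinarith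
    have e4 : W.1.2.2.2.2 = 0 := by nlinarith
    exact Prod.ext e1 (Prod.ext e2 (Prod.ext e3 e4))
  unfold o1 o2 n4
  rw [Real.sq_sqrt h0.le, ← add_div]
  rw [div_eq_one_iff_eq h0.ne']
  ring

lemma PL4_o_nonneg (P : E7) : 0 ≤ o1 P ∧ 0 ≤ o2 P ∧ 0 ≤ qs P := by
  unfold o1 o2 qs
  refine ⟨?_, ?_, ?_⟩ <;> positivity

/-- facts on the cut-offs `hh`, `ht` -/
lemma PL4_hh {δ : ℝ} (hδ : 0 < δ) (hδ' : δ ≤ 1 / 64) {W : E8} (hW : W ∈ O8) :
    0 ≤ hh δ W ∧ hh δ W ≤ 1 ∧ ht δ W ≤ 1 ∧
      (0 < hh δ W → ht δ W = 1 ∧ (qa W.1 < δ ∨ qb W.1 < δ)) ∧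
      (ht δ W = 1 → (qa W.1 < δ ∨ qb W.1 < δ)) ∧
      (hh δ W < 1 → qa W.1 ≠ 0 ∧ qb W.1 ≠ 0) := by
  obtain ⟨ho1, ho2, hqs⟩ := PL4_o_nonneg W.1
  have ho := PL4_o12 hW
  have hab : 1 ≤ qa W.1 + qb W.1 := by
    unfold qa qb
    linarith
  have hqa : 0 ≤ qa W.1 := by unfold qa; linarith
  have hqb : 0 ≤ qb W.1 := by unfold qb; linarith
  -- values
  have za : ∀ q : ℝ, δ ≤ q → sm (2 - 3 * (q / δ)) = 0 ∧ sm (4 - 4 * (q / δ)) = 0 := by
    intro q hq
    have h1 : 1 ≤ q / δ := by rwa [le_div_iff₀ hδ, one_mul]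
    exact ⟨Real.smoothTransition.zero_of_nonpos (by linarith),
      Real.smoothTransition.zero_of_nonpos (by linarith)⟩
  have n1 : ∀ x : ℝ, 0 ≤ sm x := fun x => Real.smoothTransition.nonneg x
  have n2 : ∀ x : ℝ, sm x ≤ 1 := fun x => Real.smoothTransition.le_one x
  have key : δ ≤ qa W.1 ∨ δ ≤ qb W.1 := by
    by_contra hcon
    push Not at hcon
    linarith [hcon.1, hcon.2]
  have hpos : ∀ q : ℝ, 0 < sm (2 - 3 * (q / δ)) → sm (4 - 4 * (q / δ)) = 1 ∧ q < δ := by
    intro q hq
    have h1 : ¬ (2 - 3 * (q / δ) ≤ 0) := by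
      intro h
      rw [show sm (2 - 3 * (q / δ)) = 0 from Real.smoothTransition.zero_of_nonpos h] at hq
      exact lt_irrefl _ hq
    push Not at h1
    have h2 : q / δ < 2 / 3 := by linarith
    refine ⟨Real.smoothTransition.one_of_one_le (by linarith), ?_⟩
    rw [div_lt_iff₀ hδ] at h2
    linarith
  unfold hh ht
  rcases key with hk | hk
  · obtain ⟨z1, z2⟩ := za _ hk
    rw [z1, z2, zero_add, zero_add]
    refine ⟨n1 _, n2 _, n2 _, ?_, ?_, ?_⟩
    · intro h
      obtain ⟨h1, h2⟩ := hpos _ h
      exact ⟨h1, Or.inr h2⟩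
    · intro h
      right
      by_contra hcon
      push Not at hcon
      rw [(za _ hcon).2] at h
      exact zero_ne_one h
    · intro h
      refine ⟨by linarith, ?_⟩
      intro h0
      rw [h0, zero_div, mul_zero, sub_zero,
        show sm 2 = 1 from Real.smoothTransition.one_of_one_le (by norm_num)] at h
      exact lt_irrefl _ h
  · obtain ⟨z1, z2⟩ := za _ hk
    rw [z1, z2, add_zero, add_zero]
    refine ⟨n1 _, n2 _, n2 _, ?_, ?_, ?_⟩
    · intro h
      obtain ⟨h1, h2⟩ := hpos _ h
      exact ⟨h1, Or.inl h2⟩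
    · intro h
      left
      by_contra hcon
      push Not at hcon
      rw [(za _ hcon).2] at h
      exact zero_ne_one h
    · intro h
      refine ⟨?_, by linarith⟩
      intro h0
      rw [h0, zero_div, mul_zero, sub_zero,
        show sm 2 = 1 from Real.smoothTransition.one_of_one_le (by norm_num)] at h
      exact lt_irrefl _ h

lemma PL4_n3_sq (b : R3) : n3 b ^ 2 = b.1 ^ 2 + b.2.1 ^ 2 + b.2.2 ^ 2 := by
  unfold n3
  exact Real.sq_sqrt (by positivity)

/-- the bad case of the normal part -/
lemma PL4_cond {δ : ℝ} (hδ : 0 < δ) (hδ' : δ ≤ 1 / 64) {W : E8} (hW : W ∈ O8)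
    (hx : 0 < hh δ W ∨ 5 ≤ 100 * sig W) (h1 : W.1.1.1 = 0) (h2 : W.1.1.2.1 = 0)
    {B : ℝ} (hB : B = (1 - hh δ W) * be W)
    (e1 : B * (-(W.2 / n3 W.1.1) * W.1.1.2.2) + (1 - B) * (-W.2) = 0)
    (e2 : B * (n3 W.1.1 - 1) + (1 - B) * (W.1.1.2.2 - ca W) = 0) :
    ca W ≠ 0 ∧ (W.1.2.1 ≠ 0 ∨ W.1.2.2.1 ≠ 0) ∧ (W.1.2.2.2.1 ≠ 0 ∨ W.1.2.2.2.2 ≠ 0) := by
  obtain ⟨hh0, hh1, hht1, hhpos, hht2, hhlt⟩ := PL4_hh hδ hδ' hW
  have hr2 := PL4_n3_sq W.1.1
  rw [h1, h2] at hr2
  have hr0 : 0 ≤ n3 W.1.1 := Real.sqrt_nonneg _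
  have hbe0 : 0 ≤ be W := Real.smoothTransition.nonneg _
  have hbe1 : be W ≤ 1 := Real.smoothTransition.le_one _
  have hca0 : 0 ≤ ca W := Real.smoothTransition.nonneg _
  have hca1 : ca W ≤ 1 := Real.smoothTransition.le_one _
  have hB0 : 0 ≤ B := by
    rw [hB]
    exact mul_nonneg (by linarith) hbe0
  have hB1 : B ≤ 1 := by
    rw [hB]
    nlinarith
  have hrad : rad W = n3 W.1.1 ^ 2 + W.2 ^ 2 := by
    unfold rad
    rw [h1, h2, hr2]
  have hcaeq : rad W ≤ 9 → ca W = 1 := by
    intro h
    unfold ca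
    apply Real.smoothTransition.one_of_one_le
    linarith
  rcases lt_trichotomy W.1.1.2.2 0 with h3 | h3 | h3
  · -- the south ray
    have hr : n3 W.1.1 = -W.1.1.2.2 := by nlinarith
    have hrpos : 0 < n3 W.1.1 := by linarith
    have e1' : (2 * B - 1) * W.2 = 0 := by
      have h3' : W.1.1.2.2 ≠ 0 := h3.ne
      have h4 : -(W.2 / n3 W.1.1) * W.1.1.2.2 = W.2 := by
        rw [hr]
        field_simp
      rw [h4] at e1
      linear_combination e1
    have hb3 : W.1.1.2.2 = -n3 W.1.1 := by linarith
    have e2' : (2 * B - 1) * n3 W.1.1 = B + (1 - B) * ca W := by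
      rw [hb3] at e2
      linear_combination e2
    have hpos : 0 < B + (1 - B) * ca W := by
      have h5 : 0 ≤ (1 - B) * ca W := mul_nonneg (by linarith) hca0
      rcases hB0.eq_or_lt with h6 | h6
      · rw [← h6] at e2' h5 ⊢
        rcases h5.eq_or_lt with h7 | h7
        · rw [← h7] at e2'
          nlinarith
        · linarith
      · linarith
    have h2B : 0 < 2 * B - 1 := by
      by_contra hcon
      push Not at hcon
      nlinarith
    have hs : W.2 = 0 := (mul_eq_zero.mp e1').resolve_left h2B.ne'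
    have hbepos : 0 < be W := by
      by_contra hcon
      push Not at hcon
      have h6 : be W = 0 := le_antisymm hcon hbe0
      rw [h6, mul_zero] at hB
      linarith
    have hsig : 100 * sig W < 23 := by
      by_contra hcon
      push Not at hcon
      have h6 : be W = 0 := Real.smoothTransition.zero_of_nonpos (by linarith)
      linarith
    have hhlt1 : hh δ W < 1 := by
      by_contra hcon
      push Not at hcon
      have h6 : hh δ W = 1 := le_antisymm hh1 hcon
      rw [h6, sub_self, zero_mul] at hB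
      linarith
    have hrad9 : rad W ≤ 9 := by
      rw [hrad, hs]
      unfold sig at hsig
      rw [hs] at hsig
      nlinarith
    obtain ⟨hqa, hqb⟩ := hhlt hhlt1
    have hqs : qs W.1 = 0 := by
      unfold qs
      rw [h1, h2, hr]
      simp
    refine ⟨by rw [hcaeq hrad9]; exact one_ne_zero, ?_, ?_⟩
    · by_contra hcon
      push Not at hcon
      apply hqa
      unfold qa o1
      rw [hqs, hcon.1, hcon.2]
      simp
    · by_contra hcon
      push Not at hcon
      apply hqb
      unfold qb o2
      rw [hqs, hcon.1, hcon.2]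
      simp
  · -- the origin
    exfalso
    have hr : n3 W.1.1 = 0 := by
      rw [h3] at hr2
      nlinarith
    have hbez : be W = 0 := by
      apply Real.smoothTransition.zero_of_nonpos
      unfold sig
      rw [hr]
      nlinarith [sq_nonneg W.2]
    rw [hbez, mul_zero] at hB
    rw [hB] at e1 e2
    have hs : W.2 = 0 := by linarith
    have hca : ca W = 1 := by
      apply hcaeq
      rw [hrad, hr, hs]
      norm_num
    rw [h3, hca] at e2
    linarith
  · -- the north ray
    exfalso
    have hr : n3 W.1.1 = W.1.1.2.2 := by nlinarith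
    have hrpos : 0 < n3 W.1.1 := by linarith
    have hqs : qs W.1 = 4 := by
      unfold qs
      rw [h1, h2, ← hr]
      field_simp
      ring
    obtain ⟨ho1, ho2, -⟩ := PL4_o_nonneg W.1
    have hx' : 5 ≤ 100 * sig W := by
      rcases hx with hx | hx
      · obtain ⟨-, h4⟩ := hhpos hx
        exfalso
        rcases h4 with h4 | h4
        · unfold qa at h4
          linarith
        · unfold qb at h4
          linarith
      · exact hx
    have hs : W.2 = 0 := by
      have h4 : -(W.2 / n3 W.1.1) * W.1.1.2.2 = -W.2 := by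
        rw [← hr]
        field_simp
      rw [h4] at e1
      linarith
    have hr1 : n3 W.1.1 = B + (1 - B) * ca W := by
      rw [← hr] at e2
      linear_combination e2
    have hrle : n3 W.1.1 ≤ 1 := by
      rw [hr1]
      nlinarith
    have hca : ca W = 1 := by
      apply hcaeq
      rw [hrad, hs]
      nlinarith
    rw [hca] at hr1
    have hr11 : n3 W.1.1 = 1 := by linarith
    unfold sig at hx'
    rw [hr11, hs] at hx'
    norm_num at hx'

/-- the second field in the form of `ind_e` -/
lemma PL4_form {g : E7 → E7} {W : E8} {K1 K2 K3 K4 : ℝ}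
    (h : K1 = 0 ∨ (g W.1 = That W.1 ∧ ca W = 1)) :
    K1 • (g W.1, (0 : ℝ)) + K2 • ThE W + K3 • gam W + K4 • N0 W =
      (((-((K1 + K2) * W.1.1.2.1) + (K3 * (-(W.2 / n3 W.1.1))) * W.1.1.1,
        (K1 + K2) * W.1.1.1 + (K3 * (-(W.2 / n3 W.1.1))) * W.1.1.2.1,
        (K3 * (-(W.2 / n3 W.1.1) * W.1.1.2.2) + K4 * (-W.2),
          K3 * (n3 W.1.1 - 1) + K4 * (W.1.1.2.2 - ca W)).1),
        (-((1 - pp (o1 W.1)) * ca W * (K1 + K2) * W.1.2.2.1),
          (1 - pp (o1 W.1)) * ca W * (K1 + K2) * W.1.2.1,
          pp (o1 W.1) * ca W * (K1 + K2) * W.1.2.2.2.2,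
          -(pp (o1 W.1) * ca W * (K1 + K2) * W.1.2.2.2.1))),
        (K3 * (-(W.2 / n3 W.1.1) * W.1.1.2.2) + K4 * (-W.2),
          K3 * (n3 W.1.1 - 1) + K4 * (W.1.1.2.2 - ca W)).2) := by
  rcases h with h | ⟨hg, hc⟩
  · subst h
    ext <;> simp [ThE, gam, N0] <;> ring
  · rw [hg, hc]
    ext <;> simp [ThE, gam, N0, That, hc] <;> ring

theorem plug_ind {f g : E7 → E7} {δ : ℝ} (hδ : 0 < δ) (hδ' : δ ≤ 1 / 64)
    (ht : ∀ P ∈ O7, Tan P (f P) ∧ Tan P (g P))
    (hn : ∀ P ∈ O7, (qa P < δ ∨ qb P < δ) → f P = ee P ∧ g P = That P)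
    (hi : ∀ P ∈ O7, qa P ≠ 0 → qb P ≠ 0 → Ind (f P) (g P))
    {W : E8} (hW : W ∈ O8) : Ind (PF f δ W) (PG g δ W) := by
  obtain ⟨hh0, hh1, hht1, hhpos, hht2, hhlt⟩ := PL4_hh hδ hδ' hW
  have hsig0 : 0 ≤ sig W := by
    unfold sig
    positivity
  have hr0 : 0 ≤ n3 W.1.1 := Real.sqrt_nonneg _
  -- the Hopf field does not vanish
  have hee : ∀ a : ℝ, a • (ee W.1, (0 : ℝ)) = (0 : E8) → a = 0 := by
    intro a ha
    have e4 := congrArg (fun V : E8 => V.1.2.1) ha
    have e5 := congrArg (fun V : E8 => V.1.2.2.1) ha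
    have e6 := congrArg (fun V : E8 => V.1.2.2.2.1) ha
    have e7 := congrArg (fun V : E8 => V.1.2.2.2.2) ha
    simp only [ee, Prod.smul_fst, Prod.smul_snd, smul_eq_mul, Prod.fst_zero,
      Prod.snd_zero] at e4 e5 e6 e7
    apply PL4_ee_ne hW
    · linear_combination e5
    · linear_combination -e4
    · linear_combination e7
    · linear_combination -e6
  by_cases hx5 : 5 ≤ 100 * sig W
  · -- zone 3
    have hta : ta W = 1 := Real.smoothTransition.one_of_one_le (by linarith)
    have hA1 : A1 W = 0 := Real.smoothTransition.zero_of_nonpos (by linarith)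
    have hPF : PF f δ W = (ee W.1, (0 : ℝ)) := by
      unfold PF
      rw [hta]
      simp
    have hPG : PG g δ W = (0 : ℝ) • (g W.1, (0 : ℝ))
        + ((1 - hh δ W) * A2 W + hh δ W) • ThE W
        + ((1 - hh δ W) * be W) • gam W + (1 - (1 - hh δ W) * be W) • N0 W := by
      unfold PG
      rw [hA1, hta]
      simp
    have hA20 : 0 ≤ A2 W := Real.smoothTransition.nonneg _
    have hk0 : 0 ≤ (1 - hh δ W) * A2 W + hh δ W := by
      have := mul_nonneg (by linarith : 0 ≤ 1 - hh δ W) hA20
      linarith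
    rcases hk0.eq_or_lt with hk | hk
    · -- only the rotation around K
      have h1 : hh δ W = 0 := by
        have := mul_nonneg (by linarith : 0 ≤ 1 - hh δ W) hA20
        linarith
      rw [h1] at hk
      have h2 : A2 W = 0 := by linarith
      have h3 : 100 * sig W ≤ 6 := by
        by_contra hcon
        push Not at hcon
        have h4 : 0 < A2 W := Real.smoothTransition.pos_of_pos (by linarith)
        linarith
      have hbe : be W = 1 := Real.smoothTransition.one_of_one_le (by linarith)
      rw [hPF, hPG, h1, h2, hbe]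
      intro a b hab
      have hab' : a • (ee W.1, (0 : ℝ)) + b • gam W = (0 : E8) := by
        simpa using hab
      have e4 := congrArg (fun V : E8 => V.1.2.1) hab'
      have e5 := congrArg (fun V : E8 => V.1.2.2.1) hab'
      have e6 := congrArg (fun V : E8 => V.1.2.2.2.1) hab'
      have e7 := congrArg (fun V : E8 => V.1.2.2.2.2) hab'
      simp only [ee, gam, Prod.fst_add, Prod.snd_add, Prod.smul_fst, Prod.smul_snd, smul_eq_mul,
        Prod.fst_zero, Prod.snd_zero, mul_zero, add_zero] at e4 e5 e6 e7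
      have ha : a = 0 := by
        apply PL4_ee_ne hW
        · linear_combination e5
        · linear_combination -e4
        · linear_combination e7
        · linear_combination -e6
      refine ⟨ha, ?_⟩
      rw [ha, zero_smul, zero_add] at hab'
      have e1 := congrArg (fun V : E8 => V.1.1.1) hab'
      have e2 := congrArg (fun V : E8 => V.1.1.2.1) hab'
      have e3 := congrArg (fun V : E8 => V.1.1.2.2) hab'
      have e8 := congrArg (fun V : E8 => V.2) hab'
      simp only [gam, Prod.smul_fst, Prod.smul_snd, smul_eq_mul,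
        Prod.fst_zero, Prod.snd_zero] at e1 e2 e3 e8
      by_contra hb
      have f8 := (mul_eq_zero.mp e8).resolve_left hb
      have hr1 : n3 W.1.1 = 1 := by linarith
      have hr2 := PL4_n3_sq W.1.1
      rw [hr1] at e1 e2 e3 hr2
      have f1 := (mul_eq_zero.mp e1).resolve_left hb
      have f2 := (mul_eq_zero.mp e2).resolve_left hb
      have f3 := (mul_eq_zero.mp e3).resolve_left hb
      have hs : W.2 = 0 := by
        linear_combination W.2 * hr2 - W.1.1.1 * f1 - W.1.1.2.1 * f2 - W.1.1.2.2 * f3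
      unfold sig at hx5
      rw [hr1, hs] at hx5
      norm_num at hx5
    · rw [hPF, hPG, PL4_form (Or.inl rfl)]
      apply ind_e hW
      · linarith
      · by_contra hcon
        push Not at hcon
        obtain ⟨c1, c2, c3, c4⟩ := hcon
        have e1 := congrArg Prod.fst c3
        have e2 := congrArg Prod.snd c3
        obtain ⟨d1, d2, d3⟩ := PL4_cond hδ hδ' hW (Or.inr hx5) c1 c2 rfl e1 e2
        have d4 := c4 d1 d2
        rcases d3 with d3 | d3
        · exact d3 d4.1
        · exact d3 d4.2
  · push Not at hx5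
    have hsig1 : sig W < 1 / 20 := by linarith
    have hrpos : 0 < n3 W.1.1 := by
      unfold sig at hsig1
      nlinarith [sq_nonneg W.2]
    have hb0 : W.1.1 ≠ 0 := by
      intro h
      have : n3 W.1.1 = 0 := by
        rw [h]
        simp [n3]
      linarith
    have hP : W.1 ∈ O7 := ⟨hb0, hW⟩
    have hrad : rad W ≤ 9 := by
      unfold rad
      have hr2 := PL4_n3_sq W.1.1
      unfold sig at hsig1
      nlinarith [sq_nonneg W.2]
    have hca : ca W = 1 := by
      apply Real.smoothTransition.one_of_one_le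
      linarith
    have hbe : be W = 1 := Real.smoothTransition.one_of_one_le (by linarith)
    have hA2 : A2 W = 0 := Real.smoothTransition.zero_of_nonpos (by linarith)
    have hta0 : 0 ≤ ta W := Real.smoothTransition.nonneg _
    have hta1 : ta W ≤ 1 := Real.smoothTransition.le_one _
    have hA10 : 0 ≤ A1 W := Real.smoothTransition.nonneg _
    rcases hh0.eq_or_lt with hhz | hhp
    · -- hh = 0
      obtain ⟨hqa, hqb⟩ := hhlt (by linarith)
      have hPG : PG g δ W = A1 W • (g W.1, (0 : ℝ)) + gam W := by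
        unfold PG
        rw [← hhz, hA2, hbe]
        simp
      obtain ⟨htf, htg⟩ := ht W.1 hP
      have htf1 : W.1.1.1 * (f W.1).1.1 + W.1.1.2.1 * (f W.1).1.2.1
          + W.1.1.2.2 * (f W.1).1.2.2 = 0 := htf.1
      have htg1 : W.1.1.1 * (g W.1).1.1 + W.1.1.2.1 * (g W.1).1.2.1
          + W.1.1.2.2 * (g W.1).1.2.2 = 0 := htg.1
      have hr2 := PL4_n3_sq W.1.1
      by_cases hx3 : 100 * sig W ≤ 3
      · -- zone 1
        have hta : ta W = 0 := Real.smoothTransition.zero_of_nonpos (by linarith)
        have hPF : PF f δ W = (f W.1, (0 : ℝ)) := by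
          unfold PF
          rw [hta]
          simp
        rw [hPF, hPG]
        intro a b hab
        have e1 := congrArg (fun V : E8 => V.1.1.1) hab
        have e2 := congrArg (fun V : E8 => V.1.1.2.1) hab
        have e3 := congrArg (fun V : E8 => V.1.1.2.2) hab
        have e8 := congrArg (fun V : E8 => V.2) hab
        simp only [gam, Prod.fst_add, Prod.snd_add, Prod.smul_fst, Prod.smul_snd, smul_eq_mul,
          Prod.fst_zero, Prod.snd_zero, mul_zero, zero_add] at e1 e2 e3 e8
        by_cases hb : b = 0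
        · subst hb
          refine ⟨?_, rfl⟩
          have h1 : a • f W.1 = 0 := by
            have h2 := congrArg Prod.fst hab
            simpa using h2
          have h3 := hi W.1 hP hqa hqb a 0
          rw [zero_smul, add_zero] at h3
          exact (h3 h1).1
        · exfalso
          have f8 := (mul_eq_zero.mp e8).resolve_left hb
          have hr1 : n3 W.1.1 = 1 := by linarith
          rw [hr1] at e1 e2 e3 hr2
          have hs : b * W.2 = 0 := by
            linear_combination a * htf1 + b * A1 W * htg1 + b * W.2 * hr2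
              - W.1.1.1 * e1 - W.1.1.2.1 * e2 - W.1.1.2.2 * e3
          have hs0 := (mul_eq_zero.mp hs).resolve_left hb
          have hsg : sig W = 0 := by
            unfold sig
            rw [hr1, hs0]
            norm_num
          have hA1 : A1 W = 1 := by
            apply Real.smoothTransition.one_of_one_le
            rw [hsg]
            norm_num
          have hg0 : gam W = 0 := by
            unfold gam
            rw [hr1, hs0]
            simp
          rw [hA1, hg0, one_smul, add_zero] at hab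
          have h1 : a • f W.1 + b • g W.1 = 0 := by
            have h2 := congrArg Prod.fst hab
            simpa using h2
          exact hb (hi W.1 hP hqa hqb a b h1).2
      · -- zone 2
        push Not at hx3
        have htapos : 0 < ta W := Real.smoothTransition.pos_of_pos (by linarith)
        have htalt : ta W < 1 := Real.smoothTransition.lt_one_of_lt_one (by linarith)
        have hA1 : A1 W = 0 := Real.smoothTransition.zero_of_nonpos (by linarith)
        rw [hPG, hA1, zero_smul, zero_add]
        intro a b hab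
        have hsigpos : 0 < sig W := by linarith
        set D := 4 * ta W * (1 - ta W) * (1 - S7Pair.ht δ W) with hD
        set q := √(sig W) with hq
        have hqpos : 0 < q := Real.sqrt_pos.mpr hsigpos
        have e1 := congrArg (fun V : E8 => V.1.1.1) hab
        have e2 := congrArg (fun V : E8 => V.1.1.2.1) hab
        have e3 := congrArg (fun V : E8 => V.1.1.2.2) hab
        have e8 := congrArg (fun V : E8 => V.2) hab
        simp only [PF, dsg, gam, ee, Prod.fst_add, Prod.snd_add, Prod.smul_fst, Prod.smul_snd,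
          smul_eq_mul, Prod.fst_zero, Prod.snd_zero, mul_zero, zero_add, add_zero, ← hD,
          ← hq] at e1 e2 e3 e8
        -- radial part
        have hrad1 : a * D * (n3 W.1.1 - 1) / q - b * W.2 = 0 := by
          have h1 : (a * D * (n3 W.1.1 - 1) / q - b * W.2) * n3 W.1.1 = 0 := by
            have h2 : n3 W.1.1 ≠ 0 := hrpos.ne'
            have h3 : q ≠ 0 := hqpos.ne'
            have h4 : (a * D * (n3 W.1.1 - 1) / q - b * W.2) * n3 W.1.1 =
                (a * D * ((n3 W.1.1 - 1) / n3 W.1.1 / q) + b * (-(W.2 / n3 W.1.1))) *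
                  n3 W.1.1 ^ 2 := by
              field_simp
              ring
            rw [h4, hr2]
            linear_combination W.1.1.1 * e1 + W.1.1.2.1 * e2 + W.1.1.2.2 * e3
              - a * (1 - ta W) * htf1
          exact (mul_eq_zero.mp h1).resolve_right hrpos.ne'
        have hb : b = 0 := by
          have h1 : b * sig W = 0 := by
            have h2 : sig W = (n3 W.1.1 - 1) ^ 2 + W.2 ^ 2 := rfl
            rw [h2]
            linear_combination (n3 W.1.1 - 1) * e8 - W.2 * hrad1
          exact (mul_eq_zero.mp h1).resolve_right hsigpos.ne'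
        refine ⟨?_, hb⟩
        by_contra ha
        subst hb
        have hDz : D = 0 := by
          have h1 : a * D * sig W = 0 := by
            have h2 : sig W = (n3 W.1.1 - 1) ^ 2 + W.2 ^ 2 := rfl
            rw [h2]
            have h3 : q ≠ 0 := hqpos.ne'
            have h4 : a * D * (n3 W.1.1 - 1) = 0 := by
              field_simp at hrad1
              linear_combination hrad1
            have h5 : a * D * W.2 = 0 := by
              field_simp at e8
              linear_combination e8
            linear_combination (n3 W.1.1 - 1) * h4 + W.2 * h5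
          have h2 := (mul_eq_zero.mp h1).resolve_right hsigpos.ne'
          exact (mul_eq_zero.mp h2).resolve_left ha
        have hht : S7Pair.ht δ W = 1 := by
          rw [hD] at hDz
          have h1 : 4 * ta W * (1 - ta W) ≠ 0 :=
            (mul_pos (mul_pos (by norm_num) htapos) (by linarith)).ne'
          have h2 := (mul_eq_zero.mp hDz).resolve_left h1
          linarith
        have hfe := (hn W.1 hP (hht2 hht)).1
        have hPF : PF f δ W = (ee W.1, (0 : ℝ)) := by
          unfold PF
          rw [hfe, hht, sub_self, mul_zero, zero_smul, add_zero, ← add_smul]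
          simp
        rw [hPF, zero_smul, add_zero] at hab
        exact ha (hee a hab)
    · -- hh > 0
      obtain ⟨hht, hq⟩ := hhpos hhp
      obtain ⟨hfe, hge⟩ := hn W.1 hP hq
      have hPF : PF f δ W = (ee W.1, (0 : ℝ)) := by
        unfold PF
        rw [hfe, hht, sub_self, mul_zero, zero_smul, add_zero, ← add_smul]
        simp
      have hPG : PG g δ W = ((1 - hh δ W) * A1 W + hh δ W * (1 - ta W)) • (g W.1, (0 : ℝ))
          + (hh δ W * ta W) • ThE W
          + ((1 - hh δ W) * be W) • gam W + (1 - (1 - hh δ W) * be W) • N0 W := by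
        unfold PG
        rw [hA2, mul_zero, zero_add]
      rw [hPF, hPG, PL4_form (Or.inr ⟨hge, hca⟩)]
      apply ind_e hW
      · have h1 : 0 ≤ (1 - hh δ W) * A1 W := mul_nonneg (by linarith) hA10
        nlinarith
      · by_contra hcon
        push Not at hcon
        obtain ⟨c1, c2, c3, c4⟩ := hcon
        have e1 := congrArg Prod.fst c3
        have e2 := congrArg Prod.snd c3
        obtain ⟨d1, d2, d3⟩ := PL4_cond hδ hδ' hW (Or.inl hhp) c1 c2 rfl e1 e2
        have d4 := c4 d1 d2
        rcases d3 with d3 | d3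
        · exact d3 d4.1
        · exact d3 d4.2

end S7Pair
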