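import Pool.Agent.S7Pair.Pl3
import Pool.Agent.S7Pair.Pl4

/-! # Module PL5: the plug theorem -/

open scoped ContDiff Topology
open VectorField Set Filter

noncomputable section

namespace S7Pair

private lemma b_ne {W : E8} (h : sig W ≤ 1 / 20) : W.1.1 ≠ 0 := by
  intro h0
  have : sig W = 1 + W.2 ^ 2 := by
    unfold sig n3
    rw [h0]
    simp only [Prod.fst_zero, Prod.snd_zero]
    norm_num
  rw [this] at h
  nlinarith [sq_nonneg W.2]

private lemma dot4_smul (a : R4) (c : ℝ) (b : R4) : dot4 a (c • b) = c * dot4 a b := by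
  unfold dot4
  simp only [Prod.smul_fst, Prod.smul_snd, smul_eq_mul]
  ring

private lemma dot4_add (a b c : R4) : dot4 a (b + c) = dot4 a b + dot4 a c := by
  unfold dot4
  simp only [Prod.fst_add, Prod.snd_add]
  ring

private lemma dot4_zero (a : R4) : dot4 a 0 = 0 := by
  unfold dot4
  simp

private lemma dot4_ee (P : E7) : dot4 P.2 (ee P).2 = 0 := by
  unfold dot4 ee
  ring

private lemma dot4_ThE (W : E8) : dot4 W.1.2 (ThE W).1.2 = 0 := by
  unfold dot4 ThE
  ring

private lemma ta_one {W : E8} (h : 1 / 20 ≤ sig W) : ta W = 1 :=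
  Real.smoothTransition.one_of_one_le (by linarith)

private lemma A1_zero {W : E8} (h : 1 / 50 ≤ sig W) : A1 W = 0 :=
  Real.smoothTransition.zero_of_nonpos (by linarith)

private lemma far {W : E8} (h : 16 ≤ rad W) : 9 ≤ sig W := by
  have h1 : n3 W.1.1 ^ 2 = W.1.1.1 ^ 2 + W.1.1.2.1 ^ 2 + W.1.1.2.2 ^ 2 := Real.sq_sqrt (by positivity)
  have h2 : 0 ≤ n3 W.1.1 := Real.sqrt_nonneg _
  unfold rad at h
  unfold sig
  by_cases h3 : n3 W.1.1 ≤ 4
  · nlinarith
  · push Not at h3
    nlinarith [sq_nonneg W.2]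

theorem stPlug (h : StJ) : StPlug := by
  obtain ⟨f, g, δ, hδ, hδ', hcp, htan, hs, hn, hi⟩ := h
  refine ⟨PF f δ, PG g δ, ?_, ?_, ?_, ?_⟩
  · refine CP.of_cat O8_open fun W hW => ?_
    by_cases h1 : 1 / 20 < sig W
    · exact zoneE hδ hW h1
    push Not at h1
    have hO : W.1 ∈ O7 := ⟨b_ne h1, hW⟩
    by_cases h2 : qa W.1 < 3 / 4 * δ ∨ qb W.1 < 3 / 4 * δ
    · exact zoneH hδ hδ' hn hO (by linarith) h2
    push Not at h2
    have h3 : 2 / 3 * δ < qa W.1 := by linarith [h2.1]
    have h4 : 2 / 3 * δ < qb W.1 := by linarith [h2.2]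
    by_cases h5 : sig W < 3 / 100
    · exact zoneK1 hδ hcp htan hs hO h5 h3 h4
    · push Not at h5
      exact zoneK2 hδ hcp htan hs hO (by linarith) (by linarith) h3 h4
  · intro W hW
    have e1 : (1 - ta W) * dot4 W.1.2 (f W.1).2 = 0 := by
      by_cases h1 : 1 / 20 < sig W
      · rw [ta_one h1.le]; ring
      · push Not at h1
        have hO : W.1 ∈ O7 := ⟨b_ne h1, hW⟩
        rw [(htan _ hO).1.2, mul_zero]
    have e2 : ((1 - hh δ W) * A1 W + hh δ W * (1 - ta W)) * dot4 W.1.2 (g W.1).2 = 0 := by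
      by_cases h1 : 1 / 20 < sig W
      · rw [ta_one h1.le, A1_zero (by linarith)]; ring
      · push Not at h1
        have hO : W.1 ∈ O7 := ⟨b_ne h1, hW⟩
        rw [(htan _ hO).2.2, mul_zero]
    constructor
    · show dot4 W.1.2 ((1 - ta W) • (f W.1).2 + ta W • (ee W.1).2 +
        (4 * ta W * (1 - ta W) * (1 - ht δ W)) • (0 : R4)) = 0
      rw [dot4_add, dot4_add, dot4_smul, dot4_smul, dot4_smul, dot4_zero, dot4_ee, e1]
      ring
    · show dot4 W.1.2 (((1 - hh δ W) * A1 W + hh δ W * (1 - ta W)) • (g W.1).2 +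
        ((1 - hh δ W) * A2 W + hh δ W * ta W) • (ThE W).1.2 + ((1 - hh δ W) * be W) • (0 : R4) +
        (1 - (1 - hh δ W) * be W) • (0 : R4)) = 0
      rw [dot4_add, dot4_add, dot4_add, dot4_smul, dot4_smul, dot4_smul, dot4_smul, dot4_zero, dot4_ThE, e2]
      ring
  · intro W hW
    exact plug_ind hδ hδ' htan hn hi hW
  · intro W hW hr
    have h9 := far hr
    have t1 : ta W = 1 := ta_one (by linarith)
    have a1 : A1 W = 0 := A1_zero (by linarith)
    have a2 : A2 W = 1 := Real.smoothTransition.one_of_one_le (by linarith)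
    have b0 : be W = 0 := Real.smoothTransition.zero_of_nonpos (by linarith)
    have c0' : ca W = 0 := Real.smoothTransition.zero_of_nonpos (by linarith)
    constructor
    · unfold PF
      rw [t1]
      simp
    · unfold PG
      rw [t1, a1, a2, b0]
      have e : ThE W + N0 W = (((-W.1.1.2.1, W.1.1.1, -W.2), 0), W.1.1.2.2) := by
        unfold ThE N0
        rw [c0']
        simp
      rw [← e]
      simp

end S7Pair
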