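import Pool.Agent.S7Pair.Sv1

/-! # Module SV2: the thick seven-sphere from the plug

On `{w ≠ 0, |z|² ≤ |w|²}` use `u = Lam^* G`, `v = Lam^* F`; on `{|z|² ≥ |w|²}` the swapped pair
`u = swap (Lam^* F) swap`, `v = swap (Lam^* G) swap`; for `|z|²/|w|² ≥ 1/4` the first one is
`(iz,0), (0,iw)`, for `|w|²/|z|² ≥ 1/4` the second one too. -/

open scoped ContDiff Topology
open VectorField Set Filter

noncomputable section

namespace S7Pair

private def sv2S : Y8 ≃L[ℝ] Y8 := ContinuousLinearEquiv.prodComm ℝ R4 R4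

private def sv2L (Z : Y8) : E8 := Lam (sv2S Z)

private lemma sv2S_apply (Z : Y8) : sv2S Z = (Z.2, Z.1) := rfl

private lemma sv2_open : IsOpen {Z : Y8 | Z.2 ≠ 0} := isOpen_ne.preimage continuous_snd

private lemma sv2_open' : IsOpen {Z : Y8 | Z.1 ≠ 0} := isOpen_ne.preimage continuous_fst

private lemma sv2_at {Z : Y8} (hZ : Z.2 ≠ 0) : ContDiffAt ℝ ∞ Lam Z :=
  Lam_smooth.contDiffAt (sv2_open.mem_nhds hZ)

private lemma sv2_fd {Z : Y8} (hZ : Z.1 ≠ 0) :
    fderiv ℝ sv2L Z = (fderiv ℝ Lam (sv2S Z)).comp (sv2S : Y8 →L[ℝ] Y8) := by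
  have h1 : HasFDerivAt Lam (fderiv ℝ Lam (sv2S Z)) (sv2S Z) :=
    ((sv2_at (Z := sv2S Z) hZ).differentiableAt (by simp)).hasFDerivAt
  exact (h1.comp Z (sv2S.hasFDerivAt (x := Z))).fderiv

private lemma sv2_inv {Z : Y8} (hZ : Z.1 ≠ 0) : (fderiv ℝ sv2L Z).IsInvertible := by
  rw [sv2_fd hZ]
  obtain ⟨M, hM⟩ := Lam_inv (sv2S Z) hZ
  refine ⟨sv2S.trans M, ?_⟩
  rw [← hM]
  rfl

private lemma sv2_smooth : ContDiffOn ℝ ∞ sv2L {Z | Z.1 ≠ 0} := fun Z hZ =>
  ((sv2_at (Z := sv2S Z) hZ).comp Z sv2S.contDiff.contDiffAt).contDiffWithinAt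

private lemma dot4_nonneg (z : R4) : 0 ≤ dot4 z z := by
  unfold dot4; nlinarith [sq_nonneg z.1, sq_nonneg z.2.1, sq_nonneg z.2.2.1, sq_nonneg z.2.2.2]

private lemma dot4_pos {z : R4} (hz : z ≠ 0) : 0 < dot4 z z := by
  refine lt_of_le_of_ne (dot4_nonneg z) fun h => hz ?_
  have h' : z.1 ^ 2 + z.2.1 ^ 2 + z.2.2.1 ^ 2 + z.2.2.2 ^ 2 = 0 := by
    rw [h]; unfold dot4; ring
  have a : z.1 = 0 := by nlinarith [sq_nonneg z.1, sq_nonneg z.2.1, sq_nonneg z.2.2.1, sq_nonneg z.2.2.2]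
  have b : z.2.1 = 0 := by nlinarith [sq_nonneg z.1, sq_nonneg z.2.1, sq_nonneg z.2.2.1, sq_nonneg z.2.2.2]
  have c : z.2.2.1 = 0 := by nlinarith [sq_nonneg z.1, sq_nonneg z.2.1, sq_nonneg z.2.2.1, sq_nonneg z.2.2.2]
  have d : z.2.2.2 = 0 := by nlinarith [sq_nonneg z.1, sq_nonneg z.2.1, sq_nonneg z.2.2.1, sq_nonneg z.2.2.2]
  exact Prod.ext a (Prod.ext b (Prod.ext c d))

private lemma dot4_cont : Continuous fun z : R4 => dot4 z z := by
  unfold dot4; fun_prop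

theorem stS7 (h : StPlug) : StS7 := by
  classical
  obtain ⟨F, G, hcp, htan, hind, hfar⟩ := h
  -- the two regions
  set A : Set Y8 := {Z | dot4 Z.1 Z.1 < 2 * dot4 Z.2 Z.2} with hA
  set B : Set Y8 := {Z | dot4 Z.2 Z.2 < 2 * dot4 Z.1 Z.1} with hB
  have hAo : IsOpen A := isOpen_lt (dot4_cont.comp continuous_fst)
    (continuous_const.mul (dot4_cont.comp continuous_snd))
  have hBo : IsOpen B := isOpen_lt (dot4_cont.comp continuous_snd)
    (continuous_const.mul (dot4_cont.comp continuous_fst))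
  have hA2 : ∀ Z ∈ A, Z.2 ≠ 0 := by
    intro Z hZ h0
    have h1 : dot4 Z.1 Z.1 < 2 * dot4 Z.2 Z.2 := hZ
    rw [h0] at h1
    have h2 : dot4 (0 : R4) 0 = 0 := by simp [dot4]
    rw [h2] at h1
    linarith [dot4_nonneg Z.1]
  have hB1 : ∀ Z ∈ B, Z.1 ≠ 0 := by
    intro Z hZ h0
    have h1 : dot4 Z.2 Z.2 < 2 * dot4 Z.1 Z.1 := hZ
    rw [h0] at h1
    have h2 : dot4 (0 : R4) 0 = 0 := by simp [dot4]
    rw [h2] at h1
    linarith [dot4_nonneg Z.2]
  have hAB : {Z : Y8 | Z ≠ 0} = A ∪ B := by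
    ext Z
    constructor
    · intro hZ
      by_cases hZA : Z ∈ A
      · exact Or.inl hZA
      · right
        have h1 : 2 * dot4 Z.2 Z.2 ≤ dot4 Z.1 Z.1 := not_lt.mp hZA
        have h2 : Z.1 ≠ 0 := by
          intro h0
          have h3 : dot4 (0 : R4) 0 = 0 := by simp [dot4]
          rw [h0, h3] at h1
          have h4 : Z.2 ≠ 0 := fun h5 => hZ (Prod.ext h0 h5)
          linarith [dot4_pos h4]
        have h3 := dot4_pos h2
        have h4 := dot4_nonneg Z.2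
        change dot4 Z.2 Z.2 < 2 * dot4 Z.1 Z.1
        linarith
    · rintro (hZ | hZ) h0
      · exact hA2 Z hZ (by rw [h0]; rfl)
      · exact hB1 Z hZ (by rw [h0]; rfl)
  -- the two pairs
  have cp1 : CP A (VectorField.pullback ℝ Lam G) (VectorField.pullback ℝ Lam F) :=
    hcp.symm.pullback hAo (Lam_smooth.mono fun Z hZ => hA2 Z hZ)
      (fun Z hZ => (Lam_maps Z (hA2 Z hZ)).1) fun Z hZ => Lam_inv Z (hA2 Z hZ)
  have cp2 : CP B (VectorField.pullback ℝ sv2L F) (VectorField.pullback ℝ sv2L G) :=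
    hcp.pullback hBo (sv2_smooth.mono fun Z hZ => hB1 Z hZ)
      (fun Z hZ => (Lam_maps (sv2S Z) (hB1 Z hZ)).1) fun Z hZ => sv2_inv (hB1 Z hZ)
  -- normal form
  have nf1 : ∀ Z : Y8, Z.2 ≠ 0 → dot4 Z.2 Z.2 ≤ 4 * dot4 Z.1 Z.1 →
      VectorField.pullback ℝ Lam F Z = ((0 : R4), iR4 Z.2) ∧
      VectorField.pullback ℝ Lam G Z = (iR4 Z.1, (0 : R4)) := by
    intro Z hZ hle
    have hm := Lam_maps Z hZ
    have hr : 16 ≤ rad (Lam Z) := by
      rw [hm.2.2]
      have := dot4_pos hZ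
      rw [← mul_div_assoc, le_div_iff₀ this]
      linarith
    have hF := hfar (Lam Z) hm.1 hr
    refine ⟨pullback_eq_of (Lam_inv Z hZ) ?_, pullback_eq_of (Lam_inv Z hZ) ?_⟩
    · rw [Lam_ee Z hZ, hF.1]
    · rw [Lam_ix Z hZ, hF.2]
  have nf2 : ∀ Z : Y8, Z.1 ≠ 0 → dot4 Z.1 Z.1 ≤ 4 * dot4 Z.2 Z.2 →
      VectorField.pullback ℝ sv2L F Z = (iR4 Z.1, (0 : R4)) ∧
      VectorField.pullback ℝ sv2L G Z = ((0 : R4), iR4 Z.2) := by
    intro Z hZ hle
    have hm := Lam_maps (sv2S Z) hZ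
    have hr : 16 ≤ rad (Lam (sv2S Z)) := by
      rw [hm.2.2]
      have := dot4_pos hZ
      rw [← mul_div_assoc]
      change 16 ≤ 64 * dot4 Z.2 Z.2 / dot4 Z.1 Z.1
      rw [le_div_iff₀ this]
      linarith
    have hF := hfar (Lam (sv2S Z)) hm.1 hr
    refine ⟨pullback_eq_of (sv2_inv hZ) ?_, pullback_eq_of (sv2_inv hZ) ?_⟩
    · rw [sv2_fd hZ]
      have h1 := Lam_ee (sv2S Z) hZ
      change fderiv ℝ Lam (sv2S Z) ((0 : R4), iR4 (sv2S Z).2) = F (Lam (sv2S Z))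
      rw [h1, hF.1]
    · rw [sv2_fd hZ]
      have h1 := Lam_ix (sv2S Z) hZ
      change fderiv ℝ Lam (sv2S Z) (iR4 (sv2S Z).1, (0 : R4)) = G (Lam (sv2S Z))
      rw [h1, hF.2]
  have ov : ∀ Z ∈ A, Z ∈ B →
      VectorField.pullback ℝ Lam G Z = VectorField.pullback ℝ sv2L F Z ∧
      VectorField.pullback ℝ Lam F Z = VectorField.pullback ℝ sv2L G Z := by
    intro Z hZA hZB
    have h1 : dot4 Z.1 Z.1 < 2 * dot4 Z.2 Z.2 := hZA
    have h2 : dot4 Z.2 Z.2 < 2 * dot4 Z.1 Z.1 := hZB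
    have h3 := dot4_nonneg Z.1
    have h4 := dot4_nonneg Z.2
    have n1 := nf1 Z (hA2 Z hZA) (by linarith)
    have n2 := nf2 Z (hB1 Z hZB) (by linarith)
    exact ⟨by rw [n1.2, n2.1], by rw [n1.1, n2.2]⟩
  refine ⟨fun Z => if Z ∈ A then VectorField.pullback ℝ Lam G Z else
      VectorField.pullback ℝ sv2L F Z,
    fun Z => if Z ∈ A then VectorField.pullback ℝ Lam F Z else
      VectorField.pullback ℝ sv2L G Z, ?_, ?_, ?_⟩
  · rw [hAB]
    refine CP.union (cp1.congr ?_ ?_) (cp2.congr ?_ ?_)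
    · intro Z hZ; simp [hZ]
    · intro Z hZ; simp [hZ]
    · intro Z hZ
      by_cases hZA : Z ∈ A
      · simp only [hZA, if_true]; exact (ov Z hZA hZ).1
      · simp [hZA]
    · intro Z hZ
      by_cases hZA : Z ∈ A
      · simp only [hZA, if_true]; exact (ov Z hZA hZ).2
      · simp [hZA]
  · intro Z hZ
    by_cases hZA : Z ∈ A
    · simp only [hZA, if_true]
      have h2 := hA2 Z hZA
      have hm := (Lam_maps Z h2).1
      have hF := htan (Lam Z) hm
      constructor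
      · apply Lam_tan Z _ h2
        rw [fderiv_pullback Lam G Z (Lam_inv Z h2)]
        exact hF.2
      · apply Lam_tan Z _ h2
        rw [fderiv_pullback Lam F Z (Lam_inv Z h2)]
        exact hF.1
    · simp only [hZA, if_false]
      have hZB : Z ∈ B := by
        have : Z ∈ A ∪ B := by rw [← hAB]; exact hZ
        exact this.resolve_left hZA
      have h2 := hB1 Z hZB
      have hm := (Lam_maps (sv2S Z) h2).1
      have hF := htan (Lam (sv2S Z)) hm
      have key : ∀ V : E8 → E8, dot4 (Lam (sv2S Z)).1.2 (V (Lam (sv2S Z))).1.2 = 0 →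
          dot4 Z.1 (VectorField.pullback ℝ sv2L V Z).1 +
            dot4 Z.2 (VectorField.pullback ℝ sv2L V Z).2 = 0 := by
        intro V hV
        have h3 := fderiv_pullback sv2L V Z (sv2_inv h2)
        rw [sv2_fd h2] at h3
        have h4 := Lam_tan (sv2S Z) (sv2S (VectorField.pullback ℝ sv2L V Z)) h2 (by
          have h5 : fderiv ℝ Lam (sv2S Z) (sv2S (VectorField.pullback ℝ sv2L V Z)) =
            V (sv2L Z) := h3
          rw [h5]; exact hV)
        rw [add_comm]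
        exact h4
      exact ⟨key F hF.1, key G hF.2⟩
  · intro Z hZ
    by_cases hZA : Z ∈ A
    · simp only [hZA, if_true]
      have h2 := hA2 Z hZA
      exact Ind.pullback (Lam_inv Z h2) (hind _ (Lam_maps Z h2).1).symm
    · simp only [hZA, if_false]
      have hZB : Z ∈ B := by
        have : Z ∈ A ∪ B := by rw [← hAB]; exact hZ
        exact this.resolve_left hZA
      have h2 := hB1 Z hZB
      exact Ind.pullback (sv2_inv h2) (hind _ (Lam_maps (sv2S Z) h2).1)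

end S7Pair
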