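import Pool.Agent.S7Pair.Loc2
import Pool.Agent.S7Pair.J3
import Pool.Agent.S7Pair.GiA
import Pool.Agent.S7Pair.Pl5
import Pool.Agent.S7Pair.Sv2
import Pool.Agent.S7Pair.Man4

/-! # The main theorem: S^7 carries two commuting, everywhere independent smooth vector fields -/

open scoped ContDiff Topology Manifold InnerProductSpace
open VectorField Set Filter Bundle Metric

noncomputable section

namespace S7Pair

theorem main_thick : StS7 := stS7 (stPlug (stJ (stJ3 stLoc)))

theorem main_manifold : StMan := stMan (stE8 main_thick)

end S7Pair
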