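import Pool.Agent.S7Pair.Man6

/-! # Module MAN7: coordinates of the round metric in the charts of the sphere -/

open scoped ContDiff Topology Manifold InnerProductSpace
open VectorField Set Filter Bundle Metric

noncomputable section

namespace S7Pair

/-- the chart at `x` sends `x` to `0`. -/
lemma chart_center (x : S7) : extChartAt (𝓡 7) x x = 0 := by
  have h : extChartAt (𝓡 7) x x = stereographic' 7 (-x) x := by
    simp only [mfld_simps]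
    rfl
  rw [h]
  unfold stereographic'
  rw [OpenPartialHomeomorph.coe_trans]
  simp only [Function.comp_apply]
  rw [stereographic_neg_apply]
  exact (OrthonormalBasis.fromOrthogonalSpanSingleton (𝕜 := ℝ) 7
    (ne_zero_of_mem_unit_sphere (-x))).repr.map_zero

/-- derivative of the inverse stereographic projection. -/
private lemma man7_hasFDerivAt_aux (v w : A8) :
    HasFDerivAt (stereoInvFunAux v)
      ((‖w‖ ^ 2 + 4)⁻¹ • ((4 : ℝ) • ContinuousLinearMap.id ℝ A8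
          + ((2 : ℝ) • innerSL ℝ w).smulRight v)
        + ((-((‖w‖ ^ 2 + 4) ^ 2)⁻¹) • ((2 : ℝ) • innerSL ℝ w)).smulRight
          ((4 : ℝ) • w + (‖w‖ ^ 2 - 4) • v)) w := by
  have h₀ : HasFDerivAt (fun w : A8 => ‖w‖ ^ 2) ((2 : ℝ) • innerSL ℝ w) w := by
    have h := (hasStrictFDerivAt_norm_sq w).hasFDerivAt
    rw [← Nat.cast_smul_eq_nsmul ℝ 2 (innerSL ℝ w)] at h
    exact_mod_cast h
  have hne : (‖w‖ ^ 2 + 4 : ℝ) ≠ 0 := by positivity
  have h₁ : HasFDerivAt (fun w : A8 => (‖w‖ ^ 2 + 4)⁻¹)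
      ((-((‖w‖ ^ 2 + 4) ^ 2)⁻¹) • ((2 : ℝ) • innerSL ℝ w)) w := by
    have h := (hasDerivAt_inv hne).comp_hasFDerivAt w (h₀.add_const 4)
    exact h
  have h₂ : HasFDerivAt (fun w : A8 => (4 : ℝ) • w + (‖w‖ ^ 2 - 4) • v)
      ((4 : ℝ) • ContinuousLinearMap.id ℝ A8 + ((2 : ℝ) • innerSL ℝ w).smulRight v) w :=
    ((hasFDerivAt_id w).const_smul (4 : ℝ)).add ((h₀.sub_const 4).smul_const v)
  exact h₁.smul h₂

private lemma man7_inner_aux (v w h k : A8) (hv : ⟪v, v⟫_ℝ = 1) (hw : ⟪w, v⟫_ℝ = 0)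
    (hh : ⟪h, v⟫_ℝ = 0) (hk : ⟪k, v⟫_ℝ = 0) :
    ⟪fderiv ℝ (stereoInvFunAux v) w h, fderiv ℝ (stereoInvFunAux v) w k⟫_ℝ
      = 16 * ⟪h, k⟫_ℝ / (‖w‖ ^ 2 + 4) ^ 2 := by
  rw [(man7_hasFDerivAt_aux v w).fderiv]
  have hne : (‖w‖ ^ 2 + 4 : ℝ) ≠ 0 := by positivity
  have hww : ⟪w, w⟫_ℝ = ‖w‖ ^ 2 := real_inner_self_eq_norm_sq w
  have e1 : ⟪v, w⟫_ℝ = 0 := by rw [real_inner_comm]; exact hw
  have e2 : ⟪v, h⟫_ℝ = 0 := by rw [real_inner_comm]; exact hh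
  have e3 : ⟪v, k⟫_ℝ = 0 := by rw [real_inner_comm]; exact hk
  have e4 : ⟪h, w⟫_ℝ = ⟪w, h⟫_ℝ := real_inner_comm _ _
  have e5 : ⟪k, w⟫_ℝ = ⟪w, k⟫_ℝ := real_inner_comm _ _
  simp only [_root_.add_apply, _root_.smul_apply,
    ContinuousLinearMap.smulRight_apply, ContinuousLinearMap.id_apply, innerSL_apply_apply,
    smul_eq_mul, inner_add_left, inner_add_right, inner_smul_left, inner_smul_right,
    conj_trivial, hv, hh, hw, e1, e3, e4, hww]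
  field_simp
  ring

theorem gCoord_round
    (g : ContMDiffRiemannianMetric (𝓡 7) ∞ (EuclideanSpace ℝ (Fin 7))
        (fun x : S7 => TangentSpace (𝓡 7) x))
    (hg : ∀ (x : S7) (X Y : TangentSpace (𝓡 7) x), g.inner x X Y =
        ⟪(mfderiv (𝓡 7) 𝓘(ℝ, A8) ((↑) : S7 → A8) x X : A8),
          (mfderiv (𝓡 7) 𝓘(ℝ, A8) ((↑) : S7 → A8) x Y : A8)⟫_ℝ) (x₀ : S7) :
    gCoord g x₀ = gRound := by
  funext y X Y
  unfold gCoord gRound
  rw [hg]
  have htgt : (extChartAt (𝓡 7) x₀).target = univ := by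
    rw [extChartAt_target]
    have : (chartAt (EuclideanSpace ℝ (Fin 7)) x₀) = stereographic' 7 (-x₀) := rfl
    rw [this, stereographic'_target]
    simp
  have hd1 : MDifferentiableAt 𝓘(ℝ, EuclideanSpace ℝ (Fin 7)) (𝓡 7)
      (extChartAt (𝓡 7) x₀).symm y := by
    have h := contMDiffOn_extChartAt_symm (I := 𝓡 7) (n := 1) x₀
    rw [htgt] at h
    exact (h.contMDiffAt univ_mem).mdifferentiableAt one_ne_zero
  have hd2 : MDifferentiableAt (𝓡 7) 𝓘(ℝ, A8) ((↑) : S7 → A8)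
      ((extChartAt (𝓡 7) x₀).symm y) :=
    (contMDiff_coe_sphere (m := 1) _).mdifferentiableAt one_ne_zero
  have hcomp : mfderiv 𝓘(ℝ, EuclideanSpace ℝ (Fin 7)) 𝓘(ℝ, A8)
      (((↑) : S7 → A8) ∘ (extChartAt (𝓡 7) x₀).symm) y
      = (mfderiv (𝓡 7) 𝓘(ℝ, A8) ((↑) : S7 → A8) ((extChartAt (𝓡 7) x₀).symm y)).comp
        (mfderiv 𝓘(ℝ, EuclideanSpace ℝ (Fin 7)) (𝓡 7) (extChartAt (𝓡 7) x₀).symm y) :=
    mfderiv_comp y hd2 hd1
  let U : (Submodule.span ℝ {((-x₀ : S7) : A8)})ᗮ ≃ₗᵢ[ℝ] EuclideanSpace ℝ (Fin 7) :=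
    (OrthonormalBasis.fromOrthogonalSpanSingleton (𝕜 := ℝ) 7
      (ne_zero_of_mem_unit_sphere (-x₀))).repr
  have hfun : (((↑) : S7 → A8) ∘ (extChartAt (𝓡 7) x₀).symm)
      = fun z => stereoInvFunAux ((-x₀ : S7) : A8) ((U.symm z : _) : A8) := by
    rfl
  have hfd : ∀ Z : EuclideanSpace ℝ (Fin 7),
      fderiv ℝ (((↑) : S7 → A8) ∘ (extChartAt (𝓡 7) x₀).symm) y Z
        = fderiv ℝ (stereoInvFunAux ((-x₀ : S7) : A8)) ((U.symm y : _) : A8)
          ((U.symm Z : _) : A8) := by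
    intro Z
    rw [hfun]
    let L : EuclideanSpace ℝ (Fin 7) →L[ℝ] A8 :=
      (Submodule.subtypeL (Submodule.span ℝ {((-x₀ : S7) : A8)})ᗮ).comp
        (U.symm.toContinuousLinearEquiv.toContinuousLinearMap)
    have h1 : HasFDerivAt (fun z : EuclideanSpace ℝ (Fin 7) => ((U.symm z : _) : A8)) L y :=
      L.hasFDerivAt
    have h2 := (man7_hasFDerivAt_aux ((-x₀ : S7) : A8) ((U.symm y : _) : A8))
    have h3 : HasFDerivAt (fun z => stereoInvFunAux ((-x₀ : S7) : A8) ((U.symm z : _) : A8))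
        ((fderiv ℝ (stereoInvFunAux ((-x₀ : S7) : A8)) ((U.symm y : _) : A8)).comp L) y := by
      have h2' : HasFDerivAt (stereoInvFunAux ((-x₀ : S7) : A8))
          (fderiv ℝ (stereoInvFunAux ((-x₀ : S7) : A8)) ((U.symm y : _) : A8))
          ((fun z : EuclideanSpace ℝ (Fin 7) => ((U.symm z : _) : A8)) y) :=
        h2.differentiableAt.hasFDerivAt
      exact HasFDerivAt.comp y h2' h1
    rw [h3.fderiv]; rfl
  have happ : ∀ Z : EuclideanSpace ℝ (Fin 7),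
      (mfderiv (𝓡 7) 𝓘(ℝ, A8) ((↑) : S7 → A8) ((extChartAt (𝓡 7) x₀).symm y)
        (mfderiv 𝓘(ℝ, EuclideanSpace ℝ (Fin 7)) (𝓡 7) (extChartAt (𝓡 7) x₀).symm y Z) : A8)
      = fderiv ℝ (stereoInvFunAux ((-x₀ : S7) : A8)) ((U.symm y : _) : A8)
          ((U.symm Z : _) : A8) := by
    intro Z
    rw [← hfd Z, ← mfderiv_eq_fderiv, hcomp]
    rfl
  rw [happ X, happ Y]
  have horth : ∀ z : (Submodule.span ℝ {((-x₀ : S7) : A8)})ᗮ,
      ⟪(z : A8), ((-x₀ : S7) : A8)⟫_ℝ = 0 := fun z =>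
    Submodule.mem_orthogonal_singleton_iff_inner_left.mp z.2
  have hv : ⟪((-x₀ : S7) : A8), ((-x₀ : S7) : A8)⟫_ℝ = 1 := by
    rw [real_inner_self_eq_norm_sq, norm_eq_of_mem_sphere]; norm_num
  refine (man7_inner_aux _ _ _ _ hv (horth _) (horth _) (horth _)).trans ?_
  have hn : ‖((U.symm y : _) : A8)‖ = ‖y‖ := by
    rw [Submodule.norm_coe]; exact U.symm.norm_map y
  have hi : ⟪((U.symm X : _) : A8), ((U.symm Y : _) : A8)⟫_ℝ = ⟪X, Y⟫_ℝ := by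
    rw [← Submodule.coe_inner]; exact U.symm.inner_map_map X Y
  rw [hn, hi]

end S7Pair
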