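import Pool.Agent.S7Pair.Man5
import Pool.Agent.S7Pair.Man7

/-! # Module MAN8: the round metric has positive sectional curvature -/

open scoped ContDiff Topology Manifold InnerProductSpace
open VectorField Set Filter Bundle Metric

noncomputable section

namespace S7Pair

theorem stCurv : StCurv := by
  obtain ⟨g, hg⟩ := roundMetric_exists
  refine ⟨g, hg, fun x₀ => ?_⟩
  rw [gCoord_round g hg x₀, chart_center]
  exact gRound_secPos

end S7Pair
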