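import Pool.Agent.S7Pair.Main
import Pool.Agent.S7Pair.Man8

/-! # The main theorem together with the round metric (coordinate form of the curvature) -/

open scoped ContDiff Topology Manifold InnerProductSpace
open VectorField Set Filter Bundle Metric

noncomputable section

namespace S7Pair

theorem main_all : StMan ∧ StCurv := ⟨main_manifold, stCurv⟩

end S7Pair
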