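import Pool.Agent.S7Pair.ManDefs

/-! # Module MAN1: transport to Euclidean 8-space by a linear equivalence -/

open scoped ContDiff Topology Manifold InnerProductSpace
open VectorField Set Filter Bundle Metric

noncomputable section

namespace S7Pair

private def man1L : A8 ≃ₗ[ℝ] Y8 where
  toFun x := ((x 0, x 1, x 2, x 3), (x 4, x 5, x 6, x 7))
  invFun Z := WithLp.toLp 2 ![Z.1.1, Z.1.2.1, Z.1.2.2.1, Z.1.2.2.2, Z.2.1, Z.2.2.1, Z.2.2.2.1,
    Z.2.2.2.2]
  map_add' x y := by simp
  map_smul' c x := by simp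
  left_inv x := by
    ext i
    fin_cases i <;> rfl
  right_inv Z := by rfl

private def man1C : A8 ≃L[ℝ] Y8 := man1L.toContinuousLinearEquiv

private lemma man1C_apply (x : A8) :
    man1C x = ((x 0, x 1, x 2, x 3), (x 4, x 5, x 6, x 7)) := rfl

private lemma man1_inner (x y : A8) : ⟪x, y⟫_ℝ =
    dot4 (man1C x).1 (man1C y).1 + dot4 (man1C x).2 (man1C y).2 := by
  rw [man1C_apply, man1C_apply]
  simp only [dot4, PiLp.inner_apply, Fin.sum_univ_eight, RCLike.inner_apply, conj_trivial]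
  ring

theorem stE8 (h : StS7) : StE8 := by
  obtain ⟨u, v, hcp, ht, hind⟩ := h
  have hne : ∀ x : A8, x ≠ 0 → man1C x ≠ 0 := fun x hx h0 => hx (by
    simpa using h0)
  have hfd : ∀ x : A8, fderiv ℝ (man1C : A8 → Y8) x = (man1C : A8 →L[ℝ] Y8) := fun x =>
    man1C.hasFDerivAt.fderiv
  have hinv : ∀ x : A8, (fderiv ℝ (man1C : A8 → Y8) x).IsInvertible := fun x => by
    rw [hfd]; exact ⟨man1C, rfl⟩
  have hpb : ∀ (V : Y8 → Y8) (x : A8),
      man1C (VectorField.pullback ℝ (man1C : A8 → Y8) V x) = V (man1C x) := by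
    intro V x
    have h1 := fderiv_pullback (man1C : A8 → Y8) V x (hinv x)
    rw [hfd] at h1
    exact h1
  refine ⟨VectorField.pullback ℝ (man1C : A8 → Y8) u, VectorField.pullback ℝ (man1C : A8 → Y8) v,
    hcp.pullback isOpen_ne man1C.contDiff.contDiffOn (fun x hx => hne x hx) (fun x _ => hinv x),
    fun x hx => ?_, fun x hx => ?_⟩
  · rw [man1_inner, man1_inner, hpb, hpb]
    exact ht _ (hne x hx)
  · rw [LinearIndependent.pair_iff]
    exact Ind.pullback (hinv x) (hind _ (hne x hx))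

end S7Pair
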