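import Pool.Agent.S7Pair.ManDefs

/-! # Module MAN5: the round metric -/

open scoped ContDiff Topology Manifold InnerProductSpace
open VectorField Set Filter Bundle Metric

noncomputable section

namespace S7Pair

/-- the differential of the inclusion of the sphere, as a map into `A8`. -/
private def man5D (x : S7) : EuclideanSpace ℝ (Fin 7) →L[ℝ] A8 :=
  mfderiv (𝓡 7) 𝓘(ℝ, A8) ((↑) : S7 → A8) x

private lemma man5D_inj (x : S7) : Function.Injective (man5D x) :=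
  injective_mvfderiv_subtypeVal_sphere (n := 7) x

/-- the pull-back of the scalar product by a linear map. -/
private def man5P (L : EuclideanSpace ℝ (Fin 7) →L[ℝ] A8) :
    EuclideanSpace ℝ (Fin 7) →L[ℝ] EuclideanSpace ℝ (Fin 7) →L[ℝ] ℝ :=
  (ContinuousLinearMap.precomp ℝ L).comp ((innerSL ℝ (E := A8)).comp L)

private lemma man5P_apply (L : EuclideanSpace ℝ (Fin 7) →L[ℝ] A8)
    (X Y : EuclideanSpace ℝ (Fin 7)) :
    man5P L X Y = ⟪L X, L Y⟫_ℝ := rfl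

/-- the pull-back of the scalar product. -/
private def man5G (x : S7) : TangentSpace (𝓡 7) x →L[ℝ] TangentSpace (𝓡 7) x →L[ℝ] ℝ :=
  man5P (man5D x)

private lemma man5G_apply (x : S7) (X Y : TangentSpace (𝓡 7) x) :
    man5G x X Y = ⟪man5D x X, man5D x Y⟫_ℝ := rfl

private lemma man5_bdd (L : EuclideanSpace ℝ (Fin 7) →L[ℝ] A8) (hL : Function.Injective L) :
    Bornology.IsVonNBounded ℝ {v : EuclideanSpace ℝ (Fin 7) | man5P L v v < 1} := by
  obtain ⟨K, hK, hA⟩ := L.toLinearMap.exists_antilipschitzWith (LinearMap.ker_eq_bot.mpr hL)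
  refine (NormedSpace.isVonNBounded_iff ℝ).mpr ?_
  refine (isBounded_iff_forall_norm_le).mpr ⟨K, fun v hv => ?_⟩
  have h1 : ‖v‖ ≤ K * ‖L v‖ := by
    have := hA.le_mul_dist v 0
    simpa using this
  have h2 : ‖L v‖ ≤ 1 := by
    have h3 : ⟪L v, L v⟫_ℝ < 1 := hv
    rw [real_inner_self_eq_norm_sq] at h3
    nlinarith [norm_nonneg (L v)]
  have hK0 : (0 : ℝ) ≤ K := K.2
  nlinarith [norm_nonneg (L v)]

private lemma man5P_contDiff : ContDiff ℝ ∞ man5P := by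
  have h1 : ContDiff ℝ ∞ (fun L : EuclideanSpace ℝ (Fin 7) →L[ℝ] A8 =>
      (ContinuousLinearMap.compL ℝ (EuclideanSpace ℝ (Fin 7)) A8 ℝ).flip L) :=
    ContinuousLinearMap.contDiff _
  have h2 : ContDiff ℝ ∞ (fun L : EuclideanSpace ℝ (Fin 7) →L[ℝ] A8 =>
      (innerSL ℝ (E := A8)).comp L) :=
    contDiff_const.clm_comp contDiff_id
  exact h1.clm_comp h2

private lemma man5_triv (x₀ x : S7) (r : ℝ) :
    (trivializationAt ℝ (Bundle.Trivial S7 ℝ) x₀).linearMapAt ℝ x r = r := by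
  simp

private lemma man5_coord (x₀ x : S7)
    (hx : x ∈ (trivializationAt (EuclideanSpace ℝ (Fin 7))
      (TangentSpace (𝓡 7) (M := S7)) x₀).baseSet) (u : EuclideanSpace ℝ (Fin 7)) :
    (inTangentCoordinates (𝓡 7) 𝓘(ℝ, A8) id ((↑) : S7 → A8)
        (mfderiv (𝓡 7) 𝓘(ℝ, A8) ((↑) : S7 → A8)) x₀ x) u
      = man5D x ((trivializationAt (EuclideanSpace ℝ (Fin 7))
          (TangentSpace (𝓡 7) (M := S7)) x₀).symm x u) := by
  unfold inTangentCoordinates ContinuousLinearMap.inCoordinates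
  rw [TangentBundle.continuousLinearMapAt_model_space]
  simp only [id_eq]
  refine (congrArg (man5D x) (Trivialization.symmL_apply (R := ℝ)
    (trivializationAt (EuclideanSpace ℝ (Fin 7)) (TangentSpace (𝓡 7) (M := S7)) x₀) hx u) :)

private lemma man5_smooth : ContMDiff (𝓡 7)
    ((𝓡 7).prod 𝓘(ℝ, EuclideanSpace ℝ (Fin 7) →L[ℝ] EuclideanSpace ℝ (Fin 7) →L[ℝ] ℝ)) ∞
    (fun x : S7 => TotalSpace.mk' (EuclideanSpace ℝ (Fin 7) →L[ℝ] EuclideanSpace ℝ (Fin 7) →L[ℝ] ℝ)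
      (E := fun x : S7 => TangentSpace (𝓡 7) x →L[ℝ] TangentSpace (𝓡 7) x →L[ℝ] ℝ)
      x (man5G x)) := by
  intro x₀
  rw [contMDiffAt_hom_bundle]
  refine ⟨contMDiffAt_id, ?_⟩
  have hA : ContMDiffAt (𝓡 7) 𝓘(ℝ, EuclideanSpace ℝ (Fin 7) →L[ℝ] A8) ∞
      (inTangentCoordinates (𝓡 7) 𝓘(ℝ, A8) id ((↑) : S7 → A8)
        (mfderiv (𝓡 7) 𝓘(ℝ, A8) ((↑) : S7 → A8)) x₀) x₀ :=
    (contMDiff_coe_sphere (m := ∞) (n := 7) x₀).mfderiv_const (by simp)
  have hB : ContMDiffAt (𝓡 7)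
      𝓘(ℝ, EuclideanSpace ℝ (Fin 7) →L[ℝ] EuclideanSpace ℝ (Fin 7) →L[ℝ] ℝ) ∞
      (fun x => man5P (inTangentCoordinates (𝓡 7) 𝓘(ℝ, A8) id ((↑) : S7 → A8)
        (mfderiv (𝓡 7) 𝓘(ℝ, A8) ((↑) : S7 → A8)) x₀ x)) x₀ :=
    man5P_contDiff.contMDiff.contMDiffAt.comp x₀ hA
  refine hB.congr_of_eventuallyEq ?_
  have hmem : (trivializationAt (EuclideanSpace ℝ (Fin 7)) (TangentSpace (𝓡 7) (M := S7)) x₀).baseSet
      ∈ 𝓝 x₀ :=
    (trivializationAt (EuclideanSpace ℝ (Fin 7)) (TangentSpace (𝓡 7) (M := S7)) x₀).open_baseSet.mem_nhds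
      (FiberBundle.mem_baseSet_trivializationAt' x₀)
  filter_upwards [hmem] with x hx
  refine ContinuousLinearMap.ext fun v => ContinuousLinearMap.ext fun w => ?_
  refine (inCoordinates_apply_eq₂ (E₃ := Bundle.Trivial S7 ℝ) hx hx (by simp)).trans ?_
  refine (man5_triv x₀ x _).trans ?_
  refine Eq.trans ?_ (man5P_apply _ v w).symm
  rw [man5_coord x₀ x hx, man5_coord x₀ x hx]
  rfl

/-- the round metric of `S⁷`. -/
theorem roundMetric_exists :
    ∃ g : ContMDiffRiemannianMetric (𝓡 7) ∞ (EuclideanSpace ℝ (Fin 7))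
        (fun x : S7 => TangentSpace (𝓡 7) x),
      ∀ (x : S7) (X Y : TangentSpace (𝓡 7) x), g.inner x X Y =
        ⟪(mfderiv (𝓡 7) 𝓘(ℝ, A8) ((↑) : S7 → A8) x X : A8),
          (mfderiv (𝓡 7) 𝓘(ℝ, A8) ((↑) : S7 → A8) x Y : A8)⟫_ℝ := by
  refine ⟨⟨man5G, ?_, ?_, ?_, ?_⟩, ?_⟩
  · intro x v w
    rw [man5G_apply, man5G_apply, real_inner_comm]
  · intro x v hv
    rw [man5G_apply]
    refine real_inner_self_pos.mpr fun h => hv (man5D_inj x ?_)
    rw [h]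
    exact (man5D x).map_zero.symm
  · intro x
    exact man5_bdd (man5D x) (man5D_inj x)
  · exact man5_smooth
  · intro x X Y
    rfl

end S7Pair
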