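import Pool.Agent.S7Pair.ManDefs

/-! # Module MAN6: positive curvature of the metric `16 ⟨X,Y⟩/(|y|²+4)²` at the origin -/

open scoped ContDiff Topology Manifold InnerProductSpace
open VectorField Set Filter Bundle Metric

noncomputable section

namespace S7Pair

/-- the coefficients of the round metric in stereographic coordinates. -/
def gRound {n : ℕ} (y X Y : EuclideanSpace ℝ (Fin n)) : ℝ := 16 * ⟪X, Y⟫_ℝ / (‖y‖ ^ 2 + 4) ^ 2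

lemma MAN6_hasDeriv {n : ℕ} (Z W y Y : EuclideanSpace ℝ (Fin n)) :
    HasDerivAt (fun t : ℝ => gRound (y + t • Y) Z W)
      (-(64 * ⟪Z, W⟫_ℝ * ⟪y, Y⟫_ℝ) / (‖y‖ ^ 2 + 4) ^ 3) 0 := by
  have h1 : HasDerivAt (fun t : ℝ => ‖y + t • Y‖ ^ 2) (2 * ⟪y, Y⟫_ℝ) 0 := by
    have e1 : (fun t : ℝ => ‖y + t • Y‖ ^ 2)
        = fun t : ℝ => ‖y‖ ^ 2 + t * (2 * ⟪y, Y⟫_ℝ) + t ^ 2 * ‖Y‖ ^ 2 := by
      funext t
      rw [norm_add_sq_real, inner_smul_right, norm_smul, mul_pow, Real.norm_eq_abs, sq_abs]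
      ring
    rw [e1]
    have h2 : HasDerivAt (fun t : ℝ => ‖y‖ ^ 2 + t * (2 * ⟪y, Y⟫_ℝ) + t ^ 2 * ‖Y‖ ^ 2)
        (0 + 1 * (2 * ⟪y, Y⟫_ℝ) + (2 * (0:ℝ) ^ (2 - 1)) * ‖Y‖ ^ 2) 0 := by
      have h3 := (hasDerivAt_const (0:ℝ) (‖y‖ ^ 2)).add
        ((hasDerivAt_id (0:ℝ)).mul_const (2 * ⟪y, Y⟫_ℝ))
      have h4 := h3.add ((hasDerivAt_pow 2 (0:ℝ)).mul_const (‖Y‖ ^ 2))
      exact_mod_cast h4
    refine h2.congr_deriv ?_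
    norm_num
  have hpos : (‖y + (0:ℝ) • Y‖ ^ 2 + 4) ^ 2 ≠ 0 := by positivity
  have h2 := (h1.add_const (4:ℝ)).fun_pow 2
  have h3 := (hasDerivAt_const (0:ℝ) (16 * ⟪Z, W⟫_ℝ)).fun_div h2 hpos
  unfold gRound
  refine h3.congr_deriv ?_
  have h4 : y + (0:ℝ) • Y = y := by simp
  simp only [h4]
  have h5 : (‖y‖ ^ 2 + 4) ≠ 0 := by positivity
  field_simp
  norm_num
  ring

lemma MAN6_diff {n : ℕ} (Z W y : EuclideanSpace ℝ (Fin n)) :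
    DifferentiableAt ℝ (fun z => gRound z Z W) y := by
  unfold gRound
  have h1 : DifferentiableAt ℝ (fun z : EuclideanSpace ℝ (Fin n) => ‖z‖ ^ 2) y :=
    (contDiff_norm_sq ℝ (n := 1)).differentiable (by norm_num) y
  have h2 : (‖y‖ ^ 2 + 4) ^ 2 ≠ 0 := by positivity
  have h3 : DifferentiableAt ℝ (fun z : EuclideanSpace ℝ (Fin n) => (‖z‖ ^ 2 + 4) ^ 2) y :=
    (h1.add_const 4).fun_pow 2
  have h4 := (h3.inv h2).const_mul (16 * ⟪Z, W⟫_ℝ)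
  exact h4

lemma MAN6_fderiv {n : ℕ} (Z W y Y : EuclideanSpace ℝ (Fin n)) :
    fderiv ℝ (fun z => gRound z Z W) y Y
      = -(64 * ⟪Z, W⟫_ℝ * ⟪y, Y⟫_ℝ) / (‖y‖ ^ 2 + 4) ^ 3 := by
  rw [← (MAN6_diff Z W y).lineDeriv_eq_fderiv]
  exact (MAN6_hasDeriv Z W y Y).deriv

lemma MAN6_zero {n : ℕ} (X Y : EuclideanSpace ℝ (Fin n)) : gRound 0 X Y = ⟪X, Y⟫_ℝ := by
  unfold gRound
  norm_num

lemma MAN6_dd2 {n : ℕ} (X Y Z W : EuclideanSpace ℝ (Fin n)) :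
    dd2 (gRound (n := n)) 0 X Y Z W = -(⟪X, Y⟫_ℝ * ⟪Z, W⟫_ℝ) := by
  unfold dd2
  simp only [MAN6_fderiv]
  have hd : DifferentiableAt ℝ (fun z : EuclideanSpace ℝ (Fin n) =>
      -(64 * ⟪Z, W⟫_ℝ * ⟪z, Y⟫_ℝ) / (‖z‖ ^ 2 + 4) ^ 3) 0 := by
    have h1 : DifferentiableAt ℝ (fun z : EuclideanSpace ℝ (Fin n) => ‖z‖ ^ 2) 0 :=
      (contDiff_norm_sq ℝ (n := 1)).differentiable (by norm_num) 0
    have h2 : (‖(0 : EuclideanSpace ℝ (Fin n))‖ ^ 2 + 4) ^ 3 ≠ 0 := by positivity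
    have h3 : DifferentiableAt ℝ (fun z : EuclideanSpace ℝ (Fin n) => ⟪z, Y⟫_ℝ) 0 :=
      differentiableAt_id.inner ℝ (differentiableAt_const Y)
    have h4 : DifferentiableAt ℝ (fun z : EuclideanSpace ℝ (Fin n) => (‖z‖ ^ 2 + 4) ^ 3) 0 :=
      (h1.add_const 4).fun_pow 3
    have h5 := (((h3.const_mul (64 * ⟪Z, W⟫_ℝ)).fun_neg).mul (h4.inv h2))
    exact h5
  rw [← hd.lineDeriv_eq_fderiv]
  have h1 : HasDerivAt (fun t : ℝ => ‖(0 : EuclideanSpace ℝ (Fin n)) + t • X‖ ^ 2) 0 0 := by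
    have e1 : (fun t : ℝ => ‖(0 : EuclideanSpace ℝ (Fin n)) + t • X‖ ^ 2)
        = fun t : ℝ => t ^ 2 * ‖X‖ ^ 2 := by
      funext t
      rw [zero_add, norm_smul, mul_pow, Real.norm_eq_abs, sq_abs]
    rw [e1]
    have h2 := (hasDerivAt_pow 2 (0:ℝ)).mul_const (‖X‖ ^ 2)
    refine h2.congr_deriv ?_
    norm_num
  have h3 : HasDerivAt (fun t : ℝ => -(64 * ⟪Z, W⟫_ℝ *
      ⟪(0 : EuclideanSpace ℝ (Fin n)) + t • X, Y⟫_ℝ)) (-(64 * ⟪Z, W⟫_ℝ * ⟪X, Y⟫_ℝ)) 0 := by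
    have e1 : (fun t : ℝ => -(64 * ⟪Z, W⟫_ℝ *
      ⟪(0 : EuclideanSpace ℝ (Fin n)) + t • X, Y⟫_ℝ))
        = fun t : ℝ => t * (-(64 * ⟪Z, W⟫_ℝ * ⟪X, Y⟫_ℝ)) := by
      funext t
      rw [zero_add, real_inner_smul_left]
      ring
    rw [e1]
    have h2 := (hasDerivAt_id (0:ℝ)).mul_const (-(64 * ⟪Z, W⟫_ℝ * ⟪X, Y⟫_ℝ))
    refine h2.congr_deriv ?_
    ring
  have h4 := (h1.add_const (4:ℝ)).fun_pow 3
  have hpos : (‖(0 : EuclideanSpace ℝ (Fin n)) + (0:ℝ) • X‖ ^ 2 + 4) ^ 3 ≠ 0 := by positivity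
  have h5 := h3.fun_div h4 hpos
  have h6 : lineDeriv ℝ (fun z : EuclideanSpace ℝ (Fin n) =>
      -(64 * ⟪Z, W⟫_ℝ * ⟪z, Y⟫_ℝ) / (‖z‖ ^ 2 + 4) ^ 3) 0 X
      = _ := h5.deriv
  rw [h6]
  simp
  ring

theorem gRound_secPos {n : ℕ} : SecPosAt (gRound (n := n)) 0 := by
  intro X Y hXY
  have hzero : ∀ X Y : EuclideanSpace ℝ (Fin n), IsChristoffel (gRound (n := n)) 0 X Y 0 := by
    intro X Y Z
    rw [MAN6_fderiv, MAN6_fderiv, MAN6_fderiv, MAN6_zero]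
    simp
  refine ⟨0, 0, 0, hzero X X, hzero Y Y, hzero X Y, ?_⟩
  unfold curvNum
  rw [MAN6_dd2, MAN6_dd2, MAN6_dd2, MAN6_zero]
  simp only [inner_zero_left]
  have hY : Y ≠ 0 := by
    have := hXY.ne_zero 1
    simpa using this
  have hZ : (‖Y‖ ^ 2) • X - ⟪X, Y⟫_ℝ • Y ≠ 0 := by
    intro h
    rw [LinearIndependent.pair_iff] at hXY
    have h1 := hXY (‖Y‖ ^ 2) (-⟪X, Y⟫_ℝ) (by rw [neg_smul, ← sub_eq_add_neg]; exact h)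
    have h2 : ‖Y‖ = 0 := by simpa using h1.1
    exact hY (norm_eq_zero.mp h2)
  have h1 : 0 < ‖(‖Y‖ ^ 2) • X - ⟪X, Y⟫_ℝ • Y‖ ^ 2 := by
    have := norm_pos_iff.mpr hZ
    positivity
  rw [norm_sub_sq_real, real_inner_smul_left, real_inner_smul_right, norm_smul, norm_smul,
    mul_pow, mul_pow, Real.norm_eq_abs, Real.norm_eq_abs, sq_abs, sq_abs] at h1
  have h2 : 0 < ‖Y‖ ^ 2 := by
    have := norm_pos_iff.mpr hY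
    positivity
  have h3 : 0 < ‖Y‖ ^ 2 * (‖X‖ ^ 2 * ‖Y‖ ^ 2 - ⟪X, Y⟫_ℝ ^ 2) := by
    calc 0 < _ := h1
      _ = _ := by ring
  have h4 := (mul_pos_iff_of_pos_left h2).mp h3
  rw [real_inner_self_eq_norm_sq, real_inner_self_eq_norm_sq]
  linarith

end S7Pair
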