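import Pool.Agent.S7Pair.Defs2

/-! # The seven-sphere as a manifold; coordinate definition of positive sectional curvature -/

open scoped ContDiff Topology Manifold InnerProductSpace
open VectorField Set Filter Bundle Metric

noncomputable section

namespace S7Pair

section curvature

variable {n : ℕ} {M : Type*} [TopologicalSpace M] [ChartedSpace (EuclideanSpace ℝ (Fin n)) M]
  [IsManifold (𝓡 n) ∞ M]

/-- The coefficients `g_y(X,Y)` of a Riemannian metric in the chart at `x₀`, as a function of the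
chart coordinate `y` and of two constant vectors `X`, `Y`. -/
def gCoord (g : ContMDiffRiemannianMetric (𝓡 n) ∞ (EuclideanSpace ℝ (Fin n))
      (fun x : M => TangentSpace (𝓡 n) x)) (x₀ : M)
    (y X Y : EuclideanSpace ℝ (Fin n)) : ℝ :=
  g.inner ((extChartAt (𝓡 n) x₀).symm y)
    (mfderiv 𝓘(ℝ, EuclideanSpace ℝ (Fin n)) (𝓡 n) (extChartAt (𝓡 n) x₀).symm y X)
    (mfderiv 𝓘(ℝ, EuclideanSpace ℝ (Fin n)) (𝓡 n) (extChartAt (𝓡 n) x₀).symm y Y)

end curvature

section coordinates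

variable {V : Type*} [NormedAddCommGroup V] [NormedSpace ℝ V]

/-- `C = Γ(X,Y)` is the Christoffel vector at `y` of the metric with coefficients `G`. -/
def IsChristoffel (G : V → V → V → ℝ) (y X Y C : V) : Prop :=
  ∀ Z : V, G y C Z = 1 / 2 * (fderiv ℝ (fun z => G z Y Z) y X + fderiv ℝ (fun z => G z X Z) y Y
    - fderiv ℝ (fun z => G z X Y) y Z)

/-- `∂_X ∂_Y` of the coefficient `G(Z,W)` at `y`. -/
def dd2 (G : V → V → V → ℝ) (y X Y Z W : V) : ℝ :=
  fderiv ℝ (fun z => fderiv ℝ (fun z' => G z' Z W) z Y) y X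

/-- `⟨R(X,Y)Y,X⟩` at `y` in coordinates, with `A = Γ(X,X)`, `B = Γ(Y,Y)`, `C = Γ(X,Y)`. -/
def curvNum (G : V → V → V → ℝ) (y X Y A B C : V) : ℝ :=
  -(1 / 2) * (dd2 G y X X Y Y + dd2 G y Y Y X X - 2 * dd2 G y X Y X Y) + G y C C - G y A B

/-- All sectional curvatures at `y` are positive. (The Christoffel vectors are unique because the
coefficients of a Riemannian metric are an inner product at `y`; their existence is part of the
condition.) -/
def SecPosAt (G : V → V → V → ℝ) (y : V) : Prop :=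
  ∀ X Y : V, LinearIndependent ℝ ![X, Y] → ∃ A B C : V, IsChristoffel G y X X A ∧
    IsChristoffel G y Y Y B ∧ IsChristoffel G y X Y C ∧ 0 < curvNum G y X Y A B C

end coordinates

/-- A Riemannian metric has positive sectional curvature: at every point `x₀` every 2-plane has
positive curvature, computed in the chart at `x₀`. -/
def PositiveSectionalCurvature {n : ℕ} {M : Type*} [TopologicalSpace M]
    [ChartedSpace (EuclideanSpace ℝ (Fin n)) M] [IsManifold (𝓡 n) ∞ M]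
    (g : ContMDiffRiemannianMetric (𝓡 n) ∞ (EuclideanSpace ℝ (Fin n))
      (fun x : M => TangentSpace (𝓡 n) x)) : Prop :=
  ∀ x₀ : M, SecPosAt (gCoord g x₀) (extChartAt (𝓡 n) x₀ x₀)

abbrev A8 := EuclideanSpace ℝ (Fin 8)
/-- the standard seven-sphere. -/
abbrev S7 := sphere (0 : A8) 1

instance : Fact (Module.finrank ℝ A8 = 7 + 1) := ⟨by simp⟩

/-- `StS7` transported to Euclidean 8-space. -/
def StE8 : Prop :=
  ∃ u v : A8 → A8, CP {x | x ≠ 0} u v ∧ (∀ x : A8, x ≠ 0 → ⟪x, u x⟫_ℝ = 0 ∧ ⟪x, v x⟫_ℝ = 0) ∧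
    ∀ x : A8, x ≠ 0 → LinearIndependent ℝ ![u x, v x]

/-- the statement about the manifold `S⁷`. -/
def StMan : Prop :=
  ∃ u v : (x : S7) → TangentSpace (𝓡 7) x,
    ContMDiff (𝓡 7) (𝓡 7).tangent ∞ (fun x => (⟨x, u x⟩ : TangentBundle (𝓡 7) S7)) ∧
    ContMDiff (𝓡 7) (𝓡 7).tangent ∞ (fun x => (⟨x, v x⟩ : TangentBundle (𝓡 7) S7)) ∧
    (∀ x : S7, mlieBracket (𝓡 7) u v x = 0) ∧
    (∀ x : S7, LinearIndependent ℝ ![u x, v x])

/-- the round metric has positive sectional curvature. -/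
def StCurv : Prop :=
  ∃ g : ContMDiffRiemannianMetric (𝓡 7) ∞ (EuclideanSpace ℝ (Fin 7))
      (fun x : S7 => TangentSpace (𝓡 7) x),
    (∀ (x : S7) (X Y : TangentSpace (𝓡 7) x), g.inner x X Y =
      ⟪(mfderiv (𝓡 7) 𝓘(ℝ, A8) ((↑) : S7 → A8) x X : A8),
        (mfderiv (𝓡 7) 𝓘(ℝ, A8) ((↑) : S7 → A8) x Y : A8)⟫_ℝ) ∧
    PositiveSectionalCurvature g

end S7Pair
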