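import Pool.Agent.S7Pair.Defs2
import Pool.Agent.S7Pair.Hom

/-! # Module PL1: the explicit fields of the plug -/

open scoped ContDiff Topology
open VectorField Set Filter

noncomputable section

namespace S7Pair

lemma O8_open : IsOpen O8 := by
  have h : Continuous fun W : E8 => W.1.2 := by fun_prop
  exact isOpen_compl_singleton.preimage h

/-- a function that is constant on a small segment in direction `v` has derivative `0` along `v`. -/
lemma PL1_line {E F : Type*} [NormedAddCommGroup E] [NormedSpace ℝ E] [NormedAddCommGroup F] [NormedSpace ℝ F]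
    {f : E → F} {x v : E} (hf : DifferentiableAt ℝ f x) (hc : ∀ᶠ t : ℝ in 𝓝 0, f (x + t • v) = f x) :
    fderiv ℝ f x v = 0 := by
  rw [← hf.lineDeriv_eq_fderiv]
  unfold lineDeriv
  have h : (fun t : ℝ => f (x + t • v)) =ᶠ[𝓝 0] fun _ => f x := hc
  rw [h.deriv_eq]
  simp

lemma PL1_n3pos {b : R3} (hb : b ≠ 0) : 0 < b.1 ^ 2 + b.2.1 ^ 2 + b.2.2 ^ 2 := by
  by_contra h
  apply hb
  obtain ⟨x, y, z⟩ := b
  simp only at h
  have hx : x = 0 := by nlinarith [sq_nonneg x, sq_nonneg y, sq_nonneg z]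
  have hy : y = 0 := by nlinarith [sq_nonneg x, sq_nonneg y, sq_nonneg z]
  have hz : z = 0 := by nlinarith [sq_nonneg x, sq_nonneg y, sq_nonneg z]
  rw [hx, hy, hz]
  rfl

lemma PL1_n4pos {w : R4} (hw : w ≠ 0) : 0 < w.1 ^ 2 + w.2.1 ^ 2 + w.2.2.1 ^ 2 + w.2.2.2 ^ 2 := by
  by_contra h
  apply hw
  obtain ⟨x, y, z, t⟩ := w
  simp only at h
  have hx : x = 0 := by nlinarith [sq_nonneg x, sq_nonneg y, sq_nonneg z, sq_nonneg t]
  have hy : y = 0 := by nlinarith [sq_nonneg x, sq_nonneg y, sq_nonneg z, sq_nonneg t]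
  have hz : z = 0 := by nlinarith [sq_nonneg x, sq_nonneg y, sq_nonneg z, sq_nonneg t]
  have ht : t = 0 := by nlinarith [sq_nonneg x, sq_nonneg y, sq_nonneg z, sq_nonneg t]
  rw [hx, hy, hz, ht]
  rfl

lemma PL1_n3_smooth {b : R3} (hb : b ≠ 0) : ContDiffAt ℝ ∞ n3 b := by
  have h : ContDiffAt ℝ ∞ (fun b : R3 => b.1 ^ 2 + b.2.1 ^ 2 + b.2.2 ^ 2) b := by fun_prop
  exact h.sqrt (PL1_n3pos hb).ne'

lemma PL1_n4_smooth {w : R4} (hw : w ≠ 0) : ContDiffAt ℝ ∞ n4 w := by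
  have h : ContDiffAt ℝ ∞ (fun w : R4 => w.1 ^ 2 + w.2.1 ^ 2 + w.2.2.1 ^ 2 + w.2.2.2 ^ 2) w := by fun_prop
  exact h.sqrt (PL1_n4pos hw).ne'

lemma PL1_n3_pos {b : R3} (hb : b ≠ 0) : 0 < n3 b := Real.sqrt_pos.2 (PL1_n3pos hb)
lemma PL1_n4_pos {w : R4} (hw : w ≠ 0) : 0 < n4 w := Real.sqrt_pos.2 (PL1_n4pos hw)

lemma PL1_n3_smooth' {W : E8} (hW : W.1.1 ≠ 0) : ContDiffAt ℝ ∞ (fun W : E8 => n3 W.1.1) W := by
  have h1 : ContDiffAt ℝ ∞ (fun W : E8 => W.1.1) W := by fun_prop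
  exact ContDiffAt.comp W (g := n3) (PL1_n3_smooth hW) h1

lemma PL1_n4_smooth' {W : E8} (hW : W.1.2 ≠ 0) : ContDiffAt ℝ ∞ (fun W : E8 => n4 W.1.2) W := by
  have h1 : ContDiffAt ℝ ∞ (fun W : E8 => W.1.2) W := by fun_prop
  exact ContDiffAt.comp W (g := n4) (PL1_n4_smooth hW) h1

lemma PL1_sm {E : Type*} [NormedAddCommGroup E] [NormedSpace ℝ E] {f : E → ℝ} {x : E}
    (hf : ContDiffAt ℝ ∞ f x) : ContDiffAt ℝ ∞ (fun y => sm (f y)) x :=
  ContDiffAt.comp x (g := Real.smoothTransition) Real.smoothTransition.contDiffAt hf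

lemma PL1_sig {W : E8} (hW : W.1.1 ≠ 0) : ContDiffAt ℝ ∞ sig W := by
  have h1 := PL1_n3_smooth' hW
  have h2 : ContDiffAt ℝ ∞ (fun W : E8 => W.2) W := by fun_prop
  unfold sig
  fun_prop

/-- the functions used as coefficients are smooth where they are used. -/
lemma sig_smooth : ContDiffOn ℝ ∞ sig {W | W.1.1 ≠ 0} := fun _ hW => (PL1_sig hW).contDiffWithinAt

lemma PL1_sig_cont : Continuous sig := by
  unfold sig n3
  fun_prop

lemma PL1_sig_zero {W : E8} (hW : W.1.1 = 0) : ∀ᶠ V in 𝓝 W, 1 / 2 < sig V := by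
  have h : 1 / 2 < sig W := by
    unfold sig n3
    rw [hW]
    simp only [Prod.fst_zero, Prod.snd_zero]
    norm_num
    nlinarith [sq_nonneg W.2]
  exact PL1_sig_cont.continuousAt.eventually (lt_mem_nhds h)

lemma PL1_coef {φ : ℝ → ℝ} (hφ : ContDiff ℝ ∞ φ) {c : ℝ} (hc : ∀ x, 1 / 2 < x → φ x = c) (W : E8) :
    ContDiffAt ℝ ∞ (fun V => φ (sig V)) W := by
  by_cases hW : W.1.1 = 0
  · have h : (fun V => φ (sig V)) =ᶠ[𝓝 W] fun _ => c := by
      filter_upwards [PL1_sig_zero hW] with V hV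
      exact hc _ hV
    exact contDiffAt_const.congr_of_eventuallyEq h
  · exact ContDiffAt.comp W (g := φ) hφ.contDiffAt (PL1_sig hW)

lemma coef_smooth {W : E8} (hW : W ∈ O8) :
    ContDiffAt ℝ ∞ A1 W ∧ ContDiffAt ℝ ∞ A2 W ∧ ContDiffAt ℝ ∞ ta W ∧ ContDiffAt ℝ ∞ be W ∧
      ContDiffAt ℝ ∞ ca W := by
  have key : ∀ a b : ℝ, ContDiff ℝ ∞ (fun x => sm (a * x + b)) := by
    intro a b
    have h : ContDiff ℝ ∞ (fun x : ℝ => a * x + b) := by fun_prop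
    exact Real.smoothTransition.contDiff.comp h
  refine ⟨?_, ?_, ?_, ?_, ?_⟩
  · have h := PL1_coef (key (-100) 2) (c := 0)
      (fun x hx => Real.smoothTransition.zero_of_nonpos (by linarith)) W
    have e : A1 = fun V => sm (-100 * sig V + 2) := by
      funext V; unfold A1; congr 1; ring
    rw [e]; exact h
  · have h := PL1_coef (key (100 / 3) (-2)) (c := 1)
      (fun x hx => Real.smoothTransition.one_of_one_le (by linarith)) W
    have e : A2 = fun V => sm (100 / 3 * sig V + -2) := by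
      funext V; unfold A2; congr 1; ring
    rw [e]; exact h
  · have h := PL1_coef (key 50 (-(3 / 2))) (c := 1)
      (fun x hx => Real.smoothTransition.one_of_one_le (by linarith)) W
    have e : ta = fun V => sm (50 * sig V + -(3 / 2)) := by
      funext V; unfold ta; congr 1
    rw [e]; exact h
  · have h := PL1_coef (key (-(100 / 7)) (23 / 7)) (c := 0)
      (fun x hx => Real.smoothTransition.zero_of_nonpos (by linarith)) W
    have e : be = fun V => sm (-(100 / 7) * sig V + 23 / 7) := by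
      funext V; unfold be; congr 1; ring
    rw [e]; exact h
  · unfold ca
    refine PL1_sm ?_
    unfold rad
    fun_prop

lemma PL1_o1 {W : E8} (hW : W ∈ O8) : ContDiffAt ℝ ∞ (fun W : E8 => o1 W.1) W := by
  have h := PL1_n4_smooth' hW
  have h0 : n4 W.1.2 ^ 2 ≠ 0 := pow_ne_zero 2 (PL1_n4_pos hW).ne'
  have h2 : ContDiffAt ℝ ∞ (fun W : E8 => W.1.2.1 ^ 2 + W.1.2.2.1 ^ 2) W := by fun_prop
  exact h2.div (h.pow 2) h0

lemma PL1_o2 {W : E8} (hW : W ∈ O8) : ContDiffAt ℝ ∞ (fun W : E8 => o2 W.1) W := by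
  have h := PL1_n4_smooth' hW
  have h0 : n4 W.1.2 ^ 2 ≠ 0 := pow_ne_zero 2 (PL1_n4_pos hW).ne'
  have h2 : ContDiffAt ℝ ∞ (fun W : E8 => W.1.2.2.2.1 ^ 2 + W.1.2.2.2.2 ^ 2) W := by fun_prop
  exact h2.div (h.pow 2) h0

lemma PL1_qs {W : E8} (hW : W.1.1 ≠ 0) : ContDiffAt ℝ ∞ (fun W : E8 => qs W.1) W := by
  have h := PL1_n3_smooth' hW
  have h0 : n3 W.1.1 ^ 2 ≠ 0 := pow_ne_zero 2 (PL1_n3_pos hW).ne'
  have h2 : ContDiffAt ℝ ∞ (fun W : E8 => W.1.1.1 ^ 2 + W.1.1.2.1 ^ 2 + (W.1.1.2.2 + n3 W.1.1) ^ 2) W := by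
    have h3 : ContDiffAt ℝ ∞ (fun W : E8 => W.1.1.1) W := by fun_prop
    have h4 : ContDiffAt ℝ ∞ (fun W : E8 => W.1.1.2.1) W := by fun_prop
    have h5 : ContDiffAt ℝ ∞ (fun W : E8 => W.1.1.2.2) W := by fun_prop
    fun_prop
  exact h2.div (h.pow 2) h0

lemma hh_smooth {δ : ℝ} {W : E8} (hW : W.1 ∈ O7) :
    ContDiffAt ℝ ∞ (hh δ) W ∧ ContDiffAt ℝ ∞ (ht δ) W := by
  have h1 := PL1_o1 (W := W) hW.2
  have h2 := PL1_o2 (W := W) hW.2
  have h3 := PL1_qs (W := W) hW.1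
  have ha : ContDiffAt ℝ ∞ (fun W : E8 => qa W.1) W := h3.add h1
  have hb : ContDiffAt ℝ ∞ (fun W : E8 => qb W.1) W := h3.add h2
  constructor
  · unfold hh
    refine (PL1_sm ?_).add (PL1_sm ?_)
    · exact contDiffAt_const.sub (contDiffAt_const.mul (ha.div_const δ))
    · exact contDiffAt_const.sub (contDiffAt_const.mul (hb.div_const δ))
  · unfold ht
    refine (PL1_sm ?_).add (PL1_sm ?_)
    · exact contDiffAt_const.sub (contDiffAt_const.mul (ha.div_const δ))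
    · exact contDiffAt_const.sub (contDiffAt_const.mul (hb.div_const δ))

/-- moving along the Hopf field: `b` and `s` do not change. -/
lemma PL1_move (W : E8) (t : ℝ) :
    (W + t • ((ee W.1, (0 : ℝ)) : E8)).1.1 = W.1.1 ∧ (W + t • ((ee W.1, (0 : ℝ)) : E8)).2 = W.2 ∧
    (W + t • ((ee W.1, (0 : ℝ)) : E8)).1.2 = (W.1.2.1 - t * W.1.2.2.1, W.1.2.2.1 + t * W.1.2.1,
      W.1.2.2.2.1 - t * W.1.2.2.2.2, W.1.2.2.2.2 + t * W.1.2.2.2.1) := by
  obtain ⟨⟨b, ⟨x, y, z, w⟩⟩, s⟩ := W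
  refine ⟨?_, ?_, ?_⟩
  · simp [ee]
  · simp [ee]
  · simp [ee, sub_eq_add_neg]

lemma PL1_n4_move (W : E8) (t : ℝ) :
    n4 (W + t • ((ee W.1, (0 : ℝ)) : E8)).1.2 ^ 2 = (1 + t ^ 2) * n4 W.1.2 ^ 2 := by
  rw [(PL1_move W t).2.2]
  unfold n4
  rw [Real.sq_sqrt (by positivity), Real.sq_sqrt (by positivity)]
  ring

lemma PL1_o1_move (W : E8) (t : ℝ) : o1 (W + t • ((ee W.1, (0 : ℝ)) : E8)).1 = o1 W.1 := by
  unfold o1
  rw [PL1_n4_move, (PL1_move W t).2.2]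
  have h : (1 + t ^ 2) ≠ 0 := by positivity
  have e : (W.1.2.1 - t * W.1.2.2.1) ^ 2 + (W.1.2.2.1 + t * W.1.2.1) ^ 2 =
      (1 + t ^ 2) * (W.1.2.1 ^ 2 + W.1.2.2.1 ^ 2) := by ring
  rw [e, mul_div_mul_left _ _ h]

lemma PL1_o2_move (W : E8) (t : ℝ) : o2 (W + t • ((ee W.1, (0 : ℝ)) : E8)).1 = o2 W.1 := by
  unfold o2
  rw [PL1_n4_move, (PL1_move W t).2.2]
  have h : (1 + t ^ 2) ≠ 0 := by positivity
  have e : (W.1.2.2.2.1 - t * W.1.2.2.2.2) ^ 2 + (W.1.2.2.2.2 + t * W.1.2.2.2.1) ^ 2 =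
      (1 + t ^ 2) * (W.1.2.2.2.1 ^ 2 + W.1.2.2.2.2 ^ 2) := by ring
  rw [e, mul_div_mul_left _ _ h]

lemma PL1_sig_move (W : E8) (t : ℝ) : sig (W + t • ((ee W.1, (0 : ℝ)) : E8)) = sig W := by
  unfold sig
  rw [(PL1_move W t).1, (PL1_move W t).2.1]

lemma PL1_ca_move (W : E8) (t : ℝ) : ca (W + t • ((ee W.1, (0 : ℝ)) : E8)) = ca W := by
  unfold ca rad
  rw [(PL1_move W t).1, (PL1_move W t).2.1]

lemma PL1_qs_move (W : E8) (t : ℝ) : qs (W + t • ((ee W.1, (0 : ℝ)) : E8)).1 = qs W.1 := by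
  unfold qs
  rw [(PL1_move W t).1]

/-- all coefficients are invariant under the Hopf field. -/
lemma coef_ee {W : E8} (hW : W ∈ O8) :
    fderiv ℝ A1 W (ee W.1, 0) = 0 ∧ fderiv ℝ A2 W (ee W.1, 0) = 0 ∧
    fderiv ℝ ta W (ee W.1, 0) = 0 ∧ fderiv ℝ be W (ee W.1, 0) = 0 ∧
    fderiv ℝ ca W (ee W.1, 0) = 0 := by
  obtain ⟨h1, h2, h3, h4, h5⟩ := coef_smooth hW
  refine ⟨PL1_line (h1.differentiableAt (by simp)) (Eventually.of_forall fun t => ?_),
    PL1_line (h2.differentiableAt (by simp)) (Eventually.of_forall fun t => ?_),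
    PL1_line (h3.differentiableAt (by simp)) (Eventually.of_forall fun t => ?_),
    PL1_line (h4.differentiableAt (by simp)) (Eventually.of_forall fun t => ?_),
    PL1_line (h5.differentiableAt (by simp)) (Eventually.of_forall fun t => ?_)⟩
  · unfold A1; rw [PL1_sig_move]
  · unfold A2; rw [PL1_sig_move]
  · unfold ta; rw [PL1_sig_move]
  · unfold be; rw [PL1_sig_move]
  · exact PL1_ca_move W t

lemma hh_ee {δ : ℝ} {W : E8} (hW : W.1 ∈ O7) :
    fderiv ℝ (hh δ) W (ee W.1, 0) = 0 ∧ fderiv ℝ (ht δ) W (ee W.1, 0) = 0 := by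
  obtain ⟨h1, h2⟩ := hh_smooth (δ := δ) hW
  refine ⟨PL1_line (h1.differentiableAt (by simp)) (Eventually.of_forall fun t => ?_),
    PL1_line (h2.differentiableAt (by simp)) (Eventually.of_forall fun t => ?_)⟩
  · unfold hh qa qb
    rw [PL1_o1_move, PL1_o2_move, PL1_qs_move]
  · unfold ht qa qb
    rw [PL1_o1_move, PL1_o2_move, PL1_qs_move]

/-- two linear fields whose matrices commute -/
lemma PL1_lin {E : Type*} [NormedAddCommGroup E] [NormedSpace ℝ E] (L M : E →L[ℝ] E) (x : E)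
    (h : M (L x) = L (M x)) : CAt (fun y => L y) (fun y => M y) x := by
  refine ⟨L.contDiff.contDiffAt, M.contDiff.contDiffAt, ?_⟩
  unfold lieBracket
  rw [L.hasFDerivAt.fderiv, M.hasFDerivAt.fderiv, h, sub_self]

/-- the Hopf field as a linear map -/
def PL1_L : E8 →L[ℝ] E8 :=
  LinearMap.toContinuousLinearMap
    { toFun := fun W => (ee W.1, (0 : ℝ))
      map_add' := fun V W => by simp [ee, add_comm]
      map_smul' := fun c W => by simp [ee] }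

lemma PL1_L_apply (W : E8) : PL1_L W = (ee W.1, (0 : ℝ)) := rfl

lemma PL1_L_eq : (fun W : E8 => ((ee W.1, (0 : ℝ)) : E8)) = fun W => PL1_L W := rfl

/-- brackets with the Hopf field: the bracket of the Hopf field with `V` -/
lemma PL1_br {V : E8 → E8} {W : E8} (hV : ContDiffAt ℝ ∞ V W)
    (h : fderiv ℝ V W (ee W.1, (0 : ℝ)) = (ee (V W).1, (0 : ℝ))) :
    CAt (fun W : E8 => (ee W.1, (0 : ℝ))) V W := by
  refine ⟨?_, hV, ?_⟩
  · rw [PL1_L_eq]; exact PL1_L.contDiff.contDiffAt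
  · unfold lieBracket
    rw [PL1_L_eq, PL1_L.hasFDerivAt.fderiv]
    show fderiv ℝ V W (PL1_L W) - PL1_L (V W) = 0
    rw [PL1_L_apply, PL1_L_apply, h, sub_self]

def PL1_R : E8 →L[ℝ] E8 :=
  LinearMap.toContinuousLinearMap
    { toFun := fun W => (((-W.1.1.2.1, W.1.1.1, 0), (0, 0, 0, 0)), (0 : ℝ))
      map_add' := fun V W => by simp [add_comm]
      map_smul' := fun c W => by simp }

def PL1_O1 : E8 →L[ℝ] E8 :=
  LinearMap.toContinuousLinearMap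
    { toFun := fun W => (((0, 0, 0), (-W.1.2.2.1, W.1.2.1, 0, 0)), (0 : ℝ))
      map_add' := fun V W => by simp [add_comm]
      map_smul' := fun c W => by simp }

def PL1_O2 : E8 →L[ℝ] E8 :=
  LinearMap.toContinuousLinearMap
    { toFun := fun W => (((0, 0, 0), (0, 0, W.1.2.2.2.2, -W.1.2.2.2.1)), (0 : ℝ))
      map_add' := fun V W => by simp [add_comm]
      map_smul' := fun c W => by simp }

def PL1_N : E8 →L[ℝ] E8 :=
  LinearMap.toContinuousLinearMap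
    { toFun := fun W => (((0, 0, -W.2), (0, 0, 0, 0)), W.1.1.2.2)
      map_add' := fun V W => by simp [add_comm]
      map_smul' := fun c W => by simp }

lemma PL1_R_apply (W : E8) : PL1_R W = (((-W.1.1.2.1, W.1.1.1, 0), (0, 0, 0, 0)), (0 : ℝ)) := rfl
lemma PL1_O1_apply (W : E8) : PL1_O1 W = (((0, 0, 0), (-W.1.2.2.1, W.1.2.1, 0, 0)), (0 : ℝ)) := rfl
lemma PL1_O2_apply (W : E8) : PL1_O2 W = (((0, 0, 0), (0, 0, W.1.2.2.2.2, -W.1.2.2.2.1)), (0 : ℝ)) := rfl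
lemma PL1_N_apply (W : E8) : PL1_N W = (((0, 0, -W.2), (0, 0, 0, 0)), W.1.1.2.2) := rfl

/-- decomposition of `ThE` -/
lemma PL1_ThE (W : E8) :
    ThE W = (PL1_R W + ((1 - pp (o1 W.1)) * ca W) • PL1_O1 W) + (pp (o1 W.1) * ca W) • PL1_O2 W := by
  rw [PL1_R_apply, PL1_O1_apply, PL1_O2_apply]
  simp [ThE]

lemma PL1_pp {W : E8} (hW : W ∈ O8) : ContDiffAt ℝ ∞ (fun W : E8 => pp (o1 W.1)) W := by
  unfold pp
  refine PL1_sm ?_
  exact (contDiffAt_const.mul (PL1_o1 hW)).sub contDiffAt_const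

lemma PL1_c1 {W : E8} (hW : W ∈ O8) :
    ContDiffAt ℝ ∞ (fun W : E8 => (1 - pp (o1 W.1)) * ca W) W :=
  (contDiffAt_const.sub (PL1_pp hW)).mul (coef_smooth hW).2.2.2.2

lemma PL1_c2 {W : E8} (hW : W ∈ O8) :
    ContDiffAt ℝ ∞ (fun W : E8 => pp (o1 W.1) * ca W) W :=
  (PL1_pp hW).mul (coef_smooth hW).2.2.2.2

/-- brackets with the Hopf field. -/
lemma cat_ThE {W : E8} (hW : W ∈ O8) : CAt (fun W : E8 => (ee W.1, (0 : ℝ))) ThE W := by
  have e : ThE = fun W => (PL1_R W + ((1 - pp (o1 W.1)) * ca W) • PL1_O1 W) + (pp (o1 W.1) * ca W) • PL1_O2 W :=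
    funext PL1_ThE
  rw [e]
  refine CAt.add (CAt.add ?_ (CAt.smul (a := fun W : E8 => (1 - pp (o1 W.1)) * ca W) ?_ (PL1_c1 hW) ?_))
    (CAt.smul (a := fun W : E8 => pp (o1 W.1) * ca W) ?_ (PL1_c2 hW) ?_)
  · refine PL1_lin PL1_L PL1_R W ?_
    rw [PL1_L_apply, PL1_R_apply, PL1_R_apply, PL1_L_apply]
    simp [ee]
  · refine PL1_lin PL1_L PL1_O1 W ?_
    rw [PL1_L_apply, PL1_O1_apply, PL1_O1_apply, PL1_L_apply]
    simp [ee]
  · refine PL1_line ((PL1_c1 hW).differentiableAt (by simp)) (Eventually.of_forall fun t => ?_)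
    rw [PL1_o1_move, PL1_ca_move]
  · refine PL1_lin PL1_L PL1_O2 W ?_
    rw [PL1_L_apply, PL1_O2_apply, PL1_O2_apply, PL1_L_apply]
    simp [ee]
  · refine PL1_line ((PL1_c2 hW).differentiableAt (by simp)) (Eventually.of_forall fun t => ?_)
    rw [PL1_o1_move, PL1_ca_move]

lemma PL1_N0 (W : E8) : N0 W = PL1_N W + (-ca W) • ((((0, 0, 0), (0, 0, 0, 0)), 1) : E8) := by
  rw [PL1_N_apply]
  simp [N0]
  exact ⟨rfl, sub_eq_add_neg _ _⟩

lemma cat_N0 {W : E8} (hW : W ∈ O8) : CAt (fun W : E8 => (ee W.1, (0 : ℝ))) N0 W := by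
  have e : N0 = fun W => PL1_N W + (-ca W) • ((((0, 0, 0), (0, 0, 0, 0)), 1) : E8) := funext PL1_N0
  rw [e]
  refine CAt.add ?_ (CAt.smul (a := fun W : E8 => -ca W) ?_ (coef_smooth hW).2.2.2.2.neg ?_)
  · refine PL1_lin PL1_L PL1_N W ?_
    rw [PL1_L_apply, PL1_N_apply, PL1_N_apply, PL1_L_apply]
    simp [ee]
  · refine PL1_br contDiffAt_const ?_
    simp [ee]
    rfl
  · refine PL1_line ((coef_smooth hW).2.2.2.2.neg.differentiableAt (by simp)) (Eventually.of_forall fun t => ?_)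
    rw [PL1_ca_move]

lemma PL1_gam_smooth {W : E8} (hW : W.1.1 ≠ 0) : ContDiffAt ℝ ∞ gam W := by
  have h1 := PL1_n3_smooth' hW
  have h2 : ContDiffAt ℝ ∞ (fun W : E8 => W.2) W := by fun_prop
  have h3 : ContDiffAt ℝ ∞ (fun W : E8 => W.1.1) W := by fun_prop
  unfold gam
  exact (((h2.div h1 (PL1_n3_pos hW).ne').neg.smul h3).prodMk contDiffAt_const).prodMk (h1.sub contDiffAt_const)

lemma cat_gam {W : E8} (hW : W.1 ∈ O7) : CAt (fun W : E8 => (ee W.1, (0 : ℝ))) gam W := by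
  refine PL1_br (PL1_gam_smooth hW.1) ?_
  have h : fderiv ℝ gam W (ee W.1, (0 : ℝ)) = 0 := by
    refine PL1_line ((PL1_gam_smooth hW.1).differentiableAt (by simp)) (Eventually.of_forall fun t => ?_)
    unfold gam
    rw [(PL1_move W t).1, (PL1_move W t).2.1]
  rw [h]
  simp [ee, gam]
  rfl

end S7Pair
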