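import Pool.Agent.S7Pair.Pl1
import Pool.Agent.S7Pair.FD

/-! # Module PL2: brackets of lifted fields with the rotation `gam` around `K` -/

open scoped ContDiff Topology
open VectorField Set Filter

noncomputable section

namespace S7Pair

lemma PL2_lift_smooth {f : E7 → E7} {W : E8} (hf : ContDiffAt ℝ ∞ f W.1) :
    ContDiffAt ℝ ∞ (fun W : E8 => ((f W.1, (0 : ℝ)) : E8)) W := by
  have h1 : ContDiffAt ℝ ∞ (fun W : E8 => W.1) W := by fun_prop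
  exact (ContDiffAt.comp W (g := f) hf h1).prodMk contDiffAt_const

lemma PL2_fd_lift {f : E7 → E7} {W : E8} (hf : DifferentiableAt ℝ f W.1) (v : E8) :
    fderiv ℝ (fun W : E8 => ((f W.1, (0 : ℝ)) : E8)) W v = (fderiv ℝ f W.1 v.1, 0) := by
  have h0 : HasFDerivAt (fun W : E8 => W.1) (ContinuousLinearMap.fst ℝ E7 ℝ) W :=
    (ContinuousLinearMap.fst ℝ E7 ℝ).hasFDerivAt
  have h1 : HasFDerivAt (fun W : E8 => f W.1) ((fderiv ℝ f W.1).comp (ContinuousLinearMap.fst ℝ E7 ℝ)) W :=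
    HasFDerivAt.comp W hf.hasFDerivAt h0
  have h2 : HasFDerivAt (fun W : E8 => ((f W.1, (0 : ℝ)) : E8))
      (((fderiv ℝ f W.1).comp (ContinuousLinearMap.fst ℝ E7 ℝ)).prod (0 : E8 →L[ℝ] ℝ)) W :=
    h1.prodMk (hasFDerivAt_const (0 : ℝ) W)
  rw [h2.fderiv]
  rfl

/-- lifts of commuting fields commute. -/
lemma cat_lift {f g : E7 → E7} (h : CP O7 f g) {W : E8} (hW : W.1 ∈ O7) :
    CAt (fun W : E8 => (f W.1, (0 : ℝ))) (fun W : E8 => (g W.1, (0 : ℝ))) W := by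
  have hc := h.cat hW
  refine ⟨PL2_lift_smooth hc.sf, PL2_lift_smooth hc.sg, ?_⟩
  unfold lieBracket
  rw [PL2_fd_lift (hc.sf.differentiableAt (by simp)), PL2_fd_lift (hc.sg.differentiableAt (by simp))]
  have h1 := hc.comm
  unfold lieBracket at h1
  simp only [Prod.mk_sub_mk, sub_zero]
  rw [h1]
  rfl

lemma PL2_div {f g : E8 → ℝ} {W : E8} (hf : DifferentiableAt ℝ f W) (hg : DifferentiableAt ℝ g W)
    (h : g W ≠ 0) : DifferentiableAt ℝ (fun V => f V / g V) W := by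
  simp only [div_eq_mul_inv]
  exact hf.mul (hg.inv h)

lemma PL2_dot3_self (b : R3) : dot3 b b = n3 b ^ 2 := by
  unfold dot3 n3
  rw [Real.sq_sqrt (by positivity)]
  ring

lemma PL2_fd_n3 {W : E8} (hW : W.1.1 ≠ 0) (v : E8) :
    fderiv ℝ (fun W : E8 => n3 W.1.1) W v = dot3 W.1.1 v.1.1 / n3 W.1.1 := by
  have e : (fun W : E8 => n3 W.1.1) = fun W : E8 => √(W.1.1.1 ^ 2 + W.1.1.2.1 ^ 2 + W.1.1.2.2 ^ 2) := rfl
  have d1 : fderiv ℝ (fun W : E8 => W.1.1.1) W v = v.1.1.1 :=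
    DFunLike.congr_fun (((ContinuousLinearMap.fst ℝ ℝ (ℝ × ℝ)).comp
      ((ContinuousLinearMap.fst ℝ R3 R4).comp (ContinuousLinearMap.fst ℝ E7 ℝ))).hasFDerivAt (x := W)).fderiv v
  have d2 : fderiv ℝ (fun W : E8 => W.1.1.2.1) W v = v.1.1.2.1 :=
    DFunLike.congr_fun (((ContinuousLinearMap.fst ℝ ℝ ℝ).comp ((ContinuousLinearMap.snd ℝ ℝ (ℝ × ℝ)).comp
      ((ContinuousLinearMap.fst ℝ R3 R4).comp (ContinuousLinearMap.fst ℝ E7 ℝ)))).hasFDerivAt (x := W)).fderiv v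
  have d3 : fderiv ℝ (fun W : E8 => W.1.1.2.2) W v = v.1.1.2.2 :=
    DFunLike.congr_fun (((ContinuousLinearMap.snd ℝ ℝ ℝ).comp ((ContinuousLinearMap.snd ℝ ℝ (ℝ × ℝ)).comp
      ((ContinuousLinearMap.fst ℝ R3 R4).comp (ContinuousLinearMap.fst ℝ E7 ℝ)))).hasFDerivAt (x := W)).fderiv v
  rw [e, fd_sqrt (f := fun W : E8 => W.1.1.1 ^ 2 + W.1.1.2.1 ^ 2 + W.1.1.2.2 ^ 2) (by fun_prop) (PL1_n3pos hW),
    fd_add (by fun_prop) (by fun_prop),
    fd_add (by fun_prop) (by fun_prop), fd_sq (by fun_prop), fd_sq (by fun_prop), fd_sq (by fun_prop), d1, d2, d3]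
  have hn : √(W.1.1.1 ^ 2 + W.1.1.2.1 ^ 2 + W.1.1.2.2 ^ 2) = n3 W.1.1 := rfl
  rw [hn]
  have h0 := (PL1_n3_pos hW).ne'
  unfold dot3
  field_simp

lemma PL2_fd_s (W v : E8) : fderiv ℝ (fun W : E8 => W.2) W v = v.2 :=
  DFunLike.congr_fun ((ContinuousLinearMap.snd ℝ E7 ℝ).hasFDerivAt (x := W)).fderiv v

lemma PL2_fd_b (W v : E8) : fderiv ℝ (fun W : E8 => W.1.1) W v = v.1.1 :=
  DFunLike.congr_fun (((ContinuousLinearMap.fst ℝ R3 R4).comp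
    (ContinuousLinearMap.fst ℝ E7 ℝ)).hasFDerivAt (x := W)).fderiv v

lemma PL2_fd_smul {c : E8 → ℝ} {W : E8} (hc : DifferentiableAt ℝ c W) (v : E8) :
    fderiv ℝ (fun W : E8 => c W • W.1.1) W v = c W • v.1.1 + fderiv ℝ c W v • W.1.1 := by
  have hb : DifferentiableAt ℝ (fun W : E8 => W.1.1) W := by fun_prop
  rw [fderiv_fun_smul hc hb]
  show c W • fderiv ℝ (fun W : E8 => W.1.1) W v + fderiv ℝ c W v • W.1.1 = _
  rw [PL2_fd_b]

/-- derivative of a field `((c b, 0), e)` -/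
lemma PL2_fd_rad {c e : E8 → ℝ} {W : E8} (hc : DifferentiableAt ℝ c W) (he : DifferentiableAt ℝ e W) (v : E8) :
    fderiv ℝ (fun W : E8 => (((c W • W.1.1, (0 : R4)), e W) : E8)) W v =
      ((c W • v.1.1 + fderiv ℝ c W v • W.1.1, 0), fderiv ℝ e W v) := by
  have hb : DifferentiableAt ℝ (fun W : E8 => W.1.1) W := by fun_prop
  rw [fd_pair (F := fun W : E8 => (c W • W.1.1, (0 : R4))) (G := e) ((hc.smul hb).prodMk (differentiableAt_const _)) he,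
    fd_pair (F := fun W : E8 => c W • W.1.1) (G := fun _ => (0 : R4)) (hc.smul hb) (differentiableAt_const _),
    PL2_fd_smul hc]
  simp

lemma PL2_dn {W : E8} (hW : W.1.1 ≠ 0) : DifferentiableAt ℝ (fun W : E8 => n3 W.1.1) W :=
  (PL1_n3_smooth' hW).differentiableAt (by simp)

lemma PL2_fd_gam {W : E8} (hW : W.1.1 ≠ 0) (v : E8) :
    fderiv ℝ gam W v = (((-(W.2 / n3 W.1.1)) • v.1.1 +
      (-((v.2 * n3 W.1.1 - W.2 * (dot3 W.1.1 v.1.1 / n3 W.1.1)) / n3 W.1.1 ^ 2)) • W.1.1, 0),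
      dot3 W.1.1 v.1.1 / n3 W.1.1) := by
  have hn := PL2_dn hW
  have hs : DifferentiableAt ℝ (fun W : E8 => W.2) W := by fun_prop
  have h0 := (PL1_n3_pos hW).ne'
  have e : gam = fun W : E8 => (((-(W.2 / n3 W.1.1) • W.1.1, (0 : R4)), n3 W.1.1 - 1) : E8) := rfl
  have hd : DifferentiableAt ℝ (fun W : E8 => W.2 / n3 W.1.1) W := PL2_div (g := fun W : E8 => n3 W.1.1) hs hn h0
  rw [e, PL2_fd_rad (c := fun W : E8 => -(W.2 / n3 W.1.1)) (e := fun W : E8 => n3 W.1.1 - 1) hd.neg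
    (hn.sub_const 1), fd_neg, fd_div (g := fun W : E8 => n3 W.1.1) hs hn h0, PL2_fd_s, PL2_fd_n3 hW, fd_sub hn (differentiableAt_const _),
    fd_const, PL2_fd_n3 hW, sub_zero]

lemma PL2_fd_sig {W : E8} (hW : W.1.1 ≠ 0) (v : E8) :
    fderiv ℝ sig W v = 2 * (n3 W.1.1 - 1) * (dot3 W.1.1 v.1.1 / n3 W.1.1) + 2 * W.2 * v.2 := by
  have hn := PL2_dn hW
  have hs : DifferentiableAt ℝ (fun W : E8 => W.2) W := by fun_prop
  have e : sig = fun W : E8 => (n3 W.1.1 - 1) ^ 2 + W.2 ^ 2 := rfl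
  rw [e, fd_add (by fun_prop) (by fun_prop), fd_sq (by fun_prop), fd_sq hs, PL2_fd_s,
    fd_sub hn (differentiableAt_const _), fd_const, PL2_fd_n3 hW, sub_zero]

lemma PL2_dot3_smul (b : R3) (c : ℝ) : dot3 b (c • b) = c * n3 b ^ 2 := by
  rw [← PL2_dot3_self]
  unfold dot3
  simp
  ring

/-- functions of `sig` are annihilated by tangent lifts and by `gam`. -/
lemma sig_lift {f : E7 → E7} (ht : ∀ P ∈ O7, Tan P (f P)) {W : E8} (hW : W.1 ∈ O7) :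
    fderiv ℝ sig W (f W.1, 0) = 0 := by
  rw [PL2_fd_sig hW.1]
  have h := (ht _ hW).1
  show 2 * (n3 W.1.1 - 1) * (dot3 W.1.1 (f W.1).1 / n3 W.1.1) + 2 * W.2 * 0 = 0
  rw [h]
  ring

lemma sig_gam {W : E8} (hW : W.1 ∈ O7) : fderiv ℝ sig W (gam W) = 0 := by
  rw [PL2_fd_sig hW.1]
  have h0 := (PL1_n3_pos hW.1).ne'
  show 2 * (n3 W.1.1 - 1) * (dot3 W.1.1 (-(W.2 / n3 W.1.1) • W.1.1) / n3 W.1.1) + 2 * W.2 * (n3 W.1.1 - 1) = 0
  rw [PL2_dot3_smul]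
  field_simp
  ring

lemma PL2_n3_smul {c : ℝ} (hc : 0 < c) (b : R3) : n3 (c • b) = c * n3 b := by
  unfold n3
  have e : (c • b).1 ^ 2 + (c • b).2.1 ^ 2 + (c • b).2.2 ^ 2 = c ^ 2 * (b.1 ^ 2 + b.2.1 ^ 2 + b.2.2 ^ 2) := by
    simp only [Prod.smul_fst, Prod.smul_snd, smul_eq_mul]
    ring
  rw [e, Real.sqrt_mul (by positivity), Real.sqrt_sq hc.le]

lemma PL2_qs_scale {c : ℝ} (hc : 0 < c) (b : R3) (w : R4) : qs (c • b, w) = qs (b, w) := by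
  unfold qs
  show ((c • b).1 ^ 2 + (c • b).2.1 ^ 2 + ((c • b).2.2 + n3 (c • b)) ^ 2) / n3 (c • b) ^ 2 =
    (b.1 ^ 2 + b.2.1 ^ 2 + (b.2.2 + n3 b) ^ 2) / n3 b ^ 2
  rw [PL2_n3_smul hc]
  have e : (c • b).1 ^ 2 + (c • b).2.1 ^ 2 + ((c • b).2.2 + c * n3 b) ^ 2 =
      c ^ 2 * (b.1 ^ 2 + b.2.1 ^ 2 + (b.2.2 + n3 b) ^ 2) := by
    simp only [Prod.smul_fst, Prod.smul_snd, smul_eq_mul]
    ring
  rw [e, mul_pow, mul_div_mul_left _ _ (by positivity)]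

lemma PL2_pos_ev (c : ℝ) : ∀ᶠ t : ℝ in 𝓝 0, 0 < 1 + t * c := by
  have h : Continuous fun t : ℝ => 1 + t * c := by fun_prop
  have h1 : (0 : ℝ) < 1 + 0 * c := by simp
  exact h.continuousAt.eventually (lt_mem_nhds h1)

lemma ht_gam {δ : ℝ} {W : E8} (hW : W.1 ∈ O7) : fderiv ℝ (ht δ) W (gam W) = 0 := by
  refine PL1_line ((hh_smooth hW).2.differentiableAt (by simp)) ?_
  filter_upwards [PL2_pos_ev (-(W.2 / n3 W.1.1))] with t ht0
  have e : (W + t • gam W).1 = ((1 + t * -(W.2 / n3 W.1.1)) • W.1.1, W.1.2) := by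
    show (W.1.1 + t • (-(W.2 / n3 W.1.1) • W.1.1), W.1.2 + t • (0 : R4)) = _
    rw [smul_zero, add_zero, add_smul, one_smul, mul_smul]
  unfold ht qa qb o1 o2
  rw [e, PL2_qs_scale ht0]

/-- a lifted field that is tangent and homogeneous in `b` commutes with `gam`. -/
lemma cat_lift_gam {f : E7 → E7} (hf : ContDiffOn ℝ ∞ f O7)
    (ht : ∀ P ∈ O7, Tan P (f P))
    (hs : ∀ P ∈ O7, ∀ c : ℝ, 0 < c → f (c • P.1, P.2) = (c • (f P).1, (f P).2))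
    {W : E8} (hW : W.1 ∈ O7) : CAt (fun W : E8 => (f W.1, (0 : ℝ))) gam W := by
  have hfs : ContDiffAt ℝ ∞ f W.1 := hf.contDiffAt (O7_open.mem_nhds hW)
  have hfd : DifferentiableAt ℝ f W.1 := hfs.differentiableAt (by simp)
  refine ⟨PL2_lift_smooth hfs, PL1_gam_smooth hW.1, ?_⟩
  unfold lieBracket
  rw [PL2_fd_lift hfd, PL2_fd_gam hW.1]
  have h1 : fderiv ℝ f W.1 (W.1.1, 0) = ((f W.1).1, 0) := by
    rw [← hfd.lineDeriv_eq_fderiv]
    unfold lineDeriv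
    have h2 : (fun t : ℝ => f (W.1 + t • (W.1.1, (0 : R4)))) =ᶠ[𝓝 0]
        fun t => f W.1 + t • ((f W.1).1, (0 : R4)) := by
      filter_upwards [PL2_pos_ev 1] with t ht0
      rw [mul_one] at ht0
      have e1 : W.1 + t • (W.1.1, (0 : R4)) = ((1 + t) • W.1.1, W.1.2) := by
        show (W.1.1 + t • W.1.1, W.1.2 + t • (0 : R4)) = _
        rw [smul_zero, add_zero, add_smul, one_smul]
      rw [e1, hs _ hW _ ht0]
      show _ = ((f W.1).1 + t • (f W.1).1, (f W.1).2 + t • (0 : R4))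
      rw [smul_zero, add_zero, add_smul, one_smul]
    rw [h2.deriv_eq]
    have h3 : HasDerivAt (fun t : ℝ => f W.1 + t • ((f W.1).1, (0 : R4)))
        ((1 : ℝ) • ((f W.1).1, (0 : R4))) 0 := ((hasDerivAt_id (0 : ℝ)).smul_const _).const_add _
    rw [h3.deriv, one_smul]
  have h4 : (gam W).1 = (-(W.2 / n3 W.1.1)) • (W.1.1, (0 : R4)) := by
    show (-(W.2 / n3 W.1.1) • W.1.1, (0 : R4)) = (-(W.2 / n3 W.1.1) • W.1.1, -(W.2 / n3 W.1.1) • (0 : R4))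
    rw [smul_zero]
  rw [h4, map_smul, h1]
  have h5 := (ht _ hW).1
  show (((-(W.2 / n3 W.1.1)) • (f W.1).1 +
      (-((0 * n3 W.1.1 - W.2 * (dot3 W.1.1 (f W.1).1 / n3 W.1.1)) / n3 W.1.1 ^ 2)) • W.1.1, (0 : R4)),
      dot3 W.1.1 (f W.1).1 / n3 W.1.1) - ((-(W.2 / n3 W.1.1)) • ((f W.1).1, (0 : R4)), (0 : ℝ)) = 0
  rw [h5]
  simp

lemma PL2_dsg_smooth {W : E8} (hW : W.1 ∈ O7) (hs : 0 < sig W) : ContDiffAt ℝ ∞ dsg W := by
  have h1 := PL1_n3_smooth' hW.1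
  have h2 : ContDiffAt ℝ ∞ (fun W : E8 => W.2) W := by fun_prop
  have h3 : ContDiffAt ℝ ∞ (fun W : E8 => W.1.1) W := by fun_prop
  have h4 : ContDiffAt ℝ ∞ (fun W : E8 => √(sig W)) W := (PL1_sig hW.1).sqrt hs.ne'
  have h5 := (Real.sqrt_pos.2 hs).ne'
  have h6 := (PL1_n3_pos hW.1).ne'
  unfold dsg
  exact ((((((h1.sub contDiffAt_const).div h1 h6)).div h4 h5).smul h3).prodMk contDiffAt_const).prodMk
    (h2.div h4 h5)

/-- the radial field `dsg` commutes with `gam` away from `sig = 0`. -/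
lemma cat_dsg_gam {W : E8} (hW : W.1 ∈ O7) (hs : 0 < sig W) : CAt dsg gam W := by
  refine ⟨PL2_dsg_smooth hW hs, PL1_gam_smooth hW.1, ?_⟩
  have hn := PL2_dn hW.1
  have hsd : DifferentiableAt ℝ (fun W : E8 => W.2) W := by fun_prop
  have hsg : DifferentiableAt ℝ sig W := (PL1_sig hW.1).differentiableAt (by simp)
  have h0 := (PL1_n3_pos hW.1).ne'
  have hq := (Real.sqrt_pos.2 hs).ne'
  have hr : DifferentiableAt ℝ (fun W : E8 => √(sig W)) W := hsg.sqrt hs.ne'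
  have hr0 : fderiv ℝ (fun W : E8 => √(sig W)) W (gam W) = 0 := by
    rw [fd_sqrt hsg hs, sig_gam hW, zero_div]
  have e : dsg = fun W : E8 => (((((n3 W.1.1 - 1) / n3 W.1.1 / √(sig W)) • W.1.1, (0 : R4)), W.2 / √(sig W)) : E8) :=
    rfl
  have hm : DifferentiableAt ℝ (fun W : E8 => n3 W.1.1 - 1) W := hn.sub_const 1
  have hd1 : DifferentiableAt ℝ (fun W : E8 => (n3 W.1.1 - 1) / n3 W.1.1) W :=
    PL2_div (f := fun W : E8 => n3 W.1.1 - 1) (g := fun W : E8 => n3 W.1.1) hm hn h0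
  have hdn : fderiv ℝ (fun W : E8 => n3 W.1.1) W (gam W) = -W.2 := by
    rw [PL2_fd_n3 hW.1]
    show dot3 W.1.1 (-(W.2 / n3 W.1.1) • W.1.1) / n3 W.1.1 = _
    rw [PL2_dot3_smul]
    field_simp
  have h1 : fderiv ℝ dsg W (gam W) = ((-(W.2 / (n3 W.1.1 * √(sig W))) • W.1.1, 0), (n3 W.1.1 - 1) / √(sig W)) := by
    rw [e, PL2_fd_rad (c := fun W : E8 => (n3 W.1.1 - 1) / n3 W.1.1 / √(sig W)) (e := fun W : E8 => W.2 / √(sig W))
      (PL2_div (f := fun W : E8 => (n3 W.1.1 - 1) / n3 W.1.1) (g := fun W : E8 => √(sig W)) hd1 hr hq)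
      (PL2_div (g := fun W : E8 => √(sig W)) hsd hr hq)]
    rw [fd_div (f := fun W : E8 => (n3 W.1.1 - 1) / n3 W.1.1) (g := fun W : E8 => √(sig W)) hd1 hr hq,
      fd_div (f := fun W : E8 => n3 W.1.1 - 1) (g := fun W : E8 => n3 W.1.1) hm hn h0,
      fd_div (g := fun W : E8 => √(sig W)) hsd hr hq, hr0, fd_sub hn (differentiableAt_const _), fd_const, hdn, PL2_fd_s]
    have g1 : (gam W).1.1 = -(W.2 / n3 W.1.1) • W.1.1 := rfl
    have g2 : (gam W).2 = n3 W.1.1 - 1 := rfl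
    rw [g1, g2, smul_smul, ← add_smul]
    have k1 : (n3 W.1.1 - 1) / n3 W.1.1 / √(sig W) * -(W.2 / n3 W.1.1) +
        ((-W.2 - 0) * n3 W.1.1 - (n3 W.1.1 - 1) * -W.2) / n3 W.1.1 ^ 2 * √(sig W) / √(sig W) ^ 2 =
        -(W.2 / (n3 W.1.1 * √(sig W))) := by
      field_simp
      ring
    have k2 : ((n3 W.1.1 - 1) * √(sig W) - W.2 * 0) / √(sig W) ^ 2 = (n3 W.1.1 - 1) / √(sig W) := by
      field_simp
      ring
    rw [k2, ← k1]
    simp only [mul_zero, sub_zero]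
  have h2 : fderiv ℝ gam W (dsg W) = ((-(W.2 / (n3 W.1.1 * √(sig W))) • W.1.1, 0), (n3 W.1.1 - 1) / √(sig W)) := by
    rw [PL2_fd_gam hW.1]
    have g1 : (dsg W).1.1 = ((n3 W.1.1 - 1) / n3 W.1.1 / √(sig W)) • W.1.1 := rfl
    have g2 : (dsg W).2 = W.2 / √(sig W) := rfl
    rw [g1, g2, PL2_dot3_smul, smul_smul, ← add_smul]
    have k1 : -(W.2 / n3 W.1.1) * ((n3 W.1.1 - 1) / n3 W.1.1 / √(sig W)) +
        -((W.2 / √(sig W) * n3 W.1.1 - W.2 * ((n3 W.1.1 - 1) / n3 W.1.1 / √(sig W) * n3 W.1.1 ^ 2 / n3 W.1.1)) /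
          n3 W.1.1 ^ 2) = -(W.2 / (n3 W.1.1 * √(sig W))) := by
      field_simp
      ring
    have k2 : (n3 W.1.1 - 1) / n3 W.1.1 / √(sig W) * n3 W.1.1 ^ 2 / n3 W.1.1 = (n3 W.1.1 - 1) / √(sig W) := by
      field_simp
    rw [k1, k2]
  unfold lieBracket
  rw [h1, h2, sub_self]

end S7Pair
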