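import Pool.Agent.S7Pair.Pl2

/-! # Module PL3: the pair `(PF f δ, PG g δ)` commutes -/

open scoped ContDiff Topology
open VectorField Set Filter

noncomputable section

namespace S7Pair

/-- a function smooth near `W` and annihilated by the vector `X` at `W`. -/
private structure Anh (a : E8 → ℝ) (W X : E8) : Prop where
  s : ContDiffAt ℝ ∞ a W
  z : fderiv ℝ a W X = 0

private lemma Anh.const (c : ℝ) (W X : E8) : Anh (fun _ => c) W X :=
  ⟨contDiffAt_const, by simp⟩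

private lemma Anh.add {a b : E8 → ℝ} {W X : E8} (ha : Anh a W X) (hb : Anh b W X) :
    Anh (fun y => a y + b y) W X := by
  refine ⟨ha.s.add hb.s, ?_⟩
  rw [fderiv_fun_add (ha.s.differentiableAt (by simp)) (hb.s.differentiableAt (by simp))]
  simp [ha.z, hb.z]

private lemma Anh.sub {a b : E8 → ℝ} {W X : E8} (ha : Anh a W X) (hb : Anh b W X) :
    Anh (fun y => a y - b y) W X := by
  refine ⟨ha.s.sub hb.s, ?_⟩
  rw [fderiv_fun_sub (ha.s.differentiableAt (by simp)) (hb.s.differentiableAt (by simp))]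
  simp [ha.z, hb.z]

private lemma Anh.mul {a b : E8 → ℝ} {W X : E8} (ha : Anh a W X) (hb : Anh b W X) :
    Anh (fun y => a y * b y) W X := by
  refine ⟨ha.s.mul hb.s, ?_⟩
  rw [fderiv_fun_mul (ha.s.differentiableAt (by simp)) (hb.s.differentiableAt (by simp))]
  simp [ha.z, hb.z]

private lemma Anh.comp {a : E8 → ℝ} {W X : E8} (ha : Anh a W X) {φ : ℝ → ℝ}
    (hφ : ContDiffAt ℝ ∞ φ (a W)) : Anh (fun y => φ (a y)) W X := by
  refine ⟨hφ.comp W ha.s, ?_⟩
  have h := fderiv_comp W (hφ.differentiableAt (by simp)) (ha.s.differentiableAt (by simp))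
  have h2 : (fun y => φ (a y)) = φ ∘ a := rfl
  rw [h2, h]
  simp [ha.z]

private lemma sig_nhds_lt {W : E8} (hW : W.1.1 ≠ 0) {c : ℝ} (h : sig W < c) :
    ∀ᶠ V in 𝓝 W, sig V < c := by
  have hc : ContinuousAt sig W := by
    have h1 : IsOpen {W : E8 | W.1.1 ≠ 0} := isOpen_ne_fun (by fun_prop) (by fun_prop)
    exact (sig_smooth.contDiffAt (h1.mem_nhds hW)).continuousAt
  exact hc.eventually (gt_mem_nhds h)

private lemma sig_cont : Continuous sig := by
  unfold sig n3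
  fun_prop

private lemma sm_zero {x : ℝ} (h : x ≤ 0) : sm x = 0 := Real.smoothTransition.zero_of_nonpos h

private lemma sm_one {x : ℝ} (h : 1 ≤ x) : sm x = 1 := Real.smoothTransition.one_of_one_le h

private lemma n3_zero : n3 0 = 0 := by simp [n3]

private lemma ne_of_sig {W : E8} (h : sig W < 1) : W.1.1 ≠ 0 := by
  intro h0
  unfold sig at h
  rw [h0, n3_zero] at h
  nlinarith [sq_nonneg W.2]

private lemma o1_add_o2 {P : E7} (h : P.2 ≠ 0) : o1 P + o2 P = 1 := by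
  unfold o1 o2 n4
  have hpos : 0 < P.2.1 ^ 2 + P.2.2.1 ^ 2 + P.2.2.2.1 ^ 2 + P.2.2.2.2 ^ 2 := by
    by_contra hc
    push Not at hc
    apply h
    have h1 : P.2.1 = 0 := by nlinarith [sq_nonneg P.2.1, sq_nonneg P.2.2.1, sq_nonneg P.2.2.2.1, sq_nonneg P.2.2.2.2]
    have h2 : P.2.2.1 = 0 := by nlinarith [sq_nonneg P.2.1, sq_nonneg P.2.2.1, sq_nonneg P.2.2.2.1, sq_nonneg P.2.2.2.2]
    have h3 : P.2.2.2.1 = 0 := by nlinarith [sq_nonneg P.2.1, sq_nonneg P.2.2.1, sq_nonneg P.2.2.2.1, sq_nonneg P.2.2.2.2]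
    have h4 : P.2.2.2.2 = 0 := by nlinarith [sq_nonneg P.2.1, sq_nonneg P.2.2.1, sq_nonneg P.2.2.2.1, sq_nonneg P.2.2.2.2]
    exact Prod.ext h1 (Prod.ext h2 (Prod.ext h3 h4))
  rw [Real.sq_sqrt hpos.le, ← add_div, div_eq_one_iff_eq hpos.ne']
  ring

private lemma qs_nonneg (P : E7) : 0 ≤ qs P := by unfold qs; positivity

private lemma o1_nonneg (P : E7) : 0 ≤ o1 P := by unfold o1; positivity

private lemma o2_nonneg (P : E7) : 0 ≤ o2 P := by unfold o2; positivity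

/-- continuity of `qa`, `qb` on `O7` -/
private lemma q_cont {P : E7} (h : P ∈ O7) : ContinuousAt qa P ∧ ContinuousAt qb P := by
  have hn3 : n3 P.1 ≠ 0 := by
    unfold n3
    intro h0
    rw [Real.sqrt_eq_zero (by positivity)] at h0
    apply h.1
    have h1 : P.1.1 = 0 := by nlinarith [sq_nonneg P.1.1, sq_nonneg P.1.2.1, sq_nonneg P.1.2.2]
    have h2 : P.1.2.1 = 0 := by nlinarith [sq_nonneg P.1.1, sq_nonneg P.1.2.1, sq_nonneg P.1.2.2]
    have h3 : P.1.2.2 = 0 := by nlinarith [sq_nonneg P.1.1, sq_nonneg P.1.2.1, sq_nonneg P.1.2.2]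
    exact Prod.ext h1 (Prod.ext h2 h3)
  have hn4 : n4 P.2 ≠ 0 := by
    intro h0
    have h1 := o1_add_o2 h.2
    unfold o1 o2 at h1
    rw [h0] at h1
    norm_num at h1
  have c3 : Continuous (fun P : E7 => n3 P.1) := by unfold n3; fun_prop
  have c4 : Continuous (fun P : E7 => n4 P.2) := by unfold n4; fun_prop
  have hqs : ContinuousAt qs P := by
    unfold qs
    apply ContinuousAt.div
    · have := c3.continuousAt (x := P)
      fun_prop
    · exact (c3.pow 2).continuousAt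
    · positivity
  have ho1 : ContinuousAt o1 P := by
    unfold o1
    apply ContinuousAt.div
    · fun_prop
    · exact (c4.pow 2).continuousAt
    · positivity
  have ho2 : ContinuousAt o2 P := by
    unfold o2
    apply ContinuousAt.div
    · fun_prop
    · exact (c4.pow 2).continuousAt
    · positivity
  exact ⟨hqs.add ho1, hqs.add ho2⟩

private lemma O7_nhds {W : E8} (hW : W.1 ∈ O7) : ∀ᶠ V : E8 in 𝓝 W, V.1 ∈ O7 :=
  (continuous_fst.continuousAt (x := W)).eventually (O7_open.mem_nhds hW)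

/-- zone E: outside `sig > 1/20` the first field is the Hopf field. -/
lemma zoneE {f g : E7 → E7} {δ : ℝ} (hδ : 0 < δ) {W : E8} (hW : W ∈ O8) (hs : 1 / 20 < sig W) :
    CAt (PF f δ) (PG g δ) W := by
  have hev : ∀ᶠ V : E8 in 𝓝 W, 1 / 20 < sig V := sig_cont.continuousAt.eventually (lt_mem_nhds hs)
  have hF : PF f δ =ᶠ[𝓝 W] fun V => (ee V.1, (0 : ℝ)) := by
    filter_upwards [hev] with V hV
    have h1 : ta V = 1 := sm_one (by linarith)
    unfold PF
    rw [h1]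
    simp
  by_cases hc : 23 / 100 < sig W
  · have hev2 : ∀ᶠ V : E8 in 𝓝 W, 23 / 100 < sig V :=
      sig_cont.continuousAt.eventually (lt_mem_nhds hc)
    have hG : PG g δ =ᶠ[𝓝 W] fun V => ThE V + N0 V := by
      filter_upwards [hev2] with V hV
      have h1 : ta V = 1 := sm_one (by linarith)
      have h2 : A1 V = 0 := sm_zero (by linarith)
      have h3 : A2 V = 1 := sm_one (by linarith)
      have h4 : be V = 0 := sm_zero (by linarith)
      unfold PG
      rw [h1, h2, h3, h4]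
      simp
    exact ((cat_ThE hW).add (cat_N0 hW)).congr hF hG
  · push Not at hc
    have hne : W.1.1 ≠ 0 := ne_of_sig (by linarith)
    have hO7 : W.1 ∈ O7 := ⟨hne, hW⟩
    obtain ⟨sA1, sA2, sta, sbe, sca⟩ := coef_smooth hW
    obtain ⟨zA1, zA2, zta, zbe, zca⟩ := coef_ee hW
    obtain ⟨shh, sht⟩ := hh_smooth (δ := δ) hO7
    obtain ⟨zhh, zht⟩ := hh_ee (δ := δ) hO7
    have aA2 : Anh A2 W (ee W.1, 0) := ⟨sA2, zA2⟩
    have ata : Anh ta W (ee W.1, 0) := ⟨sta, zta⟩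
    have abe : Anh be W (ee W.1, 0) := ⟨sbe, zbe⟩
    have ahh : Anh (hh δ) W (ee W.1, 0) := ⟨shh, zhh⟩
    have a1 := (Anh.const 1 W (ee W.1, 0))
    have c1 : Anh (fun V => (1 - hh δ V) * A2 V + hh δ V * ta V) W (ee W.1, 0) :=
      ((a1.sub ahh).mul aA2).add (ahh.mul ata)
    have c2 : Anh (fun V => (1 - hh δ V) * be V) W (ee W.1, 0) := (a1.sub ahh).mul abe
    have c3 : Anh (fun V => 1 - (1 - hh δ V) * be V) W (ee W.1, 0) := a1.sub c2
    have hG : PG g δ =ᶠ[𝓝 W] fun V => ((1 - hh δ V) * A2 V + hh δ V * ta V) • ThE V +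
        ((1 - hh δ V) * be V) • gam V + (1 - (1 - hh δ V) * be V) • N0 V := by
      filter_upwards [hev] with V hV
      have h1 : ta V = 1 := sm_one (by linarith)
      have h2 : A1 V = 0 := sm_zero (by linarith)
      unfold PG
      rw [h1, h2]
      simp
    exact ((((cat_ThE hW).smul c1.s c1.z).add ((cat_gam hO7).smul c2.s c2.z)).add
      ((cat_N0 hW).smul c3.s c3.z)).congr hF hG

/-- zone H: the two holes. -/
lemma zoneH {f g : E7 → E7} {δ : ℝ} (hδ : 0 < δ) (hδ' : δ ≤ 1 / 64)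
    (hn : ∀ P ∈ O7, (qa P < δ ∨ qb P < δ) → f P = ee P ∧ g P = That P)
    {W : E8} (hW : W.1 ∈ O7) (hs : sig W < 1 / 4)
    (hq : qa W.1 < 3 / 4 * δ ∨ qb W.1 < 3 / 4 * δ) :
    CAt (PF f δ) (PG g δ) W := by
  have hO8 : W ∈ O8 := hW.2
  obtain ⟨ca', cb'⟩ := q_cont hW
  have hcfst : ContinuousAt (fun V : E8 => V.1) W := continuous_fst.continuousAt
  have hevq : ∀ᶠ V : E8 in 𝓝 W, qa V.1 < 3 / 4 * δ ∨ qb V.1 < 3 / 4 * δ := by
    rcases hq with h | h
    · have := (ContinuousAt.comp (f := fun V : E8 => V.1) ca' hcfst).eventually (gt_mem_nhds h)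
      filter_upwards [this] with V hV using Or.inl hV
    · have := (ContinuousAt.comp (f := fun V : E8 => V.1) cb' hcfst).eventually (gt_mem_nhds h)
      filter_upwards [this] with V hV using Or.inr hV
  have hevO := O7_nhds hW
  have hevs : ∀ᶠ V : E8 in 𝓝 W, sig V < 1 / 4 := sig_cont.continuousAt.eventually (gt_mem_nhds hs)
  have key : ∀ V : E8, V.1 ∈ O7 → (qa V.1 < 3 / 4 * δ ∨ qb V.1 < 3 / 4 * δ) → ht δ V = 1 := by
    intro V hV hqV
    have h1 := o1_add_o2 hV.2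
    have h2 := qs_nonneg V.1
    unfold ht
    rcases hqV with h | h
    · have h3 : 3 / 4 * δ < qb V.1 := by
        have e1 : qa V.1 = qs V.1 + o1 V.1 := rfl
        have e2 : qb V.1 = qs V.1 + o2 V.1 := rfl
        linarith
      have h4 : δ < qb V.1 := by
        have e1 : qa V.1 = qs V.1 + o1 V.1 := rfl
        have e2 : qb V.1 = qs V.1 + o2 V.1 := rfl
        linarith
      have h5 : qa V.1 / δ ≤ 3 / 4 := by rw [div_le_iff₀ hδ]; exact h.le
      have h6 : 1 ≤ qb V.1 / δ := by rw [le_div_iff₀ hδ]; linarith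
      rw [sm_one (by linarith), sm_zero (by linarith)]
      norm_num
    · have h4 : δ < qa V.1 := by
        have e1 : qa V.1 = qs V.1 + o1 V.1 := rfl
        have e2 : qb V.1 = qs V.1 + o2 V.1 := rfl
        linarith
      have h5 : qb V.1 / δ ≤ 3 / 4 := by rw [div_le_iff₀ hδ]; exact h.le
      have h6 : 1 ≤ qa V.1 / δ := by rw [le_div_iff₀ hδ]; linarith
      rw [sm_zero (by linarith), sm_one (by linarith)]
      norm_num
  have hfg : ∀ V : E8, V.1 ∈ O7 → (qa V.1 < 3 / 4 * δ ∨ qb V.1 < 3 / 4 * δ) →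
      f V.1 = ee V.1 ∧ g V.1 = That V.1 := by
    intro V hV hqV
    apply hn V.1 hV
    rcases hqV with h | h
    · exact Or.inl (by linarith)
    · exact Or.inr (by linarith)
  have hThE : ∀ V : E8, sig V < 1 / 4 → ThE V = (That V.1, (0 : ℝ)) := by
    intro V hV
    have h1 : rad V < 9 := by
      unfold sig at hV
      have hsq : n3 V.1.1 ^ 2 = V.1.1.1 ^ 2 + V.1.1.2.1 ^ 2 + V.1.1.2.2 ^ 2 := by
        unfold n3
        rw [Real.sq_sqrt (by positivity)]
      have hr : rad V = n3 V.1.1 ^ 2 + V.2 ^ 2 := by unfold rad; rw [hsq]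
      rw [hr]
      nlinarith [sq_nonneg (n3 V.1.1 - 1), sq_nonneg (V.2), sq_nonneg (n3 V.1.1 - 2)]
    have h2 : ca V = 1 := sm_one (by linarith)
    unfold ThE That
    rw [h2]
    simp
  have hF : PF f δ =ᶠ[𝓝 W] fun V => (ee V.1, (0 : ℝ)) := by
    filter_upwards [hevq, hevO] with V hV1 hV2
    have h1 := key V hV2 hV1
    have h2 := (hfg V hV2 hV1).1
    unfold PF
    rw [h1, h2, ← add_smul]
    simp
  obtain ⟨sA1, sA2, sta, sbe, sca⟩ := coef_smooth hO8
  obtain ⟨zA1, zA2, zta, zbe, zca⟩ := coef_ee hO8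
  obtain ⟨shh, sht⟩ := hh_smooth (δ := δ) hW
  obtain ⟨zhh, zht⟩ := hh_ee (δ := δ) hW
  have aA1 : Anh A1 W (ee W.1, 0) := ⟨sA1, zA1⟩
  have aA2 : Anh A2 W (ee W.1, 0) := ⟨sA2, zA2⟩
  have ata : Anh ta W (ee W.1, 0) := ⟨sta, zta⟩
  have abe : Anh be W (ee W.1, 0) := ⟨sbe, zbe⟩
  have ahh : Anh (hh δ) W (ee W.1, 0) := ⟨shh, zhh⟩
  have a1 := (Anh.const 1 W (ee W.1, 0))
  have c0' : Anh (fun V => (1 - hh δ V) * A1 V + hh δ V * (1 - ta V)) W (ee W.1, 0) :=
    ((a1.sub ahh).mul aA1).add (ahh.mul (a1.sub ata))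
  have c1 : Anh (fun V => (1 - hh δ V) * A2 V + hh δ V * ta V) W (ee W.1, 0) :=
    ((a1.sub ahh).mul aA2).add (ahh.mul ata)
  have c2 : Anh (fun V => (1 - hh δ V) * be V) W (ee W.1, 0) := (a1.sub ahh).mul abe
  have c3 : Anh (fun V => 1 - (1 - hh δ V) * be V) W (ee W.1, 0) := a1.sub c2
  have hG : PG g δ =ᶠ[𝓝 W] fun V => ((1 - hh δ V) * A1 V + hh δ V * (1 - ta V)) • ThE V +
      ((1 - hh δ V) * A2 V + hh δ V * ta V) • ThE V +
      ((1 - hh δ V) * be V) • gam V + (1 - (1 - hh δ V) * be V) • N0 V := by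
    filter_upwards [hevq, hevO, hevs] with V hV1 hV2 hV3
    have h2 := (hfg V hV2 hV1).2
    unfold PG
    rw [h2, ← hThE V hV3]
  exact (((((cat_ThE hO8).smul c0'.s c0'.z).add ((cat_ThE hO8).smul c1.s c1.z)).add
    ((cat_gam hW).smul c2.s c2.z)).add ((cat_N0 hO8).smul c3.s c3.z)).congr hF hG

private lemma hh_zero {δ : ℝ} (hδ : 0 < δ) {V : E8} (hqa : 2 / 3 * δ < qa V.1)
    (hqb : 2 / 3 * δ < qb V.1) : hh δ V = 0 := by
  unfold hh
  have h1 : 2 / 3 < qa V.1 / δ := by rw [lt_div_iff₀ hδ]; exact hqa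
  have h2 : 2 / 3 < qb V.1 / δ := by rw [lt_div_iff₀ hδ]; exact hqb
  rw [sm_zero (by linarith), sm_zero (by linarith), add_zero]

private lemma q_nhds {δ : ℝ} {W : E8} (hW : W.1 ∈ O7) (hqa : 2 / 3 * δ < qa W.1)
    (hqb : 2 / 3 * δ < qb W.1) : ∀ᶠ V : E8 in 𝓝 W, 2 / 3 * δ < qa V.1 ∧ 2 / 3 * δ < qb V.1 := by
  obtain ⟨ca', cb'⟩ := q_cont hW
  have hcfst : ContinuousAt (fun V : E8 => V.1) W := continuous_fst.continuousAt
  have h1 := (ContinuousAt.comp (f := fun V : E8 => V.1) ca' hcfst).eventually (lt_mem_nhds hqa)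
  have h2 := (ContinuousAt.comp (f := fun V : E8 => V.1) cb' hcfst).eventually (lt_mem_nhds hqb)
  filter_upwards [h1, h2] with V hV1 hV2 using ⟨hV1, hV2⟩

/-- zone K1: near `K`, away from the holes. -/
lemma zoneK1 {f g : E7 → E7} {δ : ℝ} (hδ : 0 < δ) (h : CP O7 f g)
    (ht : ∀ P ∈ O7, Tan P (f P) ∧ Tan P (g P))
    (hs : ∀ P ∈ O7, ∀ c : ℝ, 0 < c → f (c • P.1, P.2) = (c • (f P).1, (f P).2) ∧
      g (c • P.1, P.2) = (c • (g P).1, (g P).2))
    {W : E8} (hW : W.1 ∈ O7) (hs' : sig W < 3 / 100)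
    (hqa : 2 / 3 * δ < qa W.1) (hqb : 2 / 3 * δ < qb W.1) :
    CAt (PF f δ) (PG g δ) W := by
  have hO8 : W ∈ O8 := hW.2
  have hevs : ∀ᶠ V : E8 in 𝓝 W, sig V < 3 / 100 :=
    sig_cont.continuousAt.eventually (gt_mem_nhds hs')
  have hevq := q_nhds hW hqa hqb
  have hF : PF f δ =ᶠ[𝓝 W] fun V => (f V.1, (0 : ℝ)) := by
    filter_upwards [hevs] with V hV
    have h1 : ta V = 0 := sm_zero (by linarith)
    unfold PF
    rw [h1]
    simp
  have hG : PG g δ =ᶠ[𝓝 W] fun V => A1 V • (g V.1, (0 : ℝ)) + gam V := by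
    filter_upwards [hevs, hevq] with V hV hV2
    have h1 : ta V = 0 := sm_zero (by linarith)
    have h2 : A2 V = 0 := sm_zero (by linarith)
    have h3 : be V = 1 := sm_one (by linarith)
    have h4 := hh_zero hδ hV2.1 hV2.2
    unfold PG
    rw [h1, h2, h3, h4]
    simp
  have hsg : Anh sig W (f W.1, 0) := by
    have h1 : IsOpen {W : E8 | W.1.1 ≠ 0} := isOpen_ne_fun (by fun_prop) (by fun_prop)
    exact ⟨sig_smooth.contDiffAt (h1.mem_nhds hW.1), sig_lift (fun P hP => (ht P hP).1) hW⟩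
  have hA1 : Anh A1 W (f W.1, 0) :=
    (((Anh.const 2 W (f W.1, 0)).sub ((Anh.const 100 W (f W.1, 0)).mul hsg)).comp
      (φ := sm) (Real.smoothTransition.contDiff.contDiffAt))
  have k1 := (cat_lift h hW).smul hA1.s hA1.z
  have k2 := cat_lift_gam h.sf (fun P hP => (ht P hP).1) (fun P hP c hc => (hs P hP c hc).1) hW
  exact (k1.add k2).congr hF hG

/-- zone K2: the turbulisation zone, away from the holes. -/
lemma zoneK2 {f g : E7 → E7} {δ : ℝ} (hδ : 0 < δ) (h : CP O7 f g)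
    (ht : ∀ P ∈ O7, Tan P (f P) ∧ Tan P (g P))
    (hs : ∀ P ∈ O7, ∀ c : ℝ, 0 < c → f (c • P.1, P.2) = (c • (f P).1, (f P).2) ∧
      g (c • P.1, P.2) = (c • (g P).1, (g P).2))
    {W : E8} (hW : W.1 ∈ O7) (hs' : 2 / 100 < sig W) (hs'' : sig W < 6 / 100)
    (hqa : 2 / 3 * δ < qa W.1) (hqb : 2 / 3 * δ < qb W.1) :
    CAt (PF f δ) (PG g δ) W := by
  have hO8 : W ∈ O8 := hW.2
  have hev1 : ∀ᶠ V : E8 in 𝓝 W, 2 / 100 < sig V :=
    sig_cont.continuousAt.eventually (lt_mem_nhds hs')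
  have hev2 : ∀ᶠ V : E8 in 𝓝 W, sig V < 6 / 100 :=
    sig_cont.continuousAt.eventually (gt_mem_nhds hs'')
  have hevq := q_nhds hW hqa hqb
  have hG : PG g δ =ᶠ[𝓝 W] gam := by
    filter_upwards [hev1, hev2, hevq] with V hV1 hV2 hV3
    have h1 : A1 V = 0 := sm_zero (by linarith)
    have h2 : A2 V = 0 := sm_zero (by linarith)
    have h3 : be V = 1 := sm_one (by linarith)
    have h4 := hh_zero hδ hV3.1 hV3.2
    unfold PG
    rw [h1, h2, h3, h4]
    simp
  have hsg : Anh sig W (gam W) := by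
    have h1 : IsOpen {W : E8 | W.1.1 ≠ 0} := isOpen_ne_fun (by fun_prop) (by fun_prop)
    exact ⟨sig_smooth.contDiffAt (h1.mem_nhds hW.1), sig_gam hW⟩
  have hta : Anh ta W (gam W) :=
    ((((Anh.const 50 W (gam W)).mul hsg).sub (Anh.const (3 / 2) W (gam W))).comp
      (φ := sm) (Real.smoothTransition.contDiff.contDiffAt))
  have hht : Anh (S7Pair.ht δ) W (gam W) := ⟨(hh_smooth (δ := δ) hW).2, ht_gam hW⟩
  have a1 := Anh.const 1 W (gam W)
  have k1 := cat_lift_gam h.sf (fun P hP => (ht P hP).1) (fun P hP c hc => (hs P hP c hc).1) hW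
  have k2 : CAt (fun W : E8 => (ee W.1, (0 : ℝ))) gam W := cat_gam hW
  have k3 := cat_dsg_gam hW (by linarith : 0 < sig W)
  have b1 : Anh (fun V => 1 - ta V) W (gam W) := a1.sub hta
  have b3 : Anh (fun V => 4 * ta V * (1 - ta V) * (1 - S7Pair.ht δ V)) W (gam W) :=
    (((Anh.const 4 W (gam W)).mul hta).mul b1).mul (a1.sub hht)
  have k4 := ((k1.smul_left b1.s b1.z).add_left (k2.smul_left hta.s hta.z)).add_left
    (k3.smul_left b3.s b3.z)
  exact k4.congr (Filter.EventuallyEq.refl _ _) hG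

end S7Pair
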