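import Pool.Agent.S7Pair.Defs2
import Pool.Agent.S7Pair.Hom

/-! # Module SV1: the chart `Lam` of the thick seven-sphere -/

open scoped ContDiff Topology
open VectorField Set Filter

noncomputable section

namespace S7Pair

lemma SV1_d4_pos {w : R4} (hw : w ≠ 0) : 0 < dot4 w w := by
  unfold dot4
  by_contra h
  apply hw
  have h1 := mul_self_nonneg w.1
  have h2 := mul_self_nonneg w.2.1
  have h3 := mul_self_nonneg w.2.2.1
  have h4 := mul_self_nonneg w.2.2.2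
  ext
  · exact mul_self_eq_zero.1 (by linarith : w.1 * w.1 = 0)
  · exact mul_self_eq_zero.1 (by linarith : w.2.1 * w.2.1 = 0)
  · exact mul_self_eq_zero.1 (by linarith : w.2.2.1 * w.2.2.1 = 0)
  · exact mul_self_eq_zero.1 (by linarith : w.2.2.2 * w.2.2.2 = 0)

lemma SV1_d4_nonneg (w : R4) : 0 ≤ dot4 w w := by
  unfold dot4
  have h1 := mul_self_nonneg w.1
  have h2 := mul_self_nonneg w.2.1
  have h3 := mul_self_nonneg w.2.2.1
  have h4 := mul_self_nonneg w.2.2.2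
  linarith

lemma SV1_n4 (w : R4) : n4 w = √(dot4 w w) := by
  unfold n4 dot4
  congr 1
  ring

lemma SV1_n4_pos {w : R4} (hw : w ≠ 0) : 0 < n4 w := by
  rw [SV1_n4]; exact Real.sqrt_pos.2 (SV1_d4_pos hw)

lemma SV1_n4_sq (w : R4) : n4 w ^ 2 = dot4 w w := by
  rw [SV1_n4, Real.sq_sqrt (SV1_d4_nonneg w)]

lemma SV1_nrm_pos {Z : Y8} (hZ : Z.2 ≠ 0) : 0 < nrm8 Z := by
  unfold nrm8
  exact Real.sqrt_pos.2 (add_pos_of_nonneg_of_pos (SV1_d4_nonneg _) (SV1_d4_pos hZ))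

lemma SV1_nrm_sq (Z : Y8) : nrm8 Z ^ 2 = dot4 Z.1 Z.1 + dot4 Z.2 Z.2 := by
  unfold nrm8
  exact Real.sq_sqrt (add_nonneg (SV1_d4_nonneg _) (SV1_d4_nonneg _))

lemma SV1_n4_smooth {E : Type*} [NormedAddCommGroup E] [NormedSpace ℝ E] {F : E → R4} {x : E}
    (hF : ContDiffAt ℝ ∞ F x) (h : F x ≠ 0) : ContDiffAt ℝ ∞ (fun y => n4 (F y)) x := by
  have e : (fun y => n4 (F y)) = fun y => √(dot4 (F y) (F y)) := by
    funext y; exact SV1_n4 _
  rw [e]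
  refine ContDiffAt.sqrt ?_ (SV1_d4_pos h).ne'
  unfold dot4
  have h1 : ContDiffAt ℝ ∞ (fun y => (F y).1) x := hF.fst
  have h2 : ContDiffAt ℝ ∞ (fun y => (F y).2) x := hF.snd
  have h3 : ContDiffAt ℝ ∞ (fun y => (F y).2.1) x := h2.fst
  have h4 : ContDiffAt ℝ ∞ (fun y => (F y).2.2) x := h2.snd
  have h5 : ContDiffAt ℝ ∞ (fun y => (F y).2.2.1) x := h4.fst
  have h6 : ContDiffAt ℝ ∞ (fun y => (F y).2.2.2) x := h4.snd
  exact (((h1.mul h1).add (h3.mul h3)).add (h5.mul h5)).add (h6.mul h6)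

lemma SV1_nrm_smooth {Z : Y8} (h : Z.2 ≠ 0) : ContDiffAt ℝ ∞ nrm8 Z := by
  unfold nrm8
  refine ContDiffAt.sqrt ?_ (add_pos_of_nonneg_of_pos (SV1_d4_nonneg _) (SV1_d4_pos h)).ne'
  unfold dot4
  fun_prop

/-- domain of the chart: `w ≠ 0`. -/
lemma Lam_smooth : ContDiffOn ℝ ∞ Lam {Z | Z.2 ≠ 0} := by
  intro Z hZ
  apply ContDiffAt.contDiffWithinAt
  have hn : ContDiffAt ℝ ∞ (fun Z : Y8 => n4 Z.2) Z := SV1_n4_smooth contDiffAt_snd hZ
  have hn0 : n4 Z.2 ≠ 0 := (SV1_n4_pos hZ).ne'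
  have hr := SV1_nrm_smooth hZ
  unfold Lam
  refine ContDiffAt.prodMk (ContDiffAt.prodMk (ContDiffAt.prodMk ?_ (ContDiffAt.prodMk ?_ ?_))
    ?_) ?_
  · exact ContDiffAt.div (by fun_prop) hn hn0
  · exact ContDiffAt.div (by fun_prop) hn hn0
  · exact ContDiffAt.div (by fun_prop) hn hn0
  · exact ContDiffAt.smul (hr.div hn hn0) (by fun_prop)
  · exact ContDiffAt.div (by fun_prop) hn hn0

/-- the inverse of the chart -/
def SV1_inv (W : E8) : Y8 :=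
  ((((n4 W.1.2 / (8 * √(1 + rad W / 64))) * W.1.1.1, (n4 W.1.2 / (8 * √(1 + rad W / 64))) * W.1.1.2.1,
    (n4 W.1.2 / (8 * √(1 + rad W / 64))) * W.1.1.2.2, (n4 W.1.2 / (8 * √(1 + rad W / 64))) * W.2) : R4),
    ((√(1 + rad W / 64))⁻¹ • W.1.2 : R4))

lemma Lam_maps : ∀ Z : Y8, Z.2 ≠ 0 → Lam Z ∈ O8 ∧ n4 (Lam Z).1.2 = nrm8 Z ∧
    rad (Lam Z) = 64 * (dot4 Z.1 Z.1 / dot4 Z.2 Z.2) := by
  intro Z hZ
  have hn := SV1_n4_pos hZ
  have hr := SV1_nrm_pos hZ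
  have hs := SV1_n4_sq Z.2
  refine ⟨?_, ?_, ?_⟩
  · show (nrm8 Z / n4 Z.2) • Z.2 ≠ 0
    exact smul_ne_zero (div_pos hr hn).ne' hZ
  · show n4 ((nrm8 Z / n4 Z.2) • Z.2) = nrm8 Z
    have h1 : n4 ((nrm8 Z / n4 Z.2) • Z.2) ^ 2 = nrm8 Z ^ 2 := by
      rw [SV1_n4_sq]
      have : dot4 ((nrm8 Z / n4 Z.2) • Z.2) ((nrm8 Z / n4 Z.2) • Z.2) =
          (nrm8 Z / n4 Z.2) ^ 2 * dot4 Z.2 Z.2 := by
        simp only [dot4, Prod.smul_fst, Prod.smul_snd, smul_eq_mul]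
        ring
      rw [this, ← hs]
      field_simp
    exact (pow_left_inj₀ (Real.sqrt_nonneg _) hr.le two_ne_zero).1 h1
  · rw [← hs]
    simp only [rad, Lam, dot4]
    field_simp
    ring

lemma SV1_inv_lam (Z : Y8) (hZ : Z.2 ≠ 0) : SV1_inv (Lam Z) = Z := by
  have hn := SV1_n4_pos hZ
  have hr := SV1_nrm_pos hZ
  obtain ⟨-, h1, h2⟩ := Lam_maps Z hZ
  have h3 : √(1 + rad (Lam Z) / 64) = nrm8 Z / n4 Z.2 := by
    rw [h2]
    have : (1 : ℝ) + 64 * (dot4 Z.1 Z.1 / dot4 Z.2 Z.2) / 64 = (nrm8 Z / n4 Z.2) ^ 2 := by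
      rw [div_pow, SV1_nrm_sq, SV1_n4_sq]
      have := SV1_d4_pos hZ
      field_simp
      ring
    rw [this, Real.sqrt_sq (div_pos hr hn).le]
  unfold SV1_inv
  rw [h1, h3]
  simp only [Lam]
  ext
  · simp only; field_simp
  · simp only; field_simp
  · simp only; field_simp
  · simp only; field_simp
  · simp only [Prod.smul_fst, smul_eq_mul]; field_simp
  · simp only [Prod.smul_fst, Prod.smul_snd, smul_eq_mul]; field_simp
  · simp only [Prod.smul_fst, Prod.smul_snd, smul_eq_mul]; field_simp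
  · simp only [Prod.smul_snd, smul_eq_mul]; field_simp

lemma SV1_inv_smooth {W : E8} (hW : W.1.2 ≠ 0) : ContDiffAt ℝ ∞ SV1_inv W := by
  have hn : ContDiffAt ℝ ∞ (fun W : E8 => n4 W.1.2) W := SV1_n4_smooth (by fun_prop) hW
  have hp : 0 < 1 + rad W / 64 := by
    unfold rad; positivity
  have hq : ContDiffAt ℝ ∞ (fun W : E8 => √(1 + rad W / 64)) W := by
    refine ContDiffAt.sqrt ?_ hp.ne'
    unfold rad
    fun_prop
  have hq0 : √(1 + rad W / 64) ≠ 0 := (Real.sqrt_pos.2 hp).ne'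
  have hc : ContDiffAt ℝ ∞ (fun W : E8 => n4 W.1.2 / (8 * √(1 + rad W / 64))) W :=
    hn.div (contDiffAt_const.mul hq) (mul_ne_zero (by norm_num) hq0)
  unfold SV1_inv
  refine ContDiffAt.prodMk (ContDiffAt.prodMk ?_ (ContDiffAt.prodMk ?_ (ContDiffAt.prodMk ?_ ?_)))
    ?_
  · exact hc.mul (by fun_prop)
  · exact hc.mul (by fun_prop)
  · exact hc.mul (by fun_prop)
  · exact hc.mul (by fun_prop)
  · exact (hq.inv hq0).smul (by fun_prop)

lemma SV1_open : IsOpen {Z : Y8 | Z.2 ≠ 0} := isOpen_ne.preimage continuous_snd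

lemma SV1_diff {Z : Y8} (hZ : Z.2 ≠ 0) : DifferentiableAt ℝ Lam Z :=
  (Lam_smooth.contDiffAt (SV1_open.mem_nhds hZ)).differentiableAt (by simp)

lemma Lam_inv : ∀ Z : Y8, Z.2 ≠ 0 → (fderiv ℝ Lam Z).IsInvertible := by
  intro Z hZ
  refine isInvertible_of_leftInverse (Ψ := SV1_inv) (by simp) (SV1_diff hZ)
    ((SV1_inv_smooth (Lam_maps Z hZ).1).differentiableAt (by simp)) ?_
  filter_upwards [SV1_open.mem_nhds hZ] with Y hY
  exact SV1_inv_lam Y hY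

/-- derivative along a line -/
lemma SV1_line0 {Z V : Y8} (hZ : Z.2 ≠ 0) :
    HasDerivAt (fun t : ℝ => Lam (Z + t • V)) (fderiv ℝ Lam Z V) 0 := by
  have h2 : HasDerivAt (fun t : ℝ => Z + t • V) V 0 := by
    simpa using ((hasDerivAt_id (0 : ℝ)).smul_const V).const_add Z
  have h3 : HasFDerivAt Lam (fderiv ℝ Lam Z) (Z + (0 : ℝ) • V) := by
    simpa using (SV1_diff hZ).hasFDerivAt
  exact h3.comp_hasDerivAt 0 h2

lemma SV1_line {Z V : Y8} (hZ : Z.2 ≠ 0) {D : E8}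
    (h : HasDerivAt (fun t : ℝ => Lam (Z + t • V)) D 0) : fderiv ℝ Lam Z V = D :=
  (SV1_line0 hZ).unique h

/-- square root of `a + t² b` has derivative `0` at `0`. -/
lemma SV1_sqrt {a b : ℝ} (ha : 0 < a) : HasDerivAt (fun t : ℝ => √(a + t ^ 2 * b)) 0 0 := by
  have h1 : HasDerivAt (fun t : ℝ => a + t ^ 2 * b) 0 0 := by
    have := (((hasDerivAt_id (0 : ℝ)).fun_pow 2).mul_const b).const_add a
    simpa using this
  have h2 := h1.sqrt (by simpa using ha.ne')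
  simpa using h2

lemma SV1_aff (a b : ℝ) : HasDerivAt (fun t : ℝ => a + t * b) b 0 := by
  simpa using ((hasDerivAt_id (0 : ℝ)).mul_const b).const_add a

lemma SV1_quot {d : ℝ → ℝ} (hd : HasDerivAt d 0 0) (h0 : d 0 ≠ 0) (a b : ℝ) :
    HasDerivAt (fun t : ℝ => 8 * (a + t * b) / d t) (8 * b / d 0) 0 := by
  have h1 := ((SV1_aff a b).const_mul 8).fun_div hd h0
  refine h1.congr_deriv ?_
  field_simp
  ring

/-- derivative of the chart in a direction along which both norms are stationary. -/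
lemma SV1_gen {Z V : Y8} (hZ : Z.2 ≠ 0)
    (hn0 : HasDerivAt (fun t : ℝ => n4 (Z + t • V).2) 0 0)
    (hr0 : HasDerivAt (fun t : ℝ => nrm8 (Z + t • V)) 0 0) :
    fderiv ℝ Lam Z V = ((((8 * V.1.1 / n4 Z.2, 8 * V.1.2.1 / n4 Z.2, 8 * V.1.2.2.1 / n4 Z.2) : R3),
      ((nrm8 Z / n4 Z.2) • V.2 : R4)), 8 * V.1.2.2.2 / n4 Z.2) := by
  apply SV1_line hZ
  have e0 : n4 (Z + (0 : ℝ) • V).2 = n4 Z.2 := by simp
  have e1 : nrm8 (Z + (0 : ℝ) • V) = nrm8 Z := by simp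
  have hn := SV1_n4_pos hZ
  have hne : n4 (Z + (0 : ℝ) • V).2 ≠ 0 := by rw [e0]; exact hn.ne'
  unfold Lam
  refine HasDerivAt.prodMk (HasDerivAt.prodMk (HasDerivAt.prodMk ?_ (HasDerivAt.prodMk ?_ ?_)) ?_)
    ?_
  · rw [← e0]; exact SV1_quot hn0 hne Z.1.1 V.1.1
  · rw [← e0]; exact SV1_quot hn0 hne Z.1.2.1 V.1.2.1
  · rw [← e0]; exact SV1_quot hn0 hne Z.1.2.2.1 V.1.2.2.1
  · have h1 := hr0.fun_div hn0 hne
    have h2 : HasDerivAt (fun t : ℝ => (Z + t • V).2) V.2 0 := by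
      simpa using ((hasDerivAt_id (0 : ℝ)).smul_const V.2).const_add Z.2
    have h3 := h1.fun_smul h2
    refine h3.congr_deriv ?_
    simp
  · rw [← e0]; exact SV1_quot hn0 hne Z.1.2.2.2 V.1.2.2.2

/-- the Hopf field and the field `ix` in the chart. -/
lemma Lam_ee : ∀ Z : Y8, Z.2 ≠ 0 → fderiv ℝ Lam Z ((0 : R4), iR4 Z.2) = (ee (Lam Z).1, 0) := by
  intro Z hZ
  have hn := SV1_n4_pos hZ
  have hn0 : HasDerivAt (fun t : ℝ => n4 (Z + t • ((0 : R4), iR4 Z.2)).2) 0 0 := by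
    have e : (fun t : ℝ => n4 (Z + t • ((0 : R4), iR4 Z.2)).2) =
        fun t : ℝ => √(dot4 Z.2 Z.2 + t ^ 2 * dot4 Z.2 Z.2) := by
      funext t
      rw [SV1_n4]
      congr 1
      simp only [dot4, iR4, Prod.fst_add, Prod.snd_add, Prod.smul_fst, Prod.smul_snd, smul_eq_mul]
      ring
    rw [e]
    exact SV1_sqrt (SV1_d4_pos hZ)
  have hr0 : HasDerivAt (fun t : ℝ => nrm8 (Z + t • ((0 : R4), iR4 Z.2))) 0 0 := by
    have e : (fun t : ℝ => nrm8 (Z + t • ((0 : R4), iR4 Z.2))) =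
        fun t : ℝ => √((dot4 Z.1 Z.1 + dot4 Z.2 Z.2) + t ^ 2 * dot4 Z.2 Z.2) := by
      funext t
      unfold nrm8
      congr 1
      simp only [dot4, iR4, Prod.fst_add, Prod.snd_add, Prod.smul_fst, Prod.smul_snd, smul_eq_mul,
        Prod.fst_zero, Prod.snd_zero]
      ring
    rw [e]
    exact SV1_sqrt (add_pos_of_nonneg_of_pos (SV1_d4_nonneg _) (SV1_d4_pos hZ))
  rw [SV1_gen hZ hn0 hr0]
  simp only [ee, Lam, iR4, Prod.fst_zero, Prod.snd_zero, Prod.smul_mk, Prod.smul_fst,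
    Prod.smul_snd, smul_eq_mul, mul_zero, zero_div, mul_neg]

lemma Lam_ix : ∀ Z : Y8, Z.2 ≠ 0 → fderiv ℝ Lam Z (iR4 Z.1, (0 : R4)) =
    (((-(Lam Z).1.1.2.1, (Lam Z).1.1.1, -(Lam Z).2), 0), (Lam Z).1.1.2.2) := by
  intro Z hZ
  have hn := SV1_n4_pos hZ
  have hn0 : HasDerivAt (fun t : ℝ => n4 (Z + t • (iR4 Z.1, (0 : R4))).2) 0 0 := by
    have e : (fun t : ℝ => n4 (Z + t • (iR4 Z.1, (0 : R4))).2) =
        fun t : ℝ => √(dot4 Z.2 Z.2 + t ^ 2 * 0) := by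
      funext t
      rw [SV1_n4]
      congr 1
      simp only [dot4, iR4, Prod.fst_add, Prod.snd_add, Prod.smul_fst, Prod.smul_snd, smul_eq_mul,
        Prod.fst_zero, Prod.snd_zero]
      ring
    rw [e]
    exact SV1_sqrt (SV1_d4_pos hZ)
  have hr0 : HasDerivAt (fun t : ℝ => nrm8 (Z + t • (iR4 Z.1, (0 : R4)))) 0 0 := by
    have e : (fun t : ℝ => nrm8 (Z + t • (iR4 Z.1, (0 : R4)))) =
        fun t : ℝ => √((dot4 Z.1 Z.1 + dot4 Z.2 Z.2) + t ^ 2 * dot4 Z.1 Z.1) := by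
      funext t
      unfold nrm8
      congr 1
      simp only [dot4, iR4, Prod.fst_add, Prod.snd_add, Prod.smul_fst, Prod.smul_snd, smul_eq_mul,
        Prod.fst_zero, Prod.snd_zero]
      ring
    rw [e]
    exact SV1_sqrt (add_pos_of_nonneg_of_pos (SV1_d4_nonneg _) (SV1_d4_pos hZ))
  rw [SV1_gen hZ hn0 hr0]
  simp only [Lam, iR4, smul_zero, mul_neg, neg_div]

lemma SV1_fst {A B : Type*} [NormedAddCommGroup A] [NormedSpace ℝ A] [NormedAddCommGroup B]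
    [NormedSpace ℝ B] {w : ℝ → A × B} {w' : A × B} (h : HasDerivAt w w' 0) :
    HasDerivAt (fun t => (w t).1) w'.1 0 := by
  have h1 : HasFDerivAt (fun p : A × B => p.1) (ContinuousLinearMap.fst ℝ A B) (w 0) :=
    hasFDerivAt_fst
  have h2 := h1.comp_hasDerivAt 0 h
  exact h2

lemma SV1_snd {A B : Type*} [NormedAddCommGroup A] [NormedSpace ℝ A] [NormedAddCommGroup B]
    [NormedSpace ℝ B] {w : ℝ → A × B} {w' : A × B} (h : HasDerivAt w w' 0) :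
    HasDerivAt (fun t => (w t).2) w'.2 0 := by
  have h1 : HasFDerivAt (fun p : A × B => p.2) (ContinuousLinearMap.snd ℝ A B) (w 0) :=
    hasFDerivAt_snd
  have h2 := h1.comp_hasDerivAt 0 h
  exact h2

lemma SV1_dot {w : ℝ → R4} {w' : R4} (h : HasDerivAt w w' 0) :
    HasDerivAt (fun t => dot4 (w t) (w t)) (2 * dot4 (w 0) w') 0 := by
  have h1 : HasDerivAt (fun t => (w t).1) w'.1 0 := SV1_fst h
  have h2 : HasDerivAt (fun t => (w t).2) w'.2 0 := SV1_snd h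
  have h3 : HasDerivAt (fun t => (w t).2.1) w'.2.1 0 := SV1_fst h2
  have h4 : HasDerivAt (fun t => (w t).2.2) w'.2.2 0 := SV1_snd h2
  have h5 : HasDerivAt (fun t => (w t).2.2.1) w'.2.2.1 0 := SV1_fst h4
  have h6 : HasDerivAt (fun t => (w t).2.2.2) w'.2.2.2 0 := SV1_snd h4
  have h7 := (((h1.fun_mul h1).fun_add (h3.fun_mul h3)).fun_add (h5.fun_mul h5)).fun_add
    (h6.fun_mul h6)
  refine h7.congr_deriv ?_
  unfold dot4
  ring

/-- tangency to the spheres corresponds to tangency to `|ω| = const`. -/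
lemma Lam_tan : ∀ Z V : Y8, Z.2 ≠ 0 → dot4 (Lam Z).1.2 (fderiv ℝ Lam Z V).1.2 = 0 →
    dot4 Z.1 V.1 + dot4 Z.2 V.2 = 0 := by
  intro Z V hZ h
  have h1 : HasDerivAt (fun t : ℝ => (Lam (Z + t • V)).1.2) (fderiv ℝ Lam Z V).1.2 0 := by
    have h2 : HasDerivAt (fun t : ℝ => (Lam (Z + t • V)).1) (fderiv ℝ Lam Z V).1 0 :=
      SV1_fst (SV1_line0 (V := V) hZ)
    exact SV1_snd h2
  have h3 := SV1_dot h1
  have h4 : HasDerivAt (fun t : ℝ => dot4 (Z + t • V).1 (Z + t • V).1) (2 * dot4 Z.1 V.1) 0 := by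
    have h2 : HasDerivAt (fun t : ℝ => (Z + t • V).1) V.1 0 := by
      simpa using ((hasDerivAt_id (0 : ℝ)).smul_const V.1).const_add Z.1
    simpa using SV1_dot h2
  have h5 : HasDerivAt (fun t : ℝ => dot4 (Z + t • V).2 (Z + t • V).2) (2 * dot4 Z.2 V.2) 0 := by
    have h2 : HasDerivAt (fun t : ℝ => (Z + t • V).2) V.2 0 := by
      simpa using ((hasDerivAt_id (0 : ℝ)).smul_const V.2).const_add Z.2
    simpa using SV1_dot h2
  have h6 := h4.fun_add h5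
  have hc : ContinuousAt (fun t : ℝ => Z + t • V) 0 := by fun_prop
  have h7 : (fun t : ℝ => dot4 (Lam (Z + t • V)).1.2 (Lam (Z + t • V)).1.2) =ᶠ[𝓝 0]
      fun t : ℝ => dot4 (Z + t • V).1 (Z + t • V).1 + dot4 (Z + t • V).2 (Z + t • V).2 := by
    have h8 : ∀ᶠ t : ℝ in 𝓝 0, (Z + t • V) ∈ {Y : Y8 | Y.2 ≠ 0} :=
      hc.eventually_mem (SV1_open.mem_nhds (by simpa using hZ))
    filter_upwards [h8] with t ht
    rw [← SV1_n4_sq, (Lam_maps _ ht).2.1, SV1_nrm_sq]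
  have h9 := h3.unique (h6.congr_of_eventuallyEq h7)
  simp only [zero_smul, add_zero] at h9
  rw [h] at h9
  linarith

end S7Pair
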